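import Pool.Agent.H38R2.Cov

set_option autoImplicit false

namespace Pool.Agent.H38R2

variable {Φ : Type*} [CommRing Φ] {Q : Type*} [Ring Q] [Algebra Φ Q]

theorem mm {A B C D : Submodule Φ Q} (h : A ≤ B) (h' : C ≤ D) : A * C ≤ B * D := mul_le_mul' h h'

theorem mr {A B C : Submodule Φ Q} (h : A ≤ B) : C * A ≤ C * B := mul_le_mul' le_rfl h

theorem ml {A B C : Submodule Φ Q} (h : A ≤ B) : A * C ≤ B * C := mul_le_mul' h le_rfl

theorem pm {A B : Submodule Φ Q} (h : A ≤ B) (n : ℕ) : A ^ n ≤ B ^ n := by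
  induction n with
  | zero => simp
  | succ n ih => rw [pow_succ, pow_succ]; exact mm ih h

/-- the (nonunital) subalgebra generated by a submodule -/
def alg (E : Submodule Φ Q) : Submodule Φ Q := ⨆ n : ℕ, E ^ (n + 1)

theorem pow_le_alg (E : Submodule Φ Q) (n : ℕ) : E ^ (n + 1) ≤ alg E :=
  le_iSup (fun n : ℕ => E ^ (n + 1)) n

theorem le_alg (E : Submodule Φ Q) : E ≤ alg E := by
  simpa using pow_le_alg E 0

theorem alg_le {E S : Submodule Φ Q} (h1 : E ≤ S) (h2 : E * S ≤ S) : alg E ≤ S := by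
  refine iSup_le fun n => ?_
  induction n with
  | zero => simpa using h1
  | succ n ih =>
    rw [pow_succ']
    exact (mr ih).trans h2

theorem alg_le' {E S : Submodule Φ Q} (h1 : E ≤ S) (h2 : S * E ≤ S) : alg E ≤ S := by
  refine iSup_le fun n => ?_
  induction n with
  | zero => simpa using h1
  | succ n ih =>
    rw [pow_succ]
    exact (ml ih).trans h2

theorem alg_mono {E E' : Submodule Φ Q} (h : E ≤ E') : alg E ≤ alg E' := by
  refine iSup_le fun n => ?_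
  exact le_trans (pm h (n + 1)) (pow_le_alg E' n)

theorem mul_alg_le (E : Submodule Φ Q) : E * alg E ≤ alg E := by
  unfold alg
  rw [Submodule.mul_iSup]
  refine iSup_le fun n => ?_
  rw [← pow_succ']
  exact le_iSup (fun n : ℕ => E ^ (n + 1)) (n + 1)

theorem alg_mul_le (E : Submodule Φ Q) : alg E * E ≤ alg E := by
  unfold alg
  rw [Submodule.iSup_mul]
  refine iSup_le fun n => ?_
  rw [← pow_succ]
  exact le_iSup (fun n : ℕ => E ^ (n + 1)) (n + 1)

theorem alg_mul_of_mul_le {E W : Submodule Φ Q} (h : E * W ≤ W) : alg E * W ≤ W := by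
  unfold alg
  rw [Submodule.iSup_mul]
  refine iSup_le fun n => ?_
  induction n with
  | zero => simpa using h
  | succ n ih =>
    rw [pow_succ, mul_assoc]
    exact (mr h).trans ih

theorem mul_alg_of_mul_le {E W : Submodule Φ Q} (h : W * E ≤ W) : W * alg E ≤ W := by
  unfold alg
  rw [Submodule.mul_iSup]
  refine iSup_le fun n => ?_
  induction n with
  | zero => simpa using h
  | succ n ih =>
    rw [pow_succ', ← mul_assoc]
    exact (ml h).trans ih

theorem alg_mul_alg (E : Submodule Φ Q) : alg E * alg E ≤ alg E :=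
  alg_mul_of_mul_le (mul_alg_le E)

/-- one-sided shrinking lemma -/
theorem shrink_left {P I V : Submodule Φ Q} (hPP : P * P ≤ P) (hIV : I * V ≤ V)
    (hIP : Cov I P) (hVP : Cov V P) :
    ∃ V' : Submodule Φ Q, V' ≤ V ∧ V' ≤ P ∧ P * V' ≤ V' ∧ Cov V' P ∧
      (∀ W : Submodule Φ Q, W ≤ V → W ≤ P → P * W ≤ W → W ≤ V') ∧
      (∀ J : Submodule Φ Q, J ≤ P → V * J ≤ V → V' * J ≤ V') := by
  let V' : Submodule Φ Q :=
    { carrier := {p | p ∈ V ∧ p ∈ P ∧ ∀ q ∈ P, q * p ∈ V}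
      add_mem' := by
        rintro a b ⟨ha, ha1, ha2⟩ ⟨hb, hb1, hb2⟩
        refine ⟨V.add_mem ha hb, P.add_mem ha1 hb1, fun q hq => ?_⟩
        rw [mul_add]; exact V.add_mem (ha2 q hq) (hb2 q hq)
      zero_mem' := ⟨V.zero_mem, P.zero_mem, fun q _ => by rw [mul_zero]; exact V.zero_mem⟩
      smul_mem' := by
        rintro c x ⟨hx, hx1, hx2⟩
        refine ⟨V.smul_mem _ hx, P.smul_mem _ hx1, fun q hq => ?_⟩
        rw [mul_smul_comm]; exact V.smul_mem _ (hx2 q hq) }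
  have hV' : ∀ p, p ∈ V' ↔ (p ∈ V ∧ p ∈ P ∧ ∀ q ∈ P, q * p ∈ V) := fun p => Iff.rfl
  refine ⟨V', fun p hp => hp.1, fun p hp => hp.2.1, ?_, ?_, ?_, ?_⟩
  · rw [Submodule.mul_le]
    intro q hq p hp
    rw [hV'] at hp ⊢
    refine ⟨hp.2.2 q hq, hPP (Submodule.mul_mem_mul hq hp.2.1), fun r hr => ?_⟩
    rw [← mul_assoc]
    exact hp.2.2 _ (hPP (Submodule.mul_mem_mul hr hq))
  · obtain ⟨s, hs1, hs2⟩ := hIP.reps
    have h1 : Cov (V ⊓ P ⊓ ⨅ i ∈ s, V.comap (LinearMap.mulLeft Φ i)) P := by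
      refine (hVP.inf (Cov.refl P)).inf (Cov.biInf s _ _ fun i hi => ?_)
      refine hVP.comap _ fun v hv => ?_
      exact hPP (Submodule.mul_mem_mul (hs1 i hi) hv)
    refine h1.mono_left fun p hp => ?_
    rw [Submodule.mem_inf, Submodule.mem_inf] at hp
    obtain ⟨⟨hp1, hp2⟩, hp3⟩ := hp
    rw [hV']
    refine ⟨hp1, hp2, fun q hq => ?_⟩
    obtain ⟨x, hx, hqx⟩ := hs2 q hq
    have e : q * p = x * p + (q - x) * p := by rw [sub_mul]; abel
    rw [e]
    refine V.add_mem ?_ (hIV (Submodule.mul_mem_mul hqx hp1))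
    have := (Submodule.mem_iInf _).1 ((Submodule.mem_iInf _).1 hp3 x) hx
    simpa using this
  · intro W hWV hWP hPW p hp
    rw [hV']
    exact ⟨hWV hp, hWP hp, fun q hq => hWV (hPW (Submodule.mul_mem_mul hq hp))⟩
  · intro J hJP hVJ
    rw [Submodule.mul_le]
    intro p hp j hj
    rw [hV'] at hp ⊢
    refine ⟨hVJ (Submodule.mul_mem_mul hp.1 hj), hPP (Submodule.mul_mem_mul hp.2.1 (hJP hj)),
      fun q hq => ?_⟩
    rw [← mul_assoc]
    exact hVJ (Submodule.mul_mem_mul (hp.2.2 q hq) hj)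

theorem shrink_right {P I V : Submodule Φ Q} (hPP : P * P ≤ P) (hIV : V * I ≤ V)
    (hIP : Cov I P) (hVP : Cov V P) :
    ∃ V' : Submodule Φ Q, V' ≤ V ∧ V' ≤ P ∧ V' * P ≤ V' ∧ Cov V' P ∧
      (∀ W : Submodule Φ Q, W ≤ V → W ≤ P → W * P ≤ W → W ≤ V') ∧
      (∀ J : Submodule Φ Q, J ≤ P → J * V ≤ V → J * V' ≤ V') := by
  let V' : Submodule Φ Q :=
    { carrier := {p | p ∈ V ∧ p ∈ P ∧ ∀ q ∈ P, p * q ∈ V}
      add_mem' := by
        rintro a b ⟨ha, ha1, ha2⟩ ⟨hb, hb1, hb2⟩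
        refine ⟨V.add_mem ha hb, P.add_mem ha1 hb1, fun q hq => ?_⟩
        rw [add_mul]; exact V.add_mem (ha2 q hq) (hb2 q hq)
      zero_mem' := ⟨V.zero_mem, P.zero_mem, fun q _ => by rw [zero_mul]; exact V.zero_mem⟩
      smul_mem' := by
        rintro c x ⟨hx, hx1, hx2⟩
        refine ⟨V.smul_mem _ hx, P.smul_mem _ hx1, fun q hq => ?_⟩
        rw [smul_mul_assoc]; exact V.smul_mem _ (hx2 q hq) }
  have hV' : ∀ p, p ∈ V' ↔ (p ∈ V ∧ p ∈ P ∧ ∀ q ∈ P, p * q ∈ V) := fun p => Iff.rfl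
  refine ⟨V', fun p hp => hp.1, fun p hp => hp.2.1, ?_, ?_, ?_, ?_⟩
  · rw [Submodule.mul_le]
    intro p hp q hq
    rw [hV'] at hp ⊢
    refine ⟨hp.2.2 q hq, hPP (Submodule.mul_mem_mul hp.2.1 hq), fun r hr => ?_⟩
    rw [mul_assoc]
    exact hp.2.2 _ (hPP (Submodule.mul_mem_mul hq hr))
  · obtain ⟨s, hs1, hs2⟩ := hIP.reps
    have h1 : Cov (V ⊓ P ⊓ ⨅ i ∈ s, V.comap (LinearMap.mulRight Φ i)) P := by
      refine (hVP.inf (Cov.refl P)).inf (Cov.biInf s _ _ fun i hi => ?_)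
      refine hVP.comap _ fun v hv => ?_
      exact hPP (Submodule.mul_mem_mul hv (hs1 i hi))
    refine h1.mono_left fun p hp => ?_
    rw [Submodule.mem_inf, Submodule.mem_inf] at hp
    obtain ⟨⟨hp1, hp2⟩, hp3⟩ := hp
    rw [hV']
    refine ⟨hp1, hp2, fun q hq => ?_⟩
    obtain ⟨x, hx, hqx⟩ := hs2 q hq
    have e : p * q = p * x + p * (q - x) := by rw [mul_sub]; abel
    rw [e]
    refine V.add_mem ?_ (hIV (Submodule.mul_mem_mul hp1 hqx))
    have := (Submodule.mem_iInf _).1 ((Submodule.mem_iInf _).1 hp3 x) hx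
    simpa using this
  · intro W hWV hWP hPW p hp
    rw [hV']
    exact ⟨hWV hp, hWP hp, fun q hq => hWV (hPW (Submodule.mul_mem_mul hp hq))⟩
  · intro J hJP hVJ
    rw [Submodule.mul_le]
    intro j hj p hp
    rw [hV'] at hp ⊢
    refine ⟨hVJ (Submodule.mul_mem_mul hj hp.1), hPP (Submodule.mul_mem_mul (hJP hj) hp.2.1),
      fun q hq => ?_⟩
    rw [mul_assoc]
    exact hVJ (Submodule.mul_mem_mul hj (hp.2.2 q hq))

/-- (FI) a two-sided ideal `V` of a finite index ideal `I` of `P`, of finite index in `I`,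
contains a finite index ideal of `P`. -/
theorem shrink {P I V : Submodule Φ Q} (hPP : P * P ≤ P) (hIP : I ≤ P)
    (hVI : V ≤ I) (hIV : I * V ≤ V) (hVI' : V * I ≤ V)
    (h1 : Cov I P) (h2 : Cov V I) :
    ∃ V' : Submodule Φ Q, V' ≤ V ∧ P * V' ≤ V' ∧ V' * P ≤ V' ∧ Cov V' P ∧
      (∀ W : Submodule Φ Q, W ≤ V → P * W ≤ W → W * P ≤ W → W ≤ V') := by
  obtain ⟨V1, ha, hb, hc, hd, he, hf⟩ := shrink_left hPP hIV h1 (h2.trans h1)
  obtain ⟨V2, ha', hb', hc', hd', he', hf'⟩ := shrink_right hPP (hf I hIP hVI') h1 hd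
  refine ⟨V2, ha'.trans ha, hf' P le_rfl hc, hc', hd', fun W hW hPW hWP => ?_⟩
  have hWP' : W ≤ P := hW.trans (hVI.trans hIP)
  exact he' W (he W hW hWP' hPW) hWP' hWP

/-- (FG) a finite index ideal of a finitely generated algebra is a finitely generated algebra -/
theorem fg_of_cov [IsNoetherianRing Φ] {E I : Submodule Φ Q} (hE : E.FG) (hI : I ≤ alg E)
    (hEI : alg E * I ≤ I) (hIE : I * alg E ≤ I) (hcov : Cov I (alg E)) :
    ∃ E' : Submodule Φ Q, E'.FG ∧ I = alg E' := by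
  obtain ⟨T, hT, hTP, hPT⟩ := hcov.fg_sup
  set P := alg E with hP
  have hPP : P * P ≤ P := alg_mul_alg E
  set U : Submodule Φ Q := E ⊔ T with hU
  have hUfg : U.FG := hE.sup hT
  have hUP : U ≤ P := sup_le (le_alg E) hTP
  have hPU : P ≤ U ⊔ I := hPT.trans (sup_le_sup_right le_sup_right I)
  set H : Submodule Φ Q := I ⊓ (U ⊔ U * U) with hH
  have hHfg : H.FG := Submodule.FG.of_le (hUfg.sup (hUfg.mul hUfg)) inf_le_right
  have hHI : H ≤ I := inf_le_left
  have h1fg : (1 : Submodule Φ Q).FG := by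
    rw [Submodule.one_eq_span]; exact Submodule.fg_span_singleton 1
  set H' : Submodule Φ Q := (1 ⊔ U) * H * (1 ⊔ U) with hH'
  have hH'fg : H'.FG := ((h1fg.sup hUfg).mul hHfg).mul (h1fg.sup hUfg)
  have hPI : P * I ≤ I := hEI
  have hIP : I * P ≤ I := hIE
  have h1UI : (1 ⊔ U) * I ≤ I := by
    rw [Submodule.sup_mul, one_mul]
    exact sup_le le_rfl ((ml hUP).trans hPI)
  have hI1U : I * (1 ⊔ U) ≤ I := by
    rw [Submodule.mul_sup, mul_one]
    exact sup_le le_rfl ((mr hUP).trans hIP)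
  have hH'I : H' ≤ I :=
    (ml ((mr hHI).trans h1UI)).trans hI1U
  have h1le : (1 : Submodule Φ Q) ≤ 1 ⊔ U := le_sup_left
  have hHH' : H ≤ H' := by
    calc H = 1 * H * 1 := by rw [one_mul, mul_one]
      _ ≤ H' := mm (mm h1le le_rfl) h1le
  have hHUH' : H * (1 ⊔ U) ≤ H' := by
    calc H * (1 ⊔ U) = 1 * H * (1 ⊔ U) := by rw [one_mul]
      _ ≤ H' := ml (ml h1le)
  have hUU : U * U ≤ U ⊔ H := by
    intro x hx
    have hxP : x ∈ P := hPP (mm hUP hUP hx)
    obtain ⟨u, hu, i, hi, rfl⟩ := Submodule.mem_sup.1 (hPU hxP)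
    refine Submodule.add_mem_sup hu ⟨hi, ?_⟩
    have : i = -u + (u + i) := by abel
    rw [this]
    exact Submodule.add_mem_sup (U.neg_mem hu) hx
  set S := alg H' with hS
  have hSI : S ≤ I := alg_le hH'I
    ((ml (hH'I.trans hI)).trans hPI)
  have hUH' : U * H' ≤ S := by
    have : U * H' = (U * (1 ⊔ U)) * (H * (1 ⊔ U)) := by
      rw [hH']; simp only [mul_assoc]
    rw [this, Submodule.mul_sup, mul_one]
    refine (ml (sup_le_sup_left hUU U)).trans ?_
    rw [← sup_assoc, sup_idem, Submodule.sup_mul]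
    refine sup_le ?_ ?_
    · refine le_trans ?_ (le_alg H')
      calc U * (H * (1 ⊔ U)) ≤ (1 ⊔ U) * (H * (1 ⊔ U)) :=
            ml le_sup_right
        _ = H' := by rw [hH', mul_assoc]
    · calc H * (H * (1 ⊔ U)) ≤ H' * H' := mm hHH' hHUH'
        _ = H' ^ (1 + 1) := by rw [pow_succ, pow_one]
        _ ≤ S := pow_le_alg H' 1
  have hUS : U * S ≤ S := by
    rw [hS]
    conv_lhs => unfold alg
    rw [Submodule.mul_iSup]
    refine iSup_le fun n => ?_
    rw [pow_succ', ← mul_assoc]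
    refine (ml hUH').trans ?_
    rcases n with _ | n
    · rw [pow_zero, mul_one]
    · exact (mr (pow_le_alg H' n)).trans (alg_mul_alg H')
  have hPS : P ≤ S ⊔ U := by
    refine alg_le (le_sup_left.trans le_sup_right) ?_
    rw [Submodule.mul_sup]
    have hEU : E ≤ U := le_sup_left
    refine sup_le ?_ ?_
    · exact (ml hEU).trans (hUS.trans le_sup_left)
    · refine (ml hEU).trans (hUU.trans ?_)
      exact sup_le le_sup_right ((hHH'.trans (le_alg H')).trans le_sup_left)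
  refine ⟨H', hH'fg, le_antisymm ?_ hSI⟩
  intro x hx
  obtain ⟨s, hs, u, hu, rfl⟩ := Submodule.mem_sup.1 (hPS (hI hx))
  refine S.add_mem hs (le_alg H' (hHH' ⟨?_, Submodule.mem_sup_left hu⟩))
  have : u = (s + u) - s := by abel
  rw [this]
  exact I.sub_mem hx (hSI hs)

end Pool.Agent.H38R2
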