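import Pool.Agent.H38R2.Alg

set_option autoImplicit false
set_option linter.style.haveILetI false

namespace Pool.Agent.H38R2

variable {Φ : Type*} [CommRing Φ] {Q : Type*} [Ring Q] [Algebra Φ Q]

/-- multilinear identity on `A` -/
def PIon (d : ℕ) (c : Equiv.Perm (Fin d) → Φ) (A : Submodule Φ Q) : Prop :=
  ∀ x : Fin d → Q, (∀ i, x i ∈ A) →
    ∑ σ : Equiv.Perm (Fin d), c σ • (List.ofFn (fun i => x (σ i))).prod = 0

theorem prod_mem_of_adj {I : Submodule Φ Q} (hl : ∀ x : Q, ∀ w ∈ I, x * w ∈ I)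
    (hr : ∀ x : Q, ∀ w ∈ I, w * x ∈ I) : ∀ (n : ℕ) (f : Fin (n + 1) → Q) (j : Fin n),
    f j.castSucc * f j.succ ∈ I → (List.ofFn f).prod ∈ I := by
  intro n
  induction n with
  | zero => intro f j; exact j.elim0
  | succ n ih =>
    intro f j h
    rw [List.ofFn_succ, List.prod_cons]
    rcases Fin.eq_zero_or_eq_succ j with rfl | ⟨j', rfl⟩
    · rw [List.ofFn_succ, List.prod_cons, ← mul_assoc]
      exact hr _ _ h
    · exact hl _ _ (ih (fun i => f i.succ) j' (by simpa using h))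

theorem exists_descent {n : ℕ} (σ : Equiv.Perm (Fin (n + 1))) (hσ : σ ≠ 1) :
    ∃ j : Fin n, σ j.succ < σ j.castSucc := by
  by_contra hcon
  push Not at hcon
  have hmono : StrictMono σ := by
    rw [Fin.strictMono_iff_lt_succ]
    intro i
    refine lt_of_le_of_ne (hcon i) ?_
    intro h
    have := σ.injective h
    exact absurd this (Fin.castSucc_lt_succ (i := i)).ne
  apply hσ
  apply Equiv.ext
  intro i
  have h1 : (σ : Fin (n + 1) → Fin (n + 1)) = id :=
    (StrictMono.range_inj hmono strictMono_id).1 (by rw [σ.surjective.range_eq, Set.range_id])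
  exact congrFun h1 i

theorem prod_le {d : ℕ} : ∀ (B : Fin d → Submodule Φ Q) (I : Submodule Φ Q),
    (∀ x : Fin d → Q, (∀ i, x i ∈ B i) → (List.ofFn x).prod ∈ I) → (List.ofFn B).prod ≤ I := by
  induction d with
  | zero =>
    intro B I h
    have h1 := h (fun i => i.elim0) (fun i => i.elim0)
    simp only [List.ofFn_zero, List.prod_nil] at h1 ⊢
    rw [Submodule.one_le]; exact h1
  | succ d ih =>
    intro B I h
    rw [List.ofFn_succ, List.prod_cons, Submodule.mul_le]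
    intro b hb y hy
    have h1 := ih (fun i => B i.succ) (I.comap (LinearMap.mulLeft Φ b)) (by
      intro x hx
      rw [Submodule.mem_comap, LinearMap.mulLeft_apply]
      have h2 := h (Fin.cons b x) (by
        intro i
        refine Fin.cases ?_ (fun i => ?_) i
        · exact hb
        · exact hx i)
      rw [List.ofFn_succ, List.prod_cons] at h2
      simpa using h2)
    exact h1 hy

theorem amitsur_step {d : ℕ} {c : Equiv.Perm (Fin d) → Φ} (hc : c 1 = 1) {A : Submodule Φ Q}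
    (hPI : PIon d c A) (hA' : A * ⊤ ≤ A) {V : Submodule Φ Q} (hV : V ≤ A)
    {j : ℕ} (hj : d ≤ j) :
    (⊤ * V ^ j * ⊤) ^ (d + 1) ≤ ⊤ * V ^ (j + 1) * ⊤ := by
  have htt : (⊤ : Submodule Φ Q) * ⊤ ≤ ⊤ := le_top
  set I := ⊤ * V ^ (j + 1) * ⊤ with hI
  have hIl : ∀ x : Q, ∀ w ∈ I, x * w ∈ I := by
    intro x w hw
    have h1 : (⊤ : Submodule Φ Q) * I ≤ I := by
      rw [hI, ← mul_assoc, ← mul_assoc]; exact ml (ml le_top)
    exact h1 (Submodule.mul_mem_mul trivial hw)
  have hIr : ∀ x : Q, ∀ w ∈ I, w * x ∈ I := by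
    intro x w hw
    have h1 : I * (⊤ : Submodule Φ Q) ≤ I := by
      rw [hI, mul_assoc]; exact mr le_top
    exact h1 (Submodule.mul_mem_mul hw trivial)
  let B : ℕ → Submodule Φ Q := fun i => V ^ (j - i) * ⊤ * V ^ i
  have hVA : ∀ k : ℕ, V ^ (k + 1) ≤ A := by
    intro k
    induction k with
    | zero => simpa using hV
    | succ k ih => rw [pow_succ]; exact (mm ih le_top).trans hA'
  have hBA : ∀ i, i < d → B i ≤ A := by
    intro i hi
    obtain ⟨k, hk⟩ : ∃ k, j - i = k + 1 := ⟨j - i - 1, by omega⟩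
    show V ^ (j - i) * ⊤ * V ^ i ≤ A
    rw [hk, mul_assoc]
    exact (mm (hVA k) le_top).trans hA'
  have hBB : ∀ a b, b < a → a ≤ j → B a * B b ≤ I := by
    intro a b hab haj
    show V ^ (j - a) * ⊤ * V ^ a * (V ^ (j - b) * ⊤ * V ^ b) ≤ ⊤ * V ^ (j + 1) * ⊤
    have e : V ^ a * V ^ (j - b) = V ^ (j + 1) * V ^ (a - b - 1) := by
      rw [← pow_add, ← pow_add]; congr 1; omega
    have e2 : V ^ (j - a) * ⊤ * V ^ a * (V ^ (j - b) * ⊤ * V ^ b) =
        (V ^ (j - a) * ⊤) * V ^ (j + 1) * (V ^ (a - b - 1) * (⊤ * V ^ b)) := by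
      calc V ^ (j - a) * ⊤ * V ^ a * (V ^ (j - b) * ⊤ * V ^ b) =
            (V ^ (j - a) * ⊤) * (V ^ a * V ^ (j - b)) * (⊤ * V ^ b) := by simp only [mul_assoc]
        _ = _ := by rw [e]; simp only [mul_assoc]
    rw [e2]
    exact mm (mm le_top le_rfl) le_top
  have hprod : (List.ofFn (fun i : Fin d => B i)).prod ≤ I := by
    apply prod_le
    intro x hx
    have h1 := hPI x (fun i => hBA i i.2 (hx i))
    rw [← Finset.add_sum_erase _ _ (Finset.mem_univ (1 : Equiv.Perm (Fin d))), hc, one_smul] at h1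
    have h2 : ∑ σ ∈ Finset.univ.erase (1 : Equiv.Perm (Fin d)),
        c σ • (List.ofFn (fun i => x (σ i))).prod ∈ I := by
      apply Submodule.sum_mem
      intro σ hσ
      apply Submodule.smul_mem
      have hσ1 : σ ≠ 1 := (Finset.mem_erase.1 hσ).1
      rcases d with _ | d
      · exact absurd (Subsingleton.elim σ 1) hσ1
      · obtain ⟨p, hp⟩ := exists_descent σ hσ1
        apply prod_mem_of_adj hIl hIr d _ p
        apply hBB _ _ (show ((σ p.succ : Fin (d + 1)) : ℕ) < (σ p.castSucc : Fin (d + 1)) from hp)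
          (by have := (σ p.castSucc).2; omega)
        exact Submodule.mul_mem_mul (hx _) (hx _)
    have h3 : (List.ofFn (fun i => x ((1 : Equiv.Perm (Fin d)) i))).prod ∈ I := by
      have := (Submodule.add_mem_iff_left I h2).1 (by rw [h1]; exact I.zero_mem)
      exact this
    exact h3
  -- powers of J
  have hpow : ∀ r, r ≤ d → (⊤ * V ^ j * ⊤) ^ (r + 1) ≤
      ⊤ * (List.ofFn (fun i : Fin r => B i)).prod * V ^ (j - r) * ⊤ := by
    intro r
    induction r with
    | zero => intro _; simp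
    | succ r ih =>
      intro hr
      rw [pow_succ]
      refine (ml (ih (by omega))).trans ?_
      have e1 : V ^ j = V ^ r * V ^ (j - r) := by
        rw [← pow_add]; congr 1; omega
      have e2 : V ^ (j - r) = V ^ (j - (r + 1)) * V := by
        rw [← pow_succ]; congr 1; omega
      have e3 : (List.ofFn (fun i : Fin (r + 1) => B i)).prod =
          (List.ofFn (fun i : Fin r => B i)).prod * (V ^ (j - r) * ⊤ * V ^ r) := by
        rw [List.ofFn_succ', List.concat_eq_append, List.prod_append, List.prod_singleton]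
        rfl
      rw [e3]
      calc ⊤ * (List.ofFn (fun i : Fin r => B i)).prod * V ^ (j - r) * ⊤ * (⊤ * V ^ j * ⊤)
          = ⊤ * (List.ofFn (fun i : Fin r => B i)).prod * V ^ (j - r) * (⊤ * ⊤) *
            (V ^ r * V ^ (j - r)) * ⊤ := by rw [← e1]; simp only [mul_assoc]
        _ ≤ ⊤ * (List.ofFn (fun i : Fin r => B i)).prod * V ^ (j - r) * ⊤ *
            (V ^ r * V ^ (j - r)) * ⊤ := ml (ml (mr htt))
        _ = ⊤ * ((List.ofFn (fun i : Fin r => B i)).prod * (V ^ (j - r) * ⊤ * V ^ r)) *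
            V ^ (j - (r + 1)) * (V * ⊤) := by
            conv_lhs => rw [show V ^ r * V ^ (j - r) = V ^ r * (V ^ (j - (r + 1)) * V) by rw [← e2]]
            simp only [mul_assoc]
        _ ≤ _ := mr le_top
  refine (hpow d le_rfl).trans ?_
  rw [mul_assoc (⊤ * (List.ofFn (fun i : Fin d => B i)).prod)]
  refine (mm (mr hprod) (le_top : V ^ (j - d) * ⊤ ≤ ⊤)).trans ?_
  rw [hI]
  calc ⊤ * (⊤ * V ^ (j + 1) * ⊤) * ⊤ = (⊤ * ⊤) * V ^ (j + 1) * (⊤ * ⊤) := by
        simp only [mul_assoc]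
    _ ≤ _ := mm (ml htt) htt

theorem amitsur {d : ℕ} {c : Equiv.Perm (Fin d) → Φ} (hc : c 1 = 1) {A : Submodule Φ Q}
    (hPI : PIon d c A) (hA' : A * ⊤ ≤ A) {V : Submodule Φ Q} (hV : V ≤ A)
    (K : ℕ) (hK : V ^ K ≤ ⊥) : ∃ m : ℕ, (⊤ * V ^ (d + 1) * ⊤) ^ m ≤ ⊥ := by
  have h1 : ∀ r : ℕ, (⊤ * V ^ (d + 1) * ⊤) ^ ((d + 1) ^ r) ≤ ⊤ * V ^ (d + 1 + r) * ⊤ := by
    intro r
    induction r with
    | zero => simp
    | succ r ih =>
      rw [pow_succ (d + 1) r, pow_mul]
      refine (pm ih (d + 1)).trans ?_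
      exact amitsur_step hc hPI hA' hV (by omega)
  refine ⟨(d + 1) ^ K, (h1 K).trans ?_⟩
  have h2 : V ^ K = ⊥ := le_bot_iff.1 hK
  rw [add_comm, pow_add, h2, Submodule.bot_mul, Submodule.mul_bot, Submodule.bot_mul]

end Pool.Agent.H38R2
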