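import Pool.Agent.H38R2.Small

set_option autoImplicit false
set_option linter.style.haveILetI false

namespace Pool.Agent.H38R2

universe u w

/-- a copy of `Fin n` without algebraic instances -/
def Fx (n : ℕ) : Type := Fin n

instance (n : ℕ) : Finite (Fx n) := inferInstanceAs (Finite (Fin n))

theorem finite_addCommGroup (n : ℕ) : Finite (AddCommGroup (Fx n)) := by
  refine Finite.of_injective (fun s : AddCommGroup (Fx n) =>
    fun (a b : Fx n) => s.add a b) ?_
  intro s t h
  exact AddCommGroup.ext h

variable {Φ : Type w} [CommRing Φ] {Q : Type u} [Ring Q] [Algebra Φ Q]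

theorem finite_ringHom (hQ : ∃ G : Finset Q, Subring.closure (G : Set Q) = ⊤)
    (E : Type*) [Ring E] [Finite E] : Finite (Q →+* E) := by
  obtain ⟨G, hG⟩ := hQ
  refine Finite.of_injective (fun f : Q →+* E => fun g : G => f g) ?_
  intro f g h
  apply RingHom.eq_of_eqOn_set_dense hG
  intro x hx
  exact congrFun h ⟨x, hx⟩

/-- the elements killing all modules with at most `B` elements -/
def JB (Φ : Type w) [CommRing Φ] (Q : Type u) [Ring Q] [Algebra Φ Q] (B : ℕ) :
    Submodule Φ Q where
  carrier := {q | ∀ (W : Type u) [AddCommGroup W] [Module Q W] [Finite W], Nat.card W ≤ B →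
    ∀ w : W, q • w = 0}
  add_mem' := by
    intro a b ha hb W _ _ _ hW w
    rw [add_smul, ha W hW, hb W hW, add_zero]
  zero_mem' := by
    intro W _ _ _ hW w
    rw [zero_smul]
  smul_mem' := by
    intro c a ha W _ _ _ hW w
    rw [Algebra.smul_def, mul_smul, ha W hW, smul_zero]

theorem JB_mul {B : ℕ} {q : Q} (hq : q ∈ JB Φ Q B) (r : Q) : q * r ∈ JB Φ Q B := by
  intro W _ _ _ hW w
  rw [mul_smul, hq W hW]

theorem mul_JB {B : ℕ} {q : Q} (hq : q ∈ JB Φ Q B) (r : Q) : r * q ∈ JB Φ Q B := by
  intro W _ _ _ hW w
  rw [mul_smul, hq W hW, smul_zero]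

theorem cov_of_finite_hom {E : Type*} [AddCommGroup E] [Finite E] (f : Q →+ E)
    (J : Submodule Φ Q) (hJ : ∀ q, f q = 0 → q ∈ J) : Cov J ⊤ := by
  classical
  have : ∀ e : E, ∃ x : Q, (∃ q, f q = e) → f x = e := by
    intro e
    by_cases h : ∃ q, f q = e
    · obtain ⟨q, hq⟩ := h
      exact ⟨q, fun _ => hq⟩
    · exact ⟨0, fun h' => absurd h' h⟩
  choose x hx using this
  haveI := Fintype.ofFinite E
  refine ⟨Finset.univ.image x, fun q _ => ⟨x (f q), Finset.mem_image_of_mem x (Finset.mem_univ _), ?_⟩⟩
  apply hJ
  rw [map_sub, hx (f q) ⟨q, rfl⟩, sub_self]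

theorem cov_JB (hQ : ∃ G : Finset Q, Subring.closure (G : Set Q) = ⊤) (B : ℕ) :
    Cov (JB Φ Q B) ⊤ := by
  classical
  let X : Type u := Σ n : Fin (B + 1), Σ s : AddCommGroup (Fx n), (Q →+* AddMonoid.End (Fx n))
  have hX : Finite X := by
    haveI : ∀ n : Fin (B + 1), Finite (Σ s : AddCommGroup (Fx n), (Q →+* AddMonoid.End (Fx n))) := by
      intro n
      haveI := finite_addCommGroup n
      haveI : ∀ s : AddCommGroup (Fx n), Finite (Q →+* AddMonoid.End (Fx n)) := by
        intro s
        haveI : Finite (AddMonoid.End (Fx n)) :=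
          Finite.of_injective (fun f : AddMonoid.End (Fx n) => (f : Fx n → Fx n))
            DFunLike.coe_injective
        exact finite_ringHom hQ _
      infer_instance
    infer_instance
  let Jx : X → Submodule Φ Q := fun x =>
    { carrier := {q | ∀ r : Q, x.2.2 (r * q) = 0}
      add_mem' := by
        intro a b ha hb r
        rw [mul_add, map_add, ha, hb, add_zero]
      zero_mem' := by
        intro r
        rw [mul_zero, map_zero]
      smul_mem' := by
        intro c a ha r
        rw [Algebra.smul_def, ← mul_assoc]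
        exact ha _ }
  have h1 : Cov (⨅ x, Jx x) ⊤ := by
    apply Cov.iInf
    intro x
    obtain ⟨n, s, f⟩ := x
    haveI : Finite (AddMonoid.End (Fx n)) :=
      Finite.of_injective (fun f : AddMonoid.End (Fx n) => (f : Fx n → Fx n))
        DFunLike.coe_injective
    apply cov_of_finite_hom f.toAddMonoidHom
    intro q hq r
    change f (r * q) = 0
    rw [map_mul]
    have : f q = 0 := hq
    rw [this, mul_zero]
  refine h1.mono_left ?_
  intro q hq W _ _ _ hW w
  rw [Submodule.mem_iInf] at hq
  let n : Fin (B + 1) := ⟨Nat.card W, by omega⟩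
  let e : W ≃ Fx n := Finite.equivFin W
  letI s : AddCommGroup (Fx n) := e.symm.addCommGroup
  let ee : W ≃+ Fx n := e.symm.addEquiv.symm
  let F : Q → AddMonoid.End (Fx n) := fun r =>
    { toFun := fun x => ee (r • ee.symm x)
      map_zero' := by rw [map_zero, smul_zero, map_zero]
      map_add' := fun x y => by rw [map_add, smul_add, map_add] }
  have hF : ∀ r x, F r x = ee (r • ee.symm x) := fun r x => rfl
  let f : Q →+* AddMonoid.End (Fx n) :=
    { toFun := F
      map_one' := by
        apply AddMonoidHom.ext
        intro x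
        change ee ((1 : Q) • ee.symm x) = x
        rw [one_smul, AddEquiv.apply_symm_apply]
      map_mul' := fun a b => by
        apply AddMonoidHom.ext
        intro x
        change ee ((a * b) • ee.symm x) = ee (a • ee.symm (ee (b • ee.symm x)))
        rw [AddEquiv.symm_apply_apply, mul_smul]
      map_zero' := by
        apply AddMonoidHom.ext
        intro x
        change ee ((0 : Q) • ee.symm x) = 0
        rw [zero_smul, map_zero]
      map_add' := fun a b => by
        apply AddMonoidHom.ext
        intro x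
        change ee ((a + b) • ee.symm x) = ee (a • ee.symm x) + ee (b • ee.symm x)
        rw [add_smul, map_add] }
  have h2 : f (1 * q) = 0 := hq ⟨n, s, f⟩ 1
  rw [one_mul] at h2
  have h3 := DFunLike.congr_fun h2 (ee w)
  have h4 : ee (q • w) = 0 := by
    have : f q (ee w) = ee (q • w) := by
      change ee (q • ee.symm (ee w)) = ee (q • w)
      rw [AddEquiv.symm_apply_apply]
    rw [← this]
    exact h3
  exact (map_eq_zero_iff ee ee.injective).1 h4

end Pool.Agent.H38R2
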