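import Pool.Agent.H38R2.NM

set_option autoImplicit false
set_option linter.style.haveILetI false

namespace Pool.Agent.H38R2

open MvPolynomial

section prime

variable {Φ : Type*} [CommRing Φ] [Algebra.FiniteType ℤ Φ]

theorem finite_quot_max' {O : Type*} [CommRing O] [Algebra Φ O] [Algebra.FiniteType Φ O]
    (m : Ideal O) (hm : m.IsMaximal) : Finite (O ⧸ m) := by
  haveI : Algebra.FiniteType ℤ O := Algebra.FiniteType.trans (S := Φ) inferInstance inferInstance
  exact finite_quot_max m hm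

/-- the substitution `x_i ↦ x_i g(x_i)` -/
noncomputable def theta (g : Polynomial Φ) :
    MvPolynomial (Fin 3) Φ →ₐ[Φ] MvPolynomial (Fin 3) Φ :=
  MvPolynomial.aeval (fun i => Polynomial.aeval (X i : MvPolynomial (Fin 3) Φ) (Polynomial.X * g))

omit [Algebra.FiniteType ℤ Φ] in
theorem monic_case1 (b0 b a c : ℕ) (h : b < b0) :
    (finSuccEquiv Φ 2 (X 0 ^ b0 - X 1 ^ a * X 0 ^ b * X 2 ^ c)).Monic := by
  nontriviality Φ
  have h1 : (finSuccEquiv Φ 2) (X 1) = Polynomial.C (X 0) := finSuccEquiv_X_succ (j := 0)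
  have h2 : (finSuccEquiv Φ 2) (X 2) = Polynomial.C (X 1) := finSuccEquiv_X_succ (j := 1)
  rw [map_sub, map_mul, map_mul, map_pow, map_pow, map_pow, map_pow, finSuccEquiv_X_zero, h1, h2]
  apply Polynomial.monic_X_pow_sub
  have e : (Polynomial.C (X 0 : MvPolynomial (Fin 2) Φ) ^ a * Polynomial.X ^ b *
      Polynomial.C (X 1 : MvPolynomial (Fin 2) Φ) ^ c) =
      Polynomial.C (X 0 ^ a * X 1 ^ c) * Polynomial.X ^ b := by
    rw [Polynomial.C_mul, Polynomial.C_pow, Polynomial.C_pow]; ring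
  rw [e]
  exact (Polynomial.degree_C_mul_X_pow_le _ _).trans_lt (by exact_mod_cast h)

theorem exists_monic_prime (𝔔 : Ideal (MvPolynomial (Fin 3) Φ)) [h𝔔 : 𝔔.IsPrime]
    (G : MvPolynomial (Fin 3) Φ) (hG : ∀ g : Polynomial Φ, theta g G ∈ 𝔔) (b0 : ℕ)
    (hb0 : C (G.coeff (Finsupp.single 0 b0)) ∉ 𝔔) :
    ∃ H ∈ 𝔔, (finSuccEquiv Φ 2 H).Monic := by
  classical
  set D := MvPolynomial (Fin 3) Φ ⧸ 𝔔 with hD
  let x : Fin 3 → D := fun i => Ideal.Quotient.mk 𝔔 (X i)
  let χ : (Fin 3 →₀ ℕ) → (Polynomial Φ →* D) := fun m =>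
    ∏ i : Fin 3, (powMonoidHom (m i)).comp (Polynomial.aeval (x i) : Polynomial Φ →ₐ[Φ] D).toMonoidHom
  have hχ : ∀ m g, χ m g = ∏ i : Fin 3, (Polynomial.aeval (x i) g) ^ m i := by
    intro m g
    simp only [χ, MonoidHom.finsetProd_apply]
    rfl
  have hmk : ∀ i (g : Polynomial Φ), Ideal.Quotient.mk 𝔔 (Polynomial.aeval (X i) g) =
      Polynomial.aeval (x i) g := by
    intro i g
    have : Ideal.Quotient.mk 𝔔 (Polynomial.aeval (X i) g) =
      (Ideal.Quotient.mkₐ Φ 𝔔) (Polynomial.aeval (X i) g) := rfl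
    rw [this, ← Polynomial.aeval_algHom_apply]
    rfl
  have hrel : ∀ g : Polynomial Φ, ∑ m ∈ G.support,
      (Ideal.Quotient.mk 𝔔 (C (G.coeff m)) * χ m Polynomial.X) * χ m g = 0 := by
    intro g
    have h1 : Ideal.Quotient.mk 𝔔 (theta g G) = 0 := Ideal.Quotient.eq_zero_iff_mem.2 (hG g)
    rw [← h1]
    conv_rhs => rw [← support_sum_monomial_coeff G]
    rw [map_sum, map_sum]
    refine Finset.sum_congr rfl fun m _ => ?_
    unfold theta
    rw [aeval_monomial, map_mul, Finsupp.prod_fintype _ _ (by simp), map_prod, mul_assoc,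
      ← map_mul, hχ]
    congr 1
    refine Finset.prod_congr rfl fun i _ => ?_
    rw [map_pow, hmk]
  -- all characters
  by_cases hdist : ∀ m ∈ G.support, m ≠ Finsupp.single 0 b0 → χ m ≠ χ (Finsupp.single 0 b0)
  · -- by linear independence
    have hli := linearIndependent_monoidHom (Polynomial Φ) D
    rw [linearIndependent_iff] at hli
    let l : (Polynomial Φ →* D) →₀ D := ∑ m ∈ G.support,
      Finsupp.single (χ m) (Ideal.Quotient.mk 𝔔 (C (G.coeff m)) * χ m Polynomial.X)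
    have hl : Finsupp.linearCombination D (fun f : Polynomial Φ →* D => (f : Polynomial Φ → D)) l
        = 0 := by
      simp only [l, map_sum, Finsupp.linearCombination_single]
      funext g
      rw [Finset.sum_apply]
      simp only [Pi.smul_apply, smul_eq_mul, Pi.zero_apply]
      exact hrel g
    have h0 := hli l hl
    have h1 : l (χ (Finsupp.single 0 b0)) = 0 := by rw [h0]; rfl
    have h2 : l (χ (Finsupp.single 0 b0)) = Ideal.Quotient.mk 𝔔 (C (G.coeff (Finsupp.single 0 b0)))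
        * χ (Finsupp.single 0 b0) Polynomial.X := by
      simp only [l, Finsupp.finsetSum_apply]
      rw [Finset.sum_eq_single (Finsupp.single 0 b0)]
      · rw [Finsupp.single_eq_same]
      · intro m hm hne
        rw [Finsupp.single_eq_of_ne]
        intro h
        exact hdist m hm hne h.symm
      · intro h
        rw [MvPolynomial.notMem_support_iff] at h
        exfalso
        apply hb0
        rw [h, map_zero]
        exact 𝔔.zero_mem
    rw [h2] at h1
    have h3 : Ideal.Quotient.mk 𝔔 (C (G.coeff (Finsupp.single 0 b0))) ≠ 0 := by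
      rw [Ne, Ideal.Quotient.eq_zero_iff_mem]; exact hb0
    have h4 := (mul_eq_zero.1 h1).resolve_left h3
    rw [hχ] at h4
    simp only [Polynomial.aeval_X, Fin.prod_univ_three] at h4
    have h5 : (Finsupp.single (0 : Fin 3) b0) 1 = 0 := by simp
    have h6 : (Finsupp.single (0 : Fin 3) b0) 2 = 0 := by simp
    rw [h5, h6, pow_zero, pow_zero, mul_one, mul_one] at h4
    have h7 : x 0 = 0 := eq_zero_of_pow_eq_zero h4
    refine ⟨X 0, Ideal.Quotient.eq_zero_iff_mem.1 h7, ?_⟩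
    rw [finSuccEquiv_X_zero]
    exact Polynomial.monic_X
  · push Not at hdist
    obtain ⟨m, _, hm, hχm⟩ := hdist
    have hall : ∀ g : Polynomial Φ, (Polynomial.aeval (x 0) g) ^ m 0 * (Polynomial.aeval (x 1) g) ^ m 1
        * (Polynomial.aeval (x 2) g) ^ m 2 = (Polynomial.aeval (x 0) g) ^ b0 := by
      intro g
      have h1 := DFunLike.congr_fun hχm g
      rw [hχ, hχ] at h1
      simp only [Fin.prod_univ_three] at h1
      have h5 : (Finsupp.single (0 : Fin 3) b0) 1 = 0 := by simp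
      have h6 : (Finsupp.single (0 : Fin 3) b0) 2 = 0 := by simp
      rw [h5, h6, pow_zero, pow_zero, mul_one, mul_one] at h1
      simpa using h1
    by_cases hlt : m 0 < b0
    · refine ⟨X 0 ^ b0 - X 1 ^ m 1 * X 0 ^ m 0 * X 2 ^ m 2, ?_, monic_case1 _ _ _ _ hlt⟩
      rw [← Ideal.Quotient.eq_zero_iff_mem, map_sub, sub_eq_zero]
      simp only [map_mul, map_pow]
      have := hall Polynomial.X
      simp only [Polynomial.aeval_X] at this
      change x 0 ^ b0 = x 1 ^ m 1 * x 0 ^ m 0 * x 2 ^ m 2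
      rw [← this, mul_comm (x 0 ^ m 0)]
    · push Not at hlt
      obtain ⟨e, he⟩ := Nat.exists_eq_add_of_le hlt
      obtain ⟨𝔫, h𝔫⟩ := Ideal.exists_maximal D
      haveI : Algebra.FiniteType Φ D := by
        apply Algebra.FiniteType.of_surjective (Ideal.Quotient.mkₐ Φ 𝔔)
        exact Ideal.Quotient.mkₐ_surjective Φ 𝔔
      haveI : Finite (D ⧸ 𝔫) := finite_quot_max' (Φ := Φ) 𝔫 h𝔫
      letI : Field (D ⧸ 𝔫) := Ideal.Quotient.field 𝔫
      letI := Fintype.ofFinite (D ⧸ 𝔫)
      set q := Fintype.card (D ⧸ 𝔫) with hq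
      have hq2 : 1 < q := Fintype.one_lt_card
      let g : Polynomial Φ := Polynomial.X ^ q - Polynomial.X
      have hg : ∀ i, Polynomial.aeval (x i) g = x i ^ q - x i := by
        intro i; simp [g]
      have hmem : ∀ i, Polynomial.aeval (x i) g ∈ 𝔫 := by
        intro i
        rw [hg, ← Ideal.Quotient.eq_zero_iff_mem, map_sub, map_pow, FiniteField.pow_card, sub_self]
      have hzero : Polynomial.aeval (x 0) g = 0 := by
        by_contra hne
        have h1 := hall g
        rw [he, pow_add] at h1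
        have h2 : (Polynomial.aeval (x 0) g) ^ b0 * ((Polynomial.aeval (x 0) g) ^ e *
            (Polynomial.aeval (x 1) g) ^ m 1 * (Polynomial.aeval (x 2) g) ^ m 2) =
            (Polynomial.aeval (x 0) g) ^ b0 * 1 := by
          rw [mul_one]
          refine Eq.trans ?_ h1
          simp only [← mul_assoc]
        have h3 := mul_left_cancel₀ (pow_ne_zero b0 hne) h2
        apply h𝔫.ne_top
        rw [Ideal.eq_top_iff_one, ← h3]
        have hne0 : e ≠ 0 ∨ m 1 ≠ 0 ∨ m 2 ≠ 0 := by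
          by_contra hcon
          push Not at hcon
          apply hm
          ext i
          fin_cases i
          · simp [he, hcon.1]
          · simp [hcon.2.1]
          · simp [hcon.2.2]
        rcases hne0 with h | h | h
        · exact 𝔫.mul_mem_right _ (𝔫.mul_mem_right _ (𝔫.pow_mem_of_mem (hmem 0) _ (Nat.pos_of_ne_zero h)))
        · exact 𝔫.mul_mem_right _ (𝔫.mul_mem_left _ (𝔫.pow_mem_of_mem (hmem 1) _ (Nat.pos_of_ne_zero h)))
        · exact 𝔫.mul_mem_left _ (𝔫.pow_mem_of_mem (hmem 2) _ (Nat.pos_of_ne_zero h))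
      refine ⟨X 0 ^ q - X 0, ?_, ?_⟩
      · rw [← Ideal.Quotient.eq_zero_iff_mem, map_sub, map_pow]
        rw [hg] at hzero
        exact hzero
      · nontriviality Φ
        rw [map_sub, map_pow, finSuccEquiv_X_zero]
        apply Polynomial.monic_X_pow_sub
        rw [Polynomial.degree_X]
        exact_mod_cast hq2

theorem exists_monic (PP : Ideal (MvPolynomial (Fin 3) Φ))
    (h1 : ∀ G ∈ PP, ∀ g : Polynomial Φ, theta g G ∈ PP)
    (h2 : ∀ 𝔭 : Ideal Φ, 𝔭.IsPrime → ∃ G ∈ PP, ∃ b : ℕ, G.coeff (Finsupp.single 0 b) ∉ 𝔭) :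
    ∃ H ∈ PP, (finSuccEquiv Φ 2 H).Monic := by
  classical
  haveI : IsNoetherianRing Φ := Algebra.FiniteType.isNoetherianRing ℤ Φ
  have hfin := Ideal.finite_minimalPrimes_of_isNoetherianRing (MvPolynomial (Fin 3) Φ) PP
  have key : ∀ 𝔔 : PP.minimalPrimes, ∃ H ∈ 𝔔.1, (finSuccEquiv Φ 2 H).Monic := by
    rintro ⟨𝔔, h𝔔⟩
    have hp : 𝔔.IsPrime := h𝔔.1.1
    have hle : PP ≤ 𝔔 := h𝔔.1.2
    obtain ⟨G, hG, b, hb⟩ := h2 (𝔔.comap C) (Ideal.IsPrime.comap C)
    exact exists_monic_prime 𝔔 G (fun g => hle (h1 G hG g)) b hb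
  choose H hH1 hH2 using key
  haveI := hfin.to_subtype
  letI := Fintype.ofFinite PP.minimalPrimes
  have hrad : ∏ 𝔔 : PP.minimalPrimes, H 𝔔 ∈ PP.radical := by
    rw [← Ideal.sInf_minimalPrimes, Submodule.mem_sInf]
    intro 𝔔 h𝔔
    rw [← Finset.mul_prod_erase _ _ (Finset.mem_univ (⟨𝔔, h𝔔⟩ : PP.minimalPrimes))]
    exact Ideal.mul_mem_right _ 𝔔 (hH1 ⟨𝔔, h𝔔⟩)
  obtain ⟨n, hn⟩ := hrad
  refine ⟨_, hn, ?_⟩
  rw [map_pow, map_prod]
  exact (Polynomial.monic_prod_of_monic _ _ fun 𝔔 _ => hH2 𝔔).pow n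

end prime

end Pool.Agent.H38R2
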