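import Pool.Agent.H38R2.Red
import Pool.Agent.H38R2.Monic

set_option autoImplicit false
set_option linter.style.haveILetI false

namespace Pool.Agent.H38R2

open MvPolynomial

variable {Φ : Type*} [CommRing Φ] {Q : Type*} [Ring Q] [Algebra Φ Q]

theorem EE_eq_sum (ξ y ζ : Q) (G : MvPolynomial (Fin 3) Φ) :
    EE ξ y ζ G = ∑ m ∈ G.support, G.coeff m • (y ^ m 1 * ξ * y ^ m 0 * ζ * y ^ m 2) := by
  conv_lhs => rw [← support_sum_monomial_coeff G]
  rw [map_sum]
  simp only [EE_monomial]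

theorem coeff_monic (G : MvPolynomial (Fin 3) Φ) (hG : (finSuccEquiv Φ 2 G).Monic)
    (m : Fin 3 →₀ ℕ) (hm : G.coeff m ≠ 0) (hne : m ≠ Finsupp.single 0 (finSuccEquiv Φ 2 G).natDegree) :
    m 0 < (finSuccEquiv Φ 2 G).natDegree := by
  have h1 : (Finsupp.cons (m 0) (Finsupp.tail m) : Fin 3 →₀ ℕ) = m := Finsupp.cons_tail m
  have h2 := finSuccEquiv_coeff_coeff (Finsupp.tail m) G (m 0)
  rw [h1] at h2
  rcases lt_trichotomy (m 0) (finSuccEquiv Φ 2 G).natDegree with h | h | h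
  · exact h
  · exfalso
    rw [h, hG.coeff_natDegree, MvPolynomial.coeff_one] at h2
    split_ifs at h2 with h3
    · apply hne
      rw [← h1, ← h3, h]
      ext i
      refine Fin.cases ?_ (fun i => ?_) i
      · simp
      · rw [Finsupp.cons_succ]
        simp
    · exact hm h2.symm
  · exfalso
    rw [Polynomial.coeff_eq_zero_of_natDegree_lt h, MvPolynomial.coeff_zero] at h2
    exact hm h2.symm

theorem coeff_monic_one (G : MvPolynomial (Fin 3) Φ) (hG : (finSuccEquiv Φ 2 G).Monic) :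
    G.coeff (Finsupp.single 0 (finSuccEquiv Φ 2 G).natDegree) = 1 := by
  have h2 := finSuccEquiv_coeff_coeff 0 G (finSuccEquiv Φ 2 G).natDegree
  rw [hG.coeff_natDegree, MvPolynomial.coeff_one, if_pos rfl] at h2
  rw [h2]
  congr 1
  ext i
  refine Fin.cases ?_ (fun i => ?_) i
  · simp
  · rw [Finsupp.cons_succ]
    simp

theorem powl {W : Submodule Φ Q} {y : Q} (h : ∀ w ∈ W, y * w ∈ W) (n : ℕ) :
    ∀ w ∈ W, y ^ n * w ∈ W := by
  induction n with
  | zero => intro w hw; rw [pow_zero, one_mul]; exact hw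
  | succ n ih => intro w hw; rw [pow_succ, mul_assoc]; exact ih _ (h w hw)

theorem powr {W : Submodule Φ Q} {y : Q} (h : ∀ w ∈ W, w * y ∈ W) (n : ℕ) :
    ∀ w ∈ W, w * y ^ n ∈ W := by
  induction n with
  | zero => intro w hw; rw [pow_zero, mul_one]; exact hw
  | succ n ih => intro w hw; rw [pow_succ', ← mul_assoc]; exact ih _ (h w hw)

theorem app1 {W : Submodule Φ Q} {ξ y ζ : Q} (ly : ∀ w ∈ W, y * w ∈ W) (ry : ∀ w ∈ W, w * y ∈ W)
    (G : MvPolynomial (Fin 3) Φ) (hG : (finSuccEquiv Φ 2 G).Monic)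
    (hEE : EE ξ y ζ G ∈ W)
    (hlow : ∀ b < (finSuccEquiv Φ 2 G).natDegree, ξ * y ^ b * ζ ∈ W) :
    ξ * y ^ (finSuccEquiv Φ 2 G).natDegree * ζ ∈ W := by
  classical
  rcases subsingleton_or_nontrivial Φ with hΦ | hΦ
  · haveI : Subsingleton Q := Module.subsingleton Φ Q
    rw [Subsingleton.elim (ξ * y ^ (finSuccEquiv Φ 2 G).natDegree * ζ) 0]
    exact W.zero_mem
  set n := (finSuccEquiv Φ 2 G).natDegree with hn
  rw [EE_eq_sum] at hEE
  have hmem : Finsupp.single 0 n ∈ G.support := by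
    rw [mem_support_iff, coeff_monic_one G hG]; exact one_ne_zero
  rw [← Finset.add_sum_erase _ _ hmem, coeff_monic_one G hG, one_smul] at hEE
  have h2 : ∑ m ∈ G.support.erase (Finsupp.single 0 n),
      G.coeff m • (y ^ m 1 * ξ * y ^ m 0 * ζ * y ^ m 2) ∈ W := by
    apply W.sum_mem
    intro m hm
    rw [Finset.mem_erase, mem_support_iff] at hm
    have h3 := coeff_monic G hG m hm.2 hm.1
    have h4 := powr ry (m 2) _ (powl ly (m 1) _ (hlow (m 0) h3))
    apply W.smul_mem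
    have e : y ^ m 1 * ξ * y ^ m 0 * ζ * y ^ m 2 = y ^ m 1 * (ξ * y ^ m 0 * ζ) * y ^ m 2 := by
      simp only [mul_assoc]
    rw [e]; exact h4
  have h3 := (Submodule.add_mem_iff_left W h2).1 hEE
  have e1 : (Finsupp.single (0 : Fin 3) n) 1 = 0 := by simp
  have e2 : (Finsupp.single (0 : Fin 3) n) 2 = 0 := by simp
  have e3 : (Finsupp.single (0 : Fin 3) n) 0 = n := by simp
  rw [e1, e2, e3, pow_zero, one_mul, mul_one] at h3
  exact h3

/-- the polynomial `G(0, μ, 0)` -/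
noncomputable def g0 (G : MvPolynomial (Fin 3) Φ) : Polynomial Φ :=
  (finSuccEquiv Φ 2 G).map constantCoeff

theorem g0_monic (G : MvPolynomial (Fin 3) Φ) (hG : (finSuccEquiv Φ 2 G).Monic) :
    (g0 G).Monic := hG.map _

theorem g0_monomial (m : Fin 3 →₀ ℕ) (c : Φ) : g0 (monomial m c) =
    Polynomial.C c * (Polynomial.X ^ m 0 * (0 ^ m 1 * 0 ^ m 2)) := by
  have h : g0 (monomial m c) = (MvPolynomial.aeval ![Polynomial.X, 0, 0] :
      MvPolynomial (Fin 3) Φ →ₐ[Φ] Polynomial Φ) (monomial m c) := by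
    have h1 : ((Polynomial.mapRingHom (constantCoeff : MvPolynomial (Fin 2) Φ →+* Φ)).comp
        (finSuccEquiv Φ 2).toAlgHom.toRingHom) =
        (MvPolynomial.aeval ![Polynomial.X, 0, 0] :
          MvPolynomial (Fin 3) Φ →ₐ[Φ] Polynomial Φ).toRingHom := by
      apply MvPolynomial.ringHom_ext
      · intro r
        simp [finSuccEquiv_apply]
      · intro i
        refine Fin.cases ?_ (fun i => ?_) i
        · have h3 : (finSuccEquiv Φ 2) (X 0) = Polynomial.X := finSuccEquiv_X_zero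
          have h4 : Polynomial.map constantCoeff ((finSuccEquiv Φ 2) (X 0)) = Polynomial.X := by
            rw [h3, Polynomial.map_X]
          simpa using h4
        · simp only [RingHom.comp_apply]
          have h2 : (finSuccEquiv Φ 2).toAlgHom.toRingHom (X i.succ) =
            Polynomial.C (X i) := finSuccEquiv_X_succ
          rw [h2]
          fin_cases i <;> simp
    exact RingHom.congr_fun h1 (monomial m c)
  rw [h, aeval_monomial, Finsupp.prod_fintype _ _ (by simp), Fin.prod_univ_three]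
  simp only [Matrix.cons_val_zero, Matrix.cons_val_one, Matrix.cons_val]
  rw [mul_assoc]
  rfl

theorem g0_add (G G' : MvPolynomial (Fin 3) Φ) : g0 (G + G') = g0 G + g0 G' := by
  simp [g0, Polynomial.map_add]

theorem app2 {W : Submodule Φ Q} {ξ y ζ : Q} (ry : ∀ w ∈ W, w * y ∈ W)
    (hl : ∀ a b : ℕ, y ^ (a + 1) * ξ * y ^ b * ζ ∈ W)
    (hr : ∀ b c : ℕ, ξ * y ^ b * ζ * y ^ (c + 1) ∈ W)
    (G : MvPolynomial (Fin 3) Φ) (hEE : EE ξ y ζ G ∈ W) :
    ξ * Polynomial.aeval y (g0 G) * ζ ∈ W := by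
  classical
  have key : ∀ G : MvPolynomial (Fin 3) Φ,
      EE ξ y ζ G - ξ * Polynomial.aeval y (g0 G) * ζ ∈ W := by
    intro G
    induction G using MvPolynomial.induction_on' with
    | monomial m c =>
      rw [EE_monomial, g0_monomial]
      by_cases h1 : m 1 = 0
      · by_cases h2 : m 2 = 0
        · rw [h1, h2]
          simp only [pow_zero, mul_one, one_mul, map_mul, map_pow, Polynomial.aeval_X,
            Polynomial.aeval_C]
          have e : ξ * (algebraMap Φ Q c * y ^ m 0) * ζ = c • (ξ * y ^ m 0 * ζ) := by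
            rw [Algebra.smul_def, ← mul_assoc ξ, ← Algebra.commutes]
            simp only [mul_assoc]
          rw [e, sub_self]; exact W.zero_mem
        · obtain ⟨k, hk⟩ := Nat.exists_eq_succ_of_ne_zero h2
          rw [h1, hk]
          simp only [pow_zero, one_mul, Nat.succ_eq_add_one, ne_eq, Nat.add_eq_zero_iff,
            one_ne_zero, and_false, not_false_eq_true, zero_pow, mul_zero, map_zero, zero_mul,
            sub_zero]
          exact W.smul_mem _ (hr _ _)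
      · obtain ⟨k, hk⟩ := Nat.exists_eq_succ_of_ne_zero h1
        rw [hk]
        simp only [Nat.succ_eq_add_one, ne_eq, Nat.add_eq_zero_iff,
            one_ne_zero, and_false, not_false_eq_true, zero_pow, mul_zero, map_zero, zero_mul,
            sub_zero]
        exact W.smul_mem _ (powr ry _ _ (hl _ _))
    | add p f h2 hf =>
      rw [map_add, g0_add, map_add, mul_add, add_mul]
      have e : EE ξ y ζ p + EE ξ y ζ f -
          (ξ * Polynomial.aeval y (g0 p) * ζ + ξ * Polynomial.aeval y (g0 f) * ζ) =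
          (EE ξ y ζ p - ξ * Polynomial.aeval y (g0 p) * ζ) +
          (EE ξ y ζ f - ξ * Polynomial.aeval y (g0 f) * ζ) := by abel
      rw [e]
      exact W.add_mem h2 hf
  have h := W.sub_mem hEE (key G)
  rwa [sub_sub_cancel] at h

/-- consequence (1) of the identity -/
def RedProp (A : Submodule Φ Q) (δ n : ℕ) : Prop :=
  ∀ (W : Submodule Φ Q) (ξ y ζ : Q), ξ ∈ A → y ∈ A → ζ ∈ A → RH W ξ y ζ δ →
    (∀ b < n, ξ * y ^ b * ζ ∈ W) → ξ * y ^ n * ζ ∈ W

/-- consequence (2) of the identity -/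
def GProp (A : Submodule Φ Q) (δ : ℕ) (g : Polynomial Φ) : Prop :=
  ∀ (W : Submodule Φ Q) (ξ y ζ : Q), ξ ∈ A → y ∈ A → ζ ∈ A → RH W ξ y ζ δ →
    (∀ a b : ℕ, y ^ (a + 1) * ξ * y ^ b * ζ ∈ W) →
    (∀ b c : ℕ, ξ * y ^ b * ζ * y ^ (c + 1) ∈ W) → ξ * Polynomial.aeval y g * ζ ∈ W

theorem exists_props (A : Submodule Φ Q) (R : NP Φ (Fin 3))
    (hR : ∀ v : Fin 3 → Q, (∀ i, v i ∈ A) → ev v R = 0)
    (hG : (finSuccEquiv Φ 2 (Psi R)).Monic) :
    ∃ (δ n : ℕ) (g : Polynomial Φ), g.Monic ∧ RedProp A δ n ∧ GProp A δ g := by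
  classical
  obtain ⟨δ, hδ⟩ : ∃ δ : ℕ, ∀ w ∈ R.coeff.support, w.toList.length ≤ δ :=
    ⟨R.coeff.support.sup (fun w => w.toList.length), fun w hw =>
      Finset.le_sup (f := fun w : FreeMonoid (Fin 3) => w.toList.length) hw⟩
  refine ⟨δ, (finSuccEquiv Φ 2 (Psi R)).natDegree, g0 (Psi R), g0_monic _ hG, ?_, ?_⟩
  · intro W ξ y ζ hξ hy hζ hRH hlow
    exact app1 hRH.ly hRH.ry (Psi R) hG (hRH.redG A R hR hδ hξ hy hζ) hlow
  · intro W ξ y ζ hξ hy hζ hRH hl hr
    exact app2 hRH.ry hl hr (Psi R) (hRH.redG A R hR hδ hξ hy hζ)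

theorem RedProp.mono {A A' : Submodule Φ Q} {δ n : ℕ} (h : RedProp A δ n) (hA : A' ≤ A) :
    RedProp A' δ n := fun W ξ y ζ h1 h2 h3 => h W ξ y ζ (hA h1) (hA h2) (hA h3)

theorem GProp.mono {A A' : Submodule Φ Q} {δ : ℕ} {g : Polynomial Φ} (h : GProp A δ g)
    (hA : A' ≤ A) : GProp A' δ g := fun W ξ y ζ h1 h2 h3 => h W ξ y ζ (hA h1) (hA h2) (hA h3)

end Pool.Agent.H38R2
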