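import Mathlib

set_option autoImplicit false

namespace Pool.Agent.H38R2

section cov
variable {Φ : Type*} [CommRing Φ] {M : Type*} [AddCommGroup M] [Module Φ M]
  {M' : Type*} [AddCommGroup M'] [Module Φ M']

/-- `V` is covered by finitely many cosets of `U`. -/
def Cov (U V : Submodule Φ M) : Prop := ∃ s : Finset M, ∀ v ∈ V, ∃ x ∈ s, v - x ∈ U

theorem Cov.refl (U : Submodule Φ M) : Cov U U :=
  ⟨{0}, fun v hv => ⟨0, by simp, by simpa using hv⟩⟩

theorem Cov.of_le {U V : Submodule Φ M} (h : V ≤ U) : Cov U V :=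
  ⟨{0}, fun v hv => ⟨0, by simp, by simpa using h hv⟩⟩

theorem Cov.mono_left {U U' V : Submodule Φ M} (h : Cov U V) (hU : U ≤ U') : Cov U' V := by
  obtain ⟨s, hs⟩ := h
  exact ⟨s, fun v hv => by obtain ⟨x, hx, h⟩ := hs v hv; exact ⟨x, hx, hU h⟩⟩

theorem Cov.mono_right {U V V' : Submodule Φ M} (h : Cov U V) (hV : V' ≤ V) : Cov U V' := by
  obtain ⟨s, hs⟩ := h
  exact ⟨s, fun v hv => hs v (hV hv)⟩

theorem Cov.trans {U V W : Submodule Φ M} (h1 : Cov U V) (h2 : Cov V W) : Cov U W := by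
  classical
  obtain ⟨s, hs⟩ := h1
  obtain ⟨t, ht⟩ := h2
  refine ⟨(s ×ˢ t).image (fun p => p.1 + p.2), fun w hw => ?_⟩
  obtain ⟨y, hy, hy'⟩ := ht w hw
  obtain ⟨x, hx, hx'⟩ := hs _ hy'
  refine ⟨x + y, Finset.mem_image.2 ⟨(x, y), by simp [hx, hy], rfl⟩, ?_⟩
  have : w - (x + y) = w - y - x := by abel
  rw [this]; exact hx'

theorem Cov.sup {U V W : Submodule Φ M} (h1 : Cov U V) (h2 : Cov U W) : Cov U (V ⊔ W) := by
  classical
  obtain ⟨s, hs⟩ := h1
  obtain ⟨t, ht⟩ := h2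
  refine ⟨(s ×ˢ t).image (fun p => p.1 + p.2), fun z hz => ?_⟩
  obtain ⟨v, hv, w, hw, rfl⟩ := Submodule.mem_sup.1 hz
  obtain ⟨x, hx, hx'⟩ := hs v hv
  obtain ⟨y, hy, hy'⟩ := ht w hw
  refine ⟨x + y, Finset.mem_image.2 ⟨(x, y), by simp [hx, hy], rfl⟩, ?_⟩
  have : v + w - (x + y) = (v - x) + (w - y) := by abel
  rw [this]; exact U.add_mem hx' hy'

theorem Cov.reps {U V : Submodule Φ M} (h : Cov U V) :
    ∃ s : Finset M, (∀ x ∈ s, x ∈ V) ∧ ∀ v ∈ V, ∃ x ∈ s, v - x ∈ U := by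
  classical
  obtain ⟨s, hs⟩ := h
  have : ∀ x : M, ∃ y : M, y ∈ V ∧ ((∃ v ∈ V, v - x ∈ U) → y - x ∈ U) := by
    intro x
    by_cases hx : ∃ v ∈ V, v - x ∈ U
    · obtain ⟨v, hv, hvx⟩ := hx
      exact ⟨v, hv, fun _ => hvx⟩
    · exact ⟨0, V.zero_mem, fun h => absurd h hx⟩
  choose r hr1 hr2 using this
  refine ⟨s.image r, fun x hx => ?_, fun v hv => ?_⟩
  · obtain ⟨y, _, rfl⟩ := Finset.mem_image.1 hx
    exact hr1 y
  · obtain ⟨x, hx, hvx⟩ := hs v hv
    refine ⟨r x, Finset.mem_image_of_mem r hx, ?_⟩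
    have : v - r x = (v - x) - (r x - x) := by abel
    rw [this]
    exact U.sub_mem hvx (hr2 x ⟨v, hv, hvx⟩)

theorem Cov.inf {U U' V : Submodule Φ M} (h1 : Cov U V) (h2 : Cov U' V) : Cov (U ⊓ U') V := by
  classical
  obtain ⟨s, hs⟩ := h1
  obtain ⟨t, ht⟩ := h2
  have : ∀ p : M × M, ∃ y : M, (∃ v ∈ V, v - p.1 ∈ U ∧ v - p.2 ∈ U') →
      y - p.1 ∈ U ∧ y - p.2 ∈ U' := by
    intro x
    by_cases hx : ∃ v ∈ V, v - x.1 ∈ U ∧ v - x.2 ∈ U'
    · obtain ⟨v, hv, hvx⟩ := hx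
      exact ⟨v, fun _ => hvx⟩
    · exact ⟨0, fun h => absurd h hx⟩
  choose r hr using this
  refine ⟨(s ×ˢ t).image r, fun v hv => ?_⟩
  obtain ⟨x, hx, hvx⟩ := hs v hv
  obtain ⟨y, hy, hvy⟩ := ht v hv
  refine ⟨r (x, y), Finset.mem_image_of_mem r (by simp [hx, hy]), ?_⟩
  obtain ⟨h1, h2⟩ := hr (x, y) ⟨v, hv, hvx, hvy⟩
  constructor
  · have : v - r (x, y) = (v - x) - (r (x, y) - x) := by abel
    rw [this]
    exact U.sub_mem hvx h1
  · have : v - r (x, y) = (v - y) - (r (x, y) - y) := by abel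
    rw [this]
    exact U'.sub_mem hvy h2

theorem Cov.comap {U V' : Submodule Φ M'} {V : Submodule Φ M} (f : M →ₗ[Φ] M')
    (h : Cov U V') (hf : ∀ v ∈ V, f v ∈ V') : Cov (U.comap f) V := by
  classical
  obtain ⟨s, hs⟩ := h
  have : ∀ x : M', ∃ y : M, (∃ v ∈ V, f v - x ∈ U) → f y - x ∈ U := by
    intro x
    by_cases hx : ∃ v ∈ V, f v - x ∈ U
    · obtain ⟨v, hv, hvx⟩ := hx
      exact ⟨v, fun _ => hvx⟩
    · exact ⟨0, fun h => absurd h hx⟩
  choose r hr using this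
  refine ⟨s.image r, fun v hv => ?_⟩
  obtain ⟨x, hx, hvx⟩ := hs (f v) (hf v hv)
  refine ⟨r x, Finset.mem_image_of_mem r hx, ?_⟩
  rw [Submodule.mem_comap, map_sub]
  have : f v - f (r x) = (f v - x) - (f (r x) - x) := by abel
  rw [this]
  exact U.sub_mem hvx (hr x ⟨v, hv, hvx⟩)

theorem Cov.biInf {ι : Type*} (s : Finset ι) (U : ι → Submodule Φ M) (V : Submodule Φ M)
    (h : ∀ i ∈ s, Cov (U i) V) : Cov (⨅ i ∈ s, U i) V := by
  classical
  induction s using Finset.induction_on with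
  | empty => exact Cov.of_le (by simp)
  | insert a s ha ih =>
    rw [Finset.iInf_insert]
    exact (h a (Finset.mem_insert_self _ _)).inf
      (ih fun i hi => h i (Finset.mem_insert_of_mem hi))

theorem Cov.iInf {ι : Type*} [Finite ι] (U : ι → Submodule Φ M) (V : Submodule Φ M)
    (h : ∀ i, Cov (U i) V) : Cov (⨅ i, U i) V := by
  classical
  cases nonempty_fintype ι
  have := Cov.biInf Finset.univ U V (fun i _ => h i)
  simpa using this

/-- pigeonhole -/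
theorem Cov.pigeon {U V : Submodule Φ M} (h : Cov U V) (f : ℕ → M) (hf : ∀ n, f n ∈ V) :
    ∃ i j, i < j ∧ f j - f i ∈ U := by
  obtain ⟨s, hs⟩ := h
  choose g hg1 hg2 using fun n => hs (f n) (hf n)
  obtain ⟨i, j, hij, he⟩ := Finite.exists_ne_map_eq_of_infinite
    (fun n => (⟨g n, hg1 n⟩ : s))
  have he' : g i = g j := congrArg Subtype.val he
  rcases lt_or_gt_of_ne hij with h | h
  · refine ⟨i, j, h, ?_⟩
    have : f j - f i = (f j - g j) - (f i - g i) := by rw [he']; abel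
    rw [this]; exact U.sub_mem (hg2 j) (hg2 i)
  · refine ⟨j, i, h, ?_⟩
    have : f i - f j = (f i - g i) - (f j - g j) := by rw [he']; abel
    rw [this]; exact U.sub_mem (hg2 i) (hg2 j)

theorem Cov.nsmul {U V : Submodule Φ M} (h : Cov U V) :
    ∃ N : ℕ, N ≠ 0 ∧ ∀ v ∈ V, (N : Φ) • v ∈ U := by
  obtain ⟨s, hs⟩ := h
  refine ⟨(s.card).factorial, Nat.factorial_ne_zero _, fun v hv => ?_⟩
  choose g hg1 hg2 using fun n : ℕ => hs ((n : Φ) • v) (V.smul_mem _ hv)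
  have hmap : ∀ n ∈ Finset.range (s.card + 1), g n ∈ s := fun n _ => hg1 n
  obtain ⟨i, hi, j, hj, hij, he⟩ := Finset.exists_ne_map_eq_of_card_lt_of_maps_to
    (s := Finset.range (s.card + 1)) (t := s) (by simp) hmap
  wlog hlt : i < j generalizing i j
  · exact this j hj i hi hij.symm he.symm (by omega)
  have hmem : ((j - i : ℕ) : Φ) • v ∈ U := by
    have : ((j - i : ℕ) : Φ) • v = ((j : Φ) • v - g j) - ((i : Φ) • v - g i) := by
      rw [he, Nat.cast_sub hlt.le, sub_smul]; abel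
    rw [this]; exact U.sub_mem (hg2 j) (hg2 i)
  have hdvd : (j - i) ∣ (s.card).factorial := by
    apply Nat.dvd_factorial (by omega)
    simp only [Finset.mem_range] at hi hj
    omega
  obtain ⟨k, hk⟩ := hdvd
  rw [hk, mul_comm, Nat.cast_mul, mul_smul]
  exact U.smul_mem _ hmem

theorem Cov.fg_sup {U V : Submodule Φ M} (h : Cov U V) :
    ∃ T : Submodule Φ M, T.FG ∧ T ≤ V ∧ V ≤ T ⊔ U := by
  obtain ⟨s, hs1, hs2⟩ := h.reps
  refine ⟨Submodule.span Φ (s : Set M), ⟨s, rfl⟩, Submodule.span_le.2 hs1, fun v hv => ?_⟩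
  obtain ⟨x, hx, hvx⟩ := hs2 v hv
  have : v = x + (v - x) := by abel
  rw [this]
  exact Submodule.add_mem_sup (Submodule.subset_span hx) hvx

/-- a finitely generated submodule killed by `N` modulo `U` is covered, if `Φ/N` is finite -/
theorem Cov.of_fg {U T : Submodule Φ M} (hT : T.FG) (N : ℕ) [hN : Finite (Φ ⧸ Ideal.span {(N : Φ)})]
    (h : ∀ v ∈ T, (N : Φ) • v ∈ U) : Cov U T := by
  classical
  obtain ⟨s, rfl⟩ := hT
  induction s using Finset.induction_on with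
  | empty => exact Cov.of_le (by simp)
  | insert a s ha ih =>
    rw [Finset.coe_insert, Submodule.span_insert]
    refine Cov.sup ?_ (ih fun v hv => h v ?_)
    · cases nonempty_fintype (Φ ⧸ Ideal.span {(N : Φ)})
      refine ⟨(Finset.univ : Finset (Φ ⧸ Ideal.span {(N : Φ)})).image
        (fun c => (Quotient.out c) • a), fun v hv => ?_⟩
      obtain ⟨c, rfl⟩ := Submodule.mem_span_singleton.1 hv
      refine ⟨_, Finset.mem_image_of_mem _ (Finset.mem_univ (Ideal.Quotient.mk _ c)), ?_⟩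
      have h1 : c - Quotient.out (Ideal.Quotient.mk (Ideal.span {(N : Φ)}) c) ∈
          Ideal.span {(N : Φ)} := by
        rw [← Ideal.Quotient.eq]
        exact (Quotient.out_eq _).symm
      obtain ⟨e, he⟩ := Ideal.mem_span_singleton'.1 h1
      rw [← sub_smul, ← he, mul_smul]
      apply U.smul_mem
      apply h
      apply Submodule.subset_span
      simp
    · rw [Finset.coe_insert]
      exact Submodule.span_mono (Set.subset_insert _ _) hv

end cov

end Pool.Agent.H38R2
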