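import Pool.Agent.H38R2.Defs

set_option autoImplicit false
set_option linter.style.haveILetI false

namespace Pool.Agent.H38R2

open Polynomial

universe u w

noncomputable section

/-- the algebra of matrices `[[0, u, c], [0, v, z], [0, 0, 0]]` with `c` in `K` -/
def AL (K : Type u) [Field K] (_lam : K[X] →ₗ[K] K) : Type u := K[X] × K[X] × K[X] × K

section
variable {K : Type u} [Field K] {lam : K[X] →ₗ[K] K}

instance : AddCommGroup (AL K lam) := inferInstanceAs (AddCommGroup (K[X] × K[X] × K[X] × K))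

instance {Φ : Type w} [CommRing Φ] [Algebra Φ K] : Module Φ (AL K lam) :=
  inferInstanceAs (Module Φ (K[X] × K[X] × K[X] × K))

/-- constructor -/
def AL.mk (lam : K[X] →ₗ[K] K) (u v z : K[X]) (c : K) : AL K lam := (u, v, z, c)

def AL.u (a : AL K lam) : K[X] := a.1
def AL.v (a : AL K lam) : K[X] := a.2.1
def AL.z (a : AL K lam) : K[X] := a.2.2.1
def AL.c (a : AL K lam) : K := a.2.2.2

theorem AL.ext {a b : AL K lam} (h1 : a.u = b.u) (h2 : a.v = b.v) (h3 : a.z = b.z)
    (h4 : a.c = b.c) : a = b :=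
  Prod.ext h1 (Prod.ext h2 (Prod.ext h3 h4))

instance : Mul (AL K lam) :=
  ⟨fun a b => AL.mk lam (a.u * b.v) (a.v * b.v) (a.v * b.z) (lam (a.u * b.z))⟩

theorem AL.mul_u (a b : AL K lam) : (a * b).u = a.u * b.v := rfl
theorem AL.mul_v (a b : AL K lam) : (a * b).v = a.v * b.v := rfl
theorem AL.mul_z (a b : AL K lam) : (a * b).z = a.v * b.z := rfl
theorem AL.mul_c (a b : AL K lam) : (a * b).c = lam (a.u * b.z) := rfl
theorem AL.add_u (a b : AL K lam) : (a + b).u = a.u + b.u := rfl
theorem AL.add_v (a b : AL K lam) : (a + b).v = a.v + b.v := rfl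
theorem AL.add_z (a b : AL K lam) : (a + b).z = a.z + b.z := rfl
theorem AL.add_c (a b : AL K lam) : (a + b).c = a.c + b.c := rfl
theorem AL.zero_u : (0 : AL K lam).u = 0 := rfl
theorem AL.zero_v : (0 : AL K lam).v = 0 := rfl
theorem AL.zero_z : (0 : AL K lam).z = 0 := rfl
theorem AL.zero_c : (0 : AL K lam).c = 0 := rfl
theorem AL.mk_u (u v z : K[X]) (c : K) : (AL.mk lam u v z c).u = u := rfl
theorem AL.mk_v (u v z : K[X]) (c : K) : (AL.mk lam u v z c).v = v := rfl
theorem AL.mk_z (u v z : K[X]) (c : K) : (AL.mk lam u v z c).z = z := rfl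
theorem AL.mk_c (u v z : K[X]) (c : K) : (AL.mk lam u v z c).c = c := rfl

instance : NonUnitalRing (AL K lam) :=
  { (inferInstance : AddCommGroup (AL K lam)) with
    mul := (· * ·)
    left_distrib := fun a b c => by
      apply AL.ext
      · simp only [AL.mul_u, AL.add_u, AL.add_v, mul_add]
      · simp only [AL.mul_v, AL.add_v, mul_add]
      · simp only [AL.mul_z, AL.add_z, mul_add]
      · simp only [AL.mul_c, AL.add_c, AL.add_z, mul_add, map_add]
    right_distrib := fun a b c => by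
      apply AL.ext
      · simp only [AL.mul_u, AL.add_u, add_mul]
      · simp only [AL.mul_v, AL.add_v, add_mul]
      · simp only [AL.mul_z, AL.add_z, AL.add_v, add_mul]
      · simp only [AL.mul_c, AL.add_c, AL.add_u, add_mul, map_add]
    zero_mul := fun a => by
      apply AL.ext
      · simp only [AL.mul_u, AL.zero_u, zero_mul]
      · simp only [AL.mul_v, AL.zero_v, zero_mul]
      · simp only [AL.mul_z, AL.zero_v, AL.zero_z, zero_mul]
      · simp only [AL.mul_c, AL.zero_u, AL.zero_c, zero_mul, map_zero]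
    mul_zero := fun a => by
      apply AL.ext
      · simp only [AL.mul_u, AL.zero_u, AL.zero_v, mul_zero]
      · simp only [AL.mul_v, AL.zero_v, mul_zero]
      · simp only [AL.mul_z, AL.zero_z, mul_zero]
      · simp only [AL.mul_c, AL.zero_z, AL.zero_c, mul_zero, map_zero]
    mul_assoc := fun a b c => by
      apply AL.ext
      · simp only [AL.mul_u, AL.mul_v, mul_assoc]
      · simp only [AL.mul_v, mul_assoc]
      · simp only [AL.mul_z, AL.mul_v, mul_assoc]
      · simp only [AL.mul_c, AL.mul_u, AL.mul_z, mul_assoc] }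

variable {Φ : Type w} [CommRing Φ] [Algebra Φ K]

theorem AL.smul_u (r : Φ) (a : AL K lam) : (r • a).u = r • a.u := rfl
theorem AL.smul_v (r : Φ) (a : AL K lam) : (r • a).v = r • a.v := rfl
theorem AL.smul_z (r : Φ) (a : AL K lam) : (r • a).z = r • a.z := rfl
theorem AL.smul_c (r : Φ) (a : AL K lam) : (r • a).c = r • a.c := rfl

theorem lam_smul (lam : K[X] →ₗ[K] K) (r : Φ) (p : K[X]) : lam (r • p) = r • lam p := by
  have h : r • p = (algebraMap Φ K r) • p := by
    rw [algebraMap_smul]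
  rw [h, map_smul, algebraMap_smul]

instance : IsScalarTower Φ (AL K lam) (AL K lam) :=
  ⟨fun r a b => by
    change (r • a) * b = r • (a * b)
    apply AL.ext
    · simp only [AL.mul_u, AL.smul_u, smul_mul_assoc]
    · simp only [AL.mul_v, AL.smul_v, smul_mul_assoc]
    · simp only [AL.mul_z, AL.smul_z, AL.smul_v, smul_mul_assoc]
    · simp only [AL.mul_c, AL.smul_c, AL.smul_u, smul_mul_assoc, lam_smul]⟩

instance : SMulCommClass Φ (AL K lam) (AL K lam) :=
  ⟨fun r a b => by
    change r • (a * b) = a * (r • b)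
    apply AL.ext
    · simp only [AL.mul_u, AL.smul_u, AL.smul_v, mul_smul_comm]
    · simp only [AL.mul_v, AL.smul_v, mul_smul_comm]
    · simp only [AL.mul_z, AL.smul_z, mul_smul_comm]
    · simp only [AL.mul_c, AL.smul_c, AL.smul_z, mul_smul_comm, lam_smul]⟩

/-- first and second coordinates of a word -/
theorem lift_uv (a : ℕ → AL K lam) (h : ℕ) (q : List ℕ) :
    (FreeSemigroup.lift a ⟨h, q⟩).u = (a h).u * (q.map fun k => (a k).v).prod ∧
    (FreeSemigroup.lift a ⟨h, q⟩).v = (a h).v * (q.map fun k => (a k).v).prod := by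
  induction q using List.reverseRecOn with
  | nil => simp [FreeSemigroup.lift]
  | append_singleton q j ih =>
    have e : (⟨h, q ++ [j]⟩ : FreeSemigroup ℕ) = ⟨h, q⟩ * FreeSemigroup.of j := rfl
    rw [e, map_mul, FreeSemigroup.lift_of, AL.mul_u, AL.mul_v, ih.1, ih.2]
    simp only [List.map_append, List.map_cons, List.map_nil, List.prod_append, List.prod_cons,
      List.prod_nil, mul_one, mul_assoc, and_self]

/-- the generic term -/
def TT (U V Z : ℕ → K[X]) (w : FreeSemigroup ℕ) : K[X] :=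
  if h : w.tail = [] then 0 else
    U w.head * (w.tail.dropLast.map V).prod * Z (w.tail.getLast h)

/-- the linear term -/
def LT {M : Type*} [Zero M] (a : ℕ → M) (w : FreeSemigroup ℕ) : M :=
  if w.tail = [] then a w.head else 0

theorem lift_word (a : ℕ → AL K lam) (w : FreeSemigroup ℕ) :
    (FreeSemigroup.lift a w).u = LT (fun k => (a k).u) w +
      TT (fun k => (a k).u) (fun k => (a k).v) (fun k => (a k).v) w ∧
    (FreeSemigroup.lift a w).v = LT (fun k => (a k).v) w +
      TT (fun k => (a k).v) (fun k => (a k).v) (fun k => (a k).v) w ∧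
    (FreeSemigroup.lift a w).z = LT (fun k => (a k).z) w +
      TT (fun k => (a k).v) (fun k => (a k).v) (fun k => (a k).z) w ∧
    (FreeSemigroup.lift a w).c = LT (fun k => (a k).c) w +
      lam (TT (fun k => (a k).u) (fun k => (a k).v) (fun k => (a k).z) w) := by
  obtain ⟨h, t⟩ := w
  rcases List.eq_nil_or_concat' t with rfl | ⟨q, j, rfl⟩
  · simp [LT, TT, FreeSemigroup.lift]
  · have e : (⟨h, q ++ [j]⟩ : FreeSemigroup ℕ) = ⟨h, q⟩ * FreeSemigroup.of j := rfl
    have hne : q ++ [j] ≠ [] := by simp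
    have hLT : ∀ {M : Type u} [Zero M] (a : ℕ → M), LT a (⟨h, q ++ [j]⟩ : FreeSemigroup ℕ) = 0 :=
      fun a => if_neg hne
    have hTT : ∀ U V Z : ℕ → K[X], TT U V Z (⟨h, q ++ [j]⟩ : FreeSemigroup ℕ) =
        U h * (q.map V).prod * Z j := by
      intro U V Z
      unfold TT
      rw [dif_neg hne]
      simp
    rw [hLT, hLT, hLT, hLT, hTT, hTT, hTT, hTT, e, map_mul, FreeSemigroup.lift_of, AL.mul_u,
      AL.mul_v, AL.mul_z, AL.mul_c, (lift_uv a h q).1, (lift_uv a h q).2]
    simp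

theorem getLastD_ne (l : List ℕ) (h : l ≠ []) : l.getLastD 0 = l.getLast h := by
  cases l with
  | nil => exact absurd rfl h
  | cons a l => rw [List.getLast_eq_getLastD, List.getLastD_cons]

/-- the sum of the generic terms vanishes -/
theorem sum_TT (f : MonoidAlgebra Φ (FreeSemigroup ℕ))
    (hf : ∀ i j m, algebraMap Φ K (sig i j m f) = 0) (U V Z : ℕ → K[X]) :
    ∑ w ∈ f.coeff.support, f.coeff w • TT U V Z w = 0 := by
  classical
  -- key of a word
  let key : FreeSemigroup ℕ → ℕ × ℕ × Multiset ℕ := fun w =>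
    (w.head, w.tail.getLastD 0, (w.tail.dropLast : Multiset ℕ))
  rw [← Finset.sum_filter_add_sum_filter_not _ (fun w : FreeSemigroup ℕ => w.tail ≠ [])]
  have h2 : ∑ w ∈ f.coeff.support.filter (fun w : FreeSemigroup ℕ => ¬ w.tail ≠ []),
      f.coeff w • TT U V Z w = 0 := by
    apply Finset.sum_eq_zero
    intro w hw
    rw [Finset.mem_filter, not_not] at hw
    unfold TT
    rw [dif_pos hw.2, smul_zero]
  rw [h2, add_zero]
  set F := f.coeff.support.filter (fun w : FreeSemigroup ℕ => w.tail ≠ []) with hF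
  rw [← Finset.sum_fiberwise_of_maps_to (g := key) (t := F.image key)
    (fun w hw => Finset.mem_image_of_mem key hw)]
  apply Finset.sum_eq_zero
  rintro ⟨i, j, m⟩ _
  have h3 : ∀ w ∈ F.filter (fun w => key w = (i, j, m)), f.coeff w • TT U V Z w =
      f.coeff w • (U i * (m.map V).prod * Z j) := by
    intro w hw
    rw [Finset.mem_filter, hF, Finset.mem_filter] at hw
    obtain ⟨⟨_, hne⟩, hkey⟩ := hw
    simp only [key, Prod.mk.injEq] at hkey
    obtain ⟨h1, h2, h3⟩ := hkey
    unfold TT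
    rw [dif_neg hne, ← h3, Multiset.map_coe, Multiset.prod_coe, h1]
    congr 2
    rw [← h2, getLastD_ne _ hne]
  rw [Finset.sum_congr rfl h3, ← Finset.sum_smul]
  have h4 : F.filter (fun w => key w = (i, j, m)) = f.coeff.support.filter
      (fun u => ∃ w : List ℕ, letters u = i :: (w ++ [j]) ∧ (w : Multiset ℕ) = m) := by
    ext w
    rw [Finset.mem_filter, hF, Finset.mem_filter, Finset.mem_filter]
    constructor
    · rintro ⟨⟨h1, h2⟩, h3⟩
      refine ⟨h1, w.tail.dropLast, ?_, ?_⟩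
      · simp only [key, Prod.mk.injEq] at h3
        rw [letters, h3.1]
        congr 1
        rw [← h3.2.1, getLastD_ne _ h2, List.dropLast_append_getLast]
      · simp only [key, Prod.mk.injEq] at h3
        exact h3.2.2
    · rintro ⟨h1, q, h2, h3⟩
      rw [letters, List.cons.injEq] at h2
      refine ⟨⟨h1, by rw [h2.2]; simp⟩, ?_⟩
      simp only [key, Prod.mk.injEq]
      rw [h2.1, h2.2]
      simp [h3]
  have h5 : ∑ u ∈ F.filter (fun w => key w = (i, j, m)), f.coeff u = sig i j m f := by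
    rw [h4, sig]
  rw [h5, ← algebraMap_smul K, hf, zero_smul]

theorem LT_smul {M : Type*} [AddCommGroup M] [Module Φ M] [Module K M] [IsScalarTower Φ K M]
    (f : MonoidAlgebra Φ (FreeSemigroup ℕ))
    (hf : ∀ i, algebraMap Φ K (f.coeff (FreeSemigroup.of i)) = 0) (a : ℕ → M) :
    ∑ w ∈ f.coeff.support, f.coeff w • LT a w = 0 := by
  apply Finset.sum_eq_zero
  intro w _
  unfold LT
  by_cases h : w.tail = []
  · rw [if_pos h]
    have hw : w = FreeSemigroup.of w.head := by
      obtain ⟨x, t⟩ := w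
      simp only at h
      rw [h]; rfl
    rw [← algebraMap_smul K, hw, hf, zero_smul]
  · rw [if_neg h, smul_zero]

theorem liftMagma_eq_sum {A : Type*} [NonUnitalRing A] [Module Φ A] [IsScalarTower Φ A A]
    [SMulCommClass Φ A A] (F : FreeSemigroup ℕ →ₙ* A) (f : MonoidAlgebra Φ (FreeSemigroup ℕ)) :
    MonoidAlgebra.liftMagma Φ F f = ∑ w ∈ f.coeff.support, f.coeff w • F w := by
  rw [MonoidAlgebra.liftMagma_apply_apply]
  rfl

/-- coordinates as linear maps -/
def AL.uL (Φ : Type w) [CommRing Φ] [Algebra Φ K] (lam : K[X] →ₗ[K] K) : AL K lam →ₗ[Φ] K[X] :=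
  { toFun := AL.u, map_add' := fun _ _ => rfl, map_smul' := fun _ _ => rfl }
def AL.vL (Φ : Type w) [CommRing Φ] [Algebra Φ K] (lam : K[X] →ₗ[K] K) : AL K lam →ₗ[Φ] K[X] :=
  { toFun := AL.v, map_add' := fun _ _ => rfl, map_smul' := fun _ _ => rfl }
def AL.zL (Φ : Type w) [CommRing Φ] [Algebra Φ K] (lam : K[X] →ₗ[K] K) : AL K lam →ₗ[Φ] K[X] :=
  { toFun := AL.z, map_add' := fun _ _ => rfl, map_smul' := fun _ _ => rfl }
def AL.cL (Φ : Type w) [CommRing Φ] [Algebra Φ K] (lam : K[X] →ₗ[K] K) : AL K lam →ₗ[Φ] K :=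
  { toFun := AL.c, map_add' := fun _ _ => rfl, map_smul' := fun _ _ => rfl }

theorem AL_satisfies (lam : K[X] →ₗ[K] K) (S : Set (MonoidAlgebra Φ (FreeSemigroup ℕ)))
    (hlin : ∀ f ∈ S, ∀ i, algebraMap Φ K (f.coeff (FreeSemigroup.of i)) = 0)
    (hsig : ∀ f ∈ S, ∀ i j m, algebraMap Φ K (sig i j m f) = 0) : Satisfies S (AL K lam) := by
  intro f hf a
  rw [liftMagma_eq_sum]
  apply AL.ext
  · change AL.uL Φ lam _ = 0
    rw [map_sum]
    have : ∀ w ∈ f.coeff.support, AL.uL Φ lam (f.coeff w • FreeSemigroup.lift a w) =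
        f.coeff w • LT (fun k => (a k).u) w +
        f.coeff w • TT (fun k => (a k).u) (fun k => (a k).v) (fun k => (a k).v) w := by
      intro w _
      rw [map_smul, ← smul_add]
      exact congrArg _ (lift_word a w).1
    rw [Finset.sum_congr rfl this, Finset.sum_add_distrib, LT_smul f (hlin f hf),
      sum_TT f (hsig f hf), add_zero]
  · change AL.vL Φ lam _ = 0
    rw [map_sum]
    have : ∀ w ∈ f.coeff.support, AL.vL Φ lam (f.coeff w • FreeSemigroup.lift a w) =
        f.coeff w • LT (fun k => (a k).v) w +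
        f.coeff w • TT (fun k => (a k).v) (fun k => (a k).v) (fun k => (a k).v) w := by
      intro w _
      rw [map_smul, ← smul_add]
      exact congrArg _ (lift_word a w).2.1
    rw [Finset.sum_congr rfl this, Finset.sum_add_distrib, LT_smul f (hlin f hf),
      sum_TT f (hsig f hf), add_zero]
  · change AL.zL Φ lam _ = 0
    rw [map_sum]
    have : ∀ w ∈ f.coeff.support, AL.zL Φ lam (f.coeff w • FreeSemigroup.lift a w) =
        f.coeff w • LT (fun k => (a k).z) w +
        f.coeff w • TT (fun k => (a k).v) (fun k => (a k).v) (fun k => (a k).z) w := by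
      intro w _
      rw [map_smul, ← smul_add]
      exact congrArg _ (lift_word a w).2.2.1
    rw [Finset.sum_congr rfl this, Finset.sum_add_distrib, LT_smul f (hlin f hf),
      sum_TT f (hsig f hf), add_zero]
  · change AL.cL Φ lam _ = 0
    rw [map_sum]
    have : ∀ w ∈ f.coeff.support, AL.cL Φ lam (f.coeff w • FreeSemigroup.lift a w) =
        f.coeff w • LT (fun k => (a k).c) w +
        lam (f.coeff w • TT (fun k => (a k).u) (fun k => (a k).v) (fun k => (a k).z) w) := by
      intro w _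
      rw [map_smul, lam_smul, ← smul_add]
      exact congrArg _ (lift_word a w).2.2.2
    rw [Finset.sum_congr rfl this, Finset.sum_add_distrib, LT_smul f (hlin f hf),
      ← map_sum, sum_TT f (hsig f hf), map_zero, add_zero]

/-- the linear form -/
def lam0 (K : Type u) [Field K] : K[X] →ₗ[K] K :=
  (Polynomial.basisMonomials K).constr K (fun k => open Classical in
    if ∃ n : ℕ, k = 2 ^ n then 1 else 0)

open Classical in
theorem lam0_X_pow (k : ℕ) : lam0 K (X ^ k) = if ∃ n : ℕ, k = 2 ^ n then 1 else 0 := by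
  have : (X : K[X]) ^ k = Polynomial.basisMonomials K k := by
    rw [Polynomial.coe_basisMonomials, X_pow_eq_monomial]
  rw [lam0, this, Module.Basis.constr_basis]

theorem AL_fg (hsurj : Function.Surjective (algebraMap Φ K)) :
    ∃ s : Finset (AL K (lam0 K)), NonUnitalAlgebra.adjoin Φ (s : Set (AL K (lam0 K))) = ⊤ := by
  classical
  set lam := lam0 K with hlam
  let s : Finset (AL K lam) :=
    {AL.mk lam 1 0 0 0, AL.mk lam 0 1 0 0, AL.mk lam 0 X 0 0, AL.mk lam 0 0 1 0}
  refine ⟨s, ?_⟩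
  set B := NonUnitalAlgebra.adjoin Φ (s : Set (AL K lam)) with hB
  have hs : ∀ x ∈ s, x ∈ B := fun x hx => NonUnitalAlgebra.subset_adjoin Φ hx
  have h1 : ∀ k : ℕ, AL.mk lam 0 (X ^ k) 0 0 ∈ B := by
    intro k
    induction k with
    | zero => rw [pow_zero]; exact hs _ (by simp [s])
    | succ k ih =>
      have : AL.mk lam 0 (X ^ (k + 1)) 0 0 = AL.mk lam 0 (X ^ k) 0 0 * AL.mk lam 0 X 0 0 := by
        apply AL.ext
        · simp [AL.mul_u, AL.mk_u]
        · simp [AL.mul_v, AL.mk_v, pow_succ]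
        · simp [AL.mul_z, AL.mk_z]
        · simp [AL.mul_c, AL.mk_z, AL.mk_c]
      rw [this]
      exact mul_mem ih (hs _ (by simp [s]))
  have h2 : ∀ p : K[X], AL.mk lam 0 p 0 0 ∈ B := by
    intro p
    induction p using Polynomial.induction_on' with
    | add p q hp hq =>
      have : AL.mk lam 0 (p + q) 0 0 = AL.mk lam 0 p 0 0 + AL.mk lam 0 q 0 0 := by
        apply AL.ext
        · simp [AL.add_u, AL.mk_u]
        · simp [AL.add_v, AL.mk_v]
        · simp [AL.add_z, AL.mk_z]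
        · simp [AL.add_c, AL.mk_c]
      rw [this]
      exact add_mem hp hq
    | monomial k a =>
      obtain ⟨r, rfl⟩ := hsurj a
      have : AL.mk lam 0 (monomial k (algebraMap Φ K r)) 0 0 = r • AL.mk lam 0 (X ^ k) 0 0 := by
        apply AL.ext
        · simp [AL.smul_u, AL.mk_u]
        · simp only [AL.smul_v, AL.mk_v]
          rw [← algebraMap_smul K r, smul_X_eq_monomial]
        · simp [AL.smul_z, AL.mk_z]
        · simp [AL.smul_c, AL.mk_c]
      rw [this]
      exact SMulMemClass.smul_mem r (h1 k)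
  rw [eq_top_iff]
  rintro a -
  have e12 : ∀ p : K[X], AL.mk lam p 0 0 0 ∈ B := by
    intro p
    have : AL.mk lam p 0 0 0 = AL.mk lam 1 0 0 0 * AL.mk lam 0 p 0 0 := by
      apply AL.ext
      · simp [AL.mul_u, AL.mk_u, AL.mk_v]
      · simp [AL.mul_v, AL.mk_v]
      · simp [AL.mul_z, AL.mk_z, AL.mk_v]
      · simp [AL.mul_c, AL.mk_z, AL.mk_c]
    rw [this]
    exact mul_mem (hs _ (by simp [s])) (h2 p)
  have e23 : ∀ p : K[X], AL.mk lam 0 0 p 0 ∈ B := by
    intro p
    have : AL.mk lam 0 0 p 0 = AL.mk lam 0 p 0 0 * AL.mk lam 0 0 1 0 := by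
      apply AL.ext
      · simp [AL.mul_u, AL.mk_u]
      · simp [AL.mul_v, AL.mk_v]
      · simp [AL.mul_z, AL.mk_z, AL.mk_v]
      · simp [AL.mul_c, AL.mk_u, AL.mk_c]
    rw [this]
    exact mul_mem (h2 p) (hs _ (by simp [s]))
  have e13 : ∀ c : K, AL.mk lam 0 0 0 c ∈ B := by
    intro c
    have : AL.mk lam 0 0 0 c = AL.mk lam (c • X) 0 0 0 * AL.mk lam 0 0 1 0 := by
      apply AL.ext
      · simp [AL.mul_u, AL.mk_u, AL.mk_v]
      · simp [AL.mul_v, AL.mk_v]
      · simp [AL.mul_z, AL.mk_z, AL.mk_v]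
      · simp only [AL.mul_c, AL.mk_u, AL.mk_z, AL.mk_c, mul_one, map_smul, smul_eq_mul]
        have h := lam0_X_pow (K := K) 1
        rw [pow_one, if_pos ⟨0, by simp⟩] at h
        rw [hlam, h, mul_one]
    rw [this]
    exact mul_mem (e12 _) (hs _ (by simp [s]))
  have : a = AL.mk lam a.u 0 0 0 + AL.mk lam 0 a.v 0 0 + AL.mk lam 0 0 a.z 0 +
      AL.mk lam 0 0 0 a.c := by
    apply AL.ext
    · simp [AL.add_u, AL.mk_u]
    · simp [AL.add_v, AL.mk_v]
    · simp [AL.add_z, AL.mk_z]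
    · simp [AL.add_c, AL.mk_c]
  rw [this]
  exact add_mem (add_mem (add_mem (e12 _) (h2 _)) (e23 _)) (e13 _)

theorem AL_not_rf {B : Type*} [NonUnitalRing B] [Finite B]
    (ψ : AL K (lam0 K) →ₙ+* B) : ψ (AL.mk (lam0 K) 0 0 0 1) = 0 := by
  obtain ⟨a', b', hne, he⟩ := Finite.exists_ne_map_eq_of_infinite
    (fun k : ℕ => ψ (AL.mk (lam0 K) (X ^ k) 0 0 0))
  -- order
  obtain ⟨a, b, hab, he⟩ : ∃ a b : ℕ, a < b ∧
      ψ (AL.mk (lam0 K) (X ^ a) 0 0 0) = ψ (AL.mk (lam0 K) (X ^ b) 0 0 0) := by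
    rcases lt_or_gt_of_ne hne with h | h
    · exact ⟨a', b', h, he⟩
    · exact ⟨b', a', h, he.symm⟩
  obtain ⟨N, hN⟩ : ∃ N : ℕ, a + b < 2 ^ N := ⟨a + b, Nat.lt_two_pow_self⟩
  have hprod : ∀ k s : ℕ, ψ (AL.mk (lam0 K) (X ^ k) 0 0 0) * ψ (AL.mk (lam0 K) 0 0 (X ^ s) 0) =
      ψ (AL.mk (lam0 K) 0 0 0 (lam0 K (X ^ (k + s)))) := by
    intro k s
    rw [← map_mul]
    congr 1
    apply AL.ext
    · simp [AL.mul_u, AL.mk_u, AL.mk_v]
    · simp [AL.mul_v, AL.mk_v]
    · simp [AL.mul_z, AL.mk_z, AL.mk_v]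
    · simp [AL.mul_c, AL.mk_z, AL.mk_c, AL.mk_u, pow_add]
  have h1 := hprod a (2 ^ N - a)
  have h2 := hprod b (2 ^ N - a)
  rw [he, h2] at h1
  have e1 : a + (2 ^ N - a) = 2 ^ N := by omega
  have hneg : ¬ ∃ n : ℕ, b + (2 ^ N - a) = 2 ^ n := by
    rintro ⟨n, hn⟩
    have h3 : 2 ^ N < 2 ^ n := by omega
    have h4 : 2 ^ n < 2 ^ (N + 1) := by rw [pow_succ]; omega
    have h5 := (Nat.pow_lt_pow_iff_right (by norm_num : 1 < 2)).1 h3
    have h6 := (Nat.pow_lt_pow_iff_right (by norm_num : 1 < 2)).1 h4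
    omega
  rw [e1, lam0_X_pow, lam0_X_pow, if_neg hneg, if_pos ⟨N, rfl⟩] at h1
  rw [← h1]
  have : AL.mk (lam0 K) 0 0 0 0 = 0 := rfl
  rw [this, map_zero]

theorem AL_ne : AL.mk (lam0 K) 0 0 0 1 ≠ 0 := by
  intro h
  have := congrArg AL.c h
  rw [AL.mk_c, AL.zero_c] at this
  exact one_ne_zero this

end

end

end Pool.Agent.H38R2
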