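import Pool.Agent.H38R2.IfPart
import Pool.Agent.H38R2.Only

set_option autoImplicit false
set_option linter.style.haveILetI false

namespace Pool.Agent.H38R2

universe u w

/-- The condition that some number attached to an identity of `S` is outside `𝔭`. -/
def Outside {Φ : Type w} [CommRing Φ] (S : Set (MonoidAlgebra Φ (FreeSemigroup ℕ)))
    (𝔭 : Ideal Φ) : Prop :=
  ∃ f ∈ S, (∃ i, f.coeff (FreeSemigroup.of i) ∉ 𝔭) ∨ ∃ i j m, sig i j m f ∉ 𝔭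

/-- if direction, with quotient algebras -/
theorem rf_of_outside {Φ : Type w} [CommRing Φ] [IsDomain Φ] [IsPrincipalIdealRing Φ]
    [Algebra.FiniteType ℤ Φ]
    (hfin : ∀ n : ℕ, n ≠ 0 → Finite (Φ ⧸ Ideal.span {(n : Φ)}))
    (S : Set (MonoidAlgebra Φ (FreeSemigroup ℕ))) (hS : ∀ 𝔭 : Ideal Φ, 𝔭.IsPrime → Outside S 𝔭)
    (A : Type u) [NonUnitalRing A] [Module Φ A] [IsScalarTower Φ A A] [SMulCommClass Φ A A]
    (hA : Satisfies S A) (s : Finset A) (hs : NonUnitalAlgebra.adjoin Φ (s : Set A) = ⊤)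
    (x : A) (hx : x ≠ 0) :
    ∃ (B : Type u) (_ : NonUnitalRing B) (_ : Module Φ B) (_ : IsScalarTower Φ B B)
      (_ : SMulCommClass Φ B B) (_ : Finite B) (ψ : A →ₙₐ[Φ] B),
      Function.Surjective ψ ∧ ψ x ≠ 0 := by
  obtain ⟨I, hl, hr, hf, hxI⟩ := sep_of_sig hfin S hS hA s hs x hx
  obtain ⟨B, h1, h2, h3, h4, h5, ψ, h6, h7⟩ := exists_quotient I hl hr hf
  exact ⟨B, h1, h2, h3, h4, h5, ψ, h6, fun h => hxI (h7 x h)⟩

/-- only-if direction -/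
theorem not_rf_of_not_outside {Φ : Type w} [CommRing Φ] [IsDomain Φ]
    (S : Set (MonoidAlgebra Φ (FreeSemigroup ℕ))) (𝔪 : Ideal Φ) (h𝔪 : 𝔪.IsMaximal)
    (hS : ¬ Outside S 𝔪) :
    ∃ (A : Type (max u w)) (_ : NonUnitalRing A) (_ : Module Φ A) (_ : IsScalarTower Φ A A)
      (_ : SMulCommClass Φ A A), Satisfies S A ∧
      (∃ s : Finset A, NonUnitalAlgebra.adjoin Φ (s : Set A) = ⊤) ∧
      ∃ x : A, x ≠ 0 ∧ ∀ (B : Type (max u w)) [NonUnitalRing B] [Finite B] (ψ : A →ₙ+* B),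
        ψ x = 0 := by
  letI : Field (Φ ⧸ 𝔪) := Ideal.Quotient.field 𝔪
  let K := ULift.{u} (Φ ⧸ 𝔪)
  have hsurj : Function.Surjective (algebraMap Φ K) := by
    rintro ⟨y⟩
    obtain ⟨x, rfl⟩ := Ideal.Quotient.mk_surjective y
    exact ⟨x, rfl⟩
  have hker : ∀ x ∈ 𝔪, algebraMap Φ K x = 0 := by
    intro x hx
    have : Ideal.Quotient.mk 𝔪 x = 0 := Ideal.Quotient.eq_zero_iff_mem.2 hx
    exact congrArg ULift.up this
  refine ⟨AL K (lam0 K), inferInstance, inferInstance, inferInstance, inferInstance, ?_,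
    AL_fg hsurj, AL.mk (lam0 K) 0 0 0 1, AL_ne, fun B _ _ ψ => AL_not_rf ψ⟩
  apply AL_satisfies
  · intro f hf i
    apply hker
    by_contra h
    exact hS ⟨f, hf, Or.inl ⟨i, h⟩⟩
  · intro f hf i j m
    apply hker
    by_contra h
    exact hS ⟨f, hf, Or.inr ⟨i, j, m, h⟩⟩

end Pool.Agent.H38R2
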