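import Mathlib

/-! Definitions used by the criterion for locally residually finite varieties. -/

set_option autoImplicit false
set_option linter.style.haveILetI false

namespace Pool.Agent.H38R2

/-- The letters of a monomial (a nonempty word in `x_0, x_1, …`), from left to right. -/
def letters (u : FreeSemigroup ℕ) : List ℕ := u.head :: u.tail

open Classical in
/-- `sig i j m f` is the sum of the coefficients in `f` of all the monomials `x_i w x_j` of degree
at least two in which the (possibly empty) word `w` has the multiset `m` of letters. -/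
noncomputable def sig {Φ : Type*} [CommRing Φ] (i j : ℕ) (m : Multiset ℕ)
    (f : MonoidAlgebra Φ (FreeSemigroup ℕ)) : Φ :=
  ∑ u ∈ f.coeff.support with (∃ w : List ℕ, letters u = i :: (w ++ [j]) ∧ (w : Multiset ℕ) = m),
    f.coeff u

/-- `A` satisfies all the identities `f = 0`, `f ∈ S`. Here `MonoidAlgebra Φ (FreeSemigroup ℕ)` is
the free associative algebra without unit on `x_0, x_1, …`. -/
def Satisfies {Φ : Type*} [CommRing Φ] (S : Set (MonoidAlgebra Φ (FreeSemigroup ℕ)))
    (A : Type*) [NonUnitalRing A] [Module Φ A] [IsScalarTower Φ A A] [SMulCommClass Φ A A] : Prop :=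
  ∀ f ∈ S, ∀ v : ℕ → A, MonoidAlgebra.liftMagma Φ (FreeSemigroup.lift v) f = 0

end Pool.Agent.H38R2
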