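import Mathlib

/-!
# A 42-vertex cubic graph with an irreducible circuit cover of depth 4

Central Petersen graph (edges 0..14: `o_i = i`, `s_i = 5+i`, `t_i = 10+i`), four of whose vertices are
replaced by copies of the Petersen graph minus a vertex (edges `15+12g .. 26+12g`).
-/

set_option autoImplicit false

namespace Pool.Agent.H38R2.Depth4

open Finset

-- edges endpoints packed 6 bits
def pA : ℕ := 400510125342854567190629206516755104210783362233227955688349372521070461981155302126839067200136313477311396323392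
def pB : ℕ := 371205085579213618600886454799302236941145400486910252122391999612459867481335661273786386601441647157774474293377
def pW : ℕ := 112094522331450703433335284948376375186544567892965168204
def pI1 : ℕ := 6545943301239792134899888811865127830986263089330384370043197490834319085568
def pI2 : ℕ := 6890563757502377342598915165260326053573749415190384938301031055429122924612
def pI3 : ℕ := 7120310404618005684878084172024928603477353514850244673944916424616228974981
def mask0 : ℕ := 4774058597096960939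
def ord0 : List ℕ := [0, 1, 7, 12, 57, 62, 54, 9, 3, 8, 42, 47, 44, 40, 43, 46, 13, 22, 19, 16, 20, 23, 18, 5]
def vs0 : List ℕ := [1, 2, 5, 36, 41, 38, 33, 4, 3, 24, 29, 31, 26, 25, 30, 28, 10, 12, 7, 8, 13, 11, 6, 0]
def mask1 : ℕ := 995295576973132369
def ord1 : List ℕ := [0, 6, 30, 35, 32, 28, 31, 34, 14, 58, 55, 52, 56, 59, 54, 9, 4]
def vs1 : List ℕ := [1, 15, 20, 22, 17, 16, 21, 19, 37, 39, 34, 35, 40, 38, 33, 4, 0]
def mask2 : ℕ := 1165766936497637
def ord2 : List ℕ := [0, 6, 30, 38, 33, 11, 45, 50, 42, 8, 2, 7, 10, 21, 26, 18, 5]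
def vs2 : List ℕ := [1, 15, 20, 23, 18, 27, 32, 29, 24, 3, 2, 5, 9, 14, 11, 6, 0]
def mask3 : ℕ := 3723134060298167145
def ord3 : List ℕ := [0, 6, 27, 31, 36, 33, 29, 32, 37, 14, 61, 56, 53, 57, 60, 55, 51, 9, 3, 8, 39, 43, 48, 45, 41, 44, 49, 13, 25, 20, 17, 21, 24, 19, 15, 5]
def vs3 : List ℕ := [1, 15, 16, 21, 23, 18, 17, 22, 19, 37, 40, 35, 36, 41, 39, 34, 33, 4, 3, 24, 25, 30, 32, 27, 26, 31, 28, 10, 13, 8, 9, 14, 12, 7, 6, 0]

def eA (x : Fin 63) : Fin 42 := Fin.ofNat 42 (pA / 2 ^ (6 * x.val) % 64)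
def eB (x : Fin 63) : Fin 42 := Fin.ofNat 42 (pB / 2 ^ (6 * x.val) % 64)
def i1 (v : Fin 42) : Fin 63 := Fin.ofNat 63 (pI1 / 2 ^ (6 * v.val) % 64)
def i2 (v : Fin 42) : Fin 63 := Fin.ofNat 63 (pI2 / 2 ^ (6 * v.val) % 64)
def i3 (v : Fin 42) : Fin 63 := Fin.ofNat 63 (pI3 / 2 ^ (6 * v.val) % 64)
/-- The coverage of the cover. -/
def wt (x : Fin 63) : ℕ := pW / 2 ^ (3 * x.val) % 8

theorem inc_iff : ∀ v : Fin 42, ∀ x : Fin 63,
    (v = eA x ∨ v = eB x) ↔ (x = i1 v ∨ x = i2 v ∨ x = i3 v) := by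
  decide +kernel

theorem nd : ∀ x : Fin 63, eA x ≠ eB x := by decide +kernel

theorem i_ne : ∀ v : Fin 42, i1 v ≠ i2 v ∧ i1 v ≠ i3 v ∧ i2 v ≠ i3 v := by decide +kernel

def ends (x : Fin 63) : Sym2 (Fin 42) := s(eA x, eB x)

theorem p_iff (v : Fin 42) (x : Fin 63) :
    (v ∈ ends x ∧ ¬ (ends x).IsDiag) ↔ (x = i1 v ∨ x = i2 v ∨ x = i3 v) := by
  unfold ends
  rw [Sym2.mk_isDiag_iff, Sym2.mem_iff, ← inc_iff v x]
  exact ⟨fun h => h.1, fun h => ⟨h, nd x⟩⟩

/-- indicator -/
def χ (S : Finset (Fin 63)) (x : Fin 63) : ℕ := if x ∈ S then 1 else 0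

theorem χ_le (S : Finset (Fin 63)) (x : Fin 63) : χ S x ≤ 1 := by
  unfold χ; split <;> omega

theorem χ_one {S : Finset (Fin 63)} {x : Fin 63} : χ S x = 1 ↔ x ∈ S := by
  unfold χ; split <;> simp_all

theorem χ_zero {S : Finset (Fin 63)} {x : Fin 63} : χ S x = 0 ↔ x ∉ S := by
  unfold χ; split <;> simp_all

theorem card_inc (S : Finset (Fin 63)) (v : Fin 42)
    [DecidablePred (fun x : Fin 63 => v ∈ ends x ∧ ¬ (ends x).IsDiag)] :
    (S.filter (fun x => v ∈ ends x ∧ ¬ (ends x).IsDiag)).card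
      = χ S (i1 v) + χ S (i2 v) + χ S (i3 v) := by
  have h1 : S.filter (fun x => v ∈ ends x ∧ ¬ (ends x).IsDiag)
      = ({i1 v, i2 v, i3 v} : Finset (Fin 63)).filter (fun x => x ∈ S) := by
    ext x
    simp only [Finset.mem_filter, p_iff, Finset.mem_insert, Finset.mem_singleton]
    tauto
  rw [h1, Finset.card_filter]
  obtain ⟨h12, h13, h23⟩ := i_ne v
  rw [Finset.sum_insert (by simp [h12, h13]), Finset.sum_insert (by simp [h23]),
    Finset.sum_singleton]
  unfold χ
  omega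

/-! ### The Petersen lemma -/

/-- parity conditions at the ten vertices of the Petersen graph -/
def P15 (f : Fin 15 → ℕ) : Prop :=
  (f 4 + f 0 + f 5) % 2 = 0 ∧ (f 0 + f 1 + f 6) % 2 = 0 ∧ (f 1 + f 2 + f 7) % 2 = 0 ∧
  (f 2 + f 3 + f 8) % 2 = 0 ∧ (f 3 + f 4 + f 9) % 2 = 0 ∧
  (f 10 + f 13 + f 5) % 2 = 0 ∧ (f 11 + f 14 + f 6) % 2 = 0 ∧ (f 12 + f 10 + f 7) % 2 = 0 ∧
  (f 13 + f 11 + f 8) % 2 = 0 ∧ (f 14 + f 12 + f 9) % 2 = 0

/-- at every vertex the spoke carries the sum of the two other edges -/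
def S15 (c : Fin 15 → ℕ) : Prop :=
  (c 5 = c 4 + c 0) ∧ (c 6 = c 0 + c 1) ∧ (c 7 = c 1 + c 2) ∧
  (c 8 = c 2 + c 3) ∧ (c 9 = c 3 + c 4) ∧
  (c 5 = c 10 + c 13) ∧ (c 6 = c 11 + c 14) ∧ (c 7 = c 12 + c 10) ∧
  (c 8 = c 13 + c 11) ∧ (c 9 = c 14 + c 12)

theorem par_le {a b c : ℕ} (ha : a ≤ 1) (hb : b ≤ 1) (hc : c ≤ 1) (h : (a + b + c) % 2 = 0) :
    c ≤ a + b := by omega

theorem ptwise {m : ℕ} {f g : Fin m → ℕ} (h : ∀ j, f j ≤ g j) (hs : ∑ j, f j = ∑ j, g j) :
    ∀ j, f j = g j := by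
  have := (Finset.sum_eq_sum_iff_of_le (s := Finset.univ) (fun i _ => h i)).1 hs
  intro j
  exact this j (Finset.mem_univ j)

theorem local_even (f : Fin 15 → ℕ) (hf : ∀ k, f k ≤ 1) (hs : S15 f) :
    Even (f 0 + f 1 + f 2 + f 3 + f 4) := by
  obtain ⟨h1, h2, h3, h4, h5, h6, h7, h8, h9, h10⟩ := hs
  have a0 := hf 0; have a1 := hf 1; have a2 := hf 2; have a3 := hf 3; have a4 := hf 4
  have a5 := hf 5; have a6 := hf 6; have a7 := hf 7; have a8 := hf 8; have a9 := hf 9
  rw [Nat.even_iff]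
  rcases Nat.le_one_iff_eq_zero_or_eq_one.1 a0 with b0 | b0 <;>
  rcases Nat.le_one_iff_eq_zero_or_eq_one.1 a1 with b1 | b1 <;>
  rcases Nat.le_one_iff_eq_zero_or_eq_one.1 a2 with b2 | b2 <;>
  rcases Nat.le_one_iff_eq_zero_or_eq_one.1 a3 with b3 | b3 <;>
  rcases Nat.le_one_iff_eq_zero_or_eq_one.1 a4 with b4 | b4 <;>
  omega

theorem pet {m : ℕ} (F : Fin m → Fin 15 → ℕ) (hF : ∀ j k, F j k ≤ 1)
    (hp : ∀ j, P15 (F j)) (hc : S15 (fun k => ∑ j, F j k)) :
    Even (∑ j, F j 0 + ∑ j, F j 1 + ∑ j, F j 2 + ∑ j, F j 3 + ∑ j, F j 4) := by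
  obtain ⟨h1, h2, h3, h4, h5, h6, h7, h8, h9, h10⟩ := hc
  simp only [← Finset.sum_add_distrib] at h1 h2 h3 h4 h5 h6 h7 h8 h9 h10 ⊢
  have q1 := ptwise (fun j => par_le (hF j 4) (hF j 0) (hF j 5) (hp j).1) h1
  have q2 := ptwise (fun j => par_le (hF j 0) (hF j 1) (hF j 6) (hp j).2.1) h2
  have q3 := ptwise (fun j => par_le (hF j 1) (hF j 2) (hF j 7) (hp j).2.2.1) h3
  have q4 := ptwise (fun j => par_le (hF j 2) (hF j 3) (hF j 8) (hp j).2.2.2.1) h4
  have q5 := ptwise (fun j => par_le (hF j 3) (hF j 4) (hF j 9) (hp j).2.2.2.2.1) h5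
  have q6 := ptwise (fun j => par_le (hF j 10) (hF j 13) (hF j 5) (hp j).2.2.2.2.2.1) h6
  have q7 := ptwise (fun j => par_le (hF j 11) (hF j 14) (hF j 6) (hp j).2.2.2.2.2.2.1) h7
  have q8 := ptwise (fun j => par_le (hF j 12) (hF j 10) (hF j 7) (hp j).2.2.2.2.2.2.2.1) h8
  have q9 := ptwise (fun j => par_le (hF j 13) (hF j 11) (hF j 8) (hp j).2.2.2.2.2.2.2.2.1) h9
  have q10 := ptwise (fun j => par_le (hF j 14) (hF j 12) (hF j 9) (hp j).2.2.2.2.2.2.2.2.2) h10
  have key : ∀ j ∈ (Finset.univ : Finset (Fin m)),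
      Even (F j 0 + F j 1 + F j 2 + F j 3 + F j 4) := fun j _ =>
    local_even (F j) (hF j) ⟨q1 j, q2 j, q3 j, q4 j, q5 j, q6 j, q7 j, q8 j, q9 j, q10 j⟩
  exact Finset.even_sum _ key

/-! ### The negative part -/

/-- the fifteen edges of the `g`-th gadget, in Petersen order -/
def gE : Fin 4 → Fin 15 → Fin 63 := ![
  ![5, 15, 16, 17, 10, 13, 18, 19, 20, 21, 22, 23, 24, 25, 26],
  ![6, 27, 28, 29, 11, 14, 30, 31, 32, 33, 34, 35, 36, 37, 38],
  ![8, 39, 40, 41, 11, 13, 42, 43, 44, 45, 46, 47, 48, 49, 50],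
  ![9, 51, 52, 53, 12, 14, 54, 55, 56, 57, 58, 59, 60, 61, 62]]

/-- gadget vertices `1..9` of the gadget `g` -/
def gV (g : Fin 4) (k : Fin 9) : Fin 42 := Fin.ofNat 42 (6 + 9 * g.val + k.val)

/-- parity condition at all vertices -/
def Par (S : Finset (Fin 63)) : Prop :=
  ∀ v : Fin 42, (χ S (i1 v) + χ S (i2 v) + χ S (i3 v)) % 2 = 0

theorem par_at (S : Finset (Fin 63)) (h : Par S) (v : Fin 42) (a b c : Fin 63) (ha : i1 v = a) (hb : i2 v = b)
    (hc : i3 v = c) : (χ S a + χ S b + χ S c) % 2 = 0 := by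
  subst ha hb hc; exact h v

theorem cut0 (S : Finset (Fin 63)) (h : Par S) : (χ S 5 + χ S 10 + χ S 13) % 2 = 0 := by
  have h0 := par_at S h 6 5 15 18 (by decide +kernel) (by decide +kernel) (by decide +kernel)
  have h1 := par_at S h 7 15 16 19 (by decide +kernel) (by decide +kernel) (by decide +kernel)
  have h2 := par_at S h 8 16 17 20 (by decide +kernel) (by decide +kernel) (by decide +kernel)
  have h3 := par_at S h 9 10 17 21 (by decide +kernel) (by decide +kernel) (by decide +kernel)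
  have h4 := par_at S h 10 13 22 25 (by decide +kernel) (by decide +kernel) (by decide +kernel)
  have h5 := par_at S h 11 18 23 26 (by decide +kernel) (by decide +kernel) (by decide +kernel)
  have h6 := par_at S h 12 19 22 24 (by decide +kernel) (by decide +kernel) (by decide +kernel)
  have h7 := par_at S h 13 20 23 25 (by decide +kernel) (by decide +kernel) (by decide +kernel)
  have h8 := par_at S h 14 21 24 26 (by decide +kernel) (by decide +kernel) (by decide +kernel)
  omega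

theorem P15g0 (S : Finset (Fin 63)) (h : Par S) : P15 (fun k => χ S (gE 0 k)) := by
  have h0 := cut0 S h
  have h1 := par_at S h 6 5 15 18 (by decide +kernel) (by decide +kernel) (by decide +kernel)
  have h2 := par_at S h 7 15 16 19 (by decide +kernel) (by decide +kernel) (by decide +kernel)
  have h3 := par_at S h 8 16 17 20 (by decide +kernel) (by decide +kernel) (by decide +kernel)
  have h4 := par_at S h 9 10 17 21 (by decide +kernel) (by decide +kernel) (by decide +kernel)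
  have h5 := par_at S h 10 13 22 25 (by decide +kernel) (by decide +kernel) (by decide +kernel)
  have h6 := par_at S h 11 18 23 26 (by decide +kernel) (by decide +kernel) (by decide +kernel)
  have h7 := par_at S h 12 19 22 24 (by decide +kernel) (by decide +kernel) (by decide +kernel)
  have h8 := par_at S h 13 20 23 25 (by decide +kernel) (by decide +kernel) (by decide +kernel)
  have h9 := par_at S h 14 21 24 26 (by decide +kernel) (by decide +kernel) (by decide +kernel)
  change (χ S 10 + χ S 5 + χ S 13) % 2 = 0 ∧ (χ S 5 + χ S 15 + χ S 18) % 2 = 0 ∧ (χ S 15 + χ S 16 + χ S 19) % 2 = 0 ∧ (χ S 16 + χ S 17 + χ S 20) % 2 = 0 ∧ (χ S 17 + χ S 10 + χ S 21) % 2 = 0 ∧ (χ S 22 + χ S 25 + χ S 13) % 2 = 0 ∧ (χ S 23 + χ S 26 + χ S 18) % 2 = 0 ∧ (χ S 24 + χ S 22 + χ S 19) % 2 = 0 ∧ (χ S 25 + χ S 23 + χ S 20) % 2 = 0 ∧ (χ S 26 + χ S 24 + χ S 21) % 2 = 0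
  refine ⟨?_, ?_, ?_, ?_, ?_, ?_, ?_, ?_, ?_, ?_⟩ <;> omega

theorem cut1 (S : Finset (Fin 63)) (h : Par S) : (χ S 6 + χ S 11 + χ S 14) % 2 = 0 := by
  have h0 := par_at S h 15 6 27 30 (by decide +kernel) (by decide +kernel) (by decide +kernel)
  have h1 := par_at S h 16 27 28 31 (by decide +kernel) (by decide +kernel) (by decide +kernel)
  have h2 := par_at S h 17 28 29 32 (by decide +kernel) (by decide +kernel) (by decide +kernel)
  have h3 := par_at S h 18 11 29 33 (by decide +kernel) (by decide +kernel) (by decide +kernel)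
  have h4 := par_at S h 19 14 34 37 (by decide +kernel) (by decide +kernel) (by decide +kernel)
  have h5 := par_at S h 20 30 35 38 (by decide +kernel) (by decide +kernel) (by decide +kernel)
  have h6 := par_at S h 21 31 34 36 (by decide +kernel) (by decide +kernel) (by decide +kernel)
  have h7 := par_at S h 22 32 35 37 (by decide +kernel) (by decide +kernel) (by decide +kernel)
  have h8 := par_at S h 23 33 36 38 (by decide +kernel) (by decide +kernel) (by decide +kernel)
  omega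

theorem P15g1 (S : Finset (Fin 63)) (h : Par S) : P15 (fun k => χ S (gE 1 k)) := by
  have h0 := cut1 S h
  have h1 := par_at S h 15 6 27 30 (by decide +kernel) (by decide +kernel) (by decide +kernel)
  have h2 := par_at S h 16 27 28 31 (by decide +kernel) (by decide +kernel) (by decide +kernel)
  have h3 := par_at S h 17 28 29 32 (by decide +kernel) (by decide +kernel) (by decide +kernel)
  have h4 := par_at S h 18 11 29 33 (by decide +kernel) (by decide +kernel) (by decide +kernel)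
  have h5 := par_at S h 19 14 34 37 (by decide +kernel) (by decide +kernel) (by decide +kernel)
  have h6 := par_at S h 20 30 35 38 (by decide +kernel) (by decide +kernel) (by decide +kernel)
  have h7 := par_at S h 21 31 34 36 (by decide +kernel) (by decide +kernel) (by decide +kernel)
  have h8 := par_at S h 22 32 35 37 (by decide +kernel) (by decide +kernel) (by decide +kernel)
  have h9 := par_at S h 23 33 36 38 (by decide +kernel) (by decide +kernel) (by decide +kernel)
  change (χ S 11 + χ S 6 + χ S 14) % 2 = 0 ∧ (χ S 6 + χ S 27 + χ S 30) % 2 = 0 ∧ (χ S 27 + χ S 28 + χ S 31) % 2 = 0 ∧ (χ S 28 + χ S 29 + χ S 32) % 2 = 0 ∧ (χ S 29 + χ S 11 + χ S 33) % 2 = 0 ∧ (χ S 34 + χ S 37 + χ S 14) % 2 = 0 ∧ (χ S 35 + χ S 38 + χ S 30) % 2 = 0 ∧ (χ S 36 + χ S 34 + χ S 31) % 2 = 0 ∧ (χ S 37 + χ S 35 + χ S 32) % 2 = 0 ∧ (χ S 38 + χ S 36 + χ S 33) % 2 = 0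
  refine ⟨?_, ?_, ?_, ?_, ?_, ?_, ?_, ?_, ?_, ?_⟩ <;> omega

theorem cut2 (S : Finset (Fin 63)) (h : Par S) : (χ S 8 + χ S 11 + χ S 13) % 2 = 0 := by
  have h0 := par_at S h 24 8 39 42 (by decide +kernel) (by decide +kernel) (by decide +kernel)
  have h1 := par_at S h 25 39 40 43 (by decide +kernel) (by decide +kernel) (by decide +kernel)
  have h2 := par_at S h 26 40 41 44 (by decide +kernel) (by decide +kernel) (by decide +kernel)
  have h3 := par_at S h 27 11 41 45 (by decide +kernel) (by decide +kernel) (by decide +kernel)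
  have h4 := par_at S h 28 13 46 49 (by decide +kernel) (by decide +kernel) (by decide +kernel)
  have h5 := par_at S h 29 42 47 50 (by decide +kernel) (by decide +kernel) (by decide +kernel)
  have h6 := par_at S h 30 43 46 48 (by decide +kernel) (by decide +kernel) (by decide +kernel)
  have h7 := par_at S h 31 44 47 49 (by decide +kernel) (by decide +kernel) (by decide +kernel)
  have h8 := par_at S h 32 45 48 50 (by decide +kernel) (by decide +kernel) (by decide +kernel)
  omega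

theorem P15g2 (S : Finset (Fin 63)) (h : Par S) : P15 (fun k => χ S (gE 2 k)) := by
  have h0 := cut2 S h
  have h1 := par_at S h 24 8 39 42 (by decide +kernel) (by decide +kernel) (by decide +kernel)
  have h2 := par_at S h 25 39 40 43 (by decide +kernel) (by decide +kernel) (by decide +kernel)
  have h3 := par_at S h 26 40 41 44 (by decide +kernel) (by decide +kernel) (by decide +kernel)
  have h4 := par_at S h 27 11 41 45 (by decide +kernel) (by decide +kernel) (by decide +kernel)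
  have h5 := par_at S h 28 13 46 49 (by decide +kernel) (by decide +kernel) (by decide +kernel)
  have h6 := par_at S h 29 42 47 50 (by decide +kernel) (by decide +kernel) (by decide +kernel)
  have h7 := par_at S h 30 43 46 48 (by decide +kernel) (by decide +kernel) (by decide +kernel)
  have h8 := par_at S h 31 44 47 49 (by decide +kernel) (by decide +kernel) (by decide +kernel)
  have h9 := par_at S h 32 45 48 50 (by decide +kernel) (by decide +kernel) (by decide +kernel)
  change (χ S 11 + χ S 8 + χ S 13) % 2 = 0 ∧ (χ S 8 + χ S 39 + χ S 42) % 2 = 0 ∧ (χ S 39 + χ S 40 + χ S 43) % 2 = 0 ∧ (χ S 40 + χ S 41 + χ S 44) % 2 = 0 ∧ (χ S 41 + χ S 11 + χ S 45) % 2 = 0 ∧ (χ S 46 + χ S 49 + χ S 13) % 2 = 0 ∧ (χ S 47 + χ S 50 + χ S 42) % 2 = 0 ∧ (χ S 48 + χ S 46 + χ S 43) % 2 = 0 ∧ (χ S 49 + χ S 47 + χ S 44) % 2 = 0 ∧ (χ S 50 + χ S 48 + χ S 45) % 2 = 0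
  refine ⟨?_, ?_, ?_, ?_, ?_, ?_, ?_, ?_, ?_, ?_⟩ <;> omega

theorem cut3 (S : Finset (Fin 63)) (h : Par S) : (χ S 9 + χ S 12 + χ S 14) % 2 = 0 := by
  have h0 := par_at S h 33 9 51 54 (by decide +kernel) (by decide +kernel) (by decide +kernel)
  have h1 := par_at S h 34 51 52 55 (by decide +kernel) (by decide +kernel) (by decide +kernel)
  have h2 := par_at S h 35 52 53 56 (by decide +kernel) (by decide +kernel) (by decide +kernel)
  have h3 := par_at S h 36 12 53 57 (by decide +kernel) (by decide +kernel) (by decide +kernel)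
  have h4 := par_at S h 37 14 58 61 (by decide +kernel) (by decide +kernel) (by decide +kernel)
  have h5 := par_at S h 38 54 59 62 (by decide +kernel) (by decide +kernel) (by decide +kernel)
  have h6 := par_at S h 39 55 58 60 (by decide +kernel) (by decide +kernel) (by decide +kernel)
  have h7 := par_at S h 40 56 59 61 (by decide +kernel) (by decide +kernel) (by decide +kernel)
  have h8 := par_at S h 41 57 60 62 (by decide +kernel) (by decide +kernel) (by decide +kernel)
  omega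

theorem P15g3 (S : Finset (Fin 63)) (h : Par S) : P15 (fun k => χ S (gE 3 k)) := by
  have h0 := cut3 S h
  have h1 := par_at S h 33 9 51 54 (by decide +kernel) (by decide +kernel) (by decide +kernel)
  have h2 := par_at S h 34 51 52 55 (by decide +kernel) (by decide +kernel) (by decide +kernel)
  have h3 := par_at S h 35 52 53 56 (by decide +kernel) (by decide +kernel) (by decide +kernel)
  have h4 := par_at S h 36 12 53 57 (by decide +kernel) (by decide +kernel) (by decide +kernel)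
  have h5 := par_at S h 37 14 58 61 (by decide +kernel) (by decide +kernel) (by decide +kernel)
  have h6 := par_at S h 38 54 59 62 (by decide +kernel) (by decide +kernel) (by decide +kernel)
  have h7 := par_at S h 39 55 58 60 (by decide +kernel) (by decide +kernel) (by decide +kernel)
  have h8 := par_at S h 40 56 59 61 (by decide +kernel) (by decide +kernel) (by decide +kernel)
  have h9 := par_at S h 41 57 60 62 (by decide +kernel) (by decide +kernel) (by decide +kernel)
  change (χ S 12 + χ S 9 + χ S 14) % 2 = 0 ∧ (χ S 9 + χ S 51 + χ S 54) % 2 = 0 ∧ (χ S 51 + χ S 52 + χ S 55) % 2 = 0 ∧ (χ S 52 + χ S 53 + χ S 56) % 2 = 0 ∧ (χ S 53 + χ S 12 + χ S 57) % 2 = 0 ∧ (χ S 58 + χ S 61 + χ S 14) % 2 = 0 ∧ (χ S 59 + χ S 62 + χ S 54) % 2 = 0 ∧ (χ S 60 + χ S 58 + χ S 55) % 2 = 0 ∧ (χ S 61 + χ S 59 + χ S 56) % 2 = 0 ∧ (χ S 62 + χ S 60 + χ S 57) % 2 = 0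
  refine ⟨?_, ?_, ?_, ?_, ?_, ?_, ?_, ?_, ?_, ?_⟩ <;> omega

def cE : Fin 15 → Fin 63 := ![0, 1, 2, 3, 4, 5, 6, 7, 8, 9, 10, 11, 12, 13, 14]

theorem P15c (S : Finset (Fin 63)) (h : Par S) : P15 (fun k => χ S (cE k)) := by
  have k0 := cut0 S h
  have k1 := cut1 S h
  have k2 := cut2 S h
  have k3 := cut3 S h
  have h0 := par_at S h 0 0 4 5 (by decide +kernel) (by decide +kernel) (by decide +kernel)
  have h1 := par_at S h 1 0 1 6 (by decide +kernel) (by decide +kernel) (by decide +kernel)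
  have h2 := par_at S h 2 1 2 7 (by decide +kernel) (by decide +kernel) (by decide +kernel)
  have h3 := par_at S h 3 2 3 8 (by decide +kernel) (by decide +kernel) (by decide +kernel)
  have h4 := par_at S h 4 3 4 9 (by decide +kernel) (by decide +kernel) (by decide +kernel)
  have h5 := par_at S h 5 7 10 12 (by decide +kernel) (by decide +kernel) (by decide +kernel)
  change (χ S 4 + χ S 0 + χ S 5) % 2 = 0 ∧ (χ S 0 + χ S 1 + χ S 6) % 2 = 0 ∧ (χ S 1 + χ S 2 + χ S 7) % 2 = 0 ∧ (χ S 2 + χ S 3 + χ S 8) % 2 = 0 ∧ (χ S 3 + χ S 4 + χ S 9) % 2 = 0 ∧ (χ S 10 + χ S 13 + χ S 5) % 2 = 0 ∧ (χ S 11 + χ S 14 + χ S 6) % 2 = 0 ∧ (χ S 12 + χ S 10 + χ S 7) % 2 = 0 ∧ (χ S 13 + χ S 11 + χ S 8) % 2 = 0 ∧ (χ S 14 + χ S 12 + χ S 9) % 2 = 0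
  refine ⟨?_, ?_, ?_, ?_, ?_, ?_, ?_, ?_, ?_, ?_⟩ <;> omega


theorem neg {m : ℕ} (F : Fin m → Finset (Fin 63)) (hp : ∀ j, Par (F j)) (c : Fin 63 → ℕ)
    (hc : ∀ e, c e = ∑ j, χ (F j) e) (h0 : ∀ e, 0 < c e) (hle : ∀ e, c e ≤ wt e)
    (hpar : ∀ e, c e % 2 = wt e % 2) : ∀ e, c e = wt e := by
  have hv : ∀ e, wt e ≤ 2 → c e = wt e := by
    intro e he
    have a1 := h0 e; have a2 := hle e; have a3 := hpar e
    omega
  have c1 : c 1 = 1 := by rw [hv 1 (by decide +kernel)]; decide +kernel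
  have c2 : c 2 = 1 := by rw [hv 2 (by decide +kernel)]; decide +kernel
  have c3 : c 3 = 2 := by rw [hv 3 (by decide +kernel)]; decide +kernel
  have c4 : c 4 = 1 := by rw [hv 4 (by decide +kernel)]; decide +kernel
  have c7 : c 7 = 2 := by rw [hv 7 (by decide +kernel)]; decide +kernel
  have c10 : c 10 = 1 := by rw [hv 10 (by decide +kernel)]; decide +kernel
  have c11 : c 11 = 1 := by rw [hv 11 (by decide +kernel)]; decide +kernel
  have c12 : c 12 = 1 := by rw [hv 12 (by decide +kernel)]; decide +kernel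
  have c13 : c 13 = 2 := by rw [hv 13 (by decide +kernel)]; decide +kernel
  have c14 : c 14 = 2 := by rw [hv 14 (by decide +kernel)]; decide +kernel
  have c15 : c 15 = 1 := by rw [hv 15 (by decide +kernel)]; decide +kernel
  have c16 : c 16 = 1 := by rw [hv 16 (by decide +kernel)]; decide +kernel
  have c17 : c 17 = 1 := by rw [hv 17 (by decide +kernel)]; decide +kernel
  have c18 : c 18 = 2 := by rw [hv 18 (by decide +kernel)]; decide +kernel
  have c19 : c 19 = 2 := by rw [hv 19 (by decide +kernel)]; decide +kernel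
  have c20 : c 20 = 2 := by rw [hv 20 (by decide +kernel)]; decide +kernel
  have c21 : c 21 = 2 := by rw [hv 21 (by decide +kernel)]; decide +kernel
  have c22 : c 22 = 1 := by rw [hv 22 (by decide +kernel)]; decide +kernel
  have c23 : c 23 = 1 := by rw [hv 23 (by decide +kernel)]; decide +kernel
  have c24 : c 24 = 1 := by rw [hv 24 (by decide +kernel)]; decide +kernel
  have c25 : c 25 = 1 := by rw [hv 25 (by decide +kernel)]; decide +kernel
  have c26 : c 26 = 1 := by rw [hv 26 (by decide +kernel)]; decide +kernel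
  have c27 : c 27 = 1 := by rw [hv 27 (by decide +kernel)]; decide +kernel
  have c28 : c 28 = 1 := by rw [hv 28 (by decide +kernel)]; decide +kernel
  have c29 : c 29 = 1 := by rw [hv 29 (by decide +kernel)]; decide +kernel
  have c30 : c 30 = 2 := by rw [hv 30 (by decide +kernel)]; decide +kernel
  have c31 : c 31 = 2 := by rw [hv 31 (by decide +kernel)]; decide +kernel
  have c32 : c 32 = 2 := by rw [hv 32 (by decide +kernel)]; decide +kernel
  have c33 : c 33 = 2 := by rw [hv 33 (by decide +kernel)]; decide +kernel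
  have c34 : c 34 = 1 := by rw [hv 34 (by decide +kernel)]; decide +kernel
  have c35 : c 35 = 1 := by rw [hv 35 (by decide +kernel)]; decide +kernel
  have c36 : c 36 = 1 := by rw [hv 36 (by decide +kernel)]; decide +kernel
  have c37 : c 37 = 1 := by rw [hv 37 (by decide +kernel)]; decide +kernel
  have c38 : c 38 = 1 := by rw [hv 38 (by decide +kernel)]; decide +kernel
  have c39 : c 39 = 1 := by rw [hv 39 (by decide +kernel)]; decide +kernel
  have c40 : c 40 = 1 := by rw [hv 40 (by decide +kernel)]; decide +kernel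
  have c41 : c 41 = 1 := by rw [hv 41 (by decide +kernel)]; decide +kernel
  have c42 : c 42 = 2 := by rw [hv 42 (by decide +kernel)]; decide +kernel
  have c43 : c 43 = 2 := by rw [hv 43 (by decide +kernel)]; decide +kernel
  have c44 : c 44 = 2 := by rw [hv 44 (by decide +kernel)]; decide +kernel
  have c45 : c 45 = 2 := by rw [hv 45 (by decide +kernel)]; decide +kernel
  have c46 : c 46 = 1 := by rw [hv 46 (by decide +kernel)]; decide +kernel
  have c47 : c 47 = 1 := by rw [hv 47 (by decide +kernel)]; decide +kernel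
  have c48 : c 48 = 1 := by rw [hv 48 (by decide +kernel)]; decide +kernel
  have c49 : c 49 = 1 := by rw [hv 49 (by decide +kernel)]; decide +kernel
  have c50 : c 50 = 1 := by rw [hv 50 (by decide +kernel)]; decide +kernel
  have c51 : c 51 = 1 := by rw [hv 51 (by decide +kernel)]; decide +kernel
  have c52 : c 52 = 1 := by rw [hv 52 (by decide +kernel)]; decide +kernel
  have c53 : c 53 = 1 := by rw [hv 53 (by decide +kernel)]; decide +kernel
  have c54 : c 54 = 2 := by rw [hv 54 (by decide +kernel)]; decide +kernel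
  have c55 : c 55 = 2 := by rw [hv 55 (by decide +kernel)]; decide +kernel
  have c56 : c 56 = 2 := by rw [hv 56 (by decide +kernel)]; decide +kernel
  have c57 : c 57 = 2 := by rw [hv 57 (by decide +kernel)]; decide +kernel
  have c58 : c 58 = 1 := by rw [hv 58 (by decide +kernel)]; decide +kernel
  have c59 : c 59 = 1 := by rw [hv 59 (by decide +kernel)]; decide +kernel
  have c60 : c 60 = 1 := by rw [hv 60 (by decide +kernel)]; decide +kernel
  have c61 : c 61 = 1 := by rw [hv 61 (by decide +kernel)]; decide +kernel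
  have c62 : c 62 = 1 := by rw [hv 62 (by decide +kernel)]; decide +kernel
  have c5 : c 5 = 3 := by
    by_contra hne
    have w1 : wt 5 = 3 := by decide +kernel
    have a1 := h0 5; have a2 := hle 5; have a3 := hpar 5
    rw [w1] at a2 a3
    have c1 : c 5 = 1 := by omega
    have hS : S15 (fun k => c (gE 0 k)) := by
      change (c 13 = c 10 + c 5) ∧ (c 18 = c 5 + c 15) ∧ (c 19 = c 15 + c 16) ∧ (c 20 = c 16 + c 17) ∧ (c 21 = c 17 + c 10) ∧ (c 13 = c 22 + c 25) ∧ (c 18 = c 23 + c 26) ∧ (c 19 = c 24 + c 22) ∧ (c 20 = c 25 + c 23) ∧ (c 21 = c 26 + c 24)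
      refine ⟨?_, ?_, ?_, ?_, ?_, ?_, ?_, ?_, ?_, ?_⟩ <;> omega
    have hS' : S15 (fun k => ∑ j, (fun j k => χ (F j) (gE 0 k)) j k) := by
      simp only [hc] at hS; exact hS
    have hE := pet (fun j k => χ (F j) (gE 0 k)) (fun j k => χ_le _ _)
      (fun j => P15g0 (F j) (hp j)) hS'
    simp only [← hc] at hE
    have hE' : Even (c 5 + c 15 + c 16 + c 17 + c 10) := hE
    rw [Nat.even_iff] at hE'
    omega
  have c6 : c 6 = 3 := by
    by_contra hne
    have w1 : wt 6 = 3 := by decide +kernel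
    have a1 := h0 6; have a2 := hle 6; have a3 := hpar 6
    rw [w1] at a2 a3
    have c1 : c 6 = 1 := by omega
    have hS : S15 (fun k => c (gE 1 k)) := by
      change (c 14 = c 11 + c 6) ∧ (c 30 = c 6 + c 27) ∧ (c 31 = c 27 + c 28) ∧ (c 32 = c 28 + c 29) ∧ (c 33 = c 29 + c 11) ∧ (c 14 = c 34 + c 37) ∧ (c 30 = c 35 + c 38) ∧ (c 31 = c 36 + c 34) ∧ (c 32 = c 37 + c 35) ∧ (c 33 = c 38 + c 36)
      refine ⟨?_, ?_, ?_, ?_, ?_, ?_, ?_, ?_, ?_, ?_⟩ <;> omega
    have hS' : S15 (fun k => ∑ j, (fun j k => χ (F j) (gE 1 k)) j k) := by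
      simp only [hc] at hS; exact hS
    have hE := pet (fun j k => χ (F j) (gE 1 k)) (fun j k => χ_le _ _)
      (fun j => P15g1 (F j) (hp j)) hS'
    simp only [← hc] at hE
    have hE' : Even (c 6 + c 27 + c 28 + c 29 + c 11) := hE
    rw [Nat.even_iff] at hE'
    omega
  have c8 : c 8 = 3 := by
    by_contra hne
    have w1 : wt 8 = 3 := by decide +kernel
    have a1 := h0 8; have a2 := hle 8; have a3 := hpar 8
    rw [w1] at a2 a3
    have c1 : c 8 = 1 := by omega
    have hS : S15 (fun k => c (gE 2 k)) := by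
      change (c 13 = c 11 + c 8) ∧ (c 42 = c 8 + c 39) ∧ (c 43 = c 39 + c 40) ∧ (c 44 = c 40 + c 41) ∧ (c 45 = c 41 + c 11) ∧ (c 13 = c 46 + c 49) ∧ (c 42 = c 47 + c 50) ∧ (c 43 = c 48 + c 46) ∧ (c 44 = c 49 + c 47) ∧ (c 45 = c 50 + c 48)
      refine ⟨?_, ?_, ?_, ?_, ?_, ?_, ?_, ?_, ?_, ?_⟩ <;> omega
    have hS' : S15 (fun k => ∑ j, (fun j k => χ (F j) (gE 2 k)) j k) := by
      simp only [hc] at hS; exact hS
    have hE := pet (fun j k => χ (F j) (gE 2 k)) (fun j k => χ_le _ _)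
      (fun j => P15g2 (F j) (hp j)) hS'
    simp only [← hc] at hE
    have hE' : Even (c 8 + c 39 + c 40 + c 41 + c 11) := hE
    rw [Nat.even_iff] at hE'
    omega
  have c9 : c 9 = 3 := by
    by_contra hne
    have w1 : wt 9 = 3 := by decide +kernel
    have a1 := h0 9; have a2 := hle 9; have a3 := hpar 9
    rw [w1] at a2 a3
    have c1 : c 9 = 1 := by omega
    have hS : S15 (fun k => c (gE 3 k)) := by
      change (c 14 = c 12 + c 9) ∧ (c 54 = c 9 + c 51) ∧ (c 55 = c 51 + c 52) ∧ (c 56 = c 52 + c 53) ∧ (c 57 = c 53 + c 12) ∧ (c 14 = c 58 + c 61) ∧ (c 54 = c 59 + c 62) ∧ (c 55 = c 60 + c 58) ∧ (c 56 = c 61 + c 59) ∧ (c 57 = c 62 + c 60)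
      refine ⟨?_, ?_, ?_, ?_, ?_, ?_, ?_, ?_, ?_, ?_⟩ <;> omega
    have hS' : S15 (fun k => ∑ j, (fun j k => χ (F j) (gE 3 k)) j k) := by
      simp only [hc] at hS; exact hS
    have hE := pet (fun j k => χ (F j) (gE 3 k)) (fun j k => χ_le _ _)
      (fun j => P15g3 (F j) (hp j)) hS'
    simp only [← hc] at hE
    have hE' : Even (c 9 + c 51 + c 52 + c 53 + c 12) := hE
    rw [Nat.even_iff] at hE'
    omega
  have c0 : c 0 = 4 := by
    by_contra hne
    have w1 : wt 0 = 4 := by decide +kernel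
    have a1 := h0 0; have a2 := hle 0; have a3 := hpar 0
    rw [w1] at a2 a3
    have c1 : c 0 = 2 := by omega
    have hS : S15 (fun k => c (cE k)) := by
      change (c 5 = c 4 + c 0) ∧ (c 6 = c 0 + c 1) ∧ (c 7 = c 1 + c 2) ∧ (c 8 = c 2 + c 3) ∧ (c 9 = c 3 + c 4) ∧ (c 5 = c 10 + c 13) ∧ (c 6 = c 11 + c 14) ∧ (c 7 = c 12 + c 10) ∧ (c 8 = c 13 + c 11) ∧ (c 9 = c 14 + c 12)
      refine ⟨?_, ?_, ?_, ?_, ?_, ?_, ?_, ?_, ?_, ?_⟩ <;> omega
    have hS' : S15 (fun k => ∑ j, (fun j k => χ (F j) (cE k)) j k) := by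
      simp only [hc] at hS; exact hS
    have hE := pet (fun j k => χ (F j) (cE k)) (fun j k => χ_le _ _)
      (fun j => P15c (F j) (hp j)) hS'
    simp only [← hc] at hE
    have hE' : Even (c 0 + c 1 + c 2 + c 3 + c 4) := hE
    rw [Nat.even_iff] at hE'
    omega
  intro e
  by_cases h2 : wt e ≤ 2
  · exact hv e h2
  · have h3 : e = 0 ∨ e = 5 ∨ e = 6 ∨ e = 8 ∨ e = 9 := by
      revert h2; revert e; decide +kernel
    rcases h3 with rfl | rfl | rfl | rfl | rfl
    · rw [c0]; decide +kernel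
    · rw [c5]; decide +kernel
    · rw [c6]; decide +kernel
    · rw [c8]; decide +kernel
    · rw [c9]; decide +kernel


/-! ### The positive part -/

/-- membership in the `i`-th circuit -/
def tb (i : Fin 4) (x : Fin 63) : Bool := Nat.testBit (![mask0, mask1, mask2, mask3] i) x.val

/-- the four circuits -/
def F1 (i : Fin 4) : Finset (Fin 63) := Finset.univ.filter (fun x => tb i x = true)

theorem mem_F1 {i : Fin 4} {x : Fin 63} : x ∈ F1 i ↔ tb i x = true := by
  simp [F1]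

theorem χ_F1 (i : Fin 4) (x : Fin 63) : χ (F1 i) x = (tb i x).toNat := by
  unfold χ
  by_cases h : tb i x = true
  · rw [if_pos (mem_F1.2 h), h]; rfl
  · rw [if_neg (fun h' => h (mem_F1.1 h'))]
    rw [Bool.not_eq_true] at h
    rw [h]; rfl

theorem par_F1_aux : ∀ i : Fin 4, ∀ v : Fin 42,
    ((tb i (i1 v)).toNat + (tb i (i2 v)).toNat + (tb i (i3 v)).toNat) % 2 = 0 := by
  decide +kernel

theorem par_F1 (i : Fin 4) : Par (F1 i) := by
  intro v
  rw [χ_F1, χ_F1, χ_F1]
  exact par_F1_aux i v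

def od (i : Fin 4) : List ℕ := ![ord0, ord1, ord2, ord3] i
def vl (i : Fin 4) : List ℕ := ![vs0, vs1, vs2, vs3] i
def oe (i : Fin 4) (k : ℕ) : Fin 63 := Fin.ofNat 63 ((od i).getD k 0)
def ov (i : Fin 4) (k : ℕ) : Fin 42 := Fin.ofNat 42 ((vl i).getD k 0)

/-- `p`, `q` are the two edges of the `i`-th circuit at `v` -/
def good (i : Fin 4) (p q : Fin 63) (v : Fin 42) : Prop :=
  (tb i (i1 v) = false ∧ ((p = i2 v ∧ q = i3 v) ∨ (p = i3 v ∧ q = i2 v))) ∨
  (tb i (i2 v) = false ∧ ((p = i1 v ∧ q = i3 v) ∨ (p = i3 v ∧ q = i1 v))) ∨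
  (tb i (i3 v) = false ∧ ((p = i1 v ∧ q = i2 v) ∨ (p = i2 v ∧ q = i1 v)))

instance (i : Fin 4) (p q : Fin 63) (v : Fin 42) : Decidable (good i p q v) := by
  unfold good; infer_instance

theorem check1 : ∀ i : Fin 4, ∀ k : Fin 40, k.val + 1 < (od i).length →
    good i (oe i k.val) (oe i (k.val + 1)) (ov i k.val) := by
  decide +kernel

theorem check2 : ∀ i : Fin 4, ∀ x : Fin 63, tb i x = true →
    ∃ k : Fin 40, k.val < (od i).length ∧ oe i k.val = x := by
  decide +kernel

theorem len_le : ∀ i : Fin 4, (od i).length ≤ 40 := by decide +kernel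

theorem good_iff {i : Fin 4} {p q : Fin 63} {v : Fin 42} (h : good i p q v)
    {D : Finset (Fin 63)} (hD : D ⊆ F1 i) (hp : Par D) : p ∈ D ↔ q ∈ D := by
  have hz : ∀ y, tb i y = false → χ D y = 0 := by
    intro y hy
    rw [χ_zero]
    intro hm
    have := mem_F1.1 (hD hm)
    rw [hy] at this
    exact absurd this (by decide)
  have hv := hp v
  have l1 := χ_le D (i1 v); have l2 := χ_le D (i2 v); have l3 := χ_le D (i3 v)
  have main : χ D p = χ D q := by
    rcases h with ⟨h0, (⟨rfl, rfl⟩ | ⟨rfl, rfl⟩)⟩ | ⟨h0, (⟨rfl, rfl⟩ | ⟨rfl, rfl⟩)⟩ |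
      ⟨h0, (⟨rfl, rfl⟩ | ⟨rfl, rfl⟩)⟩ <;> have := hz _ h0 <;> omega
  rw [← χ_one, ← χ_one, main]

theorem chain (i : Fin 4) {D : Finset (Fin 63)} (hD : D ⊆ F1 i) (hp : Par D) :
    ∀ k : ℕ, k < (od i).length → (oe i k ∈ D ↔ oe i 0 ∈ D) := by
  intro k
  induction k with
  | zero => intro _; exact Iff.rfl
  | succ k ih =>
    intro hk
    have hk40 : k < 40 := lt_of_lt_of_le (Nat.lt_of_succ_lt hk) (len_le i)
    have := check1 i ⟨k, hk40⟩ hk
    exact (good_iff this hD hp).symm.trans (ih (Nat.lt_of_succ_lt hk))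

theorem minimal (i : Fin 4) {D : Finset (Fin 63)} (hD : D ⊆ F1 i) (hne : D.Nonempty)
    (hp : Par D) : D = F1 i := by
  apply Finset.Subset.antisymm hD
  obtain ⟨x, hx⟩ := hne
  obtain ⟨k, hk, rfl⟩ := check2 i x (mem_F1.1 (hD hx))
  have h0 := (chain i hD hp k.val hk).1 hx
  intro y hy
  obtain ⟨l, hl, rfl⟩ := check2 i y (mem_F1.1 hy)
  exact (chain i hD hp l.val hl).2 h0

theorem nonempty_F1 (i : Fin 4) : (F1 i).Nonempty := by
  refine ⟨0, mem_F1.2 ?_⟩
  revert i; decide +kernel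

theorem cov_aux : ∀ e : Fin 63, (tb 0 e).toNat + (tb 1 e).toNat + (tb 2 e).toNat
    + (tb 3 e).toNat = wt e := by decide +kernel

theorem card_cov {m : ℕ} (F : Fin m → Finset (Fin 63)) (e : Fin 63)
    [DecidablePred (fun j : Fin m => e ∈ F j)] :
    (Finset.univ.filter (fun j : Fin m => e ∈ F j)).card = ∑ j, χ (F j) e := by
  rw [Finset.card_filter]
  apply Finset.sum_congr rfl
  intro j _
  unfold χ
  by_cases h : e ∈ F j
  · rw [if_pos h, if_pos h]
  · rw [if_neg h, if_neg h]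

theorem cov_F1 (e : Fin 63) : ∑ j, χ (F1 j) e = wt e := by
  rw [Fin.sum_univ_four, χ_F1, χ_F1, χ_F1, χ_F1]
  exact cov_aux e

theorem par_iff (S : Finset (Fin 63)) (v : Fin 42)
    (inst : DecidablePred (fun x : Fin 63 => v ∈ ends x ∧ ¬ (ends x).IsDiag)) :
    Even ((@Finset.filter _ (fun x => v ∈ ends x ∧ ¬ (ends x).IsDiag) inst S).card) ↔
      (χ S (i1 v) + χ S (i2 v) + χ S (i3 v)) % 2 = 0 := by
  rw [card_inc, Nat.even_iff]

theorem wt_facts : (∀ e, 0 < wt e) ∧ (∀ e, wt e ≤ 4) ∧ wt 0 = 4 := by decide +kernel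

end Pool.Agent.H38R2.Depth4
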