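import Pool.Agent.H38R2.Alg

set_option autoImplicit false
set_option linter.style.haveILetI false

namespace Pool.Agent.H38R2

open MvPolynomial

/-- noncommutative polynomials with (possibly) a constant term -/
abbrev NP (Φ : Type*) [CommRing Φ] (X : Type*) := MonoidAlgebra Φ (FreeMonoid X)

section ev
variable {Φ : Type*} [CommRing Φ] {Q : Type*} [Ring Q] [Algebra Φ Q] {X : Type*}

/-- evaluation of a noncommutative polynomial -/
noncomputable def ev (v : X → Q) : NP Φ X →ₐ[Φ] Q :=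
  MonoidAlgebra.lift Φ Q (FreeMonoid X) (FreeMonoid.lift v)

theorem ev_apply (v : X → Q) (f : NP Φ X) :
    ev v f = f.coeff.sum fun w c => c • (w.toList.map v).prod := by
  unfold ev
  rw [MonoidAlgebra.lift_apply]
  simp only [FreeMonoid.lift_apply]

theorem ev_single (v : X → Q) (w : FreeMonoid X) (c : Φ) :
    ev v (MonoidAlgebra.single w c) = c • (w.toList.map v).prod := by
  unfold ev
  rw [MonoidAlgebra.lift_single, FreeMonoid.lift_apply]

end ev

variable {Φ : Type*} [CommRing Φ] {Q : Type*} [Ring Q] [Algebra Φ Q]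

/-- `λ^a μ^b ν^c ↦ y^a ξ y^b ζ y^c` (with `μ = X 0`, `λ = X 1`, `ν = X 2`). -/
noncomputable def EE (ξ y ζ : Q) : MvPolynomial (Fin 3) Φ →ₗ[Φ] Q :=
  (basisMonomials (Fin 3) Φ).constr Φ (fun m => y ^ m 1 * ξ * y ^ m 0 * ζ * y ^ m 2)

theorem EE_monomial (ξ y ζ : Q) (m : Fin 3 →₀ ℕ) (c : Φ) :
    EE ξ y ζ (monomial m c) = c • (y ^ m 1 * ξ * y ^ m 0 * ζ * y ^ m 2) := by
  have h : monomial m c = c • (basisMonomials (Fin 3) Φ) m := by
    rw [coe_basisMonomials, smul_monomial, smul_eq_mul, mul_one]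
  rw [h, map_smul, EE, Module.Basis.constr_basis]

theorem EE_mon (ξ y ζ : Q) (a b c : ℕ) :
    EE (Φ := Φ) ξ y ζ (X 1 ^ a * (X 0 ^ b * X 2 ^ c)) = y ^ a * ξ * y ^ b * ζ * y ^ c := by
  have h : (X 1 ^ a * (X 0 ^ b * X 2 ^ c) : MvPolynomial (Fin 3) Φ) =
      monomial (Finsupp.single 1 a + (Finsupp.single 0 b + Finsupp.single 2 c)) 1 := by
    simp only [X_pow_eq_monomial, monomial_mul, mul_one]
  rw [h, EE_monomial, one_smul]
  simp

/-- the generic matrices `x = e12`, `y = diag(λ, μ, ν)`, `z = e23`. -/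
noncomputable def XM : Fin 3 → Matrix (Fin 3) (Fin 3) (MvPolynomial (Fin 3) Φ) :=
  ![Matrix.single 0 1 1, Matrix.diagonal ![X 1, X 0, X 2], Matrix.single 1 2 1]

/-- the part of degree one in `x` and `z` with `x` before `z`. -/
noncomputable def Psi (R : NP Φ (Fin 3)) : MvPolynomial (Fin 3) Φ := (ev XM R) 0 2

section words

/-- product of generic matrices along a word -/
noncomputable def MW (Φ : Type*) [CommRing Φ] (w : List (Fin 3)) :
    Matrix (Fin 3) (Fin 3) (MvPolynomial (Fin 3) Φ) := (w.map XM).prod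

theorem MW_nil : MW Φ [] = 1 := rfl

theorem MW_cons (l : Fin 3) (w : List (Fin 3)) : MW Φ (l :: w) = XM l * MW Φ w := by
  simp [MW]

theorem MW_x0 (w : List (Fin 3)) : MW Φ (0 :: w) 0 2 = MW Φ w 1 2 := by
  rw [MW_cons]; simp [XM]
theorem MW_x1 (w : List (Fin 3)) : MW Φ (0 :: w) 1 2 = 0 := by
  rw [MW_cons]; simp [XM]
theorem MW_x2 (w : List (Fin 3)) : MW Φ (0 :: w) 2 2 = 0 := by
  rw [MW_cons]; simp [XM]
theorem MW_y0 (w : List (Fin 3)) : MW Φ (1 :: w) 0 2 = X 1 * MW Φ w 0 2 := by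
  rw [MW_cons]; simp [XM]
theorem MW_y1 (w : List (Fin 3)) : MW Φ (1 :: w) 1 2 = X 0 * MW Φ w 1 2 := by
  rw [MW_cons]; simp [XM]
theorem MW_y2 (w : List (Fin 3)) : MW Φ (1 :: w) 2 2 = X 2 * MW Φ w 2 2 := by
  rw [MW_cons]; simp [XM]
theorem MW_z0 (w : List (Fin 3)) : MW Φ (2 :: w) 0 2 = 0 := by
  rw [MW_cons]; simp [XM]
theorem MW_z1 (w : List (Fin 3)) : MW Φ (2 :: w) 1 2 = MW Φ w 2 2 := by
  rw [MW_cons]; simp [XM]
theorem MW_z2 (w : List (Fin 3)) : MW Φ (2 :: w) 2 2 = 0 := by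
  rw [MW_cons]; simp [XM]

theorem fin3_cases (l : Fin 3) : l = 0 ∨ l = 1 ∨ l = 2 := by
  revert l; decide

theorem MW2_all (w : List (Fin 3)) (h : ∀ l ∈ w, l = 1) : MW Φ w 2 2 = X 2 ^ w.length := by
  induction w with
  | nil => simp [MW_nil]
  | cons l w ih =>
    have : l = 1 := h l (by simp)
    subst this
    rw [MW_y2, ih (fun l hl => h l (by simp [hl])), List.length_cons, pow_succ']

theorem MW2_zero (w : List (Fin 3)) (h : ∃ l ∈ w, l ≠ 1) : MW Φ w 2 2 = 0 := by
  induction w with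
  | nil => simp at h
  | cons l w ih =>
    rcases fin3_cases l with rfl | rfl | rfl
    · exact MW_x2 w
    · obtain ⟨l, hl, hl1⟩ := h
      rw [List.mem_cons] at hl
      rw [MW_y2, ih ⟨l, hl.resolve_left hl1, hl1⟩, mul_zero]
    · exact MW_z2 w

theorem MW1_zero (w : List (Fin 3)) (h : (2 : Fin 3) ∉ w) : MW Φ w 1 2 = 0 := by
  induction w with
  | nil => simp [MW_nil]
  | cons l w ih =>
    rw [List.mem_cons, not_or] at h
    rcases fin3_cases l with rfl | rfl | rfl
    · exact MW_x1 w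
    · rw [MW_y1, ih h.2, mul_zero]
    · exact absurd rfl h.1

theorem MW0_zero (w : List (Fin 3)) (h : (0 : Fin 3) ∉ w ∨ (2 : Fin 3) ∉ w) : MW Φ w 0 2 = 0 := by
  induction w with
  | nil => simp [MW_nil]
  | cons l w ih =>
    simp only [List.mem_cons, not_or] at h
    rcases fin3_cases l with rfl | rfl | rfl
    · rcases h with h | h
      · exact absurd rfl h.1
      · rw [MW_x0]; exact MW1_zero w h.2
    · rw [MW_y0, ih (h.imp And.right And.right), mul_zero]
    · exact MW_z0 w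

variable {W : Submodule Φ Q} {ξ y ζ : Q} {δ : ℕ}

/-- value of a word -/
def val (ξ y ζ : Q) (w : List (Fin 3)) : Q := (w.map ![ξ, y, ζ]).prod

theorem val_nil : val ξ y ζ [] = 1 := rfl
theorem val_x (w : List (Fin 3)) : val ξ y ζ (0 :: w) = ξ * val ξ y ζ w := by simp [val]
theorem val_y (w : List (Fin 3)) : val ξ y ζ (1 :: w) = y * val ξ y ζ w := by simp [val]
theorem val_z (w : List (Fin 3)) : val ξ y ζ (2 :: w) = ζ * val ξ y ζ w := by simp [val]

theorem val_all (w : List (Fin 3)) (h : ∀ l ∈ w, l = 1) : val ξ y ζ w = y ^ w.length := by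
  induction w with
  | nil => simp [val_nil]
  | cons l w ih =>
    have : l = 1 := h l (by simp)
    subst this
    rw [val_y, ih (fun l hl => h l (by simp [hl])), List.length_cons, pow_succ']

/-- hypotheses of the reduction lemma -/
structure RH (W : Submodule Φ Q) (ξ y ζ : Q) (δ : ℕ) : Prop where
  lx : ∀ w ∈ W, ξ * w ∈ W
  ly : ∀ w ∈ W, y * w ∈ W
  lz : ∀ w ∈ W, ζ * w ∈ W
  rx : ∀ w ∈ W, w * ξ ∈ W
  ry : ∀ w ∈ W, w * y ∈ W
  rz : ∀ w ∈ W, w * ζ ∈ W
  zx : ∀ b ≤ δ, ζ * y ^ b * ξ ∈ W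
  xxz : ∀ b ≤ δ, ∀ b' ≤ δ, ξ * y ^ b * ξ * y ^ b' * ζ ∈ W
  xzz : ∀ b ≤ δ, ∀ b' ≤ δ, ξ * y ^ b * ζ * y ^ b' * ζ ∈ W

theorem RH.val_mem (h : RH W ξ y ζ δ) (w : List (Fin 3)) : ∀ u ∈ W, u * val ξ y ζ w ∈ W := by
  induction w with
  | nil => intro u hu; rw [val_nil, mul_one]; exact hu
  | cons l w ih =>
    intro u hu
    rcases fin3_cases l with rfl | rfl | rfl
    · rw [val_x, ← mul_assoc]; exact ih _ (h.rx u hu)
    · rw [val_y, ← mul_assoc]; exact ih _ (h.ry u hu)
    · rw [val_z, ← mul_assoc]; exact ih _ (h.rz u hu)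

theorem RH.pow_mem (h : RH W ξ y ζ δ) (b : ℕ) : ∀ u ∈ W, y ^ b * u ∈ W := by
  induction b with
  | zero => intro u hu; rw [pow_zero, one_mul]; exact hu
  | succ b ih =>
    intro u hu
    rw [pow_succ, mul_assoc]; exact ih _ (h.ly u hu)

/-- after `x y^b z y^b'` -/
theorem RH.cZ (h : RH W ξ y ζ δ) (w : List (Fin 3)) : ∀ b b' : ℕ, b + b' + w.length ≤ δ →
    (∃ l ∈ w, l ≠ 1) → ξ * y ^ b * ζ * y ^ b' * val ξ y ζ w ∈ W := by
  induction w with
  | nil => intro b b' _ hl; simp at hl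
  | cons l w ih =>
    intro b b' hb hl
    rw [List.length_cons] at hb
    rcases fin3_cases l with rfl | rfl | rfl
    · rw [val_x]
      have e : ξ * y ^ b * ζ * y ^ b' * (ξ * val ξ y ζ w) =
          ξ * (y ^ b * (ζ * y ^ b' * ξ * val ξ y ζ w)) := by simp only [mul_assoc]
      rw [e]
      exact h.lx _ (h.pow_mem b _ (h.val_mem w _ (h.zx b' (by omega))))
    · obtain ⟨l, hl, hl1⟩ := hl
      rw [List.mem_cons] at hl
      rw [val_y]
      have e : ξ * y ^ b * ζ * y ^ b' * (y * val ξ y ζ w) =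
          ξ * y ^ b * ζ * y ^ (b' + 1) * val ξ y ζ w := by rw [pow_succ]; simp only [mul_assoc]
      rw [e]
      exact ih b (b' + 1) (by omega) ⟨l, hl.resolve_left hl1, hl1⟩
    · rw [val_z]
      have e : ξ * y ^ b * ζ * y ^ b' * (ζ * val ξ y ζ w) =
          ξ * y ^ b * ζ * y ^ b' * ζ * val ξ y ζ w := by simp only [mul_assoc]
      rw [e]
      exact h.val_mem w _ (h.xzz b (by omega) b' (by omega))

/-- after `x y^b x y^b'` -/
theorem RH.cXX (h : RH W ξ y ζ δ) (w : List (Fin 3)) : ∀ b b' : ℕ, b + b' + w.length ≤ δ →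
    (2 : Fin 3) ∈ w → ξ * y ^ b * ξ * y ^ b' * val ξ y ζ w ∈ W := by
  induction w with
  | nil => intro b b' _ hl; simp at hl
  | cons l w ih =>
    intro b b' hb hl
    rw [List.length_cons] at hb
    rw [List.mem_cons] at hl
    rcases fin3_cases l with rfl | rfl | rfl
    · rw [val_x]
      have e : ξ * y ^ b * ξ * y ^ b' * (ξ * val ξ y ζ w) =
          ξ * (y ^ b * (ξ * y ^ b' * ξ * y ^ 0 * val ξ y ζ w)) := by
        rw [pow_zero, mul_one]; simp only [mul_assoc]
      rw [e]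
      exact h.lx _ (h.pow_mem b _ (ih b' 0 (by omega) (hl.resolve_left (by decide))))
    · rw [val_y]
      have e : ξ * y ^ b * ξ * y ^ b' * (y * val ξ y ζ w) =
          ξ * y ^ b * ξ * y ^ (b' + 1) * val ξ y ζ w := by rw [pow_succ]; simp only [mul_assoc]
      rw [e]
      exact ih b (b' + 1) (by omega) (hl.resolve_left (by decide))
    · rw [val_z]
      have e : ξ * y ^ b * ξ * y ^ b' * (ζ * val ξ y ζ w) =
          ξ * y ^ b * ξ * y ^ b' * ζ * val ξ y ζ w := by simp only [mul_assoc]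
      rw [e]
      exact h.val_mem w _ (h.xxz b (by omega) b' (by omega))

/-- after `z y^b` with an `x` to come -/
theorem RH.cZ0 (h : RH W ξ y ζ δ) (w : List (Fin 3)) : ∀ b : ℕ, b + w.length ≤ δ →
    (0 : Fin 3) ∈ w → ζ * y ^ b * val ξ y ζ w ∈ W := by
  induction w with
  | nil => intro b _ hl; simp at hl
  | cons l w ih =>
    intro b hb hl
    rw [List.length_cons] at hb
    rw [List.mem_cons] at hl
    rcases fin3_cases l with rfl | rfl | rfl
    · rw [val_x, ← mul_assoc]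
      exact h.val_mem w _ (h.zx b (by omega))
    · rw [val_y]
      have e : ζ * y ^ b * (y * val ξ y ζ w) =
          ζ * y ^ (b + 1) * val ξ y ζ w := by rw [pow_succ]; simp only [mul_assoc]
      rw [e]
      exact ih (b + 1) (by omega) (hl.resolve_left (by decide))
    · rw [val_z]
      have e : ζ * y ^ b * (ζ * val ξ y ζ w) =
          ζ * (y ^ b * (ζ * y ^ 0 * val ξ y ζ w)) := by
        rw [pow_zero, mul_one]; simp only [mul_assoc]
      rw [e]
      exact h.lz _ (h.pow_mem b _ (ih 0 (by omega) (hl.resolve_left (by decide))))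

/-- after `x y^b` -/
theorem RH.cX (h : RH W ξ y ζ δ) (w : List (Fin 3)) : ∀ b : ℕ, b + w.length ≤ δ →
    (2 : Fin 3) ∈ w → (∃ b' c : ℕ, MW Φ w 1 2 = X 0 ^ b' * X 2 ^ c ∧
      val ξ y ζ w = y ^ b' * ζ * y ^ c) ∨ (MW Φ w 1 2 = 0 ∧ ξ * y ^ b * val ξ y ζ w ∈ W) := by
  induction w with
  | nil => intro b _ hl; simp at hl
  | cons l w ih =>
    intro b hb hl
    rw [List.length_cons] at hb
    rw [List.mem_cons] at hl
    rcases fin3_cases l with rfl | rfl | rfl
    · right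
      refine ⟨MW_x1 w, ?_⟩
      rw [val_x]
      have e : ξ * y ^ b * (ξ * val ξ y ζ w) = ξ * y ^ b * ξ * y ^ 0 * val ξ y ζ w := by
        rw [pow_zero, mul_one]; simp only [mul_assoc]
      rw [e]
      exact h.cXX w b 0 (by omega) (hl.resolve_left (by decide))
    · rcases ih (b + 1) (by omega) (hl.resolve_left (by decide)) with ⟨b', c, h1, h2⟩ | ⟨h1, h2⟩
      · left
        refine ⟨b' + 1, c, ?_, ?_⟩
        · rw [MW_y1, h1, pow_succ']; ring
        · rw [val_y, h2, pow_succ']; simp only [mul_assoc]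
      · right
        refine ⟨by rw [MW_y1, h1, mul_zero], ?_⟩
        rw [val_y]
        have e : ξ * y ^ b * (y * val ξ y ζ w) =
          ξ * y ^ (b + 1) * val ξ y ζ w := by rw [pow_succ]; simp only [mul_assoc]
        rw [e]; exact h2
    · by_cases hw : ∃ l ∈ w, l ≠ 1
      · right
        refine ⟨by rw [MW_z1]; exact MW2_zero w hw, ?_⟩
        rw [val_z]
        have e : ξ * y ^ b * (ζ * val ξ y ζ w) = ξ * y ^ b * ζ * y ^ 0 * val ξ y ζ w := by
          rw [pow_zero, mul_one]; simp only [mul_assoc]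
        rw [e]
        exact h.cZ w b 0 (by omega) hw
      · left
        push Not at hw
        refine ⟨0, w.length, ?_, ?_⟩
        · rw [MW_z1, MW2_all w hw, pow_zero, one_mul]
        · rw [val_z, val_all w hw, pow_zero, one_mul]

theorem RH.c0 (h : RH W ξ y ζ δ) (w : List (Fin 3)) (hw : w.length ≤ δ) :
    (0 : Fin 3) ∈ w → (2 : Fin 3) ∈ w → (∃ a b' c : ℕ, MW Φ w 0 2 = X 1 ^ a * (X 0 ^ b' * X 2 ^ c) ∧
      val ξ y ζ w = y ^ a * ξ * y ^ b' * ζ * y ^ c) ∨ (MW Φ w 0 2 = 0 ∧ val ξ y ζ w ∈ W) := by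
  induction w with
  | nil => intro hl; simp at hl
  | cons l w ih =>
    intro h0 h2
    rw [List.length_cons] at hw
    rw [List.mem_cons] at h0 h2
    rcases fin3_cases l with rfl | rfl | rfl
    · rcases h.cX w 0 (by omega) (h2.resolve_left (by decide)) with ⟨b', c, h1, h2⟩ | ⟨h1, h2⟩
      · left
        refine ⟨0, b', c, ?_, ?_⟩
        · rw [MW_x0, h1, pow_zero, one_mul]
        · rw [val_x, h2, pow_zero, one_mul]; simp only [mul_assoc]
      · right
        refine ⟨by rw [MW_x0, h1], ?_⟩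
        rw [pow_zero, mul_one] at h2
        rw [val_x]; exact h2
    · rcases ih (by omega) (h0.resolve_left (by decide)) (h2.resolve_left (by decide)) with
        ⟨a, b', c, h1, h2⟩ | ⟨h1, h2⟩
      · left
        refine ⟨a + 1, b', c, ?_, ?_⟩
        · rw [MW_y0, h1, pow_succ']; ring
        · rw [val_y, h2, pow_succ']; simp only [mul_assoc]
      · right
        refine ⟨by rw [MW_y0, h1, mul_zero], ?_⟩
        rw [val_y]; exact h.ly _ h2
    · right
      refine ⟨MW_z0 w, ?_⟩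
      have := h.cZ0 w 0 (by omega) (h0.resolve_left (by decide))
      rw [pow_zero, mul_one] at this
      rw [val_z]; exact this

theorem map_prod_eq_zero {X : Type*} (v : X → Q) (w : List X) (x : X) (hx : x ∈ w) (hv : v x = 0) :
    (w.map v).prod = 0 := by
  apply List.prod_eq_zero
  rw [← hv]
  exact List.mem_map_of_mem hx

theorem map_congr_of_notMem (v v' : Fin 3 → Q) (i : Fin 3) (h : ∀ j, j ≠ i → v j = v' j)
    (w : List (Fin 3)) (hi : i ∉ w) : (w.map v).prod = (w.map v').prod := by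
  congr 1
  apply List.map_congr_left
  intro j hj
  apply h
  rintro rfl
  exact hi hj

theorem RH.bracket (h : RH W ξ y ζ δ) (w : List (Fin 3)) (hw : w.length ≤ δ) :
    EE ξ y ζ (MW Φ w 0 2) - ((w.map ![ξ, y, ζ]).prod - (w.map ![0, y, ζ]).prod -
      (w.map ![ξ, y, 0]).prod + (w.map ![0, y, 0]).prod) ∈ W := by
  by_cases h0 : (0 : Fin 3) ∈ w
  · by_cases h2 : (2 : Fin 3) ∈ w
    · rw [map_prod_eq_zero ![0, y, ζ] w 0 h0 rfl, map_prod_eq_zero ![0, y, 0] w 0 h0 rfl,
        map_prod_eq_zero ![ξ, y, 0] w 2 h2 rfl]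
      rw [sub_zero, sub_zero, add_zero]
      change EE ξ y ζ (MW Φ w 0 2) - val ξ y ζ w ∈ W
      rcases h.c0 w hw h0 h2 with ⟨a, b', c, h1, h2⟩ | ⟨h1, h2⟩
      · rw [h1, h2, EE_mon, sub_self]; exact W.zero_mem
      · rw [h1, map_zero, zero_sub]; exact W.neg_mem h2
    · rw [MW0_zero w (Or.inr h2), map_zero,
        map_congr_of_notMem ![ξ, y, ζ] ![ξ, y, 0] 2 (by
          intro j hj; fin_cases j <;> simp_all) w h2,
        map_congr_of_notMem ![0, y, ζ] ![0, y, 0] 2 (by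
          intro j hj; fin_cases j <;> simp_all) w h2]
      have : (0 : Q) - ((w.map ![ξ, y, 0]).prod - (w.map ![0, y, 0]).prod -
        (w.map ![ξ, y, 0]).prod + (w.map ![0, y, 0]).prod) = 0 := by abel
      rw [this]; exact W.zero_mem
  · rw [MW0_zero w (Or.inl h0), map_zero,
        map_congr_of_notMem ![ξ, y, ζ] ![0, y, ζ] 0 (by
          intro j hj; fin_cases j <;> simp_all) w h0,
        map_congr_of_notMem ![ξ, y, 0] ![0, y, 0] 0 (by
          intro j hj; fin_cases j <;> simp_all) w h0]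
    have : (0 : Q) - ((w.map ![0, y, ζ]).prod - (w.map ![0, y, ζ]).prod -
        (w.map ![0, y, 0]).prod + (w.map ![0, y, 0]).prod) = 0 := by abel
    rw [this]; exact W.zero_mem

end words

/-- (RedG) -/
theorem RH.redG {W : Submodule Φ Q} {ξ y ζ : Q} {δ : ℕ} (h : RH W ξ y ζ δ)
    (A : Submodule Φ Q) (R : NP Φ (Fin 3))
    (hR : ∀ v : Fin 3 → Q, (∀ i, v i ∈ A) → ev v R = 0)
    (hδ : ∀ w ∈ R.coeff.support, w.toList.length ≤ δ)
    (hξ : ξ ∈ A) (hy : y ∈ A) (hζ : ζ ∈ A) : EE ξ y ζ (Psi R) ∈ W := by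
  have hS : ev ![ξ, y, ζ] R - ev ![0, y, ζ] R - ev ![ξ, y, 0] R + ev ![0, y, 0] R = 0 := by
    rw [hR, hR, hR, hR]
    · simp
    all_goals
      intro i
      fin_cases i <;> simp [hξ, hy, hζ]
  have hPsi : EE ξ y ζ (Psi R) = R.coeff.sum fun w c => c • EE ξ y ζ (MW Φ w.toList 0 2) := by
    unfold Psi
    rw [ev_apply, Finsupp.sum, Matrix.sum_apply, map_sum]
    refine Finset.sum_congr rfl fun w _ => ?_
    rw [Matrix.smul_apply, map_smul]
    rfl
  rw [← sub_zero (EE ξ y ζ (Psi R)), ← hS, hPsi, ev_apply, ev_apply, ev_apply, ev_apply]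
  simp only [Finsupp.sum]
  rw [← Finset.sum_sub_distrib, ← Finset.sum_sub_distrib, ← Finset.sum_add_distrib,
    ← Finset.sum_sub_distrib]
  apply W.sum_mem
  intro w hw
  rw [← smul_sub, ← smul_sub, ← smul_add, ← smul_sub]
  exact W.smul_mem _ (h.bracket w.toList (hδ w hw))

end Pool.Agent.H38R2
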