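import Pool.Agent.H38R2.Amitsur
import Pool.Agent.H38R2.Red

set_option autoImplicit false
set_option linter.style.haveILetI false

namespace Pool.Agent.H38R2

variable {Φ : Type*} [CommRing Φ] {Q : Type*} [Ring Q] [Algebra Φ Q]

/-- multilinear polynomial -/
def mlp {d : ℕ} (c : Equiv.Perm (Fin d) → Φ) (v : Fin d → Q) : Q :=
  ∑ σ : Equiv.Perm (Fin d), c σ • (List.ofFn (fun i => v (σ i))).prod

section lin
variable {X : Type*} [DecidableEq X]

/-- substitution -/
def vJ {d : ℕ} (i : Fin d → X) (v : Fin d → Q) (J : Finset (Fin d)) (m : X) : Q :=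
  ∑ j ∈ J.filter (fun j => i j = m), v j

theorem word_expand {d : ℕ} (i : Fin d → X) (v : Fin d → Q) (J : Finset (Fin d)) (r : ℕ)
    (w : Fin r → X) :
    (List.ofFn (fun t => vJ i v J (w t))).prod =
      ∑ φ ∈ Fintype.piFinset (fun t => J.filter (fun j => i j = w t)),
        (List.ofFn (fun t => v (φ t))).prod := by
  have := (MultilinearMap.mkPiAlgebraFin ℤ r Q).map_sum_finset (fun _ j => v j)
    (fun t => J.filter (fun j => i j = w t))
  simp only [MultilinearMap.mkPiAlgebraFin_apply] at this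
  exact this

theorem alt_expand {d : ℕ} (i : Fin d → X) (v : Fin d → Q) (r : ℕ) (w : Fin r → X) :
    ∑ K : Finset (Fin d), (-1 : ℤ) ^ K.card • (List.ofFn (fun t => vJ i v Kᶜ (w t))).prod =
      ∑ φ ∈ (Finset.univ : Finset (Fin r → Fin d)).filter
        (fun φ => (∀ t, i (φ t) = w t) ∧ Function.Surjective φ),
        (List.ofFn (fun t => v (φ t))).prod := by
  have h1 : ∀ K : Finset (Fin d), (-1 : ℤ) ^ K.card • (List.ofFn (fun t => vJ i v Kᶜ (w t))).prod =
      ∑ φ : Fin r → Fin d, if ((∀ t, i (φ t) = w t) ∧ K ⊆ (Finset.univ.image φ)ᶜ) then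
        (-1 : ℤ) ^ K.card • (List.ofFn (fun t => v (φ t))).prod else 0 := by
    intro K
    rw [word_expand, Finset.smul_sum, ← Finset.sum_filter]
    refine Finset.sum_congr ?_ fun _ _ => rfl
    ext φ
    simp only [Fintype.mem_piFinset, Finset.mem_filter, Finset.mem_compl, Finset.mem_univ,
      true_and]
    constructor
    · intro h
      refine ⟨fun t => (h t).2, fun k hk => ?_⟩
      rw [Finset.mem_compl, Finset.mem_image]
      rintro ⟨t, _, rfl⟩
      exact (h t).1 hk
    · rintro ⟨h1, h2⟩ t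
      refine ⟨fun hk => ?_, h1 t⟩
      have := h2 hk
      rw [Finset.mem_compl, Finset.mem_image] at this
      exact this ⟨t, Finset.mem_univ _, rfl⟩
  rw [Finset.sum_congr rfl fun K _ => h1 K, Finset.sum_comm, Finset.sum_filter]
  refine Finset.sum_congr rfl fun φ _ => ?_
  by_cases hφ : ∀ t, i (φ t) = w t
  · simp only [hφ, implies_true, true_and]
    rw [← Finset.sum_filter]
    have h2 : (Finset.univ : Finset (Finset (Fin d))).filter
        (fun K => K ⊆ (Finset.univ.image φ)ᶜ) = ((Finset.univ.image φ)ᶜ).powerset := by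
      ext K; simp
    rw [h2, ← Finset.sum_smul, Finset.sum_powerset_neg_one_pow_card]
    by_cases hs : Function.Surjective φ
    · rw [if_pos hs, if_pos, one_smul]
      rw [Finset.compl_eq_empty_iff, Finset.image_univ_of_surjective hs]
    · rw [if_neg hs, if_neg, zero_smul]
      intro h
      apply hs
      intro y
      rw [Finset.compl_eq_empty_iff] at h
      have : y ∈ Finset.univ.image φ := by rw [h]; exact Finset.mem_univ _
      obtain ⟨x, _, hx⟩ := Finset.mem_image.1 this
      exact ⟨x, hx⟩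
  · simp only [hφ, false_and, if_false, Finset.sum_const_zero]

theorem alt_lt {d : ℕ} (i : Fin d → X) (v : Fin d → Q) (r : ℕ) (hr : r < d) (w : Fin r → X) :
    ∑ K : Finset (Fin d), (-1 : ℤ) ^ K.card • (List.ofFn (fun t => vJ i v Kᶜ (w t))).prod = 0 := by
  rw [alt_expand]
  apply Finset.sum_eq_zero
  intro φ hφ
  exfalso
  rw [Finset.mem_filter] at hφ
  have := Fintype.card_le_of_surjective φ hφ.2.2
  simp at this
  omega

theorem alt_eq {d : ℕ} (i : Fin d → X) (v : Fin d → Q) (w : Fin d → X) :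
    ∑ K : Finset (Fin d), (-1 : ℤ) ^ K.card • (List.ofFn (fun t => vJ i v Kᶜ (w t))).prod =
      ∑ σ : Equiv.Perm (Fin d), if (∀ t, i (σ t) = w t) then
        (List.ofFn (fun t => v (σ t))).prod else 0 := by
  rw [alt_expand, ← Finset.sum_filter]
  symm
  refine Finset.sum_bij (fun σ _ => (σ : Fin d → Fin d)) ?_ ?_ ?_ ?_
  · intro σ hσ
    simp only [Finset.mem_filter, Finset.mem_univ, true_and] at hσ ⊢
    exact ⟨hσ, σ.surjective⟩
  · intro σ _ τ _ h
    exact DFunLike.coe_injective h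
  · intro φ hφ
    simp only [Finset.mem_filter, Finset.mem_univ, true_and] at hφ
    have hb : Function.Bijective φ := ⟨Finite.injective_iff_surjective.2 hφ.2, hφ.2⟩
    refine ⟨Equiv.ofBijective φ hb, ?_, rfl⟩
    simp only [Finset.mem_filter, Finset.mem_univ, true_and]
    exact hφ.1
  · intro σ _
    rfl

/-- the linearization operator -/
noncomputable def LO {d : ℕ} (i : Fin d → X) (v : Fin d → Q) (f : NP Φ X) : Q :=
  ∑ K : Finset (Fin d), (-1 : ℤ) ^ K.card • ev (vJ i v Kᶜ) f

theorem LO_add {d : ℕ} (i : Fin d → X) (v : Fin d → Q) (f g : NP Φ X) :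
    LO i v (f + g) = LO i v f + LO i v g := by
  unfold LO
  rw [← Finset.sum_add_distrib]
  exact Finset.sum_congr rfl fun K _ => by rw [map_add, smul_add]

theorem LO_smul {d : ℕ} (i : Fin d → X) (v : Fin d → Q) (c : Φ) (f : NP Φ X) :
    LO i v (c • f) = c • LO i v f := by
  unfold LO
  rw [Finset.smul_sum]
  exact Finset.sum_congr rfl fun K _ => by rw [map_smul, smul_comm]

theorem LO_zero_of {d : ℕ} (i : Fin d → X) (v : Fin d → Q) (A : Submodule Φ Q)
    (hv : ∀ j, v j ∈ A) (f : NP Φ X) (hf : ∀ u : X → Q, (∀ x, u x ∈ A) → ev u f = 0) :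
    LO i v f = 0 := by
  unfold LO
  apply Finset.sum_eq_zero
  intro K _
  rw [hf, smul_zero]
  intro x
  exact A.sum_mem fun j _ => hv j

theorem LO_eq {d : ℕ} (i : Fin d → X) (v : Fin d → Q) (f : NP Φ X)
    (hd : ∀ w ∈ f.coeff.support, w.toList.length ≤ d) :
    LO i v f = mlp (fun σ => f.coeff (FreeMonoid.ofList (List.ofFn (fun t => i (σ t))))) v := by
  classical
  unfold LO mlp
  simp only [ev_apply, Finsupp.sum, Finset.smul_sum]
  rw [Finset.sum_comm]
  have h1 : ∀ w ∈ f.coeff.support, ∑ K : Finset (Fin d), (-1 : ℤ) ^ K.card •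
      f.coeff w • (w.toList.map (vJ i v Kᶜ)).prod =
      ∑ σ : Equiv.Perm (Fin d), if FreeMonoid.ofList (List.ofFn (fun t => i (σ t))) = w then
        f.coeff w • (List.ofFn (fun t => v (σ t))).prod else 0 := by
    intro w hw
    have e : ∀ K : Finset (Fin d), (-1 : ℤ) ^ K.card •
      f.coeff w • (w.toList.map (vJ i v Kᶜ)).prod =
      f.coeff w • ((-1 : ℤ) ^ K.card • (List.ofFn (fun t => vJ i v Kᶜ (w.toList.get t))).prod) := by
      intro K
      rw [smul_comm]
      congr 3
      conv_lhs => rw [← List.ofFn_get w.toList]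
      rw [List.map_ofFn]
      rfl
    rw [Finset.sum_congr rfl fun K _ => e K, ← Finset.smul_sum]
    have hlen := hd w hw
    rcases lt_or_eq_of_le hlen with hlt | heq
    · rw [alt_lt i v _ hlt, smul_zero]
      symm
      apply Finset.sum_eq_zero
      intro σ _
      rw [if_neg]
      intro h
      have := congrArg (fun w => (FreeMonoid.toList w).length) h
      simp at this
      omega
    · subst heq
      rw [alt_eq, Finset.smul_sum]
      refine Finset.sum_congr rfl fun σ _ => ?_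
      have hiff : (∀ t, i (σ t) = w.toList.get t) ↔
          FreeMonoid.ofList (List.ofFn (fun t => i (σ t))) = w := by
        constructor
        · intro h
          have : (fun t => i (σ t)) = w.toList.get := funext h
          rw [this, List.ofFn_get]
          rfl
        · intro h
          have h2 : List.ofFn (fun t => i (σ t)) = w.toList := congrArg FreeMonoid.toList h
          have h3 : List.ofFn (fun t => i (σ t)) = List.ofFn w.toList.get := by
            rw [h2, List.ofFn_get]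
          exact congrFun (List.ofFn_injective h3)
      by_cases h : ∀ t, i (σ t) = w.toList.get t
      · rw [if_pos h, if_pos (hiff.1 h)]
      · rw [if_neg h, if_neg (fun h' => h (hiff.2 h')), smul_zero]
  rw [Finset.sum_congr rfl h1, Finset.sum_comm]
  refine Finset.sum_congr rfl fun σ _ => ?_
  rw [Finset.sum_ite_eq]
  split_ifs with h
  · rfl
  · rw [Finsupp.notMem_support_iff] at h
    rw [h, zero_smul]

end lin

section blk

/-- block permutation -/
def blk {d e : ℕ} (σ : Equiv.Perm (Fin d)) (τ : Equiv.Perm (Fin e)) : Equiv.Perm (Fin (d + e)) :=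
  finSumFinEquiv.permCongr (Equiv.sumCongr σ τ)

theorem blk_castAdd {d e : ℕ} (σ : Equiv.Perm (Fin d)) (τ : Equiv.Perm (Fin e)) (i : Fin d) :
    blk σ τ (Fin.castAdd e i) = Fin.castAdd e (σ i) := by
  simp [blk, Equiv.permCongr_apply]

theorem blk_natAdd {d e : ℕ} (σ : Equiv.Perm (Fin d)) (τ : Equiv.Perm (Fin e)) (i : Fin e) :
    blk σ τ (Fin.natAdd d i) = Fin.natAdd d (τ i) := by
  simp [blk, Equiv.permCongr_apply]

theorem blk_eq_one {d e : ℕ} (σ : Equiv.Perm (Fin d)) (τ : Equiv.Perm (Fin e)) :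
    1 = blk σ τ ↔ σ = 1 ∧ τ = 1 := by
  constructor
  · intro h
    constructor
    · ext i
      have h1 := blk_castAdd σ τ i
      rw [← h] at h1
      simp only [Equiv.Perm.coe_one, id_eq] at h1 ⊢
      have := congrArg Fin.val h1
      simpa using this.symm
    · ext i
      have h1 := blk_natAdd σ τ i
      rw [← h] at h1
      simp only [Equiv.Perm.coe_one, id_eq] at h1 ⊢
      have := congrArg Fin.val h1
      simpa using this.symm
  · rintro ⟨rfl, rfl⟩
    ext i
    refine Fin.addCases (fun i => ?_) (fun i => ?_) i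
    · rw [blk_castAdd]; rfl
    · rw [blk_natAdd]; rfl

/-- block product of coefficient functions -/
noncomputable def cprod {d e : ℕ} (c : Equiv.Perm (Fin d) → Φ) (c' : Equiv.Perm (Fin e) → Φ) :
    Equiv.Perm (Fin (d + e)) → Φ :=
  fun π => ∑ σ, ∑ τ, if π = blk σ τ then c σ * c' τ else 0

theorem cprod_one {d e : ℕ} (c : Equiv.Perm (Fin d) → Φ) (c' : Equiv.Perm (Fin e) → Φ) :
    cprod c c' 1 = c 1 * c' 1 := by
  unfold cprod
  rw [Finset.sum_eq_single 1, Finset.sum_eq_single 1]
  · rw [if_pos ((blk_eq_one _ _).2 ⟨rfl, rfl⟩)]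
  · intro τ _ hτ
    rw [if_neg]
    intro h
    exact hτ ((blk_eq_one _ _).1 h).2
  · intro h; exact absurd (Finset.mem_univ _) h
  · intro σ _ hσ
    apply Finset.sum_eq_zero
    intro τ _
    rw [if_neg]
    intro h
    exact hσ ((blk_eq_one _ _).1 h).1
  · intro h; exact absurd (Finset.mem_univ _) h

theorem mlp_cprod {d e : ℕ} (c : Equiv.Perm (Fin d) → Φ) (c' : Equiv.Perm (Fin e) → Φ)
    (v : Fin (d + e) → Q) : mlp (cprod c c') v =
      mlp c (fun i => v (Fin.castAdd e i)) * mlp c' (fun i => v (Fin.natAdd d i)) := by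
  have h1 : ∀ (σ : Equiv.Perm (Fin d)) (τ : Equiv.Perm (Fin e)),
      (List.ofFn (fun i => v (blk σ τ i))).prod =
      (List.ofFn (fun i => v (Fin.castAdd e (σ i)))).prod *
      (List.ofFn (fun i => v (Fin.natAdd d (τ i)))).prod := by
    intro σ τ
    have : (fun i => v (blk σ τ i)) = Fin.append (fun i => v (Fin.castAdd e (σ i)))
        (fun i => v (Fin.natAdd d (τ i))) := by
      funext i
      refine Fin.addCases (fun i => ?_) (fun i => ?_) i
      · rw [blk_castAdd, Fin.append_left]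
      · rw [blk_natAdd, Fin.append_right]
    rw [this, List.ofFn_fin_append, List.prod_append]
  unfold mlp cprod
  rw [Finset.sum_mul_sum]
  simp only [Finset.sum_smul]
  rw [Finset.sum_comm]
  refine Finset.sum_congr rfl fun σ _ => ?_
  rw [Finset.sum_comm]
  refine Finset.sum_congr rfl fun τ _ => ?_
  rw [Finset.sum_eq_single (blk σ τ)]
  · rw [if_pos rfl, h1, smul_mul_smul_comm]
  · intro π _ hπ
    rw [if_neg hπ, zero_smul]
  · intro h; exact absurd (Finset.mem_univ _) h

theorem mlp_add {d : ℕ} (c c' : Equiv.Perm (Fin d) → Φ) (v : Fin d → Q) :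
    mlp (c + c') v = mlp c v + mlp c' v := by
  unfold mlp
  rw [← Finset.sum_add_distrib]
  exact Finset.sum_congr rfl fun σ _ => by rw [Pi.add_apply, add_smul]

theorem mlp_smul {d : ℕ} (t : Φ) (c : Equiv.Perm (Fin d) → Φ) (v : Fin d → Q) :
    mlp (t • c) v = t • mlp c v := by
  unfold mlp
  rw [Finset.smul_sum]
  exact Finset.sum_congr rfl fun σ _ => by rw [Pi.smul_apply, smul_assoc]

theorem PIon_iff {d : ℕ} (c : Equiv.Perm (Fin d) → Φ) (A : Submodule Φ Q) :
    PIon d c A ↔ ∀ x : Fin d → Q, (∀ i, x i ∈ A) → mlp c x = 0 := Iff.rfl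

/-- the ideal of identity coefficients of multilinear identities -/
noncomputable def PIideal (A : Submodule Φ Q) : Ideal Φ where
  carrier := {t | ∃ (d : ℕ) (c : Equiv.Perm (Fin d) → Φ), c 1 = t ∧ PIon d c A}
  zero_mem' := by
    refine ⟨0, 0, rfl, ?_⟩
    rw [PIon_iff]
    intro x _
    simp [mlp]
  add_mem' := by
    rintro s t ⟨d, c, rfl, hc⟩ ⟨e, c', rfl, hc'⟩
    rw [PIon_iff] at hc hc'
    refine ⟨d + e, cprod c (Pi.single 1 1) + cprod (Pi.single 1 1) c', ?_, ?_⟩
    · rw [Pi.add_apply, cprod_one, cprod_one, Pi.single_eq_same, Pi.single_eq_same, mul_one,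
        one_mul]
    · rw [PIon_iff]
      intro x hx
      rw [mlp_add, mlp_cprod, mlp_cprod, hc _ (fun i => hx _), hc' _ (fun i => hx _), zero_mul,
        mul_zero, add_zero]
  smul_mem' := by
    rintro s t ⟨d, c, rfl, hc⟩
    rw [PIon_iff] at hc
    refine ⟨d, s • c, rfl, ?_⟩
    rw [PIon_iff]
    intro x hx
    rw [mlp_smul, hc x hx, smul_zero]

/-- absorbing the factor `p ^ k` -/
theorem absorb {A : Submodule Φ Q} {𝔪 : Ideal Φ} [h𝔪 : 𝔪.IsPrime] {p : Φ} {e : ℕ}
    {c0 : Equiv.Perm (Fin e) → Φ} (hc0 : c0 1 ∉ 𝔪)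
    (h0 : ∀ v : Fin e → Q, (∀ i, v i ∈ A) → ∃ b : Q, mlp c0 v = p • b) (k : ℕ) :
    ∀ (d : ℕ) (c : Equiv.Perm (Fin d) → Φ), c 1 ∉ 𝔪 →
      (∀ v : Fin d → Q, (∀ i, v i ∈ A) → p ^ k • mlp c v = 0) →
      ∃ (d' : ℕ) (c' : Equiv.Perm (Fin d') → Φ), c' 1 ∉ 𝔪 ∧ PIon d' c' A := by
  induction k with
  | zero =>
    intro d c hc h
    refine ⟨d, c, hc, ?_⟩
    rw [PIon_iff]
    intro x hx
    have := h x hx
    rwa [pow_zero, one_smul] at this
  | succ k ih =>
    intro d c hc h
    refine ih (d + e) (cprod c c0) ?_ ?_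
    · rw [cprod_one]
      intro h1
      rcases h𝔪.mem_or_mem h1 with h2 | h2
      · exact hc h2
      · exact hc0 h2
    · intro v hv
      rw [mlp_cprod]
      obtain ⟨b, hb⟩ := h0 (fun i => v (Fin.natAdd d i)) (fun i => hv _)
      rw [hb, mul_smul_comm, ← smul_assoc, smul_eq_mul, ← pow_succ, ← smul_mul_assoc,
        h _ (fun i => hv _), zero_mul]

/-- **Existence of a multilinear identity with a coefficient one.** -/
theorem exists_PIon [IsDomain Φ] [IsPrincipalIdealRing Φ] {X : Type*} (A : Submodule Φ Q)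
    (f : NP Φ X) (hf : ∀ v : X → Q, (∀ x, v x ∈ A) → ev v f = 0)
    (hw : ∀ 𝔪 : Ideal Φ, 𝔪.IsMaximal → ∃ w : FreeMonoid X, f.coeff w ∉ 𝔪) :
    ∃ (d : ℕ) (c : Equiv.Perm (Fin d) → Φ), c 1 = 1 ∧ PIon d c A := by
  classical
  suffices h : PIideal (Φ := Φ) A = ⊤ by
    have : (1 : Φ) ∈ PIideal (Φ := Φ) A := by rw [h]; trivial
    exact this
  by_contra hne
  obtain ⟨𝔪, h𝔪, hle⟩ := Ideal.exists_le_maximal _ hne
  haveI := h𝔪.isPrime
  obtain ⟨p, hp⟩ : ∃ p : Φ, 𝔪 = Ideal.span {p} := (IsPrincipalIdealRing.principal 𝔪).principal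
  have hpu : ¬ IsUnit p := by
    intro hu
    apply h𝔪.ne_top
    rw [hp, Ideal.span_singleton_eq_top]; exact hu
  have hmem : ∀ t, t ∈ 𝔪 ↔ p ∣ t := by
    intro t; rw [hp, Ideal.mem_span_singleton]
  suffices h : ∃ (d' : ℕ) (c' : Equiv.Perm (Fin d') → Φ), c' 1 ∉ 𝔪 ∧ PIon d' c' A by
    obtain ⟨d', c', hc', hPI⟩ := h
    exact hc' (hle ⟨d', c', rfl, hPI⟩)
  -- the part of `f` outside `𝔪`
  set F := f.coeff.support with hF
  obtain ⟨w, hw⟩ := hw 𝔪 h𝔪
  have hwF : w ∈ F.filter (fun u => f.coeff u ∉ 𝔪) := by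
    rw [Finset.mem_filter, hF, Finsupp.mem_support_iff]
    refine ⟨fun h0 => hw ?_, hw⟩
    rw [h0]; exact 𝔪.zero_mem
  obtain ⟨w0, hw0, hmax0⟩ := Finset.exists_max_image (F.filter (fun u => f.coeff u ∉ 𝔪))
    (fun u => u.toList.length) ⟨w, hwF⟩
  obtain ⟨wD, hwD, hmaxD⟩ := Finset.exists_max_image F (fun u => u.toList.length)
    ⟨w, (Finset.mem_filter.1 hwF).1⟩
  obtain ⟨w1, hw1, hmin1⟩ := Finset.exists_min_image
    (F.filter (fun u => u.toList.length = wD.toList.length)) (fun u => multiplicity p (f.coeff u))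
    ⟨wD, Finset.mem_filter.2 ⟨hwD, rfl⟩⟩
  rw [Finset.mem_filter] at hw1 hw0
  set k := multiplicity p (f.coeff w1) with hk
  have hw1ne : f.coeff w1 ≠ 0 := Finsupp.mem_support_iff.1 hw1.1
  have hfm : FiniteMultiplicity p (f.coeff w1) := FiniteMultiplicity.of_not_isUnit hpu hw1ne
  obtain ⟨t, ht, htp⟩ := hfm.exists_eq_pow_mul_and_not_dvd
  have hdiv : ∀ u : FreeMonoid X, u.toList.length = wD.toList.length → p ^ k ∣ f.coeff u := by
    intro u hu
    by_cases huF : u ∈ F
    · exact pow_dvd_of_le_multiplicity (hmin1 u (Finset.mem_filter.2 ⟨huF, hu⟩))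
    · rw [hF, Finsupp.notMem_support_iff] at huF
      rw [huF]; exact dvd_zero _
  -- first multilinear polynomial
  have hLO1 : ∀ (i : Fin w1.toList.length → X), (∀ j, i j = w1.toList.get j) →
      ∃ c : Equiv.Perm (Fin w1.toList.length) → Φ, c 1 ∉ 𝔪 ∧
        ∀ v : Fin w1.toList.length → Q, (∀ i, v i ∈ A) → p ^ k • mlp c v = 0 := by
    intro i hi
    have hlen : ∀ σ : Equiv.Perm (Fin w1.toList.length),
        (FreeMonoid.ofList (List.ofFn (fun t => i (σ t)))).toList.length = wD.toList.length := by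
      intro σ
      rw [FreeMonoid.toList_ofList, List.length_ofFn, hw1.2]
    choose c hc using fun σ => hdiv _ (hlen σ)
    refine ⟨c, ?_, ?_⟩
    · have h1 := hc 1
      have h2 : FreeMonoid.ofList (List.ofFn
          (fun t => i ((1 : Equiv.Perm (Fin w1.toList.length)) t))) = w1 := by
        have : (fun t => i ((1 : Equiv.Perm (Fin w1.toList.length)) t)) = w1.toList.get := funext hi
        rw [this, List.ofFn_get]; rfl
      rw [h2, ht] at h1
      have h3 : p ^ k ≠ 0 := by
        intro h0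
        apply hw1ne
        rw [ht, ← hk, h0, zero_mul]
      have h4 : t = c 1 := mul_left_cancel₀ h3 h1
      rw [← h4, hmem]
      exact htp
    · intro v hv
      rw [← mlp_smul]
      have : (p ^ k • c) = fun σ => f.coeff (FreeMonoid.ofList (List.ofFn (fun t => i (σ t)))) := by
        funext σ
        rw [Pi.smul_apply, smul_eq_mul, hc]
      rw [this, ← LO_eq i v f (by
        intro u hu
        have := hmaxD u hu
        rw [← hw1.2] at this
        exact this)]
      exact LO_zero_of i v A hv f hf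
  obtain ⟨c1, hc1, hc1'⟩ := hLO1 w1.toList.get (fun j => rfl)
  -- second multilinear polynomial
  choose q hq using fun u : FreeMonoid X => (show ∃ q : Φ, f.coeff u ∈ 𝔪 → f.coeff u = p * q by
    by_cases h : f.coeff u ∈ 𝔪
    · obtain ⟨q, hq⟩ := (hmem _).1 h
      exact ⟨q, fun _ => hq⟩
    · exact ⟨0, fun h' => absurd h' h⟩)
  let f' : NP Φ X := MonoidAlgebra.ofCoeff
    (Finsupp.onFinset F (fun u => if f.coeff u ∈ 𝔪 then 0 else f.coeff u) (by
      intro u hu
      rw [hF, Finsupp.mem_support_iff]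
      intro h0
      rw [h0] at hu
      simp at hu))
  let f'' : NP Φ X := MonoidAlgebra.ofCoeff
    (Finsupp.onFinset F (fun u => if f.coeff u ∈ 𝔪 ∧ u ∈ F then q u else 0) (by
      intro u hu
      by_contra h
      simp [h] at hu))
  have hf' : ∀ u, f'.coeff u = if f.coeff u ∈ 𝔪 then 0 else f.coeff u := fun u => rfl
  have hf'' : ∀ u, f''.coeff u = if f.coeff u ∈ 𝔪 ∧ u ∈ F then q u else 0 := fun u => rfl
  have hsplit : f = f' + p • f'' := by
    apply MonoidAlgebra.ext
    ext u
    rw [MonoidAlgebra.coeff_add, MonoidAlgebra.coeff_smul, Finsupp.add_apply, Finsupp.smul_apply,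
      hf', hf'', smul_eq_mul]
    by_cases h : f.coeff u ∈ 𝔪
    · by_cases huF : u ∈ F
      · rw [if_pos h, if_pos ⟨h, huF⟩, zero_add]; exact hq u h
      · rw [if_pos h, if_neg (fun h' => huF h'.2), mul_zero, add_zero]
        rw [hF, Finsupp.notMem_support_iff] at huF; exact huF
    · rw [if_neg h, if_neg (fun h' => h h'.1), mul_zero, add_zero]
  have hsupp' : ∀ u ∈ f'.coeff.support, u.toList.length ≤ w0.toList.length := by
    intro u hu
    rw [Finsupp.mem_support_iff, hf'] at hu
    have hu1 : f.coeff u ∉ 𝔪 := by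
      intro h; rw [if_pos h] at hu; exact hu rfl
    have hu2 : u ∈ F := by
      rw [hF, Finsupp.mem_support_iff]
      intro h0
      apply hu1
      rw [h0]; exact 𝔪.zero_mem
    exact hmax0 u (Finset.mem_filter.2 ⟨hu2, hu1⟩)
  let i0 : Fin w0.toList.length → X := w0.toList.get
  refine absorb (𝔪 := 𝔪) (p := p)
    (c0 := fun σ => f'.coeff (FreeMonoid.ofList (List.ofFn (fun t => i0 (σ t))))) ?_ ?_ k _ c1 hc1 hc1'
  · have h2 : FreeMonoid.ofList (List.ofFn
        (fun t => i0 ((1 : Equiv.Perm (Fin w0.toList.length)) t))) = w0 := by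
      have : (fun t => i0 ((1 : Equiv.Perm (Fin w0.toList.length)) t)) = w0.toList.get := rfl
      rw [this, List.ofFn_get]; rfl
    rw [h2, hf', if_neg hw0.2]
    exact hw0.2
  · intro v hv
    refine ⟨- LO i0 v f'', ?_⟩
    rw [← LO_eq i0 v f' hsupp']
    have h1 := LO_zero_of i0 v A hv f hf
    rw [hsplit, LO_add, LO_smul] at h1
    rw [smul_neg]
    exact eq_neg_of_add_eq_zero_left h1

end blk

end Pool.Agent.H38R2
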