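import Mathlib

set_option autoImplicit false
set_option linter.style.haveILetI false

namespace Pool.Agent.H38R2

universe v w

variable {Φ : Type w} [CommRing Φ] {A : Type v} [NonUnitalRing A] [Module Φ A]
  [IsScalarTower Φ A A] [SMulCommClass Φ A A]

/-- The quotient of a (not necessarily unital) algebra by an ideal. -/
theorem exists_quotient (I : Submodule Φ A) (hl : ∀ a x : A, x ∈ I → a * x ∈ I)
    (hr : ∀ a x : A, x ∈ I → x * a ∈ I) (hfin : Finite (A ⧸ I)) :
    ∃ (B : Type v) (_ : NonUnitalRing B) (_ : Module Φ B) (_ : IsScalarTower Φ B B)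
      (_ : SMulCommClass Φ B B) (_ : Finite B) (ψ : A →ₙₐ[Φ] B),
      Function.Surjective ψ ∧ ∀ x, ψ x = 0 → x ∈ I := by
  let mulQ : A ⧸ I → A ⧸ I → A ⧸ I := Quotient.map₂ (· * ·) (by
    intro a b hab c d hcd
    have h1 : a - b ∈ I := (Submodule.quotientRel_def I).1 hab
    have h2 : c - d ∈ I := (Submodule.quotientRel_def I).1 hcd
    refine (Submodule.quotientRel_def I).2 ?_
    have e : a * c - b * d = (a - b) * c + b * (c - d) := by
      rw [sub_mul, mul_sub]; abel
    rw [e]
    exact I.add_mem (hr _ _ h1) (hl _ _ h2))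
  have hmk : ∀ a b : A, mulQ (Submodule.Quotient.mk a) (Submodule.Quotient.mk b) =
      Submodule.Quotient.mk (a * b) := fun a b => rfl
  have hsurj : ∀ x : A ⧸ I, ∃ a, Submodule.Quotient.mk a = x := Submodule.Quotient.mk_surjective I
  let ring : NonUnitalRing (A ⧸ I) :=
    { (inferInstance : AddCommGroup (A ⧸ I)) with
      mul := mulQ
      left_distrib := fun x y z => by
        obtain ⟨a, rfl⟩ := hsurj x
        obtain ⟨b, rfl⟩ := hsurj y
        obtain ⟨c, rfl⟩ := hsurj z
        change mulQ _ (_ + _) = mulQ _ _ + mulQ _ _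
        rw [← Submodule.Quotient.mk_add, hmk, hmk, hmk, ← Submodule.Quotient.mk_add, mul_add]
      right_distrib := fun x y z => by
        obtain ⟨a, rfl⟩ := hsurj x
        obtain ⟨b, rfl⟩ := hsurj y
        obtain ⟨c, rfl⟩ := hsurj z
        change mulQ (_ + _) _ = mulQ _ _ + mulQ _ _
        rw [← Submodule.Quotient.mk_add, hmk, hmk, hmk, ← Submodule.Quotient.mk_add, add_mul]
      zero_mul := fun x => by
        obtain ⟨a, rfl⟩ := hsurj x
        change mulQ 0 _ = 0
        rw [← Submodule.Quotient.mk_zero, hmk, zero_mul]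
      mul_zero := fun x => by
        obtain ⟨a, rfl⟩ := hsurj x
        change mulQ _ 0 = 0
        rw [← Submodule.Quotient.mk_zero, hmk, mul_zero]
      mul_assoc := fun x y z => by
        obtain ⟨a, rfl⟩ := hsurj x
        obtain ⟨b, rfl⟩ := hsurj y
        obtain ⟨c, rfl⟩ := hsurj z
        change mulQ (mulQ _ _) _ = mulQ _ (mulQ _ _)
        rw [hmk, hmk, hmk, hmk, mul_assoc] }
  refine ⟨A ⧸ I, ring, inferInstance, ⟨fun r x y => ?_⟩, ⟨fun r x y => ?_⟩, hfin, ?_, ?_⟩
  · obtain ⟨a, rfl⟩ := hsurj x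
    obtain ⟨b, rfl⟩ := hsurj y
    change mulQ (r • Submodule.Quotient.mk a) (Submodule.Quotient.mk b) =
      r • mulQ (Submodule.Quotient.mk a) (Submodule.Quotient.mk b)
    rw [← Submodule.Quotient.mk_smul, hmk, hmk, ← Submodule.Quotient.mk_smul, smul_mul_assoc]
  · obtain ⟨a, rfl⟩ := hsurj x
    obtain ⟨b, rfl⟩ := hsurj y
    change r • mulQ (Submodule.Quotient.mk a) (Submodule.Quotient.mk b) =
      mulQ (Submodule.Quotient.mk a) (r • Submodule.Quotient.mk b)
    rw [← Submodule.Quotient.mk_smul, hmk, hmk, ← Submodule.Quotient.mk_smul, mul_smul_comm]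
  · exact
      { toFun := fun a => Submodule.Quotient.mk a
        map_smul' := fun r a => Submodule.Quotient.mk_smul I r a
        map_zero' := Submodule.Quotient.mk_zero I
        map_add' := fun a b => Submodule.Quotient.mk_add I
        map_mul' := fun a b => rfl }
  · refine ⟨hsurj, fun x hx => ?_⟩
    exact (Submodule.Quotient.mk_eq_zero I).1 hx

end Pool.Agent.H38R2
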