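import Pool.Agent.H38R2.TId

set_option autoImplicit false
set_option linter.style.haveILetI false

namespace Pool.Agent.H38R2

variable {Φ : Type*} [CommRing Φ] {Q : Type*} [Ring Q] [Algebra Φ Q]

theorem digits_inj (B N : ℕ) : ∀ (a b : ℕ → ℕ), (∀ k, a k < B) → (∀ k, b k < B) →
    ∑ k ∈ Finset.range N, a k * B ^ k = ∑ k ∈ Finset.range N, b k * B ^ k →
    ∀ k < N, a k = b k := by
  induction N with
  | zero => intro a b _ _ _ k hk; omega
  | succ N ih =>
    intro a b ha hb h
    rw [Finset.sum_range_succ', Finset.sum_range_succ', pow_zero, mul_one, mul_one] at h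
    have e : ∀ a : ℕ → ℕ, ∑ k ∈ Finset.range N, a (k + 1) * B ^ (k + 1) =
        B * ∑ k ∈ Finset.range N, a (k + 1) * B ^ k := by
      intro a
      rw [Finset.mul_sum]
      exact Finset.sum_congr rfl fun k _ => by ring
    rw [e, e] at h
    have hB : 0 < B := (Nat.zero_le _).trans_lt (ha 0)
    have h0 : a 0 = b 0 := by
      have := congrArg (· % B) h
      simp only [Nat.mul_add_mod] at this
      rwa [Nat.mod_eq_of_lt (ha 0), Nat.mod_eq_of_lt (hb 0)] at this
    rw [h0] at h
    have h1 := Nat.eq_of_mul_eq_mul_left hB (Nat.add_right_cancel h)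
    intro k hk
    cases k with
    | zero => exact h0
    | succ k =>
      exact ih (fun k => a (k + 1)) (fun k => b (k + 1)) (fun k => ha _) (fun k => hb _) h1 k
        (by omega)

theorem exists_sep (m : Multiset ℕ) (S : Finset (List ℕ)) : ∃ e : ℕ → ℕ, (∀ k, e k ≠ 0) ∧
    ∀ q ∈ S, (q.map e).sum = (m.map e).sum → (q : Multiset ℕ) = m := by
  classical
  set B := 1 + m.card + ∑ q ∈ S, q.length with hB
  have hBpos : B ≠ 0 := by omega
  refine ⟨fun k => B ^ (k + 1), fun k => pow_ne_zero _ hBpos, fun q hq h => ?_⟩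
  rw [← Multiset.sum_coe, ← Multiset.map_coe] at h
  have hqB : q.length < B := by
    have : q.length ≤ ∑ q ∈ S, q.length :=
      Finset.single_le_sum (f := fun q : List ℕ => q.length) (fun _ _ => Nat.zero_le _) hq
    omega
  obtain ⟨N, hN⟩ : ∃ N, ∀ x, (x ∈ m ∨ x ∈ q) → x < N := by
    refine ⟨(m + (q : Multiset ℕ)).toFinset.sup id + 1, fun x hx => ?_⟩
    have : x ∈ (m + (q : Multiset ℕ)).toFinset := by
      rw [Multiset.mem_toFinset, Multiset.mem_add]
      exact hx
    have := Finset.le_sup (f := id) this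
    simp only [id] at this
    omega
  have key : ∀ n : Multiset ℕ, (∀ x ∈ n, x < N) → (n.map (fun k => B ^ (k + 1))).sum =
      B * ∑ k ∈ Finset.range N, n.count k * B ^ k := by
    intro n hn
    rw [Finset.sum_multiset_map_count, Finset.mul_sum]
    have hsub : n.toFinset ⊆ Finset.range N := by
      intro x hx
      rw [Multiset.mem_toFinset] at hx
      exact Finset.mem_range.2 (hn x hx)
    rw [Finset.sum_subset hsub]
    · exact Finset.sum_congr rfl fun k _ => by rw [smul_eq_mul]; ring
    · intro x _ hx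
      rw [Multiset.mem_toFinset] at hx
      rw [Multiset.count_eq_zero_of_notMem hx, zero_smul]
  rw [key _ (fun x hx => hN x (Or.inr (by simpa using hx))),
    key _ (fun x hx => hN x (Or.inl hx))] at h
  have h1 := Nat.eq_of_mul_eq_mul_left (Nat.pos_of_ne_zero hBpos) h
  have h2 := digits_inj B N _ _ (fun k => by
      refine (Multiset.count_le_card k _).trans_lt ?_
      rw [Multiset.coe_card]; exact hqB) (fun k => by
      refine (Multiset.count_le_card k _).trans_lt ?_
      omega) h1
  ext k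
  by_cases hk : k < N
  · exact h2 k hk
  · rw [Multiset.count_eq_zero_of_notMem, Multiset.count_eq_zero_of_notMem]
    · intro h; exact hk (hN k (Or.inl h))
    · intro h; exact hk (hN k (Or.inr (by simpa using h)))

/-- the signature coefficients lie in the ideal -/
theorem sgn_mem' {A : Submodule Φ Q} {hA : ∀ a ∈ A, ∀ q : Q, a * q ∈ A} (i j : ℕ) (f : NP Φ ℕ)
    (hf : f ∈ TI A ℕ) (m : Multiset ℕ) :
    ∃ G ∈ PPid A hA, ∃ b : ℕ, G.coeff (Finsupp.single 0 b) = sgn i j m f := by
  classical
  obtain ⟨e, he, hsep⟩ := exists_sep m (f.coeff.support.image (fun w => w.toList.tail.dropLast))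
  refine sgn_mem i j f hf m e he ?_
  intro w hw q hq hsum
  apply hsep q _ hsum
  rw [Finset.mem_image]
  refine ⟨w, hw, ?_⟩
  rw [hq]; simp

/-- the linear coefficients -/
theorem lin_mem {A : Submodule Φ Q} {hA : ∀ a ∈ A, ∀ q : Q, a * q ∈ A} (i : ℕ) (f : NP Φ ℕ)
    (hf : f ∈ TI A ℕ) :
    ∃ G ∈ PPid A hA, ∃ b : ℕ, G.coeff (Finsupp.single 0 b) = f.coeff (FreeMonoid.of i) := by
  classical
  let s : ℕ → NP Φ (Fin 3) := fun k => if k = i then lt Φ 0 * lt Φ 2 else 0
  have hs : ∀ v : Fin 3 → Q, (∀ y, v y ∈ A) → ∀ x, ev v (s x) ∈ A := by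
    intro v hv x
    simp only [s]
    split_ifs
    · rw [map_mul, ev_lt, ev_lt]; exact hA _ (hv 0) _
    · rw [map_zero]; exact A.zero_mem
  refine ⟨Psi (ev s f), ⟨_, TI_subst hf _ hs, rfl⟩, 0, ?_⟩
  rw [Psi_subst]
  have h1 : ∀ k, k = i → ev XM (s k) =
      (Matrix.single 0 2 1 : Matrix (Fin 3) (Fin 3) (MvPolynomial (Fin 3) Φ)) := by
    intro k hk
    simp only [s]
    rw [if_pos hk, map_mul, ev_lt, ev_lt]
    simp [XM]
  have h1' : ∀ k, k ≠ i → ev XM (s k) =
      (0 : Matrix (Fin 3) (Fin 3) (MvPolynomial (Fin 3) Φ)) := by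
    intro k hk
    simp only [s]
    rw [if_neg hk, map_zero]
  have h2 : ∀ l : List ℕ, (l.map (fun k => ev XM (s k))).prod 0 2 =
      if l = [i] then (1 : MvPolynomial (Fin 3) Φ) else 0 := by
    intro l
    match l with
    | [] => simp
    | [k] =>
      rw [List.map_cons, List.map_nil, List.prod_cons, List.prod_nil, mul_one]
      by_cases hk : k = i
      · rw [h1 k hk, if_pos (by rw [hk])]; simp
      · rw [h1' k hk, if_neg (by simpa using hk)]; rfl
    | k :: k' :: l =>
      rw [List.map_cons, List.map_cons, List.prod_cons, List.prod_cons, ← mul_assoc,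
        if_neg (by simp)]
      have h3 : (ev XM (s k) : Matrix (Fin 3) (Fin 3) (MvPolynomial (Fin 3) Φ)) *
          ev XM (s k') = 0 := by
        by_cases hk : k = i
        · by_cases hk' : k' = i
          · rw [h1 k hk, h1 k' hk']; simp
          · rw [h1' k' hk', mul_zero]
        · rw [h1' k hk, zero_mul]
      rw [h3, zero_mul]; rfl
  rw [ev_apply, Finsupp.sum, Matrix.sum_apply, MvPolynomial.coeff_sum]
  rw [Finset.sum_eq_single (FreeMonoid.of i)]
  · rw [Matrix.smul_apply, h2]
    have : (FreeMonoid.of i).toList = [i] := rfl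
    rw [if_pos this, MvPolynomial.coeff_smul]
    simp
  · intro w _ hw
    rw [Matrix.smul_apply, h2, if_neg, smul_zero, MvPolynomial.coeff_zero]
    intro h
    apply hw
    exact h
  · intro h
    rw [Finsupp.notMem_support_iff] at h
    rw [h, zero_smul]
    simp

end Pool.Agent.H38R2
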