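import Pool.Agent.H38R2.RFMain
import Pool.Agent.H38R2.Lin
import Pool.Agent.H38R2.Sep
import Pool.Agent.H38R2.Defs
import Pool.Agent.H38R2.Quot

set_option autoImplicit false
set_option linter.style.haveILetI false

namespace Pool.Agent.H38R2

universe u v w

section conv
variable {Φ : Type w} [CommRing Φ]

/-- the embedding of the free semigroup into the free monoid -/
def iot : FreeSemigroup ℕ ↪ FreeMonoid ℕ :=
  ⟨fun u => FreeMonoid.ofList (letters u), by
    rintro ⟨h, t⟩ ⟨h', t'⟩ he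
    have : letters ⟨h, t⟩ = letters ⟨h', t'⟩ := he
    rw [letters, letters, List.cons.injEq] at this
    simp only at this
    rw [this.1, this.2]⟩

/-- a polynomial without constant term as a polynomial -/
noncomputable def toNP (f : MonoidAlgebra Φ (FreeSemigroup ℕ)) : NP Φ ℕ :=
  MonoidAlgebra.ofCoeff (f.coeff.embDomain iot)

theorem toNP_coeff (f : MonoidAlgebra Φ (FreeSemigroup ℕ)) (u : FreeSemigroup ℕ) :
    (toNP f).coeff (iot u) = f.coeff u := by
  change (f.coeff.embDomain iot) (iot u) = f.coeff u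
  rw [Finsupp.embDomain_apply_self]

theorem toNP_support (f : MonoidAlgebra Φ (FreeSemigroup ℕ)) :
    (toNP f).coeff.support = f.coeff.support.map iot := by
  change (f.coeff.embDomain iot).support = _
  rw [Finsupp.support_embDomain]

theorem toNP_lin (f : MonoidAlgebra Φ (FreeSemigroup ℕ)) (i : ℕ) :
    (toNP f).coeff (FreeMonoid.of i) = f.coeff (FreeSemigroup.of i) :=
  toNP_coeff f (FreeSemigroup.of i)

theorem toNP_sgn (f : MonoidAlgebra Φ (FreeSemigroup ℕ)) (i j : ℕ) (m : Multiset ℕ) :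
    sgn i j m (toNP f) = sig i j m f := by
  classical
  rw [sgn, sig, Finsupp.sum, toNP_support, Finset.sum_map, Finset.sum_filter]
  refine Finset.sum_congr rfl fun u _ => ?_
  rw [toNP_coeff]
  rfl

variable {Q : Type u} [Ring Q] [Algebra Φ Q]

theorem ev_toNP (f : MonoidAlgebra Φ (FreeSemigroup ℕ)) (v : ℕ → Q) :
    ev v (toNP f) = ∑ u ∈ f.coeff.support, f.coeff u • ((letters u).map v).prod := by
  rw [ev_apply, Finsupp.sum, toNP_support, Finset.sum_map]
  refine Finset.sum_congr rfl fun u _ => ?_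
  rw [toNP_coeff]
  rfl

end conv

section main
variable {Φ : Type w} [CommRing Φ] {A : Type v} [NonUnitalRing A] [Module Φ A]
  [IsScalarTower Φ A A] [SMulCommClass Φ A A]

/-- the algebra inside its unitization -/
noncomputable def Au (Φ : Type w) [CommRing Φ] (A : Type v) [NonUnitalRing A] [Module Φ A]
    [IsScalarTower Φ A A] [SMulCommClass Φ A A] : Submodule Φ (Unitization Φ A) :=
  LinearMap.range (Unitization.inrHom Φ Φ A)

theorem mem_Au (x : Unitization Φ A) : x ∈ Au Φ A ↔ x.fst = 0 := by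
  constructor
  · rintro ⟨a, rfl⟩; rfl
  · intro h
    refine ⟨x.snd, ?_⟩
    have := Unitization.inl_fst_add_inr_snd_eq x
    rw [h, Unitization.inl_zero, zero_add] at this
    exact this

theorem inr_mem_Au (a : A) : (Unitization.inr a : Unitization Φ A) ∈ Au Φ A := ⟨a, rfl⟩

theorem Au_l : (⊤ : Submodule Φ (Unitization Φ A)) * Au Φ A ≤ Au Φ A := by
  rw [Submodule.mul_le]
  intro x _ y hy
  rw [mem_Au] at hy ⊢
  rw [Unitization.fst_mul, hy, mul_zero]

theorem Au_r : Au Φ A * (⊤ : Submodule Φ (Unitization Φ A)) ≤ Au Φ A := by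
  rw [Submodule.mul_le]
  intro x hx y _
  rw [mem_Au] at hx ⊢
  rw [Unitization.fst_mul, hx, zero_mul]

theorem one_sup_Au : (1 : Submodule Φ (Unitization Φ A)) ⊔ Au Φ A = ⊤ := by
  rw [eq_top_iff]
  intro x _
  rw [← Unitization.inl_fst_add_inr_snd_eq x]
  refine Submodule.add_mem_sup ?_ (inr_mem_Au _)
  rw [Submodule.mem_one]
  exact ⟨x.fst, rfl⟩

theorem FGA_Au (s : Finset A) (hs : NonUnitalAlgebra.adjoin Φ (s : Set A) = ⊤) :
    FGA (Au Φ A) := by
  classical
  refine ⟨Submodule.span Φ ((s.image (Unitization.inr : A → Unitization Φ A) : Finset _) :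
    Set (Unitization Φ A)), ⟨_, rfl⟩, ?_⟩
  apply le_antisymm
  · rintro _ ⟨a, rfl⟩
    have ha : a ∈ NonUnitalAlgebra.adjoin Φ (s : Set A) := by rw [hs]; trivial
    induction ha using NonUnitalAlgebra.adjoin_induction with
    | mem x hx =>
      apply le_alg
      apply Submodule.subset_span
      rw [Finset.coe_image]
      exact ⟨x, hx, rfl⟩
    | add x y _ _ hx hy => rw [map_add]; exact Submodule.add_mem _ hx hy
    | zero => rw [map_zero]; exact Submodule.zero_mem _
    | mul x y _ _ hx hy =>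
      have : Unitization.inrHom Φ Φ A (x * y) = Unitization.inrHom Φ Φ A x * Unitization.inrHom Φ Φ A y :=
        Unitization.inr_mul Φ x y
      rw [this]
      exact alg_mul_alg _ (Submodule.mul_mem_mul hx hy)
    | smul r x _ hx => rw [map_smul]; exact Submodule.smul_mem _ _ hx
  · apply alg_le
    · rw [Submodule.span_le, Finset.coe_image]
      rintro _ ⟨a, _, rfl⟩
      exact inr_mem_Au a
    · exact (mr le_rfl).trans ((ml le_top).trans Au_l)

theorem inr_lift (a : ℕ → A) (u : FreeSemigroup ℕ) :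
    (Unitization.inr (FreeSemigroup.lift a u) : Unitization Φ A) =
      ((letters u).map (fun k => (Unitization.inr (a k) : Unitization Φ A))).prod := by
  induction u using FreeSemigroup.recOnMul with
  | ih1 x =>
    rw [FreeSemigroup.lift_of]
    simp [letters, FreeSemigroup.of]
  | ih2 x y _ hy =>
    rw [FreeSemigroup.lift_of_mul, Unitization.inr_mul, hy]
    rfl

theorem TI_of_satisfies (S : Set (MonoidAlgebra Φ (FreeSemigroup ℕ))) (hA : Satisfies S A)
    (f : MonoidAlgebra Φ (FreeSemigroup ℕ)) (hf : f ∈ S) : toNP f ∈ TI (Au Φ A) ℕ := by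
  intro v hv
  choose a ha using hv
  have hv : v = fun k => (Unitization.inr (a k) : Unitization Φ A) := funext fun k => (ha k).symm
  rw [ev_toNP, hv]
  have h1 := congrArg (Unitization.inrHom Φ Φ A) (hA f hf a)
  rw [map_zero, MonoidAlgebra.liftMagma_apply_apply] at h1
  rw [← h1]
  change _ = Unitization.inrHom Φ Φ A (∑ w ∈ f.coeff.support, f.coeff w • FreeSemigroup.lift a w)
  rw [map_sum]
  refine Finset.sum_congr rfl fun w _ => ?_
  rw [map_smul]
  congr 1
  exact (inr_lift a w).symm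

/-- **If part.** -/
theorem sep_of_sig [IsDomain Φ] [IsPrincipalIdealRing Φ] [Algebra.FiniteType ℤ Φ]
    (hfin : ∀ n : ℕ, n ≠ 0 → Finite (Φ ⧸ Ideal.span {(n : Φ)}))
    (S : Set (MonoidAlgebra Φ (FreeSemigroup ℕ)))
    (hS : ∀ 𝔭 : Ideal Φ, 𝔭.IsPrime → ∃ f ∈ S, (∃ i, f.coeff (FreeSemigroup.of i) ∉ 𝔭) ∨
      ∃ i j m, sig i j m f ∉ 𝔭)
    (hA : Satisfies S A) (s : Finset A) (hs : NonUnitalAlgebra.adjoin Φ (s : Set A) = ⊤)
    (x : A) (hx : x ≠ 0) :
    ∃ I : Submodule Φ A, (∀ a y : A, y ∈ I → a * y ∈ I) ∧ (∀ a y : A, y ∈ I → y * a ∈ I) ∧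
      Finite (A ⧸ I) ∧ x ∉ I := by
  classical
  have hAr : ∀ a ∈ Au Φ A, ∀ q : Unitization Φ A, a * q ∈ Au Φ A := fun a ha q =>
    Au_r (Submodule.mul_mem_mul ha trivial)
  obtain ⟨H, hH, hmon⟩ := exists_monic (PPid (Au Φ A) hAr) (fun G hG g => theta_mem G hG g) (by
    intro 𝔭 h𝔭
    obtain ⟨f, hf, h⟩ := hS 𝔭 h𝔭
    have hTI := TI_of_satisfies S hA f hf
    rcases h with ⟨i, hi⟩ | ⟨i, j, m, hm⟩
    · obtain ⟨G, hG, b, hb⟩ := lin_mem (hA := hAr) i (toNP f) hTI
      refine ⟨G, hG, b, ?_⟩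
      rw [hb, toNP_lin]; exact hi
    · obtain ⟨G, hG, b, hb⟩ := sgn_mem' (hA := hAr) i j (toNP f) hTI m
      refine ⟨G, hG, b, ?_⟩
      rw [hb, toNP_sgn]; exact hm)
  obtain ⟨R, hR, rfl⟩ := hH
  obtain ⟨d, c, hc, hPI⟩ := exists_PIon (Au Φ A) R hR (by
    intro 𝔪 h𝔪
    by_contra hcon
    push Not at hcon
    have h1 := coeff_monic_one (Psi R) hmon
    apply h𝔪.ne_top
    rw [Ideal.eq_top_iff_one, ← h1]
    rw [Psi, ev_apply, Finsupp.sum, Matrix.sum_apply, MvPolynomial.coeff_sum]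
    apply Ideal.sum_mem
    intro w _
    rw [Matrix.smul_apply, MvPolynomial.coeff_smul, smul_eq_mul]
    exact 𝔪.mul_mem_right _ (hcon w))
  have hx' : (Unitization.inr x : Unitization Φ A) ≠ 0 := by
    intro h
    apply hx
    exact Unitization.inr_injective (R := Φ) (by rw [h, Unitization.inr_zero])
  obtain ⟨V, hVA, hAV, hVA', hxV, hcov⟩ := rf_main hfin (Au Φ A) one_sup_Au Au_l Au_r
    (FGA_Au s hs) hc hPI R hR hmon (Unitization.inr x) (inr_mem_Au x) hx'
  refine ⟨V.comap (Unitization.inrHom Φ Φ A), ?_, ?_, ?_, hxV⟩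
  · intro a y hy
    change Unitization.inr (a * y) ∈ V
    rw [Unitization.inr_mul]
    exact hAV (Submodule.mul_mem_mul (inr_mem_Au a) hy)
  · intro a y hy
    change Unitization.inr (y * a) ∈ V
    rw [Unitization.inr_mul]
    exact hVA' (Submodule.mul_mem_mul hy (inr_mem_Au a))
  · obtain ⟨t, ht⟩ := (hcov.comap (Unitization.inrHom Φ Φ A) (V := ⊤) (fun a _ => inr_mem_Au a))
    refine Finite.of_surjective (fun y : t => (Submodule.Quotient.mk (y : A) :
      A ⧸ V.comap (Unitization.inrHom Φ Φ A))) ?_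
    intro z
    obtain ⟨z, rfl⟩ := Submodule.Quotient.mk_surjective _ z
    obtain ⟨y, hy, hzy⟩ := ht z trivial
    refine ⟨⟨y, hy⟩, ?_⟩
    exact ((Submodule.Quotient.eq _).2 hzy).symm

end main

end Pool.Agent.H38R2
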