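import Pool.Agent.H38R2.App

set_option autoImplicit false
set_option linter.style.haveILetI false

namespace Pool.Agent.H38R2

variable {Φ : Type*} [CommRing Φ] {Q : Type*} [Ring Q] [Algebra Φ Q]
variable {ι : Type*} [Fintype ι] [DecidableEq ι]

/-- span of the generators -/
def Es (Φ : Type*) [CommRing Φ] {Q : Type*} [Ring Q] [Algebra Φ Q] {ι : Type*} (a : ι → Q) :
    Submodule Φ Q := Submodule.span Φ (Set.range a)

/-- span of the commutators of the generators -/
def Cs (Φ : Type*) [CommRing Φ] {Q : Type*} [Ring Q] [Algebra Φ Q] {ι : Type*} (a : ι → Q) :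
    Submodule Φ Q := Submodule.span Φ {x | ∃ i j, x = a i * a j - a j * a i}

/-- words of length at most one -/
def Fs (Φ : Type*) [CommRing Φ] {Q : Type*} [Ring Q] [Algebra Φ Q] {ι : Type*} (a : ι → Q) :
    Submodule Φ Q := 1 ⊔ Es Φ a

/-- unital hull of an algebra -/
def uni (P : Submodule Φ Q) : Submodule Φ Q := 1 ⊔ P

theorem one_le_uni (P : Submodule Φ Q) : 1 ≤ uni P := le_sup_left
theorem le_uni (P : Submodule Φ Q) : P ≤ uni P := le_sup_right

theorem uni_mul {P W : Submodule Φ Q} (h : P * W ≤ W) : uni P * W ≤ W := by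
  unfold uni
  rw [Submodule.sup_mul, one_mul]
  exact sup_le le_rfl h

theorem mul_uni {P W : Submodule Φ Q} (h : W * P ≤ W) : W * uni P ≤ W := by
  unfold uni
  rw [Submodule.mul_sup, mul_one]
  exact sup_le le_rfl h

theorem uni_mul_uni {P : Submodule Φ Q} (h : P * P ≤ P) : uni P * uni P ≤ uni P := by
  have h1 : P * uni P ≤ uni P := by
    unfold uni
    rw [Submodule.mul_sup, mul_one]
    exact sup_le le_sup_right (h.trans le_sup_right)
  exact uni_mul h1

theorem pow_le_uni {P X : Submodule Φ Q} (h : P * P ≤ P) (hX : X ≤ uni P) (n : ℕ) :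
    X ^ n ≤ uni P := by
  induction n with
  | zero => exact one_le_uni P
  | succ n ih => rw [pow_succ]; exact (mm ih hX).trans (uni_mul_uni h)

omit [Fintype ι] [DecidableEq ι] in
theorem one_le_Fs (a : ι → Q) : 1 ≤ Fs Φ a := le_sup_left
omit [Fintype ι] [DecidableEq ι] in
theorem Es_le_Fs (a : ι → Q) : Es Φ a ≤ Fs Φ a := le_sup_right

omit [Fintype ι] [DecidableEq ι] in
theorem Fs_pow_mono (a : ι → Q) {m n : ℕ} (h : m ≤ n) : Fs Φ a ^ m ≤ Fs Φ a ^ n := by
  obtain ⟨k, rfl⟩ := Nat.exists_eq_add_of_le h
  rw [pow_add]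
  calc Fs Φ a ^ m = Fs Φ a ^ m * 1 := by rw [mul_one]
    _ ≤ Fs Φ a ^ m * Fs Φ a ^ k := mr (by
      calc (1 : Submodule Φ Q) = 1 ^ k := (one_pow k).symm
        _ ≤ _ := pm (one_le_Fs a) k)

omit [Fintype ι] [DecidableEq ι] in
theorem Fs_pow_succ (a : ι → Q) (n : ℕ) :
    Fs Φ a ^ (n + 1) ≤ Fs Φ a ^ n ⊔ Es Φ a ^ (n + 1) := by
  induction n with
  | zero => simp [Fs]
  | succ n ih =>
    rw [pow_succ (Fs Φ a) (n + 1)]
    have h1 : Fs Φ a ^ (n + 1) * Fs Φ a = Fs Φ a ^ (n + 1) ⊔ Fs Φ a ^ (n + 1) * Es Φ a := by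
      conv_lhs => rw [show Fs Φ a ^ (n + 1) * Fs Φ a = Fs Φ a ^ (n + 1) * (1 ⊔ Es Φ a) from rfl]
      rw [Submodule.mul_sup, mul_one]
    rw [h1]
    refine sup_le le_sup_left ?_
    refine (ml ih).trans ?_
    rw [Submodule.sup_mul]
    refine sup_le ?_ ?_
    · refine le_trans ?_ le_sup_left
      rw [pow_succ]
      exact mr (Es_le_Fs a)
    · rw [← pow_succ]; exact le_sup_right

omit [Fintype ι] [DecidableEq ι] in
theorem list_prod_mem (a : ι → Q) (l : List ι) : (l.map a).prod ∈ Es Φ a ^ l.length := by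
  induction l with
  | nil => simp [Submodule.one_le.1 le_rfl]
  | cons k l ih =>
    rw [List.map_cons, List.prod_cons, List.length_cons, pow_succ']
    exact Submodule.mul_mem_mul (Submodule.subset_span ⟨k, rfl⟩) ih

omit [Fintype ι] [DecidableEq ι] in
theorem Es_pow_le (a : ι → Q) (L : ℕ) (S : Submodule Φ Q)
    (h : ∀ l : List ι, l.length = L → (l.map a).prod ∈ S) : Es Φ a ^ L ≤ S := by
  unfold Es
  rw [Submodule.span_pow, Submodule.span_le]
  intro x hx
  rw [Set.mem_pow] at hx
  obtain ⟨f, rfl⟩ := hx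
  choose g hg using fun i => (f i).2
  have := h (List.ofFn g) (by simp)
  have e : (a ∘ g) = fun i => (f i : Q) := funext hg
  rw [List.map_ofFn, e] at this
  exact this

omit [DecidableEq ι] in
theorem sum_count [DecidableEq ι] (l : List ι) : ∑ k, l.count k = l.length := by
  induction l with
  | nil => simp
  | cons j l ih =>
    simp only [List.count_cons, Finset.sum_add_distrib, ih, List.length_cons, beq_iff_eq]
    simp

theorem exists_count (l : List ι) (n : ℕ) (h : Fintype.card ι * n < l.length) :
    ∃ k, n ≤ l.count k := by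
  by_contra hcon
  push Not at hcon
  rw [← sum_count l] at h
  have : ∑ k : ι, l.count k ≤ ∑ _k : ι, n := Finset.sum_le_sum fun k _ => (hcon k).le
  rw [Finset.sum_const, Finset.card_univ, smul_eq_mul] at this
  omega

omit [Fintype ι] [DecidableEq ι] in
theorem reorder (a : ι → Q) {W U V : Submodule Φ Q} (L : ℕ)
    (h : ∀ i j, i + j + 2 = L → U * Fs Φ a ^ i * Cs Φ a * Fs Φ a ^ j * V ≤ W)
    {u v : Q} (hu : u ∈ U) (hv : v ∈ V) {l l' : List ι} (hl : l.Perm l') :
    ∀ (p : ℕ) (x : Q), x ∈ Fs Φ a ^ p → p + l.length = L →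
      u * x * (l.map a).prod * v - u * x * (l'.map a).prod * v ∈ W := by
  induction hl with
  | nil => intro p x _ _; simp
  | @cons k l l' _ ih =>
    intro p x hx hp
    rw [List.map_cons, List.map_cons, List.prod_cons, List.prod_cons]
    have hx' : x * a k ∈ Fs Φ a ^ (p + 1) := by
      rw [pow_succ]
      exact Submodule.mul_mem_mul hx (Es_le_Fs a (Submodule.subset_span ⟨k, rfl⟩))
    have := ih (p + 1) _ hx' (by rw [List.length_cons] at hp; omega)
    simpa only [mul_assoc] using this
  | swap i j t =>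
    intro p x hx hp
    simp only [List.map_cons, List.prod_cons]
    have hc : a j * a i - a i * a j ∈ Cs Φ a := Submodule.subset_span ⟨j, i, rfl⟩
    have ht : (t.map a).prod ∈ Fs Φ a ^ t.length :=
      pm (Es_le_Fs a) t.length (list_prod_mem a t)
    have h1 : u * x * (a j * a i - a i * a j) * (t.map a).prod * v ∈ W :=
      h p t.length (by simp only [List.length_cons] at hp; omega)
        (Submodule.mul_mem_mul (Submodule.mul_mem_mul (Submodule.mul_mem_mul
          (Submodule.mul_mem_mul hu hx) hc) ht) hv)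
    have e : u * x * (a j * (a i * (t.map a).prod)) * v - u * x * (a i * (a j * (t.map a).prod)) * v
        = u * x * (a j * a i - a i * a j) * (t.map a).prod * v := by
      simp only [mul_sub, sub_mul, mul_assoc]
    rw [e]; exact h1
  | @trans l1 l2 l3 h12 _ ih1 ih2 =>
    intro p x hx hp
    have := W.add_mem (ih1 p x hx hp) (ih2 p x hx (by rw [← h12.length_eq]; exact hp))
    rwa [sub_add_sub_cancel] at this

/-- Key lemma: it suffices to treat words `c' y^n c''` with `y` a generator. -/
theorem keyL (a : ι → Q) {W U V : Submodule Φ Q} (n l' l'' L : ℕ) (hL : l' + n + l'' = L)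
    (hbig : Fintype.card ι * n < L)
    (h : ∀ i j, i + j + 2 = L → U * Fs Φ a ^ i * Cs Φ a * Fs Φ a ^ j * V ≤ W)
    (h2 : ∀ k, ∀ u ∈ U, ∀ c' ∈ Es Φ a ^ l', ∀ c'' ∈ Es Φ a ^ l'', ∀ v ∈ V,
      (u * c') * a k ^ n * (c'' * v) ∈ W) :
    U * Es Φ a ^ L * V ≤ W := by
  rw [mul_assoc, Submodule.mul_le]
  intro u hu y hy
  have h3 : Es Φ a ^ L * V ≤ W.comap (LinearMap.mulLeft Φ u) := by
    rw [Submodule.mul_le]
    intro x hx v hv
    have h4 : Es Φ a ^ L ≤ W.comap ((LinearMap.mulLeft Φ u).comp (LinearMap.mulRight Φ v)) := by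
      apply Es_pow_le
      intro l hl
      rw [Submodule.mem_comap]
      simp only [LinearMap.comp_apply, LinearMap.mulLeft_apply, LinearMap.mulRight_apply]
      obtain ⟨k, hk⟩ := exists_count l n (by omega)
      obtain ⟨r, hr⟩ := (List.replicate_sublist_iff.2 hk).exists_perm_append
      have hrl : r.length = l' + l'' := by
        have := hr.length_eq
        rw [List.length_append, List.length_replicate] at this
        omega
      have hperm : l.Perm (r.take l' ++ List.replicate n k ++ r.drop l') := by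
        refine hr.trans ?_
        have h5 : (List.replicate n k ++ r).Perm (List.replicate n k ++ (r.take l' ++ r.drop l')) := by
          rw [List.take_append_drop]
        refine h5.trans ?_
        rw [← List.append_assoc]
        exact List.Perm.append_right _ List.perm_append_comm
      have h6 := reorder a L h hu hv hperm 0 1 (by
        rw [pow_zero]; exact Submodule.one_le.1 le_rfl) (by omega)
      have h7 : u * 1 * ((r.take l' ++ List.replicate n k ++ r.drop l').map a).prod * v ∈ W := by
        have h8 := h2 k u hu ((r.take l').map a).prod (by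
          have := list_prod_mem (Φ := Φ) a (r.take l')
          rwa [List.length_take, hrl, min_eq_left (by omega)] at this) ((r.drop l').map a).prod (by
          have := list_prod_mem (Φ := Φ) a (r.drop l')
          rwa [List.length_drop, hrl, Nat.add_sub_cancel_left] at this) v hv
        simp only [List.map_append, List.map_replicate, List.prod_append, List.prod_replicate,
          mul_one]
        simpa only [mul_assoc] using h8
      have h9 := W.add_mem h6 h7
      rw [sub_add_cancel, mul_one] at h9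
      simpa only [mul_assoc] using h9
    exact h4 hx
  exact h3 hy

end Pool.Agent.H38R2
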