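import Pool.Agent.H38R2.Lev

/-! Adapted (identities holding only on a subset `A` containing all commutators, central
coefficients, universe polymorphic) from the Starting-point file
`Pool.Agent.Helper58.EN.JU`. -/

set_option autoImplicit false
set_option linter.style.haveILetI false

namespace Pool.Agent.H38R2

universe u v

/-- products of shift like operators -/
theorem kap_shift {K : Type u} {V : Type v} [Field K] [AddCommGroup V] [Module K V] (D : ℕ)
    (v : ℕ → V) :
    ∀ (n m : ℕ) (b : Fin n → Module.End K V) (τ : Fin n → ℕ), m + n ≤ D →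
    (∀ i, ∀ l ≤ D, b i (v l) = if l = τ i + 1 then v (τ i) else 0) →
    (List.ofFn b).prod (v (m + n)) = if ∀ i, τ i = m + (i : ℕ) then v m else 0 := by
  intro n
  induction n with
  | zero =>
    intro m b τ _ _
    simp
  | succ n ih =>
    intro m b τ hD hb
    rw [List.ofFn_succ, List.prod_cons, Module.End.mul_apply]
    have h1 := ih (m + 1) (fun i => b i.succ) (fun i => τ i.succ) (by omega)
      (fun i l hl => hb i.succ l hl)
    have h2 : m + (n + 1) = m + 1 + n := by ring
    rw [h2, h1]
    by_cases hc : ∀ i : Fin n, τ i.succ = m + 1 + (i : ℕ)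
    · rw [if_pos hc, hb 0 (m + 1) (by omega)]
      by_cases h0 : τ 0 = m
      · rw [if_pos (by omega), if_pos, h0]
        intro i
        refine Fin.cases ?_ (fun i => ?_) i
        · simp [h0]
        · rw [hc i]; simp; ring
      · rw [if_neg (by omega), if_neg]
        intro h
        have := h 0
        simp at this
        exact h0 this
    · rw [if_neg hc, map_zero, if_neg]
      intro h
      apply hc
      intro i
      have := h i.succ
      rw [this]; simp; ring

/-- a multilinear identity passes to the span -/
theorem kap_span {K : Type u} {E : Type v} [Field K] [Ring E] [Algebra K E] (d : ℕ)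
    (P : MultilinearMap K (fun _ : Fin d => E) E) (s : Set E)
    (h : ∀ x : Fin d → E, (∀ i, x i ∈ s) → P x = 0) :
    ∀ x : Fin d → E, (∀ i, x i ∈ Submodule.span K s) → P x = 0 := by
  have key : ∀ t : Finset (Fin d), ∀ x : Fin d → E, (∀ i ∈ t, x i ∈ Submodule.span K s) →
      (∀ i ∉ t, x i ∈ s) → P x = 0 := by
    intro t
    induction t using Finset.induction_on with
    | empty => intro x _ hx; exact h x fun i => hx i (by simp)
    | insert a t ha ih =>
      intro x hx1 hx2
      have key2 : ∀ y ∈ Submodule.span K s, P (Function.update x a y) = 0 := by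
        intro y hy
        induction hy using Submodule.span_induction with
        | mem y hy =>
          apply ih
          · intro i hi
            have : i ≠ a := by rintro rfl; exact ha hi
            rw [Function.update_of_ne this]
            exact hx1 i (Finset.mem_insert_of_mem hi)
          · intro i hi
            by_cases hia : i = a
            · subst hia; rw [Function.update_self]; exact hy
            · rw [Function.update_of_ne hia]
              exact hx2 i (by simp [hia, hi])
        | zero => exact P.map_update_zero x a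
        | add y z _ _ hy hz => rw [P.map_update_add, hy, hz, add_zero]
        | smul c y _ hy => rw [P.map_update_smul, hy, smul_zero]
      have := key2 (x a) (hx1 a (Finset.mem_insert_self _ _))
      rwa [Function.update_eq_self] at this
  intro x hx
  exact key Finset.univ x (fun i _ => hx i) (fun i hi => absurd (Finset.mem_univ i) hi)

/-- dimension bound -/
theorem dim_bound {K : Type u} {V : Type v} [Field K] [AddCommGroup V] [Module K V]
    (d : ℕ) (κ : Equiv.Perm (Fin d) → K) (hκ : κ 1 = 1) (B : Submodule K (Module.End K V))
    (hB : ∀ x : Fin d → Module.End K V, (∀ i, x i ∈ B) →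
      ∑ σ : Equiv.Perm (Fin d), κ σ • (List.ofFn (fun i => x (σ i))).prod = 0)
    (S : Set (Module.End K V)) (hcomm : ∀ a ∈ S, ∀ b ∈ S, a * b - b * a ∈ B)
    (hdens : ∀ (F : Module.End K V) (s : Finset V), ∃ a ∈ S, ∀ m ∈ s, a m = F m) :
    ¬ ∃ v : Fin (d + 1) → V, LinearIndependent K v := by
  classical
  rintro ⟨v, hv⟩
  have hex : ∀ f : Fin (d + 1) → V, ∃ F : Module.End K V, ∀ l, F (v l) = f l := by
    intro f
    let b := Module.Basis.span hv
    let F0 : Submodule.span K (Set.range v) →ₗ[K] V := b.constr K f
    obtain ⟨F, hF⟩ := LinearMap.exists_extend F0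
    refine ⟨F, fun l => ?_⟩
    have h1 : v l = (Submodule.span K (Set.range v)).subtype (b l) := by
      simp [b, Module.Basis.span_apply]
    rw [h1, ← LinearMap.comp_apply, hF]
    simp [F0, Module.Basis.constr_basis]
  choose F hF using fun i : Fin d => hex (fun l => if l = i.succ then v i.castSucc else 0)
  choose G hG using fun i : Fin d => hex (fun l => if l = i.succ then v l else 0)
  choose a haA ha using fun i => hdens (F i) (Finset.univ.image v)
  choose p hpA hp using fun i => hdens (G i) (Finset.univ.image v)
  have ha' : ∀ i l, a i (v l) = if l = i.succ then v i.castSucc else 0 := by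
    intro i l
    rw [ha i (v l) (Finset.mem_image_of_mem v (Finset.mem_univ l)), hF]
  have hp' : ∀ i l, p i (v l) = if l = i.succ then v l else 0 := by
    intro i l
    rw [hp i (v l) (Finset.mem_image_of_mem v (Finset.mem_univ l)), hG]
  set b : Fin d → Module.End K V := fun i => a i * p i - p i * a i with hb
  have hb' : ∀ i l, b i (v l) = if l = i.succ then v i.castSucc else 0 := by
    intro i l
    simp only [hb, LinearMap.sub_apply, Module.End.mul_apply]
    rw [hp', ha']
    by_cases hl : l = i.succ
    · rw [if_pos hl, if_pos hl, ha', if_pos hl, hp', if_neg, sub_zero]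
      exact (Fin.castSucc_lt_succ (i := i)).ne
    · rw [if_neg hl, if_neg hl, map_zero, map_zero, sub_zero]
  let v' : ℕ → V := fun l => if h : l < d + 1 then v ⟨l, h⟩ else 0
  have hv' : ∀ l (h : l < d + 1), v' l = v ⟨l, h⟩ := fun l h => dif_pos h
  have hkey : ∀ σ : Equiv.Perm (Fin d), (List.ofFn (fun i => b (σ i))).prod (v' (0 + d)) =
      if ∀ i, ((σ i : Fin d) : ℕ) = 0 + (i : ℕ) then v' 0 else 0 := by
    intro σ
    refine kap_shift d v' d 0 (fun i => b (σ i)) (fun i => ((σ i : Fin d) : ℕ)) (by omega) ?_
    intro i l hl
    rw [hv' l (by omega), hb', hv' (σ i) (by have := (σ i).2; omega)]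
    simp only [Fin.ext_iff, Fin.val_succ]
    rfl
  have h0 := hB b (fun i => hcomm _ (haA i) _ (hpA i))
  have h1 := congrArg (fun F : Module.End K V => F (v' (0 + d))) h0
  simp only [LinearMap.sum_apply, LinearMap.smul_apply, LinearMap.zero_apply] at h1
  rw [Finset.sum_eq_single (1 : Equiv.Perm (Fin d))] at h1
  · rw [hkey, if_pos (by intro i; simp), hκ] at h1
    rw [one_smul] at h1
    rw [hv' 0 (by omega)] at h1
    exact hv.ne_zero _ h1
  · intro σ _ hσ
    rw [hkey, if_neg, smul_zero]
    intro h
    apply hσ
    ext i
    have := h i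
    simpa using this
  · intro h; exact absurd (Finset.mem_univ _) h

/-- the identity on the `K`-span of the image of `A` -/
theorem span_identity {R : Type v} [Ring R] {K : Type u} [Field K] {E : Type v} [Ring E]
    [Algebra K E] (g : R →+* E) (d : ℕ) (c : Equiv.Perm (Fin d) → R) (A : Set R)
    (hPI : PIc d c A) (κ : Equiv.Perm (Fin d) → K) (hκ : ∀ σ, g (c σ) = algebraMap K E (κ σ)) :
    ∀ x : Fin d → E, (∀ i, x i ∈ Submodule.span K (g '' A)) →
      ∑ σ : Equiv.Perm (Fin d), κ σ • (List.ofFn (fun i => x (σ i))).prod = 0 := by
  let P : MultilinearMap K (fun _ : Fin d => E) E :=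
    ∑ σ : Equiv.Perm (Fin d),
      (κ σ) • (MultilinearMap.mkPiAlgebraFin K d E).domDomCongr σ
  have hP : ∀ x : Fin d → E, P x =
      ∑ σ : Equiv.Perm (Fin d), κ σ • (List.ofFn (fun i => x (σ i))).prod := by
    intro x
    simp only [P, MultilinearMap.sum_apply, MultilinearMap.smul_apply,
      MultilinearMap.domDomCongr_apply, MultilinearMap.mkPiAlgebraFin_apply]
  have hP0 : ∀ x : Fin d → E, (∀ i, x i ∈ g '' A) → P x = 0 := by
    intro x hx
    choose r hr1 hr2 using hx
    have h1 := congrArg g (hPI.2 r hr1)
    rw [map_zero, map_sum] at h1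
    rw [hP, ← h1]
    refine Finset.sum_congr rfl fun σ _ => ?_
    rw [map_mul, map_list_prod, List.map_ofFn, hκ, ← Algebra.smul_def]
    have h2 : (g ∘ fun i => r (σ i)) = fun i => x (σ i) := by
      funext i; exact hr2 (σ i)
    rw [h2]
  intro x hx
  rw [← hP]
  exact kap_span d P (g '' A) hP0 x hx

theorem kap_core {R : Type v} [Ring R] (K : Type v) [Field K] (V : Type v) [AddCommGroup V]
    [Module K V] [Nontrivial V] (g : R →+* Module.End K V)
    (hirr : ∀ W : Submodule K V, (∀ r, ∀ w ∈ W, g r w ∈ W) → W = ⊥ ∨ W = ⊤)
    (hcent : ∀ E : Module.End K V, (∀ r, ∀ v, E (g r v) = g r (E v)) → ∃ k : K, ∀ v, E v = k • v)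
    (d : ℕ) (c : Equiv.Perm (Fin d) → R) (hc : c 1 = 1) (A : Set R)
    (hA : ∀ r s : R, r * s - s * r ∈ A) (hPI : PIc d c A) :
    ∃ (j : ℕ) (φ : R →+* Matrix (Fin j) (Fin j) K),
      ∀ r, φ r = 0 → ∀ v : V, g r v = 0 := by
  classical
  set 𝒜 : Subalgebra K (Module.End K V) := Algebra.adjoin K (Set.range g) with h𝒜
  have hAs : Subalgebra.toSubmodule 𝒜 = Submodule.span K (Set.range g) := by
    rw [h𝒜, Algebra.adjoin_eq_span]
    congr 1
    apply le_antisymm
    · have : Submonoid.closure (Set.range g) ≤ MonoidHom.mrange (g : R →* Module.End K V) := by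
        rw [Submonoid.closure_le]
        rintro _ ⟨r, rfl⟩
        exact ⟨r, rfl⟩
      intro x hx
      obtain ⟨r, hr⟩ := this hx
      exact ⟨r, hr⟩
    · exact Submonoid.subset_closure
  have hgA : ∀ r, g r ∈ 𝒜 := fun r => Algebra.subset_adjoin ⟨r, rfl⟩
  have hsimp : IsSimpleModule 𝒜 V := by
    have hnt : Nontrivial (Submodule 𝒜 V) := inferInstance
    refine { toIsSimpleOrder := { toNontrivial := hnt, eq_bot_or_eq_top := ?_ } }
    intro W
    let W' : Submodule K V :=
      { carrier := W
        add_mem' := fun ha hb => W.add_mem ha hb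
        zero_mem' := W.zero_mem
        smul_mem' := fun k w hw => by
          have := W.smul_mem (algebraMap K 𝒜 k) hw
          simpa [Subalgebra.smul_def, Module.algebraMap_end_apply] using this }
    rcases hirr W' (fun r w hw => W.smul_mem (⟨g r, hgA r⟩ : 𝒜) hw) with h | h
    · left
      ext w
      have : w ∈ W' ↔ w ∈ (⊥ : Submodule K V) := by rw [h]
      simpa [W'] using this
    · right
      ext w
      have : w ∈ W' ↔ w ∈ (⊤ : Submodule K V) := by rw [h]
      simpa [W'] using this
  have hEnd : ∀ E : Module.End 𝒜 V, ∃ k : K, ∀ v, E v = k • v := by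
    intro E
    have hK : ∀ (k : K) (v : V), E (k • v) = k • E v := by
      intro k v
      have := E.map_smul (algebraMap K 𝒜 k) v
      simpa [Subalgebra.smul_def, Module.algebraMap_end_apply] using this
    let E' : Module.End K V :=
      { toFun := E
        map_add' := E.map_add
        map_smul' := hK }
    exact hcent E' (fun r v => E.map_smul (⟨g r, hgA r⟩ : 𝒜) v)
  have hdens : ∀ (F : Module.End K V) (s : Finset V), ∃ a ∈ (𝒜 : Set (Module.End K V)),
      ∀ m ∈ s, a m = F m := by
    intro F s
    let F' : Module.End (Module.End 𝒜 V) V :=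
      { toFun := F
        map_add' := F.map_add
        map_smul' := fun E v => by
          obtain ⟨k, hk⟩ := hEnd E
          simp only [Module.End.smul_def, RingHom.id_apply]
          rw [hk, hk, F.map_smul] }
    obtain ⟨a, ha⟩ := jacobson_density (R := 𝒜) F' s
    exact ⟨a.1, a.2, fun m hm => (ha m hm).symm⟩
  -- scalars
  have hscal : ∀ σ, ∃ k : K, g (c σ) = algebraMap K (Module.End K V) k := by
    intro σ
    obtain ⟨k, hk⟩ := hcent (g (c σ)) (fun r v => by
      rw [← Module.End.mul_apply, ← Module.End.mul_apply, ← map_mul, ← map_mul, hPI.1])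
    exact ⟨k, by ext v; rw [hk, Module.algebraMap_end_apply]⟩
  choose κ hκ using hscal
  have hκ1 : κ 1 = 1 := by
    have h1 := hκ 1
    rw [hc, map_one] at h1
    have h2 : algebraMap K (Module.End K V) 1 = algebraMap K (Module.End K V) (κ 1) := by
      rw [map_one]; exact h1
    exact ((algebraMap K (Module.End K V)).injective h2).symm
  have hspan := span_identity g d c A hPI κ hκ
  have hcommB : ∀ a ∈ (𝒜 : Set (Module.End K V)), ∀ b ∈ (𝒜 : Set (Module.End K V)),
      a * b - b * a ∈ Submodule.span K (g '' A) := by
    intro a ha b hb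
    have ha' : a ∈ Submodule.span K (Set.range g) := by rw [← hAs]; exact ha
    have hb' : b ∈ Submodule.span K (Set.range g) := by rw [← hAs]; exact hb
    clear ha hb
    induction ha' using Submodule.span_induction with
    | mem a ha =>
      obtain ⟨r, rfl⟩ := ha
      induction hb' using Submodule.span_induction with
      | mem b hb =>
        obtain ⟨s, rfl⟩ := hb
        rw [← map_mul, ← map_mul, ← map_sub]
        exact Submodule.subset_span ⟨_, hA r s, rfl⟩
      | zero => rw [mul_zero, zero_mul, sub_zero]; exact Submodule.zero_mem _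
      | add x y _ _ hx hy =>
        have e : g r * (x + y) - (x + y) * g r = (g r * x - x * g r) + (g r * y - y * g r) := by
          rw [mul_add, add_mul]; abel
        rw [e]; exact Submodule.add_mem _ hx hy
      | smul k x _ hx =>
        rw [mul_smul_comm, smul_mul_assoc, ← smul_sub]
        exact Submodule.smul_mem _ _ hx
    | zero => rw [mul_zero, zero_mul, sub_zero]; exact Submodule.zero_mem _
    | add x y _ _ hx hy =>
      have e : (x + y) * b - b * (x + y) = (x * b - b * x) + (y * b - b * y) := by
        rw [mul_add, add_mul]; abel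
      rw [e]; exact Submodule.add_mem _ hx hy
    | smul k x _ hx =>
      rw [mul_smul_comm, smul_mul_assoc, ← smul_sub]
      exact Submodule.smul_mem _ _ hx
  have hdim := dim_bound d κ hκ1 (Submodule.span K (g '' A)) hspan 𝒜 hcommB hdens
  have hrank : Module.rank K V < ((d + 1 : ℕ) : Cardinal) := by
    by_contra hcon
    push Not at hcon
    exact hdim (by
      obtain ⟨f, hf⟩ := exists_linearIndependent_of_le_rank hcon
      exact ⟨f, hf⟩)
  have hfin : Module.Finite K V := by
    rw [← Module.rank_lt_aleph0_iff]
    exact hrank.trans (Cardinal.natCast_lt_aleph0)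
  let b := Module.finBasis K V
  let e := LinearMap.toMatrixAlgEquiv b
  refine ⟨_, (e.toAlgHom.toRingHom).comp g, ?_⟩
  intro r hr v
  have h1 : e (g r) = 0 := hr
  have h2 : g r = 0 := by
    rw [← map_zero e] at h1
    exact e.injective h1
  rw [h2]; simp

theorem kaplansky {R S : Type v} [Ring R] [Ring S] (f : R →+* S) (t : S)
    (ht : ∀ s, t * s = s * t) (hgen : Subring.closure (Set.range f ∪ {t}) = ⊤)
    (V : Type v) [AddCommGroup V] [Module S V] [IsSimpleModule S V]
    (d : ℕ) (c : Equiv.Perm (Fin d) → R) (hc : c 1 = 1) (A : Set R)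
    (hA : ∀ r s : R, r * s - s * r ∈ A) (hPI : PIc d c A) :
    ∃ (K : Type v) (_ : Field K) (j : ℕ) (φ : R →+* Matrix (Fin j) (Fin j) K),
      ∀ r, φ r = 0 → ∀ v : V, f r • v = 0 := by
  classical
  have hnV : Nontrivial V := IsSimpleModule.nontrivial S V
  -- a maximal commutative subring of the endomorphism ring
  let C : Set (Subring (Module.End S V)) := {K | ∀ x ∈ K, ∀ y ∈ K, x * y = y * x}
  obtain ⟨K, hK⟩ : ∃ K, Maximal (· ∈ C) K := by
    refine zorn_le₀ C ?_
    intro ch hch hchain
    rcases ch.eq_empty_or_nonempty with rfl | hne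
    · refine ⟨⊥, ?_, by simp⟩
      intro x hx y hy
      rw [Subring.mem_bot] at hx hy
      obtain ⟨n, rfl⟩ := hx
      exact Int.cast_commute n y
    · refine ⟨sSup ch, ?_, fun z hz => le_sSup hz⟩
      intro x hx y hy
      rw [Subring.mem_sSup_of_directedOn hne hchain.directedOn] at hx hy
      obtain ⟨A, hA, hxA⟩ := hx
      obtain ⟨B, hB, hyB⟩ := hy
      rcases hchain.total hA hB with h | h
      · exact hch hB x (h hxA) y hyB
      · exact hch hA x hxA y (h hyB)
  have hKc : ∀ x ∈ K, ∀ y ∈ K, x * y = y * x := hK.prop
  have hmax : ∀ x : Module.End S V, (∀ y ∈ K, x * y = y * x) → x ∈ K := by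
    intro x hx
    have h1 : Subring.closure ((K : Set (Module.End S V)) ∪ {x}) ∈ C := by
      have hcomm : ∀ a ∈ (K : Set (Module.End S V)) ∪ {x},
          ∀ b ∈ (K : Set (Module.End S V)) ∪ {x}, a * b = b * a := by
        rintro a (ha | ha) b (hb | hb)
        · exact hKc a ha b hb
        · rw [Set.mem_singleton_iff.1 hb]; exact (hx a ha).symm
        · rw [Set.mem_singleton_iff.1 ha]; exact hx b hb
        · rw [Set.mem_singleton_iff.1 ha, Set.mem_singleton_iff.1 hb]
      intro a ha b hb
      letI := Subring.closureCommRingOfComm hcomm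
      have := mul_comm (⟨a, ha⟩ : Subring.closure ((K : Set (Module.End S V)) ∪ {x})) ⟨b, hb⟩
      exact congrArg Subtype.val this
    have h2 : K ≤ Subring.closure ((K : Set (Module.End S V)) ∪ {x}) := fun y hy =>
      Subring.subset_closure (Or.inl hy)
    exact hK.le_of_ge h1 h2 (Subring.subset_closure (Or.inr rfl))
  have hField : IsField K := by
    refine { exists_pair_ne := ⟨0, 1, ?_⟩, mul_comm := ?_, mul_inv_cancel := ?_ }
    · intro h
      have h1 : (0 : Module.End S V) = 1 := congrArg Subtype.val h
      obtain ⟨v, hv⟩ := exists_ne (0 : V)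
      apply hv
      have := congrArg (fun F : Module.End S V => F v) h1
      simpa using this.symm
    · intro a b
      exact Subtype.ext (hKc a a.2 b b.2)
    · intro a ha
      have ha' : (a : Module.End S V) ≠ 0 := fun h => ha (Subtype.ext h)
      have hbij := (LinearMap.bijective_or_eq_zero (a : Module.End S V)).resolve_right ha'
      let e := LinearEquiv.ofBijective (a : Module.End S V) hbij
      let y : Module.End S V := e.symm.toLinearMap
      have hay : (a : Module.End S V) * y = 1 := by
        ext v; exact e.apply_symm_apply v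
      have hya : y * (a : Module.End S V) = 1 := by
        ext v; exact e.symm_apply_apply v
      have hyK : y ∈ K := by
        apply hmax
        intro z hz
        calc y * z = y * z * (a * y) := by rw [hay, mul_one]
          _ = y * (z * a) * y := by simp only [mul_assoc]
          _ = y * (a * z) * y := by rw [hKc z hz a a.2]
          _ = (y * a) * z * y := by simp only [mul_assoc]
          _ = z * y := by rw [hya, one_mul]
      exact ⟨⟨y, hyK⟩, Subtype.ext hay⟩
  letI : Field K := hField.toField
  letI : Module K V :=
    { smul := fun k v => (k : Module.End S V) v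
      one_smul := fun v => rfl
      mul_smul := fun a b v => rfl
      smul_zero := fun a => (a : Module.End S V).map_zero
      smul_add := fun a x y => (a : Module.End S V).map_add x y
      add_smul := fun a b v => rfl
      zero_smul := fun v => rfl }
  have hsm : ∀ (k : K) (v : V), k • v = (k : Module.End S V) v := fun k v => rfl
  let g : R →+* Module.End K V :=
    { toFun := fun r =>
        { toFun := fun v => f r • v
          map_add' := fun x y => smul_add _ _ _
          map_smul' := fun k v => by
            simp only [RingHom.id_apply, hsm]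
            rw [LinearMap.map_smul] }
      map_one' := by ext v; simp
      map_mul' := fun a b => by ext v; simp [mul_smul]
      map_zero' := by ext v; simp
      map_add' := fun a b => by ext v; simp [add_smul] }
  have hg : ∀ r v, g r v = f r • v := fun r v => rfl
  -- the scalar τ
  let τ : Module.End S V :=
    { toFun := fun v => t • v
      map_add' := fun x y => smul_add _ _ _
      map_smul' := fun s v => by
        simp only [RingHom.id_apply]
        rw [smul_smul, smul_smul, ht] }
  have hτK : τ ∈ K := by
    apply hmax
    intro y _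
    ext v
    simp only [τ, Module.End.mul_apply, LinearMap.coe_mk, AddHom.coe_mk]
    rw [LinearMap.map_smul]
  have hτ : ∀ v : V, t • v = (⟨τ, hτK⟩ : K) • v := fun v => rfl
  obtain ⟨j, φ, h2⟩ := kap_core K V g (by
    intro W hW
    let W' : Submodule S V :=
      { carrier := W
        add_mem' := fun ha hb => W.add_mem ha hb
        zero_mem' := W.zero_mem
        smul_mem' := by
          intro s
          have hs : s ∈ Subring.closure (Set.range f ∪ {t}) := by rw [hgen]; trivial
          induction hs using Subring.closure_induction with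
          | mem x hx =>
            intro w hw
            rcases hx with ⟨r, rfl⟩ | hx
            · exact hW r w hw
            · rw [Set.mem_singleton_iff.1 hx, hτ]
              exact W.smul_mem _ hw
          | zero => intro w _; rw [zero_smul]; exact W.zero_mem
          | one => intro w hw; rw [one_smul]; exact hw
          | add x y _ _ hx hy => intro w hw; rw [add_smul]; exact W.add_mem (hx hw) (hy hw)
          | neg x _ hx => intro w hw; rw [neg_smul]; exact W.neg_mem (hx hw)
          | mul x y _ _ hx hy => intro w hw; rw [mul_smul]; exact hx (hy hw) }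
    rcases eq_bot_or_eq_top W' with h | h
    · left
      ext w
      have : w ∈ W' ↔ w ∈ (⊥ : Submodule S V) := by rw [h]
      simpa [W'] using this
    · right
      ext w
      have : w ∈ W' ↔ w ∈ (⊤ : Submodule S V) := by rw [h]
      simpa [W'] using this) (by
    intro E hE
    have hES : ∀ (s : S) (v : V), E (s • v) = s • E v := by
      intro s
      have hs : s ∈ Subring.closure (Set.range f ∪ {t}) := by rw [hgen]; trivial
      induction hs using Subring.closure_induction with
      | mem x hx =>
        intro v
        rcases hx with ⟨r, rfl⟩ | hx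
        · exact hE r v
        · rw [Set.mem_singleton_iff.1 hx, hτ, hτ]
          exact E.map_smul _ v
      | zero => intro v; simp
      | one => intro v; simp
      | add x y _ _ hx hy => intro v; rw [add_smul, add_smul, map_add, hx, hy]
      | neg x _ hx => intro v; rw [neg_smul, neg_smul, map_neg, hx]
      | mul x y _ _ hx hy => intro v; rw [mul_smul, mul_smul, hx, hy]
    let E' : Module.End S V :=
      { toFun := E
        map_add' := E.map_add
        map_smul' := hES }
    have hE'K : E' ∈ K := by
      apply hmax
      intro y hy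
      ext v
      exact E.map_smul (⟨y, hy⟩ : K) v
    exact ⟨⟨E', hE'K⟩, fun v => rfl⟩) d c hc A hA hPI
  exact ⟨K, inferInstance, j, φ, h2⟩

end Pool.Agent.H38R2
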