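import Mathlib

/-! Adapted (generalised to identities holding only on a subset `A`, with central coefficients)
from the Starting-point files `Pool.Agent.Helper58.EN.{JQ,JS,JT}`. -/

set_option autoImplicit false
set_option linter.style.haveILetI false

namespace Pool.Agent.H38R2

open Polynomial

/-- local nilpotency of a subset of a ring. -/
def LN {R : Type*} [Ring R] (I : Set R) : Prop :=
  ∀ X : Finset R, (↑X ⊆ I) → ∃ N : ℕ, ∀ l : List R, (∀ x ∈ l, x ∈ X) → l.length = N → l.prod = 0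

/-- the multilinear polynomial identity with central coefficients `c` on `A`. -/
def PIc {R : Type*} [Ring R] (d : ℕ) (c : Equiv.Perm (Fin d) → R) (A : Set R) : Prop :=
  (∀ σ r, c σ * r = r * c σ) ∧ ∀ x : Fin d → R, (∀ i, x i ∈ A) →
    ∑ σ : Equiv.Perm (Fin d), c σ * (List.ofFn (fun i => x (σ i))).prod = 0

theorem blocks {R : Type*} [Ring R] (X : Finset R) (N : ℕ) : ∀ (M : ℕ) (l : List R),
    (∀ x ∈ l, x ∈ X) → l.length = N * M → ∃ L : List R, L.length = M ∧
      (∀ y ∈ L, ∃ l' : List R, (∀ x ∈ l', x ∈ X) ∧ l'.length = N ∧ l'.prod = y) ∧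
        L.prod = l.prod := by
  intro M
  induction M with
  | zero =>
    intro l hl hlen
    have : l = [] := by
      rw [← List.length_eq_zero_iff, hlen, Nat.mul_zero]
    subst this
    exact ⟨[], rfl, by simp, rfl⟩
  | succ M ih =>
    intro l hl hlen
    obtain ⟨L, hL1, hL2, hL3⟩ := ih (l.drop N) (fun x hx => hl x (List.mem_of_mem_drop hx))
      (by rw [List.length_drop, hlen, Nat.mul_succ]; omega)
    refine ⟨(l.take N).prod :: L, by simp [hL1], ?_, ?_⟩
    · intro y hy
      rcases List.mem_cons.mp hy with h | h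
      · refine ⟨l.take N, fun x hx => hl x (List.mem_of_mem_take hx), ?_, h.symm⟩
        rw [List.length_take, hlen, Nat.mul_succ]
        omega
      · exact hL2 y h
    · rw [List.prod_cons, hL3, ← List.prod_append, List.take_append_drop]

theorem LN_ext {R : Type*} [Ring R] {I K : Set R} (hI : LN I)
    (hK : ∀ X : Finset R, (↑X ⊆ K) → ∃ N : ℕ, ∀ l : List R, (∀ x ∈ l, x ∈ X) →
      l.length = N → l.prod ∈ I) : LN K := by
  classical
  intro X hX
  obtain ⟨N, hN⟩ := hK X hX
  set Y : Finset R := (Fintype.piFinset fun _ : Fin N => X).image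
    (fun f => (List.ofFn f).prod) with hY
  have hYI : (↑Y : Set R) ⊆ I := by
    intro y hy
    rw [hY, Finset.coe_image] at hy
    obtain ⟨f, hf, rfl⟩ := hy
    rw [Finset.mem_coe, Fintype.mem_piFinset] at hf
    apply hN
    · intro x hx
      rw [List.mem_ofFn] at hx
      obtain ⟨i, rfl⟩ := hx
      exact hf i
    · simp
  obtain ⟨M, hM⟩ := hI Y hYI
  refine ⟨N * M, ?_⟩
  intro l hl hlen
  obtain ⟨L, hL1, hL2, hL3⟩ := blocks X N M l hl hlen
  rw [← hL3]
  apply hM L _ hL1
  intro y hy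
  obtain ⟨l', h1, h2, h3⟩ := hL2 y hy
  rw [hY, Finset.mem_image]
  refine ⟨fun i : Fin N => l'.get (i.cast h2.symm), ?_, ?_⟩
  · rw [Fintype.mem_piFinset]
    intro i
    exact h1 _ (List.get_mem _ _)
  · rw [← h3]
    congr 1
    subst h2
    simp

theorem prod_congr_ideal {R : Type*} [Ring R] (I : Ideal R) (hI : I.IsTwoSided) (j : R → R) :
    ∀ l : List R, (∀ x ∈ l, x - j x ∈ I) → l.prod - (l.map j).prod ∈ I := by
  intro l
  induction l with
  | nil => intro _; simp
  | cons x l ih =>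
    intro h
    rw [List.prod_cons, List.map_cons, List.prod_cons]
    have h1 := ih (fun y hy => h y (List.mem_cons_of_mem _ hy))
    have h2 := h x List.mem_cons_self
    have e : x * l.prod - j x * (l.map j).prod = (x - j x) * l.prod +
        j x * (l.prod - (l.map j).prod) := by noncomm_ring
    rw [e]
    exact I.add_mem (hI.mul_mem_of_left _ h2) (I.mul_mem_left _ h1)

theorem LN_sup {R : Type*} [Ring R] (I J : Ideal R) (hI : I.IsTwoSided)
    (hI' : LN (I : Set R)) (hJ' : LN (J : Set R)) : LN ((I ⊔ J : Ideal R) : Set R) := by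
  classical
  apply LN_ext hI'
  intro X hX
  have h1 : ∀ x : R, ∃ j : R, x ∈ X → (j ∈ J ∧ x - j ∈ I) := by
    intro x
    by_cases hx : x ∈ X
    · obtain ⟨i, hi, j, hj, hij⟩ := Submodule.mem_sup.mp (hX hx)
      exact ⟨j, fun _ => ⟨hj, by rw [← hij, add_sub_cancel_right]; exact hi⟩⟩
    · exact ⟨0, fun h => absurd h hx⟩
  choose j hj using h1
  obtain ⟨N, hN⟩ := hJ' (X.image j) (by
    intro y hy
    rw [Finset.coe_image] at hy
    obtain ⟨x, hx, rfl⟩ := hy
    exact (hj x hx).1)
  refine ⟨N, ?_⟩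
  intro l hl hlen
  have h2 := prod_congr_ideal I hI j l (fun x hx => (hj x (hl x hx)).2)
  have h3 : (l.map j).prod = 0 := by
    apply hN
    · intro y hy
      obtain ⟨x, hx, rfl⟩ := List.mem_map.mp hy
      exact Finset.mem_image_of_mem j (hl x hx)
    · rw [List.length_map, hlen]
  rw [h3, sub_zero] at h2
  exact h2

theorem twoSided_sup {R : Type*} [Ring R] {I J : Ideal R} (hI : I.IsTwoSided)
    (hJ : J.IsTwoSided) : (I ⊔ J : Ideal R).IsTwoSided := by
  constructor
  intro x b hx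
  obtain ⟨i, hi, j, hj, hij⟩ := Submodule.mem_sup.mp hx
  rw [← hij, add_mul]
  exact Submodule.add_mem_sup (hI.mul_mem_of_left _ hi) (hJ.mul_mem_of_left _ hj)

theorem LN_bot {R : Type*} [Ring R] : LN ((⊥ : Ideal R) : Set R) := by
  intro X hX
  refine ⟨1, ?_⟩
  intro l hl hlen
  obtain ⟨x, rfl⟩ := List.length_eq_one_iff.mp hlen
  have := hX (Finset.mem_coe.mpr (hl x List.mem_cons_self))
  have hx0 : x = 0 := this
  rw [hx0]; simp

/-- the Levitzki radical -/
def lev (R : Type*) [Ring R] : Ideal R where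
  carrier := {x | ∃ I : Ideal R, I.IsTwoSided ∧ LN (I : Set R) ∧ x ∈ I}
  add_mem' := by
    rintro x y ⟨I, hI, hI', hx⟩ ⟨J, hJ, hJ', hy⟩
    exact ⟨I ⊔ J, twoSided_sup hI hJ, LN_sup I J hI hI' hJ', Submodule.add_mem_sup hx hy⟩
  zero_mem' := ⟨⊥, ⟨fun {a} b h => by
    have : a = 0 := h
    rw [this, zero_mul]; exact Submodule.zero_mem _⟩, LN_bot, Submodule.zero_mem _⟩
  smul_mem' := by
    rintro r x ⟨I, hI, hI', hx⟩
    exact ⟨I, hI, hI', I.mul_mem_left r hx⟩

theorem lev_twoSided {R : Type*} [Ring R] : (lev R).IsTwoSided := by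
  constructor
  rintro x b ⟨I, hI, hI', hx⟩
  exact ⟨I, hI, hI', hI.mul_mem_of_left _ hx⟩

theorem lev_finset {R : Type*} [Ring R] (X : Finset R) (hX : (↑X : Set R) ⊆ lev R) :
    ∃ I : Ideal R, I.IsTwoSided ∧ LN (I : Set R) ∧ (↑X : Set R) ⊆ I := by
  classical
  induction X using Finset.induction_on with
  | empty =>
    obtain ⟨I, hI, hI', _⟩ := (lev R).zero_mem
    exact ⟨I, hI, hI', by simp⟩
  | insert x X _ ih =>
    rw [Finset.coe_insert, Set.insert_subset_iff] at hX
    obtain ⟨I, hI, hI', hXI⟩ := ih hX.2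
    obtain ⟨J, hJ, hJ', hxJ⟩ := hX.1
    refine ⟨I ⊔ J, twoSided_sup hI hJ, LN_sup I J hI hI' hJ', ?_⟩
    rw [Finset.coe_insert, Set.insert_subset_iff]
    exact ⟨(le_sup_right : J ≤ I ⊔ J) hxJ, hXI.trans (le_sup_left : I ≤ I ⊔ J)⟩

theorem lev_LN {R : Type*} [Ring R] : LN (lev R : Set R) := by
  intro X hX
  obtain ⟨I, _, hI', hXI⟩ := lev_finset X hX
  exact hI' X hXI

theorem exists_levitzki (R : Type*) [Ring R] :
    ∃ (L : Ideal R) (_ : L.IsTwoSided), LN (L : Set R) ∧
      ∀ K : Ideal (R ⧸ L), K.IsTwoSided → LN (K : Set (R ⧸ L)) → K = ⊥ := by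
  classical
  refine ⟨lev R, lev_twoSided, lev_LN, ?_⟩
  haveI : (lev R).IsTwoSided := lev_twoSided
  intro K hK hK'
  have h1 : LN ((K.comap (Ideal.Quotient.mk (lev R))) : Set R) := by
    apply LN_ext lev_LN
    intro X hX
    obtain ⟨N, hN⟩ := hK' (X.image (Ideal.Quotient.mk (lev R))) (by
      intro y hy
      rw [Finset.coe_image] at hy
      obtain ⟨x, hx, rfl⟩ := hy
      exact hX hx)
    refine ⟨N, ?_⟩
    intro l hl hlen
    have h2 := hN (l.map (Ideal.Quotient.mk (lev R))) (by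
      intro y hy
      obtain ⟨x, hx, rfl⟩ := List.mem_map.mp hy
      exact Finset.mem_image_of_mem _ (hl x hx)) (by rw [List.length_map, hlen])
    rw [← map_list_prod] at h2
    exact Ideal.Quotient.eq_zero_iff_mem.mp h2
  have h2 : (K.comap (Ideal.Quotient.mk (lev R))).IsTwoSided := by
    constructor
    intro a b ha
    rw [Ideal.mem_comap] at ha ⊢
    rw [map_mul]
    exact hK.mul_mem_of_left _ ha
  rw [eq_bot_iff]
  intro y hy
  obtain ⟨x, rfl⟩ := Ideal.Quotient.mk_surjective y
  have h3 : x ∈ lev R := ⟨_, h2, h1, hy⟩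
  rw [Ideal.Quotient.eq_zero_iff_mem.mpr h3]
  exact Submodule.zero_mem _

theorem semiprime_of_noLN {R : Type*} [Ring R]
    (h : ∀ K : Ideal R, K.IsTwoSided → LN (K : Set R) → K = ⊥) (a : R)
    (ha : ∀ r, a * r * a = 0) : a = 0 := by
  set K : Ideal R := Ideal.span {x | ∃ s, x = a * s} with hK
  have h1 : ∀ y ∈ K, ∀ s, a * s * y = 0 := by
    intro y hy
    refine Submodule.span_induction (p := fun y _ => ∀ s, a * s * y = 0) ?_ ?_ ?_ ?_ hy
    · rintro y ⟨t, rfl⟩ s
      rw [← mul_assoc, ha, zero_mul]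
    · intro s; rw [mul_zero]
    · intro x y _ _ hx hy s
      rw [mul_add, hx, hy, add_zero]
    · intro r x _ hx s
      rw [smul_eq_mul, ← mul_assoc, mul_assoc a s r]
      exact hx _
  have h2 : ∀ x ∈ K, ∀ y ∈ K, x * y = 0 := by
    intro x hx
    refine Submodule.span_induction (p := fun x _ => ∀ y ∈ K, x * y = 0) ?_ ?_ ?_ ?_ hx
    · rintro x ⟨s, rfl⟩ y hy
      exact h1 y hy s
    · intro y _; rw [zero_mul]
    · intro x x' _ _ hx hx' y hy
      rw [add_mul, hx y hy, hx' y hy, add_zero]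
    · intro r x _ hx y hy
      rw [smul_eq_mul, mul_assoc, hx y hy, mul_zero]
  have h3 : K.IsTwoSided := by
    constructor
    intro x b hx
    refine Submodule.span_induction (p := fun x _ => x * b ∈ K) ?_ ?_ ?_ ?_ hx
    · rintro x ⟨s, rfl⟩
      exact Ideal.subset_span ⟨s * b, by rw [mul_assoc]⟩
    · rw [zero_mul]; exact K.zero_mem
    · intro x x' _ _ hx hx'
      rw [add_mul]; exact K.add_mem hx hx'
    · intro r x _ hx
      rw [smul_eq_mul, mul_assoc]
      exact K.mul_mem_left _ hx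
  have h4 : LN (K : Set R) := by
    intro X hX
    refine ⟨2, ?_⟩
    intro l hl hlen
    obtain ⟨x, y, rfl⟩ := List.length_eq_two.mp hlen
    simp only [List.prod_cons, List.prod_nil, mul_one]
    exact h2 x (hX (Finset.mem_coe.mpr (hl x (by simp)))) y
      (hX (Finset.mem_coe.mpr (hl y (by simp))))
  have h5 := h K h3 h4
  have h6 : a ∈ K := Ideal.subset_span ⟨1, by rw [mul_one]⟩
  rw [h5] at h6
  exact h6

theorem j2440_zero {R : Type*} [Ring R] : ∀ (n : ℕ) (f : Fin (n + 1) → R) (j : Fin n),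
    f j.castSucc * f j.succ = 0 → (List.ofFn f).prod = 0 := by
  intro n
  induction n with
  | zero => intro f j; exact j.elim0
  | succ n ih =>
    intro f j h
    rw [List.ofFn_succ, List.prod_cons]
    rcases Fin.eq_zero_or_eq_succ j with rfl | ⟨j', rfl⟩
    · rw [List.ofFn_succ, List.prod_cons, ← mul_assoc]
      have : f 0 * f (Fin.succ 0) = 0 := h
      rw [this, zero_mul]
    · rw [ih (fun i => f i.succ) j' (by simpa using h), mul_zero]

theorem j2440_step {R : Type*} [Ring R] (m : ℕ) (c : Equiv.Perm (Fin (m + 1)) → R)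
    (hcent : ∀ σ r, c σ * r = r * c σ)
    (a b a' : R) (ha' : a' = a * b * a) (hz : a * b * a * b * a = 0)
    (hsp : ∀ a : R, (∀ r, a * r * a = 0) → a = 0)
    (H : ∀ r : Fin (m + 1) → R,
      a * ∑ σ : Equiv.Perm (Fin (m + 1)), c σ *
        (List.ofFn (fun i => r (σ i) * a)).prod = 0) (r' : Fin m → R) :
    a' * ∑ σ : Equiv.Perm (Fin m), c (Equiv.Perm.decomposeFin.symm (0, σ)) *
        (List.ofFn (fun i => r' (σ i) * a')).prod = 0 := by
  obtain ⟨Z, hZ⟩ : ∃ Z, Z = ∑ σ : Equiv.Perm (Fin m),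
    c (Equiv.Perm.decomposeFin.symm (0, σ)) *
        (List.ofFn (fun i => r' (σ i) * a')).prod := ⟨_, rfl⟩
  rw [← hZ]
  have key : ∀ s : R, a' * s * (a * Z) = 0 := by
    intro s
    have h := H (Fin.cons (b * a * s) (fun i => r' i * a * b))
    rw [← Equiv.sum_comp Equiv.Perm.decomposeFin.symm, Fintype.sum_prod_type,
      Fintype.sum_eq_single (0 : Fin (m + 1))] at h
    · have e1 : ∀ σ : Equiv.Perm (Fin m),
          (List.ofFn (fun i => (Fin.cons (b * a * s) (fun i => r' i * a * b) : Fin (m + 1) → R)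
            ((Equiv.Perm.decomposeFin.symm (0, σ)) i) * a)).prod =
          (b * a * s * a) * (List.ofFn (fun i => r' (σ i) * a')).prod := by
        intro σ
        rw [List.ofFn_succ, List.prod_cons, Equiv.Perm.decomposeFin_symm_apply_zero, Fin.cons_zero]
        have e3 : (fun i : Fin m => (Fin.cons (b * a * s) (fun i => r' i * a * b) : Fin (m + 1) → R)
            ((Equiv.Perm.decomposeFin.symm (0, σ)) i.succ) * a) = fun i => r' (σ i) * a' := by
          funext i
          rw [Equiv.Perm.decomposeFin_symm_apply_succ, Equiv.swap_self, Equiv.refl_apply,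
            Fin.cons_succ, ha']
          simp only [mul_assoc]
        rw [e3]
      simp_rw [e1] at h
      have e2 : ∑ σ : Equiv.Perm (Fin m), c (Equiv.Perm.decomposeFin.symm (0, σ)) *
          ((b * a * s * a) * (List.ofFn (fun i => r' (σ i) * a')).prod) = (b * a * s * a) * Z := by
        rw [hZ, Finset.mul_sum]
        apply Finset.sum_congr rfl
        intro σ _
        rw [← mul_assoc, hcent, mul_assoc]
      rw [e2] at h
      rw [ha', ← h]
      simp only [mul_assoc]
    · intro p hp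
      apply Finset.sum_eq_zero
      intro σ _
      rw [show (List.ofFn (fun i => (Fin.cons (b * a * s) (fun i => r' i * a * b) :
        Fin (m + 1) → R) ((Equiv.Perm.decomposeFin.symm (p, σ)) i) * a)).prod = 0 from ?_, mul_zero]
      obtain ⟨τ, hτ⟩ : ∃ τ : Equiv.Perm (Fin (m + 1)), τ = Equiv.Perm.decomposeFin.symm (p, σ) :=
        ⟨_, rfl⟩
      have hτ0 : τ 0 ≠ 0 := by
        rw [hτ, Equiv.Perm.decomposeFin_symm_apply_zero]; exact hp
      rw [← hτ]
      rcases Fin.eq_zero_or_eq_succ (τ.symm 0) with h0 | ⟨j, hj⟩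
      · exfalso
        apply hτ0
        rw [← h0, Equiv.apply_symm_apply, h0]
      · have hjs : τ j.succ = 0 := by rw [← hj, Equiv.apply_symm_apply]
        have hjc : τ j.castSucc ≠ 0 := by
          intro hcon
          rw [← hjs] at hcon
          have := τ.injective hcon
          exact absurd this (Fin.castSucc_lt_succ (i := j)).ne
        obtain ⟨t, ht⟩ := Fin.exists_succ_eq.2 hjc
        apply j2440_zero m _ j
        show (Fin.cons (b * a * s) (fun i => r' i * a * b) : Fin (m + 1) → R) (τ j.castSucc) * a *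
          ((Fin.cons (b * a * s) (fun i => r' i * a * b) : Fin (m + 1) → R) (τ j.succ) * a) = 0
        rw [hjs, ← ht, Fin.cons_succ, Fin.cons_zero]
        calc r' t * a * b * a * (b * a * s * a) = r' t * (a * b * a * b * a) * s * a := by
              simp only [mul_assoc]
          _ = 0 := by rw [hz]; simp
  apply hsp
  intro s
  have := key (Z * s * a * b)
  rw [← this]
  conv_lhs => rw [ha']
  rw [ha']
  simp only [mul_assoc]

theorem no_nil {R : Type*} [Ring R] (d : ℕ) (c : Equiv.Perm (Fin d) → R) (hc : c 1 = 1)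
    (A : Set R) (hA : ∀ a ∈ A, ∀ r, r * a ∈ A)
    (hPI : PIc d c A) (hsp : ∀ a : R, (∀ r, a * r * a = 0) → a = 0) (N : Set R) (hNA : N ⊆ A)
    (hN : ∀ a ∈ N, ∀ r, a * r ∈ N) (hnil : ∀ a ∈ N, IsNilpotent a) : ∀ a ∈ N, a = 0 := by
  intro a0 ha0
  by_contra hne
  have Q : ∀ j m : ℕ, m + j = d → ∃ a ∈ N, a ≠ 0 ∧ ∃ c : Equiv.Perm (Fin m) → R, c 1 = 1 ∧
      (∀ σ r, c σ * r = r * c σ) ∧
      ∀ r : Fin m → R, a * ∑ σ : Equiv.Perm (Fin m), c σ *
        (List.ofFn (fun i => r (σ i) * a)).prod = 0 := by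
    intro j
    induction j with
    | zero =>
      intro m hm
      have hm' : m = d := by omega
      subst hm'
      refine ⟨a0, ha0, hne, c, hc, hPI.1, ?_⟩
      intro r
      rw [hPI.2 (fun i => r i * a0) (fun i => hA _ (hNA ha0) _), mul_zero]
    | succ j ih =>
      intro m hm
      obtain ⟨a, haN, ha, c1, hc1, hcent1, H⟩ := ih (m + 1) (by omega)
      obtain ⟨r0, hr0⟩ : ∃ r, a * r * a ≠ 0 := by
        by_contra hcon
        push Not at hcon
        exact ha (hsp a hcon)
      obtain ⟨n, hn⟩ := hnil _ (hN a haN r0)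
      have hex : ∃ n, (a * r0) ^ n * a = 0 := ⟨n, by rw [hn, zero_mul]⟩
      classical
      obtain ⟨k, hk⟩ : ∃ k, k = Nat.find hex := ⟨_, rfl⟩
      have hk1 : (a * r0) ^ k * a = 0 := by rw [hk]; exact Nat.find_spec hex
      have hk0 : k ≠ 0 := by
        rintro rfl
        rw [pow_zero, one_mul] at hk1
        exact ha hk1
      have hk2 : k ≠ 1 := by
        intro h1
        rw [h1, pow_one] at hk1
        exact hr0 hk1
      obtain ⟨k', rfl⟩ : ∃ k', k = k' + 2 := ⟨k - 2, by omega⟩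
      have hmin : (a * r0) ^ (k' + 1) * a ≠ 0 := by
        apply Nat.find_min hex
        rw [← hk]; omega
      have hab : a * (r0 * (a * r0) ^ k') = (a * r0) ^ (k' + 1) := by
        rw [pow_succ', mul_assoc]
      refine ⟨a * (r0 * (a * r0) ^ k') * a, ?_, ?_,
        fun σ => c1 (Equiv.Perm.decomposeFin.symm (0, σ)), ?_, fun σ r => hcent1 _ r, ?_⟩
      · rw [mul_assoc]
        exact hN a haN _
      · rw [hab]; exact hmin
      · have hone : Equiv.Perm.decomposeFin.symm ((0 : Fin (m + 1)), (1 : Equiv.Perm (Fin m))) = 1 := by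
          apply Equiv.ext
          intro i
          rcases Fin.eq_zero_or_eq_succ i with rfl | ⟨i', rfl⟩
          · rw [Equiv.Perm.decomposeFin_symm_apply_zero]; rfl
          · rw [Equiv.Perm.decomposeFin_symm_apply_succ, Equiv.swap_self]; rfl
        show c1 (Equiv.Perm.decomposeFin.symm (0, 1)) = 1
        rw [hone, hc1]
      · apply j2440_step m c1 hcent1 a (r0 * (a * r0) ^ k') _ rfl ?_ hsp H
        rw [hab, mul_assoc ((a * r0) ^ (k' + 1) * a), mul_assoc ((a * r0) ^ (k' + 1)),
          ← mul_assoc a, hab]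
        rw [← mul_assoc]
        rw [← pow_add, show k' + 1 + (k' + 1) = k' + (k' + 2) by ring, pow_add, mul_assoc, hk1,
          mul_zero]
  obtain ⟨a, _, ha, c1, hc1, _, H⟩ := Q d 0 (by omega)
  have h := H (fun i => i.elim0)
  rw [Fintype.sum_eq_single (1 : Equiv.Perm (Fin 0))] at h
  · rw [hc1] at h
    simp at h
    exact ha h
  · intro σ hσ
    exact absurd (Subsingleton.elim σ 1) hσ

/-- a nil ideal inside the domain of the identity is locally nilpotent -/
theorem nil_LN {R : Type*} [Ring R] (d : ℕ) (c : Equiv.Perm (Fin d) → R) (hc : c 1 = 1)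
    (A : Set R) (hA : ∀ a ∈ A, ∀ r, r * a ∈ A)
    (hPI : PIc d c A) (N : Set R) (hNA : N ⊆ A)
    (hN : ∀ a ∈ N, ∀ r, a * r ∈ N) (hnil : ∀ a ∈ N, IsNilpotent a) : LN N := by
  obtain ⟨L, hL, hLN, hno⟩ := exists_levitzki R
  have key : N ⊆ L := by
    intro x hx
    have h := no_nil (R := R ⧸ L) d (fun σ => Ideal.Quotient.mk L (c σ)) (by
      show Ideal.Quotient.mk L (c 1) = 1
      rw [hc, map_one]) (Ideal.Quotient.mk L '' A) (by
      rintro _ ⟨a, ha, rfl⟩ r
      obtain ⟨r, rfl⟩ := Ideal.Quotient.mk_surjective r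
      exact ⟨r * a, hA a ha r, map_mul _ _ _⟩) ⟨by
        intro σ r
        obtain ⟨r, rfl⟩ := Ideal.Quotient.mk_surjective r
        rw [← map_mul, hPI.1, map_mul], by
        intro y hy
        choose z hz1 hz2 using hy
        have h1 := congrArg (Ideal.Quotient.mk L) (hPI.2 z hz1)
        rw [map_zero, map_sum] at h1
        rw [← h1]
        refine Finset.sum_congr rfl fun σ _ => ?_
        rw [map_mul, map_list_prod, List.map_ofFn]
        have h2 : ((Ideal.Quotient.mk L) ∘ fun i => z (σ i)) = fun i => y (σ i) := by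
          funext i; exact hz2 (σ i)
        rw [h2]⟩ (fun a ha => semiprime_of_noLN hno a ha) (Ideal.Quotient.mk L '' N)
      (Set.image_mono hNA) (by
        rintro _ ⟨a, ha, rfl⟩ r
        obtain ⟨r, rfl⟩ := Ideal.Quotient.mk_surjective r
        exact ⟨a * r, hN a ha r, map_mul _ _ _⟩) (by
        rintro _ ⟨a, ha, rfl⟩
        exact (hnil a ha).map (Ideal.Quotient.mk L)) (Ideal.Quotient.mk L x) ⟨x, hx, rfl⟩
    exact Ideal.Quotient.eq_zero_iff_mem.1 h
  intro X hX
  exact hLN X (hX.trans key)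

end Pool.Agent.H38R2
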