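import Pool.Agent.H38R2.Alg

set_option autoImplicit false

set_option linter.style.haveILetI false

open scoped IsMulCommutative

namespace Pool.Agent.H38R2

theorem isJacobsonRing_int : IsJacobsonRing ℤ := by
  rw [isJacobsonRing_iff_prime_eq]
  intro P hP
  by_cases h : P = ⊥
  · subst h
    rw [eq_bot_iff]
    intro x hx
    rw [Ideal.mem_jacobson_bot] at hx
    have h1 := Int.isUnit_iff.1 (hx x)
    rw [Submodule.mem_bot]
    rcases h1 with h1 | h1
    · have : x * x = 0 := by linarith
      simpa using this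
    · have : x * x = -2 := by linarith
      nlinarith [mul_self_nonneg x]
  · haveI : P.IsMaximal := Ideal.IsPrime.isMaximal hP h
    exact Ideal.jacobson_eq_self_of_isMaximal

/-- a submodule `⊥` that covers everything means finite -/
theorem finite_of_cov {Φ : Type*} [CommRing Φ] {M : Type*} [AddCommGroup M] [Module Φ M]
    (h : Cov (⊥ : Submodule Φ M) ⊤) : Finite M := by
  obtain ⟨s, hs⟩ := h
  have : (Set.univ : Set M) ⊆ s := by
    intro v _
    obtain ⟨x, hx, hvx⟩ := hs v trivial
    rw [Submodule.mem_bot, sub_eq_zero] at hvx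
    rw [hvx]; exact hx
  exact Set.finite_univ_iff.1 (s.finite_toSet.subset this)

theorem cov_of_finite_quot {Φ : Type*} [CommRing Φ] {M : Type*} [AddCommGroup M] [Module Φ M]
    (N : Submodule Φ M) [Finite (M ⧸ N)] : Cov N ⊤ := by
  classical
  cases nonempty_fintype (M ⧸ N)
  refine ⟨(Finset.univ : Finset (M ⧸ N)).image Quotient.out, fun v _ => ?_⟩
  refine ⟨_, Finset.mem_image_of_mem _ (Finset.mem_univ (Submodule.Quotient.mk v)), ?_⟩
  rw [← Submodule.Quotient.eq]
  exact (Quotient.out_eq _).symm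

theorem finite_field_of_finiteType (K : Type*) [Field K] [Algebra.FiniteType ℤ K] : Finite K := by
  haveI := isJacobsonRing_int
  have hfin : Module.Finite ℤ K := finite_of_finite_type_of_isJacobsonRing ℤ K
  obtain ⟨p, hp⟩ := CharP.exists K
  have hp0 : p ≠ 0 := by
    rintro rfl
    haveI : CharZero K := CharP.charP_to_charZero K
    have h1 : Function.Injective (algebraMap ℤ K) := by
      rw [injective_iff_map_eq_zero]
      intro a ha
      simpa using ha
    have h2 : IsField ℤ := isField_of_isIntegral_of_isField h1 (Field.toIsField K)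
    exact Int.not_isField h2
  haveI : Finite (ℤ ⧸ Ideal.span {((p : ℕ) : ℤ)}) := by
    haveI : NeZero p := ⟨hp0⟩
    exact Finite.of_equiv (ZMod p) (Int.quotientSpanNatEquivZMod p).symm.toEquiv
  apply finite_of_cov (Φ := ℤ)
  apply Cov.of_fg hfin.1 p
  intro v _
  rw [Submodule.mem_bot]
  have h3 : (p : K) = 0 := CharP.cast_eq_zero K p
  rw [zsmul_eq_mul]
  push_cast
  rw [h3, zero_mul]

theorem finite_quot_max {O : Type*} [CommRing O] [Algebra.FiniteType ℤ O] (m : Ideal O)
    (hm : m.IsMaximal) : Finite (O ⧸ m) := by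
  letI F : Field (O ⧸ m) := Ideal.Quotient.field m
  have h : @Algebra.FiniteType ℤ (O ⧸ m) _ _ (@Ring.toIntAlgebra (O ⧸ m) F.toRing) := by
    apply Algebra.FiniteType.of_surjective (Ideal.Quotient.mk m).toIntAlgHom
    exact Ideal.Quotient.mk_surjective
  exact @finite_field_of_finiteType (O ⧸ m) F h

theorem finite_quot_smul {O : Type*} [CommRing O] {M : Type*} [AddCommGroup M] [Module O M]
    [Module.Finite O M] (I : Ideal O) [Finite (O ⧸ I)] :
    Finite (M ⧸ (I • (⊤ : Submodule O M))) := by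
  haveI : Module.Finite (O ⧸ I) (M ⧸ (I • (⊤ : Submodule O M))) :=
    Module.Finite.of_restrictScalars_finite O _ _
  exact Module.finite_of_finite (O ⧸ I)

theorem nm {Φ : Type*} [CommRing Φ] [Algebra.FiniteType ℤ Φ] {M : Type*} [AddCommGroup M]
    [Module Φ M] (s : Set (Module.End Φ M)) (hs : s.Finite)
    (hcomm : ∀ a ∈ s, ∀ b ∈ s, a * b = b * a) (F : Set M) (hF : F.Finite)
    (hgen : ∀ N : Submodule Φ M, F ⊆ N → (∀ f ∈ s, ∀ x ∈ N, f x ∈ N) → N = ⊤)
    (a : M) (ha : a ≠ 0) :
    ∃ N : Submodule Φ M, (∀ f ∈ s, ∀ x ∈ N, f x ∈ N) ∧ a ∉ N ∧ Cov N ⊤ := by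
  classical
  haveI hmc : IsMulCommutative (Algebra.adjoin Φ s) := Algebra.isMulCommutative_adjoin Φ hcomm
  set O := Algebra.adjoin Φ s with hO
  haveI : IsNoetherianRing Φ := Algebra.FiniteType.isNoetherianRing ℤ Φ
  haveI hft : Algebra.FiniteType Φ O := by
    rw [← Subalgebra.fg_iff_finiteType]
    obtain ⟨s', rfl⟩ := hs.exists_finset_coe
    exact Subalgebra.fg_adjoin_finset s'
  haveI : Algebra.FiniteType ℤ O := Algebra.FiniteType.trans (S := Φ) inferInstance hft
  haveI : IsNoetherianRing O := Algebra.FiniteType.isNoetherianRing Φ O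
  have hact : ∀ (o : O) (x : M), o • x = (o : Module.End Φ M) x := fun o x => rfl
  haveI : Module.Finite O M := by
    refine ⟨⟨hF.toFinset, ?_⟩⟩
    have h1 := hgen ((Submodule.span O F).restrictScalars Φ)
      (fun x hx => Submodule.subset_span hx) (fun f hf x hx => by
        have : (⟨f, Algebra.subset_adjoin hf⟩ : O) • x ∈ Submodule.span O F :=
          Submodule.smul_mem _ _ hx
        exact this)
    rw [Set.Finite.coe_toFinset, eq_top_iff]
    intro x _
    have : x ∈ (Submodule.span O F).restrictScalars Φ := by rw [h1]; trivial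
    exact this
  -- a maximal ideal containing the annihilator
  let Ann : Ideal O := LinearMap.ker (LinearMap.toSpanSingleton O M a)
  have hAnn : ∀ r, r ∈ Ann ↔ r • a = 0 := fun r => LinearMap.mem_ker
  have hne : Ann ≠ ⊤ := by
    intro h
    have : (1 : O) ∈ Ann := by rw [h]; trivial
    rw [hAnn, one_smul] at this
    exact ha this
  obtain ⟨m, hm, hle⟩ := Ideal.exists_le_maximal Ann hne
  have hnot : a ∉ (⨅ i : ℕ, m ^ i • (⊤ : Submodule O M)) := by
    rw [Ideal.mem_iInf_smul_pow_eq_bot_iff]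
    rintro ⟨r, hr⟩
    have h1 : (1 - (r : O)) ∈ Ann := by
      rw [hAnn, sub_smul, one_smul, hr, sub_self]
    apply hm.ne_top
    rw [Ideal.eq_top_iff_one]
    have : (1 : O) = (1 - r) + r := by ring
    rw [this]
    exact m.add_mem (hle h1) r.2
  rw [Submodule.mem_iInf] at hnot
  push Not at hnot
  obtain ⟨n, hn⟩ := hnot
  refine ⟨(m ^ n • (⊤ : Submodule O M)).restrictScalars Φ, ?_, hn, ?_⟩
  · intro f hf x hx
    have : (⟨f, Algebra.subset_adjoin hf⟩ : O) • x ∈ (m ^ n • (⊤ : Submodule O M)) :=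
      Submodule.smul_mem _ _ hx
    exact this
  · haveI : Finite (O ⧸ m) := finite_quot_max m hm
    haveI : Finite (O ⧸ m ^ n) := Ideal.finite_quotient_pow (IsNoetherian.noetherian m) n
    haveI : Finite (M ⧸ (m ^ n • (⊤ : Submodule O M))) := finite_quot_smul (m ^ n)
    have h3 := cov_of_finite_quot (m ^ n • (⊤ : Submodule O M))
    obtain ⟨t, ht⟩ := h3
    exact ⟨t, fun v _ => ht v trivial⟩

theorem int_fg {Φ : Type*} [CommRing Φ] {M : Type*} [AddCommGroup M]
    [Module Φ M] (s : Set (Module.End Φ M)) (hs : s.Finite)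
    (hcomm : ∀ a ∈ s, ∀ b ∈ s, a * b = b * a) (hint : ∀ a ∈ s, IsIntegral Φ a)
    (F : Set M) (hF : F.Finite)
    (hgen : ∀ N : Submodule Φ M, F ⊆ N → (∀ f ∈ s, ∀ x ∈ N, f x ∈ N) → N = ⊤) :
    Module.Finite Φ M := by
  classical
  haveI hmc : IsMulCommutative (Algebra.adjoin Φ s) := Algebra.isMulCommutative_adjoin Φ hcomm
  set O := Algebra.adjoin Φ s with hO
  have hfg : Module.Finite Φ O := by
    set s' : Set O := {x | (x : Module.End Φ M) ∈ s} with hs'
    have h1 : s'.Finite := Set.Finite.preimage (Set.injOn_of_injective Subtype.val_injective) hs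
    have h2 : (Subalgebra.toSubmodule (Algebra.adjoin Φ s')).FG := by
      apply fg_adjoin_of_finite h1
      intro x hx
      have h3 := hint _ hx
      obtain ⟨p, hp, hp2⟩ := h3
      refine ⟨p, hp, ?_⟩
      apply Subtype.val_injective
      rw [← Polynomial.aeval_def] at hp2 ⊢
      rw [← Polynomial.aeval_subalgebra_coe] at hp2
      exact hp2
    have h4 : Algebra.adjoin Φ s' = ⊤ := Algebra.adjoin_adjoin_coe_preimage
    rw [h4] at h2
    exact ⟨h2⟩
  haveI : Module.Finite O M := by
    refine ⟨⟨hF.toFinset, ?_⟩⟩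
    have h1 := hgen ((Submodule.span O F).restrictScalars Φ)
      (fun x hx => Submodule.subset_span hx) (fun f hf x hx => by
        have : (⟨f, Algebra.subset_adjoin hf⟩ : O) • x ∈ Submodule.span O F :=
          Submodule.smul_mem _ _ hx
        exact this)
    rw [Set.Finite.coe_toFinset, eq_top_iff]
    intro x _
    have : x ∈ (Submodule.span O F).restrictScalars Φ := by rw [h1]; trivial
    exact this
  exact Module.Finite.trans O M

end Pool.Agent.H38R2
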