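import Pool.Agent.H38R2.NM

set_option autoImplicit false
set_option linter.style.haveILetI false

namespace Pool.Agent.H38R2

section rel

variable {Φ : Type*} [CommRing Φ] {Q : Type*} [AddCommGroup Q] [Module Φ Q]
  (M W : Submodule Φ Q)

/-- the endomorphism induced on the subquotient `M / W`. -/
noncomputable def bar (f : Module.End Φ Q) (hM : ∀ x ∈ M, f x ∈ M) (hW : ∀ x ∈ W, f x ∈ W) :
    Module.End Φ (M ⧸ W.submoduleOf M) :=
  Submodule.mapQ _ _ (f.restrict hM) (by
    intro x hx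
    exact hW _ hx)

theorem bar_mk (f : Module.End Φ Q) (hM : ∀ x ∈ M, f x ∈ M) (hW : ∀ x ∈ W, f x ∈ W) (x : M) :
    bar M W f hM hW (Submodule.Quotient.mk x) = Submodule.Quotient.mk ⟨f x, hM x x.2⟩ := rfl

/-- pull back a submodule of `M / W` -/
def pull (N : Submodule Φ (M ⧸ W.submoduleOf M)) : Submodule Φ Q :=
  (N.comap (W.submoduleOf M).mkQ).map M.subtype

theorem mem_pull {N : Submodule Φ (M ⧸ W.submoduleOf M)} {x : Q} :
    x ∈ pull M W N ↔ ∃ h : x ∈ M, (Submodule.Quotient.mk (⟨x, h⟩ : M) : M ⧸ W.submoduleOf M) ∈ N := by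
  constructor
  · rintro ⟨y, hy, rfl⟩
    exact ⟨y.2, hy⟩
  · rintro ⟨h, hx⟩
    exact ⟨⟨x, h⟩, hx, rfl⟩

theorem mk_eq_zero_iff (x : M) :
    (Submodule.Quotient.mk x : M ⧸ W.submoduleOf M) = 0 ↔ (x : Q) ∈ W := by
  rw [Submodule.Quotient.mk_eq_zero]; rfl

end rel

theorem nm_rel {Φ : Type*} [CommRing Φ] [Algebra.FiniteType ℤ Φ] {Q : Type*} [AddCommGroup Q]
    [Module Φ Q] (M W : Submodule Φ Q) (hWM : W ≤ M) (s : Set (Module.End Φ Q)) (hs : s.Finite)
    (hM : ∀ f ∈ s, ∀ x ∈ M, f x ∈ M) (hW : ∀ f ∈ s, ∀ x ∈ W, f x ∈ W)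
    (hcomm : ∀ f ∈ s, ∀ g ∈ s, ∀ x ∈ M, f (g x) - g (f x) ∈ W)
    (F : Set Q) (hF : F.Finite) (hFM : F ⊆ M)
    (hgen : ∀ N : Submodule Φ Q, F ⊆ N → W ≤ N → (∀ f ∈ s, ∀ x ∈ N, f x ∈ N) → M ≤ N)
    (a : Q) (ha : a ∈ M) (haW : a ∉ W) :
    ∃ N : Submodule Φ Q, W ≤ N ∧ N ≤ M ∧ (∀ f ∈ s, ∀ x ∈ N, f x ∈ N) ∧ a ∉ N ∧ Cov N M := by
  classical
  let s' : Set (Module.End Φ (M ⧸ W.submoduleOf M)) :=
    Set.range (fun f : s => bar M W f (hM f f.2) (hW f f.2))
  have hs' : s'.Finite := by
    haveI := hs.to_subtype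
    exact Set.finite_range _
  let F' : Set (M ⧸ W.submoduleOf M) :=
    Set.range (fun x : F => Submodule.Quotient.mk (⟨x, hFM x.2⟩ : M))
  have hF' : F'.Finite := by
    haveI := hF.to_subtype
    exact Set.finite_range _
  have key : ∀ N : Submodule Φ (M ⧸ W.submoduleOf M), (∀ f ∈ s', ∀ x ∈ N, f x ∈ N) →
      ∀ f ∈ s, ∀ x ∈ pull M W N, f x ∈ pull M W N := by
    intro N hN f hf x hx
    rw [mem_pull] at hx ⊢
    obtain ⟨h, hx⟩ := hx
    exact ⟨hM f hf x h, hN _ ⟨⟨f, hf⟩, rfl⟩ _ hx⟩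
  have key2 : ∀ N : Submodule Φ (M ⧸ W.submoduleOf M), W ≤ pull M W N := by
    intro N x hx
    rw [mem_pull]
    refine ⟨hWM hx, ?_⟩
    rw [(mk_eq_zero_iff M W _).2 hx]
    exact N.zero_mem
  obtain ⟨N, h1, h2, h3⟩ := nm s' hs' (by
    rintro _ ⟨f, rfl⟩ _ ⟨g, rfl⟩
    apply LinearMap.ext
    intro x
    obtain ⟨x, rfl⟩ := Submodule.Quotient.mk_surjective _ x
    rw [Module.End.mul_apply, Module.End.mul_apply]
    simp only [bar_mk]
    rw [← sub_eq_zero, ← Submodule.Quotient.mk_sub, mk_eq_zero_iff]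
    exact hcomm f f.2 g g.2 x x.2) F' hF' (by
    intro N hFN hN
    have h1 := hgen (pull M W N) (by
      intro x hx
      rw [SetLike.mem_coe, mem_pull]
      exact ⟨hFM hx, hFN ⟨⟨x, hx⟩, rfl⟩⟩) (key2 N) (key N hN)
    rw [eq_top_iff]
    intro x _
    obtain ⟨x, rfl⟩ := Submodule.Quotient.mk_surjective _ x
    have := h1 x.2
    rw [mem_pull] at this
    exact this.2) (Submodule.Quotient.mk ⟨a, ha⟩) (by
    rw [Ne, mk_eq_zero_iff]
    exact haW)
  refine ⟨pull M W N, key2 N, ?_, key N h1, ?_, ?_⟩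
  · intro x hx
    rw [mem_pull] at hx
    exact hx.1
  · intro h
    rw [mem_pull] at h
    exact h2 h.2
  · obtain ⟨t, _, ht⟩ := h3.reps
    choose r hr using fun y : (M ⧸ W.submoduleOf M) => Submodule.Quotient.mk_surjective _ y
    refine ⟨t.image (fun y => (r y : Q)), fun v hv => ?_⟩
    obtain ⟨y, hy, hvy⟩ := ht (Submodule.Quotient.mk ⟨v, hv⟩) trivial
    refine ⟨r y, Finset.mem_image_of_mem _ hy, ?_⟩
    rw [mem_pull]
    refine ⟨M.sub_mem hv (r y).2, ?_⟩
    rw [← hr y, ← Submodule.Quotient.mk_sub] at hvy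
    exact hvy

theorem int_rel {Φ : Type*} [CommRing Φ] {Q : Type*} [AddCommGroup Q]
    [Module Φ Q] (M W : Submodule Φ Q) (hWM : W ≤ M) (s : Set (Module.End Φ Q)) (hs : s.Finite)
    (hM : ∀ f ∈ s, ∀ x ∈ M, f x ∈ M) (hW : ∀ f ∈ s, ∀ x ∈ W, f x ∈ W)
    (hcomm : ∀ f ∈ s, ∀ g ∈ s, ∀ x ∈ M, f (g x) - g (f x) ∈ W)
    (hint : ∀ f ∈ s, ∃ p : Polynomial Φ, p.Monic ∧ ∀ x ∈ M, (Polynomial.aeval f p) x ∈ W)
    (F : Set Q) (hF : F.Finite) (hFM : F ⊆ M)
    (hgen : ∀ N : Submodule Φ Q, F ⊆ N → W ≤ N → (∀ f ∈ s, ∀ x ∈ N, f x ∈ N) → M ≤ N) :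
    ∃ T : Submodule Φ Q, T.FG ∧ T ≤ M ∧ M ≤ T ⊔ W := by
  classical
  let s' : Set (Module.End Φ (M ⧸ W.submoduleOf M)) :=
    Set.range (fun f : s => bar M W f (hM f f.2) (hW f f.2))
  have hs' : s'.Finite := by
    haveI := hs.to_subtype
    exact Set.finite_range _
  let F' : Set (M ⧸ W.submoduleOf M) :=
    Set.range (fun x : F => Submodule.Quotient.mk (⟨x, hFM x.2⟩ : M))
  have hF' : F'.Finite := by
    haveI := hF.to_subtype
    exact Set.finite_range _
  have key : ∀ N : Submodule Φ (M ⧸ W.submoduleOf M), (∀ f ∈ s', ∀ x ∈ N, f x ∈ N) →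
      ∀ f ∈ s, ∀ x ∈ pull M W N, f x ∈ pull M W N := by
    intro N hN f hf x hx
    rw [mem_pull] at hx ⊢
    obtain ⟨h, hx⟩ := hx
    exact ⟨hM f hf x h, hN _ ⟨⟨f, hf⟩, rfl⟩ _ hx⟩
  have key2 : ∀ N : Submodule Φ (M ⧸ W.submoduleOf M), W ≤ pull M W N := by
    intro N x hx
    rw [mem_pull]
    refine ⟨hWM hx, ?_⟩
    rw [(mk_eq_zero_iff M W _).2 hx]
    exact N.zero_mem
  have hfin := int_fg s' hs' (by
    rintro _ ⟨f, rfl⟩ _ ⟨g, rfl⟩
    apply LinearMap.ext
    intro x
    obtain ⟨x, rfl⟩ := Submodule.Quotient.mk_surjective _ x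
    rw [Module.End.mul_apply, Module.End.mul_apply]
    simp only [bar_mk]
    rw [← sub_eq_zero, ← Submodule.Quotient.mk_sub, mk_eq_zero_iff]
    exact hcomm f f.2 g g.2 x x.2) (by
    rintro _ ⟨f, rfl⟩
    obtain ⟨p, hp, hp2⟩ := hint f f.2
    refine ⟨p, hp, ?_⟩
    rw [← Polynomial.aeval_def]
    have hMall : ∀ q : Polynomial Φ, ∀ x ∈ M, (Polynomial.aeval (f : Module.End Φ Q) q) x ∈ M := by
      intro q
      induction q using Polynomial.induction_on' with
      | add q r hq hr => intro x hx; rw [map_add]; exact M.add_mem (hq x hx) (hr x hx)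
      | monomial n c =>
        intro x hx
        rw [Polynomial.aeval_monomial]
        have h : ∀ k : ℕ, ((f : Module.End Φ Q) ^ k) x ∈ M := by
          intro k
          induction k with
          | zero => simpa using hx
          | succ k ih => rw [pow_succ']; exact hM f f.2 _ ih
        exact M.smul_mem c (h n)
    have hall : ∀ (q : Polynomial Φ) (x : M),
        (Polynomial.aeval (bar M W f (hM f f.2) (hW f f.2)) q) (Submodule.Quotient.mk x) =
        Submodule.Quotient.mk ⟨(Polynomial.aeval (f : Module.End Φ Q) q) x, hMall q x x.2⟩ := by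
      intro q
      induction q using Polynomial.induction_on' with
      | add q r hq hr =>
        intro x
        rw [map_add, LinearMap.add_apply, hq, hr, ← Submodule.Quotient.mk_add]
        congr 1
        apply Subtype.ext
        simp
      | monomial n c =>
        intro x
        have h : ∀ k : ℕ, ∀ hk : ((f : Module.End Φ Q) ^ k) x ∈ M,
            ((bar M W f (hM f f.2) (hW f f.2)) ^ k) (Submodule.Quotient.mk x) =
            Submodule.Quotient.mk ⟨((f : Module.End Φ Q) ^ k) x, hk⟩ := by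
          intro k
          induction k with
          | zero => intro hk; simp
          | succ k ih =>
            intro hk
            have hk' : ((f : Module.End Φ Q) ^ k) x ∈ M := by
              have := hMall (Polynomial.monomial k 1) x x.2
              rw [Polynomial.aeval_monomial] at this
              simpa using this
            rw [pow_succ', Module.End.mul_apply, ih hk', bar_mk]
            congr 1
            apply Subtype.ext
            simp [pow_succ']
        have hk' : ((f : Module.End Φ Q) ^ n) x ∈ M := by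
          have := hMall (Polynomial.monomial n 1) x x.2
          rw [Polynomial.aeval_monomial] at this
          simpa using this
        simp only [Polynomial.aeval_monomial]
        rw [Module.End.mul_apply, h n hk', Module.algebraMap_end_apply,
          ← Submodule.Quotient.mk_smul]
        congr 1
    apply LinearMap.ext
    intro x
    obtain ⟨x, rfl⟩ := Submodule.Quotient.mk_surjective _ x
    rw [hall, LinearMap.zero_apply, mk_eq_zero_iff]
    exact hp2 x x.2) F' hF' (by
    intro N hFN hN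
    have h1 := hgen (pull M W N) (by
      intro x hx
      rw [SetLike.mem_coe, mem_pull]
      exact ⟨hFM hx, hFN ⟨⟨x, hx⟩, rfl⟩⟩) (key2 N) (key N hN)
    rw [eq_top_iff]
    intro x _
    obtain ⟨x, rfl⟩ := Submodule.Quotient.mk_surjective _ x
    have := h1 x.2
    rw [mem_pull] at this
    exact this.2)
  obtain ⟨t, ht⟩ := hfin.1
  choose r hr using fun y : (M ⧸ W.submoduleOf M) => Submodule.Quotient.mk_surjective _ y
  refine ⟨Submodule.span Φ ((t.image (fun y => (r y : Q)) : Finset Q) : Set Q), ⟨_, rfl⟩, ?_, ?_⟩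
  · rw [Submodule.span_le]
    intro x hx
    rw [Finset.mem_coe, Finset.mem_image] at hx
    obtain ⟨y, _, rfl⟩ := hx
    exact (r y).2
  · set T := Submodule.span Φ ((t.image (fun y => (r y : Q)) : Finset Q) : Set Q) with hT
    have h1 : ∀ y ∈ (⊤ : Submodule Φ (M ⧸ W.submoduleOf M)), ∀ x : M,
        Submodule.Quotient.mk x = y → (x : Q) ∈ T ⊔ W := by
      intro y hy
      rw [← ht] at hy
      induction hy using Submodule.span_induction with
      | mem y hy =>
        intro x hx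
        have h2 : (x : Q) - r y ∈ W := by
          have := (mk_eq_zero_iff M W (x - r y)).1 (by
            rw [Submodule.Quotient.mk_sub, hx, hr, sub_self])
          simpa using this
        have h3 : (x : Q) = r y + (x - r y) := by abel
        rw [h3]
        exact Submodule.add_mem_sup (Submodule.subset_span (by
          rw [Finset.mem_coe]; exact Finset.mem_image_of_mem _ hy)) h2
      | zero =>
        intro x hx
        exact Submodule.mem_sup_right ((mk_eq_zero_iff M W x).1 hx)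
      | add y z _ _ hy hz =>
        intro x hx
        have h2 := hy (r y) (hr y)
        have h3 : ((x - r y : M) : Q) ∈ T ⊔ W := hz (x - r y) (by
          rw [Submodule.Quotient.mk_sub, hx, hr, add_sub_cancel_left])
        have h4 : (x : Q) = r y + ((x - r y : M) : Q) := by push_cast; abel
        rw [h4]
        exact (T ⊔ W).add_mem h2 h3
      | smul c y _ hy =>
        intro x hx
        have h2 := hy (r y) (hr y)
        have h3 : ((x - c • r y : M) : Q) ∈ W := (mk_eq_zero_iff M W _).1 (by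
          rw [Submodule.Quotient.mk_sub, Submodule.Quotient.mk_smul, hx, hr, sub_self])
        have h4 : (x : Q) = c • (r y : Q) + ((x - c • r y : M) : Q) := by push_cast; abel
        rw [h4]
        exact (T ⊔ W).add_mem ((T ⊔ W).smul_mem c h2) (Submodule.mem_sup_right h3)
    intro x hx
    exact h1 (Submodule.Quotient.mk ⟨x, hx⟩) trivial ⟨x, hx⟩ rfl

end Pool.Agent.H38R2
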