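import Pool.Agent.H38R2.SigmaMain
import Pool.Agent.H38R2.NMRel

set_option autoImplicit false
set_option linter.style.haveILetI false

namespace Pool.Agent.H38R2

variable {Φ : Type*} [CommRing Φ] {Q : Type*} [Ring Q] [Algebra Φ Q]

/-- residual finiteness of a bimodule section -/
theorem mod_step [Algebra.FiniteType ℤ Φ] {N : ℕ} (a : Fin N → Q) (M W : Submodule Φ Q)
    (hWM : W ≤ M) (hM : Es Φ a * M ≤ M) (hM' : M * Es Φ a ≤ M) (hW : Cx a W)
    (hCM : Cs Φ a * M ≤ W) (hMC : M * Cs Φ a ≤ W) (F : Submodule Φ Q) (hF : F.FG) (hFM : F ≤ M)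
    (hgen : ∀ X : Submodule Φ Q, F ≤ X → W ≤ X → Cx a X → M ≤ X)
    (x : Q) (hx : x ∈ M) (hxW : x ∉ W) :
    ∃ V : Submodule Φ Q, W ≤ V ∧ V ≤ M ∧ Cx a V ∧ x ∉ V ∧ Cov V M := by
  have hE : ∀ i, a i ∈ Es Φ a := fun i => Submodule.subset_span ⟨i, rfl⟩
  let s : Set (Module.End Φ Q) :=
    Set.range (fun i => LinearMap.mulLeft Φ (a i)) ∪ Set.range (fun i => LinearMap.mulRight Φ (a i))
  have hs : s.Finite := (Set.finite_range _).union (Set.finite_range _)
  have hstab : ∀ X : Submodule Φ Q, Cx a X ↔ ∀ f ∈ s, ∀ y ∈ X, f y ∈ X := by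
    intro X
    constructor
    · rintro hX f (⟨i, rfl⟩ | ⟨i, rfl⟩) y hy
      · exact hX.left (Submodule.mul_mem_mul (hE i) hy)
      · exact hX.right (Submodule.mul_mem_mul hy (hE i))
    · intro h
      constructor
      · rw [Es, Submodule.mul_le]
        intro u hu y hy
        induction hu using Submodule.span_induction with
        | mem u hu =>
          obtain ⟨i, rfl⟩ := hu
          exact h _ (Or.inl ⟨i, rfl⟩) y hy
        | zero => rw [zero_mul]; exact X.zero_mem
        | add u v _ _ hu hv => rw [add_mul]; exact X.add_mem hu hv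
        | smul c u _ hu => rw [smul_mul_assoc]; exact X.smul_mem _ hu
      · rw [Es, Submodule.mul_le]
        intro y hy u hu
        induction hu using Submodule.span_induction with
        | mem u hu =>
          obtain ⟨i, rfl⟩ := hu
          exact h _ (Or.inr ⟨i, rfl⟩) y hy
        | zero => rw [mul_zero]; exact X.zero_mem
        | add u v _ _ hu hv => rw [mul_add]; exact X.add_mem hu hv
        | smul c u _ hu => rw [mul_smul_comm]; exact X.smul_mem _ hu
  have hsubE : ∀ i j, a i * a j - a j * a i ∈ Cs Φ a := fun i j => Submodule.subset_span ⟨i, j, rfl⟩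
  obtain ⟨t, ht⟩ := hF
  obtain ⟨V, h1, h2, h3, h4, h5⟩ := nm_rel M W hWM s hs ((hstab M).1 ⟨hM, hM'⟩) ((hstab W).1 hW) (by
    rintro f (⟨i, rfl⟩ | ⟨i, rfl⟩) g (⟨j, rfl⟩ | ⟨j, rfl⟩) y hy
    · simp only [LinearMap.mulLeft_apply]
      have e : a i * (a j * y) - a j * (a i * y) = (a i * a j - a j * a i) * y := by
        rw [sub_mul, mul_assoc, mul_assoc]
      rw [e]; exact hCM (Submodule.mul_mem_mul (hsubE i j) hy)
    · simp only [LinearMap.mulLeft_apply, LinearMap.mulRight_apply]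
      rw [mul_assoc, sub_self]; exact W.zero_mem
    · simp only [LinearMap.mulLeft_apply, LinearMap.mulRight_apply]
      rw [mul_assoc, sub_self]; exact W.zero_mem
    · simp only [LinearMap.mulRight_apply]
      have e : y * a j * a i - y * a i * a j = y * (a j * a i - a i * a j) := by
        rw [mul_sub, mul_assoc, mul_assoc]
      rw [e]; exact hMC (Submodule.mul_mem_mul hy (hsubE j i))) (t : Set Q) t.finite_toSet
      (by rw [← ht] at hFM; exact fun y hy => hFM (Submodule.subset_span hy))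
      (by
        intro X htX hWX hX
        apply hgen X _ hWX ((hstab X).2 hX)
        rw [← ht, Submodule.span_le]; exact htX) x hx hxW
  exact ⟨V, h1, h2, (hstab V).2 h3, h4, h5⟩

/-- (L1) -/
theorem cov_ann {P M W : Submodule Φ Q} (hPP : P * P ≤ P) (hPM : P * M ≤ M) (hMP : M * P ≤ M)
    (hPW : P * W ≤ W) (hWP : W * P ≤ W) (hcov : Cov W M) :
    ∃ J : Submodule Φ Q, J ≤ P ∧ P * J ≤ J ∧ J * P ≤ J ∧ J * M ≤ W ∧ M * J ≤ W ∧ Cov J P := by
  let J : Submodule Φ Q :=
    { carrier := {p | p ∈ P ∧ ∀ m ∈ M, p * m ∈ W ∧ m * p ∈ W}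
      add_mem' := by
        rintro p q ⟨hp, hp'⟩ ⟨hq, hq'⟩
        refine ⟨P.add_mem hp hq, fun m hm => ⟨?_, ?_⟩⟩
        · rw [add_mul]; exact W.add_mem (hp' m hm).1 (hq' m hm).1
        · rw [mul_add]; exact W.add_mem (hp' m hm).2 (hq' m hm).2
      zero_mem' := ⟨P.zero_mem, fun m _ => by
        rw [zero_mul, mul_zero]; exact ⟨W.zero_mem, W.zero_mem⟩⟩
      smul_mem' := by
        rintro c p ⟨hp, hp'⟩
        refine ⟨P.smul_mem _ hp, fun m hm => ⟨?_, ?_⟩⟩
        · rw [smul_mul_assoc]; exact W.smul_mem _ (hp' m hm).1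
        · rw [mul_smul_comm]; exact W.smul_mem _ (hp' m hm).2 }
  have hJ : ∀ p, p ∈ J ↔ (p ∈ P ∧ ∀ m ∈ M, p * m ∈ W ∧ m * p ∈ W) := fun p => Iff.rfl
  refine ⟨J, fun p hp => hp.1, ?_, ?_, ?_, ?_, ?_⟩
  · rw [Submodule.mul_le]
    intro q hq p hp
    rw [hJ] at hp ⊢
    refine ⟨hPP (Submodule.mul_mem_mul hq hp.1), fun m hm => ⟨?_, ?_⟩⟩
    · rw [mul_assoc]; exact hPW (Submodule.mul_mem_mul hq (hp.2 m hm).1)
    · rw [← mul_assoc]; exact (hp.2 _ (hMP (Submodule.mul_mem_mul hm hq))).2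
  · rw [Submodule.mul_le]
    intro p hp q hq
    rw [hJ] at hp ⊢
    refine ⟨hPP (Submodule.mul_mem_mul hp.1 hq), fun m hm => ⟨?_, ?_⟩⟩
    · rw [mul_assoc]; exact (hp.2 _ (hPM (Submodule.mul_mem_mul hq hm))).1
    · rw [← mul_assoc]; exact hWP (Submodule.mul_mem_mul (hp.2 m hm).2 hq)
  · rw [Submodule.mul_le]
    intro p hp m hm
    exact (hp.2 m hm).1
  · rw [Submodule.mul_le]
    intro m hm p hp
    exact (hp.2 m hm).2
  · obtain ⟨s, hs1, hs2⟩ := hcov.reps
    have h1 : Cov (P ⊓ (⨅ i ∈ s, W.comap (LinearMap.mulRight Φ i)) ⊓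
        (⨅ i ∈ s, W.comap (LinearMap.mulLeft Φ i))) P := by
      refine ((Cov.refl P).inf (Cov.biInf s _ _ fun i hi => ?_)).inf
        (Cov.biInf s _ _ fun i hi => ?_)
      · exact hcov.comap _ fun v hv => hPM (Submodule.mul_mem_mul hv (hs1 i hi))
      · exact hcov.comap _ fun v hv => hMP (Submodule.mul_mem_mul (hs1 i hi) hv)
    refine h1.mono_left fun p hp => ?_
    rw [Submodule.mem_inf, Submodule.mem_inf] at hp
    obtain ⟨⟨hp1, hp2⟩, hp3⟩ := hp
    rw [hJ]
    refine ⟨hp1, fun m hm => ?_⟩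
    obtain ⟨i, hi, him⟩ := hs2 m hm
    have h2 : p * i ∈ W := by
      simpa using (Submodule.mem_iInf _).1 ((Submodule.mem_iInf _).1 hp2 i) hi
    have h3 : i * p ∈ W := by
      simpa using (Submodule.mem_iInf _).1 ((Submodule.mem_iInf _).1 hp3 i) hi
    constructor
    · have e : p * m = p * i + p * (m - i) := by rw [mul_sub]; abel
      rw [e]; exact W.add_mem h2 (hPW (Submodule.mul_mem_mul hp1 him))
    · have e : m * p = i * p + (m - i) * p := by rw [sub_mul]; abel
      rw [e]; exact W.add_mem h3 (hWP (Submodule.mul_mem_mul him hp1))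

section DDfacts

variable {P : Submodule Φ Q} (hPP : P * P ≤ P)
include hPP

theorem DD_mul_uni : DD P * uni P ≤ DD P := by
  rw [DD, mul_assoc]; exact mr (uni_mul_uni hPP)

theorem uni_mul_DD : uni P * DD P ≤ DD P := by
  rw [DD, ← mul_assoc, ← mul_assoc]; exact ml (ml (uni_mul_uni hPP))

theorem DDp_mul_uni (n : ℕ) : DD P ^ (n + 1) * uni P ≤ DD P ^ (n + 1) := by
  rw [pow_succ, mul_assoc]; exact mr (DD_mul_uni hPP)

theorem uni_mul_DDp (n : ℕ) : uni P * DD P ^ (n + 1) ≤ DD P ^ (n + 1) := by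
  rw [pow_succ', ← mul_assoc]; exact ml (uni_mul_DD hPP)

theorem Cm_le : Cm P ≤ P := by
  unfold Cm
  rw [Submodule.span_le]
  rintro _ ⟨p, hp, q, hq, rfl⟩
  exact P.sub_mem (hPP (Submodule.mul_mem_mul hp hq)) (hPP (Submodule.mul_mem_mul hq hp))

theorem DD_le : DD P ≤ P := by
  unfold DD
  refine (ml (mr (Cm_le hPP))).trans ?_
  refine (ml (uni_mul hPP)).trans (mul_uni hPP)

theorem DDp_le (n : ℕ) : DD P ^ (n + 1) ≤ P := by
  induction n with
  | zero => simpa using DD_le hPP
  | succ n ih => rw [pow_succ]; exact (mm ih (DD_le hPP)).trans hPP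

omit hPP in
theorem Cm_le_DD : Cm P ≤ DD P := by
  calc Cm P = 1 * Cm P * 1 := by rw [one_mul, mul_one]
    _ ≤ DD P := mm (ml (one_le_uni _)) (one_le_uni _)

theorem DDp_anti {m n : ℕ} (h : m ≤ n) : DD P ^ (n + 1) ≤ DD P ^ (m + 1) := by
  induction n, h using Nat.le_induction with
  | base => exact le_rfl
  | succ n _ ih =>
    refine le_trans ?_ ih
    rw [pow_succ]
    exact (mr ((DD_le hPP).trans (le_uni P))).trans (DDp_mul_uni hPP n)

end DDfacts

/-- auxiliary sequence -/
def Vseq (D I : Submodule Φ Q) : ℕ → Submodule Φ Q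
  | 0 => ⊥
  | i + 1 => Vseq D I i * D ⊔ D ^ (i + 1) * I * D

theorem pow_K_le {D I Z K : Submodule Φ Q} (hZc : ∀ X : Submodule Φ Q, Z * X = X * Z)
    (hK : K = I * D ⊔ D * I ⊔ Z * D) (hKD : K ≤ D) (hII : I * I ≤ I) (hID : I * D ≤ D) (i : ℕ) :
    K ^ (i + 1) ≤ I * D ^ (i + 1) ⊔ D ^ (i + 1) * I ⊔ Z * D ^ (i + 1) ⊔ Vseq D I i := by
  induction i with
  | zero =>
    rw [zero_add, pow_one, pow_one, hK]
    exact le_sup_left
  | succ i ih =>
    rw [pow_succ]
    refine (ml ih).trans ?_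
    rw [Submodule.sup_mul, Submodule.sup_mul, Submodule.sup_mul]
    have t1 : I * D ^ (i + 1) * K ≤ I * D ^ (i + 1 + 1) := by
      refine (mr hKD).trans ?_
      rw [mul_assoc, ← pow_succ]
    have t3 : Z * D ^ (i + 1) * K ≤ Z * D ^ (i + 1 + 1) := by
      refine (mr hKD).trans ?_
      rw [mul_assoc, ← pow_succ]
    have t4 : Vseq D I i * K ≤ Vseq D I (i + 1) := (mr hKD).trans le_sup_left
    have t2a : D ^ (i + 1) * I * (I * D) ≤ Vseq D I (i + 1) := by
      have e : D ^ (i + 1) * I * (I * D) = D ^ (i + 1) * (I * I) * D := by simp only [mul_assoc]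
      rw [e]
      exact (ml (mr hII)).trans le_sup_right
    have t2b : D ^ (i + 1) * I * (D * I) ≤ D ^ (i + 1 + 1) * I := by
      have e : D ^ (i + 1) * I * (D * I) = D ^ (i + 1) * (I * D) * I := by simp only [mul_assoc]
      rw [e, pow_succ D (i + 1)]
      exact ml (mr hID)
    have t2c : D ^ (i + 1) * I * (Z * D) ≤ Z * D ^ (i + 1 + 1) := by
      have e : D ^ (i + 1) * I * (Z * D) = Z * (D ^ (i + 1) * (I * D)) := by
        rw [← mul_assoc (D ^ (i + 1) * I) Z D, ← hZc]
        simp only [mul_assoc]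
      rw [e, pow_succ D (i + 1)]
      exact mr (mr hID)
    refine sup_le (sup_le (sup_le ?_ ?_) ?_) ?_
    · exact t1.trans (le_sup_left.trans (le_sup_left.trans le_sup_left))
    · rw [hK, Submodule.mul_sup, Submodule.mul_sup]
      refine sup_le (sup_le ?_ ?_) ?_
      · exact t2a.trans le_sup_right
      · exact t2b.trans (le_sup_right.trans (le_sup_left.trans le_sup_left))
      · exact t2c.trans (le_sup_right.trans le_sup_left)
    · exact t3.trans (le_sup_right.trans le_sup_left)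
    · exact t4.trans le_sup_right

theorem Vseq_mul_le {D I W : Submodule Φ Q} (k : ℕ)
    (h4 : ∀ i r, i + r + 1 = k → D ^ (i + 1) * I * D ^ (r + 1) ≤ W) :
    ∀ i r, i + r = k → Vseq D I i * D ^ r ≤ W := by
  intro i
  induction i with
  | zero => intro r _; rw [Vseq, Submodule.bot_mul]; exact bot_le
  | succ i ih =>
    intro r hr
    rw [Vseq, Submodule.sup_mul]
    refine sup_le ?_ ?_
    · rw [mul_assoc, ← pow_succ']
      exact ih (r + 1) (by omega)
    · rw [mul_assoc (D ^ (i + 1) * I), ← pow_succ']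
      exact h4 i r (by omega)

/-- (L5), (L6): powers of the commutator ideal of `I * I ⊔ Z * I`. -/
theorem DD_small {P I Z W : Submodule Φ Q} (hPP : P * P ≤ P) (hIP : I ≤ P) (hPI : P * I ≤ I)
    (hIP' : I * P ≤ I) (hZ : Z ≤ 1) (hZc : ∀ X : Submodule Φ Q, Z * X = X * Z) (k : ℕ)
    (h1 : I * DD P ^ (k + 1) ≤ W) (h2 : DD P ^ (k + 1) * I ≤ W) (h3 : Z * DD P ^ (k + 1) ≤ W)
    (h4 : ∀ i r, i + r + 1 = k → DD P ^ (i + 1) * I * DD P ^ (r + 1) ≤ W) :
    DD (I * I ⊔ Z * I) ^ (k + 1) ≤ W := by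
  set D := DD P with hD
  have hII : I * I ≤ I := (ml hIP).trans hPI
  have hDP : D ≤ P := DD_le hPP
  have hDu : D * uni P ≤ D := DD_mul_uni hPP
  have huD : uni P * D ≤ D := uni_mul_DD hPP
  have hDI : D * I ≤ D := (mr (hIP.trans (le_uni P))).trans hDu
  have hID : I * D ≤ D := (ml (hIP.trans (le_uni P))).trans huD
  have hZX : ∀ X : Submodule Φ Q, Z * X ≤ X := fun X => by
    calc Z * X ≤ 1 * X := ml hZ
      _ = X := one_mul X
  have huI : uni P * I ≤ I := uni_mul hPI
  have hIu : I * uni P ≤ I := mul_uni hIP'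
  set K := I * D ⊔ D * I ⊔ Z * D with hK
  have hKD : K ≤ D := sup_le (sup_le hID hDI) (hZX D)
  have huK : uni P * K ≤ K := by
    rw [hK, Submodule.mul_sup, Submodule.mul_sup]
    refine sup_le (sup_le ?_ ?_) ?_
    · rw [← mul_assoc]; exact (ml huI).trans (le_sup_left.trans le_sup_left)
    · rw [← mul_assoc]; exact (ml huD).trans (le_sup_right.trans le_sup_left)
    · rw [← mul_assoc, ← hZc, mul_assoc]; exact (mr huD).trans le_sup_right
  have hKu : K * uni P ≤ K := by
    rw [hK, Submodule.sup_mul, Submodule.sup_mul]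
    refine sup_le (sup_le ?_ ?_) ?_
    · rw [mul_assoc]; exact (mr hDu).trans (le_sup_left.trans le_sup_left)
    · rw [mul_assoc]; exact (mr hIu).trans (le_sup_right.trans le_sup_left)
    · rw [mul_assoc]; exact (mr hDu).trans le_sup_right
  have hcomm : ∀ u ∈ P, ∀ v ∈ P, u * v - v * u ∈ D := fun u hu v hv =>
    Cm_le_DD (Submodule.subset_span ⟨u, hu, v, hv, rfl⟩)
  have hI'P : I * I ⊔ Z * I ≤ P := sup_le (hII.trans hIP) ((hZX I).trans hIP)
  have hCmK : Cm (I * I ⊔ Z * I) ≤ K := by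
    let S : Submodule Φ Q :=
      { carrier := {p | ∀ q ∈ P, p * q - q * p ∈ K}
        add_mem' := by
          intro p p' hp hp' q hq
          have e : (p + p') * q - q * (p + p') = (p * q - q * p) + (p' * q - q * p') := by
            rw [add_mul, mul_add]; abel
          rw [e]; exact K.add_mem (hp q hq) (hp' q hq)
        zero_mem' := by
          intro q _
          rw [zero_mul, mul_zero, sub_zero]; exact K.zero_mem
        smul_mem' := by
          intro c p hp q hq
          rw [smul_mul_assoc, mul_smul_comm, ← smul_sub]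
          exact K.smul_mem _ (hp q hq) }
    have hS : I * I ⊔ Z * I ≤ S := by
      refine sup_le ?_ ?_
      · rw [Submodule.mul_le]
        intro u hu v hv q hq
        have e : u * v * q - q * (u * v) = u * (v * q - q * v) + (u * q - q * u) * v := by
          noncomm_ring
        rw [e]
        refine K.add_mem ?_ ?_
        · exact Submodule.mem_sup_left (Submodule.mem_sup_left
            (Submodule.mul_mem_mul hu (hcomm v (hIP hv) q hq)))
        · exact Submodule.mem_sup_left (Submodule.mem_sup_right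
            (Submodule.mul_mem_mul (hcomm u (hIP hu) q hq) hv))
      · rw [Submodule.mul_le]
        intro z hz v hv q hq
        have hzq : z * q = q * z := by
          obtain ⟨r, rfl⟩ := Submodule.mem_one.1 (hZ hz)
          exact Algebra.commutes r q
        have e : z * v * q - q * (z * v) = z * (v * q - q * v) := by
          rw [← mul_assoc q z v, ← hzq, mul_sub]; simp only [mul_assoc]
        rw [e]
        exact Submodule.mem_sup_right (Submodule.mul_mem_mul hz (hcomm v (hIP hv) q hq))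
    unfold Cm
    rw [Submodule.span_le]
    rintro _ ⟨p, hp, q, hq, rfl⟩
    exact hS hp q (hI'P hq)
  have hDDK : DD (I * I ⊔ Z * I) ≤ K := by
    unfold DD
    have hu : uni (I * I ⊔ Z * I) ≤ uni P := sup_le_sup_left hI'P 1
    exact (mm (mm hu hCmK) hu).trans ((ml huK).trans hKu)
  refine (pm hDDK (k + 1)).trans ?_
  refine (pow_K_le hZc hK hKD hII hID k).trans (sup_le (sup_le (sup_le h1 h2) h3) ?_)
  have := Vseq_mul_le k h4 k 0 (by omega)
  rwa [pow_zero, mul_one] at this

end Pool.Agent.H38R2
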