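import Pool.Agent.H38R2.RF1

set_option autoImplicit false
set_option linter.style.haveILetI false

namespace Pool.Agent.H38R2

variable {Φ : Type*} [CommRing Φ] {Q : Type*} [Ring Q] [Algebra Φ Q]

/-- `I₁ = {c : D^j c D^{K-j} ≤ W, 1 ≤ j ≤ K-1}` with `K = k + 1`. -/
def I1 (P W : Submodule Φ Q) (k : ℕ) : Submodule Φ Q where
  carrier := {c | c ∈ P ∧ ∀ i r, i + r + 1 = k → ∀ x ∈ DD P ^ (i + 1), ∀ z ∈ DD P ^ (r + 1),
    x * c * z ∈ W}
  add_mem' := by
    rintro p q ⟨hp, hp'⟩ ⟨hq, hq'⟩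
    refine ⟨P.add_mem hp hq, fun i r hir x hx z hz => ?_⟩
    rw [mul_add, add_mul]
    exact W.add_mem (hp' i r hir x hx z hz) (hq' i r hir x hx z hz)
  zero_mem' := ⟨P.zero_mem, fun i r _ x _ z _ => by
    rw [mul_zero, zero_mul]; exact W.zero_mem⟩
  smul_mem' := by
    rintro c p ⟨hp, hp'⟩
    refine ⟨P.smul_mem _ hp, fun i r hir x hx z hz => ?_⟩
    rw [mul_smul_comm, smul_mul_assoc]
    exact W.smul_mem _ (hp' i r hir x hx z hz)

theorem mem_I1 {P W : Submodule Φ Q} {k : ℕ} {c : Q} : c ∈ I1 P W k ↔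
    (c ∈ P ∧ ∀ i r, i + r + 1 = k → ∀ x ∈ DD P ^ (i + 1), ∀ z ∈ DD P ^ (r + 1),
    x * c * z ∈ W) := Iff.rfl

section
variable {P W : Submodule Φ Q} (hPP : P * P ≤ P) (k : ℕ)

theorem I1_le : I1 P W k ≤ P := fun _ hc => (mem_I1.1 hc).1

include hPP in
theorem mul_I1 : P * I1 P W k ≤ I1 P W k := by
  rw [Submodule.mul_le]
  intro p hp c hc
  rw [mem_I1] at hc ⊢
  refine ⟨hPP (Submodule.mul_mem_mul hp hc.1), fun i r hir x hx z hz => ?_⟩
  rw [← mul_assoc]
  exact hc.2 i r hir _ (DDp_mul_uni hPP i (Submodule.mul_mem_mul hx (le_uni P hp))) z hz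

include hPP in
theorem I1_mul : I1 P W k * P ≤ I1 P W k := by
  rw [Submodule.mul_le]
  intro c hc p hp
  rw [mem_I1] at hc ⊢
  refine ⟨hPP (Submodule.mul_mem_mul hc.1 hp), fun i r hir x hx z hz => ?_⟩
  rw [mul_assoc, mul_assoc, ← mul_assoc c]
  have := hc.2 i r hir x hx _ (uni_mul_DDp hPP r (Submodule.mul_mem_mul (le_uni P hp) hz))
  simpa only [mul_assoc] using this

include hPP in
theorem DD_le_I1 (hD : DD P ^ (k + 1 + 1) ≤ W) : DD P ≤ I1 P W k := by
  intro c hc
  rw [mem_I1]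
  refine ⟨DD_le hPP hc, fun i r hir x hx z hz => hD ?_⟩
  have e : k + 1 + 1 = (i + 1) + 1 + (r + 1) := by omega
  rw [e, pow_add, pow_add, pow_one]
  exact Submodule.mul_mem_mul (Submodule.mul_mem_mul hx hc) hz

theorem smul_mem_I1 {N : ℕ} (hN : ∀ v ∈ DD P ^ (k + 1), (N : Φ) • v ∈ W) (hPP : P * P ≤ P) :
    ∀ p ∈ P, (N : Φ) • p ∈ I1 P W k := by
  intro p hp
  rw [mem_I1]
  refine ⟨P.smul_mem _ hp, fun i r hir x hx z hz => ?_⟩
  rw [mul_smul_comm, smul_mul_assoc]
  apply hN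
  have e : k + 1 = (i + 1) + (r + 1) := by omega
  rw [e, pow_add]
  exact Submodule.mul_mem_mul (DDp_mul_uni hPP i (Submodule.mul_mem_mul hx (le_uni P hp))) hz

/-- the integrality relation -/
theorem int_mem_I1 {A : Submodule Φ Q} (hPA : P ≤ A) {δ : ℕ} {g : Polynomial Φ}
    (hg : GProp A δ g) (hPP : P * P ≤ P) (hPW : P * W ≤ W) (hWP : W * P ≤ W)
    (hD : DD P ^ (k + 1 + 1) ≤ W) {y : Q} (hy : y ∈ P)
    (hy1 : ∀ m ∈ DD P ^ (k + 1), y * m ∈ W) (hy2 : ∀ m ∈ DD P ^ (k + 1), m * y ∈ W) :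
    y * Polynomial.aeval y g * y ∈ I1 P W k := by
  have hyu : ∀ b : ℕ, y ^ b ∈ uni P := by
    intro b
    have := pow_le_uni hPP (le_uni P) b
    exact this (Submodule.pow_mem_pow _ hy b)
  have hga : Polynomial.aeval y g ∈ uni P := by
    rw [Polynomial.aeval_eq_sum_range]
    exact Submodule.sum_mem _ fun i _ => Submodule.smul_mem _ _ (hyu i)
  rw [mem_I1]
  constructor
  · have h1 : P * uni P ≤ P := mul_uni hPP
    exact hPP (Submodule.mul_mem_mul (h1 (Submodule.mul_mem_mul hy hga)) hy)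
  intro i r hir x hx z hz
  have ek : k + 1 = (i + 1) + (r + 1) := by omega
  have hxP : x ∈ P := DDp_le hPP i hx
  have hzP : z ∈ P := DDp_le hPP r hz
  have hξ : x * y ∈ P := hPP (Submodule.mul_mem_mul hxP hy)
  have hζ : y * z ∈ P := hPP (Submodule.mul_mem_mul hy hzP)
  have hWl : ∀ p ∈ uni P, ∀ w ∈ W, p * w ∈ W := fun p hp w hw =>
    uni_mul hPW (Submodule.mul_mem_mul hp hw)
  have hWr : ∀ p ∈ uni P, ∀ w ∈ W, w * p ∈ W := fun p hp w hw =>
    mul_uni hWP (Submodule.mul_mem_mul hw hp)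
  -- products x u z
  have hxuz : ∀ u ∈ uni P, x * u * z ∈ DD P ^ (k + 1) := by
    intro u hu
    rw [ek, pow_add]
    exact Submodule.mul_mem_mul (DDp_mul_uni hPP i (Submodule.mul_mem_mul hx hu)) hz
  have hzux : ∀ u ∈ uni P, z * u * x ∈ DD P ^ (k + 1) := by
    intro u hu
    rw [ek, add_comm, pow_add]
    exact Submodule.mul_mem_mul (DDp_mul_uni hPP r (Submodule.mul_mem_mul hz hu)) hx
  have hyuP : y ∈ uni P := le_uni P hy
  have hmul : ∀ u ∈ uni P, ∀ v ∈ uni P, u * v ∈ uni P := fun u hu v hv =>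
    uni_mul_uni hPP (Submodule.mul_mem_mul hu hv)
  have hfin := hg W (x * y) y (y * z) (hPA hξ) (hPA hy) (hPA hζ) ?_ ?_ ?_
  · have e : x * (y * Polynomial.aeval y g * y) * z = x * y * Polynomial.aeval y g * (y * z) := by
      simp only [mul_assoc]
    rw [e]; exact hfin
  · refine ⟨fun w hw => hWl _ (le_uni P hξ) w hw, fun w hw => hWl _ hyuP w hw,
      fun w hw => hWl _ (le_uni P hζ) w hw, fun w hw => hWr _ (le_uni P hξ) w hw,
      fun w hw => hWr _ hyuP w hw, fun w hw => hWr _ (le_uni P hζ) w hw, ?_, ?_, ?_⟩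
    · intro b _
      have h1 := hy1 _ (hzux (y ^ b) (hyu b))
      have e : y * z * y ^ b * (x * y) = (y * (z * y ^ b * x)) * y := by simp only [mul_assoc]
      rw [e]; exact hWr _ hyuP _ h1
    · intro b _ b' _
      apply hD
      have e : k + 1 + 1 = (k + 1) + (0 + 1) := by omega
      -- x y y^b x y y^b' y z  with x ∈ D^{i+1}, z ∈ D^{r+1}
      have h1 : x * (y * y ^ b) * x ∈ DD P ^ (i + 1 + (0 + 1)) := by
        rw [pow_add]
        have hx1 : x ∈ DD P ^ (0 + 1) := DDp_anti hPP (Nat.zero_le i) hx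
        exact Submodule.mul_mem_mul (DDp_mul_uni hPP i (Submodule.mul_mem_mul hx
          (hmul _ hyuP _ (hyu b)))) hx1
      have h2 : x * (y * y ^ b) * x * (y * y ^ b' * y) * z ∈ DD P ^ (k + 1 + 1) := by
        have e2 : k + 1 + 1 = (i + 1 + 1) + (r + 1) := by omega
        rw [e2, pow_add]
        exact Submodule.mul_mem_mul (DDp_mul_uni hPP (i + 1) (Submodule.mul_mem_mul h1
          (hmul _ (hmul _ hyuP _ (hyu b')) _ hyuP))) hz
      simpa only [mul_assoc] using h2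
    · intro b _ b' _
      apply hD
      have h1 : z * (y ^ b' * y) * z ∈ DD P ^ (r + 1 + (0 + 1)) := by
        rw [pow_add]
        have hz1 : z ∈ DD P ^ (0 + 1) := DDp_anti hPP (Nat.zero_le r) hz
        exact Submodule.mul_mem_mul (DDp_mul_uni hPP r (Submodule.mul_mem_mul hz
          (hmul _ (hyu b') _ hyuP))) hz1
      have h2 : x * (y * y ^ b * y) * (z * (y ^ b' * y) * z) ∈ DD P ^ (k + 1 + 1) := by
        have e2 : k + 1 + 1 = (i + 1) + (r + 1 + 1) := by omega
        rw [e2, pow_add]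
        exact Submodule.mul_mem_mul (DDp_mul_uni hPP i (Submodule.mul_mem_mul hx
          (hmul _ (hmul _ hyuP _ (hyu b)) _ hyuP))) h1
      simpa only [mul_assoc] using h2
  · intro a b
    have h1 := hy1 _ (hxuz (y * y ^ b * y) (hmul _ (hmul _ hyuP _ (hyu b)) _ hyuP))
    have h2 := hWl _ (hyu a) _ h1
    rw [pow_succ]
    simpa only [mul_assoc] using h2
  · intro b c
    have h1 := hy2 _ (hxuz (y * y ^ b * y) (hmul _ (hmul _ hyuP _ (hyu b)) _ hyuP))
    have h2 := hWr _ (hyu c) _ h1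
    rw [pow_succ']
    simpa only [mul_assoc] using h2

end

/-- (L3) -/
theorem cov_I1 {N : ℕ} (a : Fin N → Q) {A W J : Submodule Φ Q} (hPA : alg (Es Φ a) ≤ A)
    {k δ : ℕ} {g : Polynomial Φ} (hgm : g.Monic) (hg : GProp A δ g)
    (hPW : alg (Es Φ a) * W ≤ W) (hWP : W * alg (Es Φ a) ≤ W)
    (hD : DD (alg (Es Φ a)) ^ (k + 1 + 1) ≤ W)
    (hJP : J ≤ alg (Es Φ a))
    (hJ1 : J * DD (alg (Es Φ a)) ^ (k + 1) ≤ W) (hJ2 : DD (alg (Es Φ a)) ^ (k + 1) * J ≤ W)
    (hJ : Cov J (alg (Es Φ a))) {n : ℕ} [Finite (Φ ⧸ Ideal.span {(n : Φ)})]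
    (hn : ∀ v ∈ DD (alg (Es Φ a)) ^ (k + 1), (n : Φ) • v ∈ W) :
    Cov (I1 (alg (Es Φ a)) W k) (alg (Es Φ a)) := by
  set P := alg (Es Φ a) with hP
  have hPP : P * P ≤ P := alg_mul_alg _
  have hE : ∀ i, a i ∈ Es Φ a := fun i => Submodule.subset_span ⟨i, rfl⟩
  have haP : ∀ i, a i ∈ P := fun i => le_alg _ (hE i)
  have hmulI := mul_I1 (W := W) hPP k
  have hImul := I1_mul (W := W) hPP k
  have hstab : ∀ X : Submodule Φ Q, (∀ i, ∀ y ∈ X, a i * y ∈ X) → Es Φ a * X ≤ X := by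
    intro X h
    rw [Es, Submodule.mul_le]
    intro u hu y hy
    induction hu using Submodule.span_induction with
    | mem u hu =>
      obtain ⟨i, rfl⟩ := hu
      exact h i y hy
    | zero => rw [zero_mul]; exact X.zero_mem
    | add u v _ _ hu hv => rw [add_mul]; exact X.add_mem hu hv
    | smul c u _ hu => rw [smul_mul_assoc]; exact X.smul_mem _ hu
  obtain ⟨T, hT, hTP, hPT⟩ := int_rel P (I1 P W k) (I1_le k)
    (Set.range (fun i => LinearMap.mulLeft Φ (a i))) (Set.finite_range _)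
    (by
      rintro _ ⟨i, rfl⟩ x hx
      exact hPP (Submodule.mul_mem_mul (haP i) hx))
    (by
      rintro _ ⟨i, rfl⟩ x hx
      exact hmulI (Submodule.mul_mem_mul (haP i) hx))
    (by
      rintro _ ⟨i, rfl⟩ _ ⟨j, rfl⟩ x hx
      simp only [LinearMap.mulLeft_apply]
      have e : a i * (a j * x) - a j * (a i * x) = (a i * a j - a j * a i) * x := by
        rw [sub_mul, mul_assoc, mul_assoc]
      rw [e]
      refine hImul (Submodule.mul_mem_mul (DD_le_I1 hPP k hD (Cm_le_DD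
        (Submodule.subset_span ⟨a i, haP i, a j, haP j, rfl⟩))) hx))
    (by
      rintro _ ⟨i, rfl⟩
      rcases subsingleton_or_nontrivial Φ with hΦ | hΦ
      · haveI : Subsingleton Q := Module.subsingleton Φ Q
        refine ⟨1, Polynomial.monic_one, fun x _ => ?_⟩
        rw [Subsingleton.elim ((Polynomial.aeval (LinearMap.mulLeft Φ (a i))) 1 x) 0]
        exact Submodule.zero_mem _
      have hpow : ∀ m : ℕ, a i ^ (m + 1) ∈ P := fun m =>
        pow_le_alg _ m (Submodule.pow_mem_pow _ (hE i) (m + 1))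
      obtain ⟨s, t, hst, hmem⟩ := hJ.pigeon (fun m => a i ^ (m + 1)) hpow
      set p1 : Polynomial Φ := Polynomial.X ^ (t + 1) - Polynomial.X ^ (s + 1) with hp1
      have hp1m : p1.Monic := by
        nontriviality Φ
        apply Polynomial.monic_X_pow_sub
        rw [Polynomial.degree_X_pow]
        exact_mod_cast (by omega : s + 1 < t + 1)
      set y := a i ^ (t + 1) - a i ^ (s + 1) with hy
      have hy' : Polynomial.aeval (a i) p1 = y := by simp [hp1, hy]
      have hyJ : y ∈ J := hmem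
      have h1 := int_mem_I1 (P := P) (W := W) k hPA hg hPP hPW hWP hD (hJP hyJ)
        (fun m hm => hJ1 (Submodule.mul_mem_mul hyJ hm))
        (fun m hm => hJ2 (Submodule.mul_mem_mul hm hyJ))
      refine ⟨p1 * g.comp p1 * p1, (hp1m.mul (hgm.comp hp1m ?_)).mul hp1m, ?_⟩
      · have h2 : p1.natDegree = t + 1 := by
          rw [hp1]
          apply Polynomial.natDegree_sub_eq_left_of_natDegree_lt ?_ |>.trans
            (Polynomial.natDegree_X_pow _)
          rw [Polynomial.natDegree_X_pow, Polynomial.natDegree_X_pow]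
          omega
        omega
      · intro x hx
        have e : (Polynomial.aeval (LinearMap.mulLeft Φ (a i))) (p1 * g.comp p1 * p1) =
            LinearMap.mulLeft Φ (Polynomial.aeval (a i) (p1 * g.comp p1 * p1)) := by
          have : LinearMap.mulLeft Φ (a i) = Algebra.lmul Φ Q (a i) := rfl
          rw [this, Polynomial.aeval_algHom_apply]
          rfl
        rw [e, LinearMap.mulLeft_apply, map_mul, map_mul, Polynomial.aeval_comp, hy']
        exact hImul (Submodule.mul_mem_mul h1 hx))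
    (Set.range a) (Set.finite_range _) (by rintro _ ⟨i, rfl⟩; exact haP i)
    (by
      intro X hX _ hst
      apply alg_le
      · rw [Es, Submodule.span_le]; exact hX
      · exact hstab X fun i y hy => hst _ ⟨i, rfl⟩ y hy)
  have h1 : Cov (I1 P W k) T := Cov.of_fg hT n fun v hv => smul_mem_I1 k hn hPP v (hTP hv)
  exact (h1.sup (Cov.refl _)).mono_right hPT

end Pool.Agent.H38R2
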