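import Pool.Agent.H38R2.RF2

set_option autoImplicit false
set_option linter.style.haveILetI false

namespace Pool.Agent.H38R2

variable {Φ : Type*} [CommRing Φ] {Q : Type*} [Ring Q] [Algebra Φ Q]

/-- finitely generated as a (nonunital) algebra -/
def FGA (P : Submodule Φ Q) : Prop := ∃ E : Submodule Φ Q, E.FG ∧ P = alg E

theorem FGA.gens {P : Submodule Φ Q} (h : FGA P) : ∃ (N : ℕ) (a : Fin N → Q), P = alg (Es Φ a) := by
  obtain ⟨E, hE, rfl⟩ := h
  obtain ⟨N, a, ha⟩ := Submodule.fg_iff_exists_fin_generating_family.1 hE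
  exact ⟨N, a, by rw [Es, ha]⟩

theorem Es_fg {N : ℕ} (a : Fin N → Q) : (Es Φ a).FG :=
  ⟨(Set.finite_range a).toFinset, by rw [Set.Finite.coe_toFinset]; rfl⟩

theorem Cs_fg {N : ℕ} (a : Fin N → Q) : (Cs Φ a).FG := by
  have h : {x | ∃ i j, x = a i * a j - a j * a i} =
      Set.range (fun p : Fin N × Fin N => a p.1 * a p.2 - a p.2 * a p.1) := by
    ext x
    constructor
    · rintro ⟨i, j, rfl⟩; exact ⟨(i, j), rfl⟩
    · rintro ⟨⟨i, j⟩, rfl⟩; exact ⟨i, j, rfl⟩
  refine ⟨(Set.finite_range (fun p : Fin N × Fin N => a p.1 * a p.2 - a p.2 * a p.1)).toFinset, ?_⟩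
  rw [Set.Finite.coe_toFinset, ← h]; rfl

theorem one_fg : (1 : Submodule Φ Q).FG := by
  rw [Submodule.one_eq_span]; exact Submodule.fg_span_singleton 1

theorem pow_fg {X : Submodule Φ Q} (h : X.FG) (n : ℕ) : (X ^ n).FG := by
  induction n with
  | zero => rw [pow_zero]; exact one_fg
  | succ n ih => rw [pow_succ]; exact ih.mul h

theorem Sg_fg {N : ℕ} (a : Fin N → Q) (e m : ℕ) : (Sg Φ a e m).FG :=
  (Cs_fg a).mul (pow_fg ((pow_fg (one_fg.sup (Es_fg a)) e).mul (Cs_fg a)) m)

theorem Dg_le_DD {N : ℕ} (a : Fin N → Q) : Dg Φ a ≤ DD (alg (Es Φ a)) := by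
  refine ml (mr ?_)
  unfold Cs
  rw [Submodule.span_le]
  rintro _ ⟨i, j, rfl⟩
  exact Submodule.subset_span ⟨a i, le_alg _ (Submodule.subset_span ⟨i, rfl⟩), a j,
    le_alg _ (Submodule.subset_span ⟨j, rfl⟩), rfl⟩

/-- `V` separates `x` in `P / W`. -/
def Sep (P W : Submodule Φ Q) (x : Q) : Prop :=
  ∃ V : Submodule Φ Q, W ≤ V ∧ V ≤ P ∧ P * V ≤ V ∧ V * P ≤ V ∧ x ∉ V ∧ Cov V P

theorem rf_ind [Algebra.FiniteType ℤ Φ] (hfin : ∀ n : ℕ, n ≠ 0 → Finite (Φ ⧸ Ideal.span {(n : Φ)}))
    (A : Submodule Φ Q) {δ n : ℕ} {g : Polynomial Φ} (hnδ : n ≤ δ) (hgm : g.Monic)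
    (hred : RedProp A δ n) (hg : GProp A δ g) (k : ℕ) :
    ∀ P : Submodule Φ Q, P ≤ A → FGA P → ∀ W : Submodule Φ Q, W ≤ P → P * W ≤ W → W * P ≤ W →
      DD P ^ (k + 1) ≤ W → ∀ x ∈ P, x ∉ W → Sep P W x := by
  haveI : IsNoetherianRing Φ := Algebra.FiniteType.isNoetherianRing ℤ Φ
  induction k with
  | zero =>
    intro P hPA hP W hWP hPW hWP' hD x hx hxW
    obtain ⟨N, a, rfl⟩ := hP.gens
    have hC : Cs Φ a ≤ W := by
      rw [zero_add, pow_one] at hD
      exact (Cs_le_Dg a).trans ((Dg_le_DD a).trans hD)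
    have hCx : Cx a W := ⟨(ml (le_alg _)).trans hPW, (mr (le_alg _)).trans hWP'⟩
    obtain ⟨V, h1, h2, h3, h4, h5⟩ := mod_step a (alg (Es Φ a)) W hWP (mul_alg_le _) (alg_mul_le _)
      hCx ((ml hC).trans hWP') ((mr hC).trans hPW) (Es Φ a) (Es_fg a) (le_alg _)
      (fun X hEX _ hX => alg_le hEX hX.left) x hx hxW
    exact ⟨V, h1, h2, alg_mul_of_mul_le h3.left, mul_alg_of_mul_le h3.right, h4, h5⟩
  | succ k ih =>
    intro P hPA hP W hWP hPW hWP' hD x hx hxW
    obtain ⟨N, a, hPa⟩ := hP.gens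
    have hPP : P * P ≤ P := by rw [hPa]; exact alg_mul_alg _
    set D := DD P with hDdef
    have hDPk : D ^ (k + 1) ≤ P := DDp_le hPP k
    have huD : uni P * D ^ (k + 1) ≤ D ^ (k + 1) := uni_mul_DDp hPP k
    have hDu : D ^ (k + 1) * uni P ≤ D ^ (k + 1) := DDp_mul_uni hPP k
    set M := D ^ (k + 1) ⊔ W with hM
    have hWM : W ≤ M := le_sup_right
    have hMP : M ≤ P := sup_le hDPk hWP
    have hPM : P * M ≤ M := by
      rw [hM, Submodule.mul_sup]
      exact sup_le (((ml (le_uni P)).trans huD).trans le_sup_left) (hPW.trans le_sup_right)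
    have hMP' : M * P ≤ M := by
      rw [hM, Submodule.sup_mul]
      exact sup_le (((mr (le_uni P)).trans hDu).trans le_sup_left) (hWP'.trans le_sup_right)
    by_cases hxM : x ∈ M
    swap
    · obtain ⟨V, h1, h2⟩ := ih P hPA hP M hMP hPM hMP' le_sup_left x hx hxM
      exact ⟨V, hWM.trans h1, h2⟩
    -- shrink to a finite section
    have hEP : Es Φ a ≤ P := by rw [hPa]; exact le_alg _
    obtain ⟨d, hd⟩ := sigma N δ n hnδ k
    have hDle : D ≤ Dg Φ a := by
      have := DD_le_Dg (Φ := Φ) a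
      rw [← hPa] at this
      exact this
    have hDge : Dg Φ a ≤ D := by
      have := Dg_le_DD (Φ := Φ) a
      rw [← hPa] at this
      exact this
    have hCD : Cs Φ a ≤ D := (Cs_le_Dg a).trans hDge
    have hCx : ∀ X : Submodule Φ Q, P * X ≤ X → X * P ≤ X → Cx a X := fun X h1 h2 =>
      ⟨(ml hEP).trans h1, (mr hEP).trans h2⟩
    have hCx' : ∀ X : Submodule Φ Q, Cx a X → P * X ≤ X ∧ X * P ≤ X := fun X h => by
      rw [hPa]
      exact ⟨alg_mul_of_mul_le h.left, mul_alg_of_mul_le h.right⟩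
    have hCM : Cs Φ a * M ≤ W := by
      rw [hM, Submodule.mul_sup]
      refine sup_le ?_ ((ml (hCD.trans (DD_le hPP))).trans hPW)
      refine (ml hCD).trans ?_
      rw [← pow_succ']
      exact hD
    have hMC : M * Cs Φ a ≤ W := by
      rw [hM, Submodule.sup_mul]
      refine sup_le ?_ ((mr (hCD.trans (DD_le hPP))).trans hWP')
      refine (mr hCD).trans ?_
      rw [← pow_succ]
      exact hD
    have hSgM : Sg Φ a d k ≤ M := by
      refine le_trans ?_ le_sup_left
      rw [Sg, pow_succ']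
      refine mm hCD ?_
      apply pm
      have h1 : Fs Φ a ^ d ≤ uni P := by
        have := Fp_le_P1 (Φ := Φ) a d
        rw [P1, ← hPa] at this
        exact this
      exact (mm h1 hCD).trans (uni_mul_DD hPP)
    have hredP : RedProp (alg (Es Φ a)) δ n := by
      rw [← hPa]; exact hred.mono hPA
    obtain ⟨W', hWW', hW'M, hW'c, hxW', hcovW'⟩ := mod_step a M W hWM
      ((ml hEP).trans hPM) ((mr hEP).trans hMP')
      (hCx W hPW hWP') hCM hMC (Sg Φ a d k) (Sg_fg a d k) hSgM
      (fun X hX1 hX2 hX3 => sup_le ((pm hDle (k + 1)).trans (hd a hredP X hX3 hX1)) hX2)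
      x hxM hxW
    obtain ⟨hPW1, hWP1⟩ := hCx' W' hW'c
    have hW'P : W' ≤ P := hW'M.trans hMP
    obtain ⟨n0, hn0, hn0M⟩ := hcovW'.nsmul
    haveI hfinq : Finite (Φ ⧸ Ideal.span {(n0 : Φ)}) := hfin n0 hn0
    obtain ⟨J, hJP, hPJ, hJP', hJM, hMJ, hJcov⟩ := cov_ann hPP hPM hMP' hPW1 hWP1 hcovW'
    have hDM : D ^ (k + 1) ≤ M := le_sup_left
    have hn0D : ∀ v ∈ D ^ (k + 1), (n0 : Φ) • v ∈ W' := fun v hv => hn0M v (hDM hv)
    have hD' : D ^ (k + 1 + 1) ≤ W' := hD.trans hWW'
    have hI1cov : Cov (I1 P W' k) P := by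
      have hPA' : alg (Es Φ a) ≤ A := by rw [← hPa]; exact hPA
      have hres := cov_I1 (W := W') (J := J) (k := k) (n := n0) a hPA' hgm hg (by rw [← hPa]; exact hPW1)
        (by rw [← hPa]; exact hWP1) (by rw [← hPa]; exact hD') (by rw [← hPa]; exact hJP)
        (by rw [← hPa]; exact (mr hDM).trans hJM) (by rw [← hPa]; exact (ml hDM).trans hMJ)
        (by rw [← hPa]; exact hJcov) (by rw [← hPa]; exact hn0D)
      rw [← hPa] at hres
      exact hres
    set I := J ⊓ I1 P W' k with hI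
    have hIP : I ≤ P := inf_le_left.trans hJP
    have hIJ : I ≤ J := inf_le_left
    have hII1 : I ≤ I1 P W' k := inf_le_right
    have hPI : P * I ≤ I := le_inf ((mr hIJ).trans hPJ) ((mr hII1).trans (mul_I1 hPP k))
    have hIP' : I * P ≤ I := le_inf ((ml hIJ).trans hJP') ((ml hII1).trans (I1_mul hPP k))
    have hIcov : Cov I P := hJcov.inf hI1cov
    have hIfg : FGA I := by
      have := fg_of_cov (Es_fg a) (I := I) (by rw [← hPa]; exact hIP) (by rw [← hPa]; exact hPI)
        (by rw [← hPa]; exact hIP') (by rw [← hPa]; exact hIcov)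
      exact this
    set Z : Submodule Φ Q := Submodule.span Φ {((n0 : ℕ) : Q)} with hZ
    have hn0Q : ((n0 : ℕ) : Q) = algebraMap Φ Q (n0 : Φ) := by rw [map_natCast]
    have hZ1 : Z ≤ 1 := by
      rw [hZ, Submodule.span_singleton_le_iff_mem, hn0Q]
      exact Submodule.algebraMap_mem _
    have hZc : ∀ X : Submodule Φ Q, Z * X = X * Z := by
      intro X
      apply Submodule.mul_comm_of_commute
      intro z hz y _
      obtain ⟨r, rfl⟩ := Submodule.mem_one.1 (hZ1 hz)
      exact Algebra.commutes r y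
    have hn0Z : ∀ (X : Submodule Φ Q), ∀ v ∈ X, (n0 : Φ) • v ∈ Z * X := by
      intro X v hv
      rw [Algebra.smul_def, ← hn0Q]
      exact Submodule.mul_mem_mul (Submodule.mem_span_singleton_self _) hv
    have hZle : ∀ X Y : Submodule Φ Q, (∀ v ∈ X, (n0 : Φ) • v ∈ Y) → Z * X ≤ Y := by
      intro X Y h
      rw [Submodule.mul_le]
      intro z hz v hv
      rw [hZ, Submodule.mem_span_singleton] at hz
      obtain ⟨c, rfl⟩ := hz
      rw [smul_mul_assoc, hn0Q, ← Algebra.smul_def]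
      exact Y.smul_mem _ (h v hv)
    set I' := I * I ⊔ Z * I with hI'
    have hI'I : I' ≤ I := sup_le ((ml hIP).trans hPI)
      ((ml hZ1).trans (by rw [one_mul]))
    have hI'P : I' ≤ P := hI'I.trans hIP
    have hPI' : P * I' ≤ I' := by
      rw [hI', Submodule.mul_sup]
      refine sup_le ?_ ?_
      · rw [← mul_assoc]; exact (ml hPI).trans le_sup_left
      · rw [← mul_assoc, ← hZc, mul_assoc]; exact (mr hPI).trans le_sup_right
    have hI'P' : I' * P ≤ I' := by
      rw [hI', Submodule.sup_mul]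
      refine sup_le ?_ ?_
      · rw [mul_assoc]; exact (mr hIP').trans le_sup_left
      · rw [mul_assoc]; exact (mr hIP').trans le_sup_right
    have hI'cov0 : Cov I' I := by
      obtain ⟨E, hE, hIE⟩ := hIfg
      have h1 : I ≤ E ⊔ I * I := by
        conv_lhs => rw [hIE]
        apply alg_le le_sup_left
        have hEI : E ≤ I := by rw [hIE]; exact le_alg E
        rw [Submodule.mul_sup]
        refine sup_le ((mm hEI hEI).trans le_sup_right) ?_
        rw [← mul_assoc]
        refine le_trans (ml ?_) le_sup_right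
        exact (ml (hEI.trans hIP)).trans hPI
      have hEI : E ≤ I := by rw [hIE]; exact le_alg E
      have h2 : Cov I' E := Cov.of_fg hE n0 fun v hv =>
        (le_sup_right : Z * I ≤ I') (hn0Z I v (hEI hv))
      exact (h2.sup (Cov.of_le le_sup_left)).mono_right h1
    have hI'cov : Cov I' P := hI'cov0.trans hIcov
    have hI'fg : FGA I' := by
      have := fg_of_cov (Es_fg a) (I := I') (by rw [← hPa]; exact hI'P) (by rw [← hPa]; exact hPI')
        (by rw [← hPa]; exact hI'P') (by rw [← hPa]; exact hI'cov)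
      exact this
    have hDDI' : DD I' ^ (k + 1) ≤ W' := by
      apply DD_small hPP hIP hPI hIP' hZ1 hZc k
      · exact (mm hIJ hDM).trans hJM
      · exact (mm hDM hIJ).trans hMJ
      · exact hZle _ _ hn0D
      · intro i r hir
        rw [Submodule.mul_le]
        intro y hy z hz
        have h1 : DD P ^ (i + 1) * I ≤ W'.comap (LinearMap.mulRight Φ z) := by
          rw [Submodule.mul_le]
          intro u hu c hc
          exact (mem_I1.1 (hII1 hc)).2 i r hir u hu z hz
        exact h1 hy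
    have hI'I' : I' * I' ≤ I' := (ml hI'P).trans hPI'
    -- final separation
    by_cases hxI : x ∈ I' ⊔ W'
    swap
    · refine ⟨I' ⊔ W', hWW'.trans le_sup_right, sup_le hI'P hW'P, ?_, ?_, hxI,
        hI'cov.mono_left le_sup_left⟩
      · rw [Submodule.mul_sup]; exact sup_le_sup hPI' hPW1
      · rw [Submodule.sup_mul]; exact sup_le_sup hI'P' hWP1
    obtain ⟨x', hx', w, hw, hxw⟩ := Submodule.mem_sup.1 hxI
    have hx'W : x' ∉ W' := by
      intro h
      apply hxW'
      rw [← hxw]; exact W'.add_mem h hw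
    have hDDle : DD I' ^ (k + 1) ≤ W' ⊓ I' := le_inf hDDI' (DDp_le hI'I' k)
    obtain ⟨V', g1, g2, g3, g4, g5, g6⟩ := ih I' (hI'P.trans hPA) hI'fg (W' ⊓ I') inf_le_right
      (le_inf ((mm hI'P inf_le_left).trans hPW1) ((mr inf_le_right).trans hI'I'))
      (le_inf ((mm inf_le_left hI'P).trans hWP1) ((ml inf_le_right).trans hI'I'))
      hDDle x' hx' (fun h => hx'W h.1)
    set V1 := V' ⊔ W' with hV1
    set I'' := I' ⊔ W' with hI''
    have hV'P : V' ≤ P := g2.trans hI'P
    have hI''P : I'' ≤ P := sup_le hI'P hW'P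
    have hV1I : V1 ≤ I'' := sup_le_sup_right g2 W'
    have k1 : I'' * V1 ≤ V1 := by
      rw [hI'', hV1, Submodule.sup_mul, Submodule.mul_sup, Submodule.mul_sup]
      refine sup_le (sup_le (g3.trans le_sup_left) (((ml hI'P).trans hPW1).trans le_sup_right))
        (sup_le (((mr hV'P).trans hWP1).trans le_sup_right)
          (((mr hW'P).trans hWP1).trans le_sup_right))
    have k2 : V1 * I'' ≤ V1 := by
      rw [hI'', hV1, Submodule.sup_mul, Submodule.mul_sup V' I' W', Submodule.mul_sup W' I' W']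
      refine sup_le (sup_le (g4.trans le_sup_left) (((ml hV'P).trans hPW1).trans le_sup_right))
        (sup_le (((mr hI'P).trans hWP1).trans le_sup_right)
          (((mr hW'P).trans hWP1).trans le_sup_right))
    have k3 : Cov I'' P := hI'cov.mono_left le_sup_left
    have k4 : Cov V1 I'' := (g6.mono_left le_sup_left).sup (Cov.of_le le_sup_right)
    have hx'V1 : x' ∉ V1 := by
      intro h
      obtain ⟨v, hv, w1, hw1, hvw⟩ := Submodule.mem_sup.1 h
      apply g5
      have h2 : w1 ∈ I' := by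
        have : w1 = x' - v := by rw [← hvw]; abel
        rw [this]; exact I'.sub_mem hx' (g2 hv)
      rw [← hvw]
      exact V'.add_mem hv (g1 ⟨hw1, h2⟩)
    obtain ⟨V2, q1, q2, q3, q4, q5⟩ := shrink hPP hI''P hV1I k1 k2 k3 k4
    have hW'V2 : W' ≤ V2 := q5 W' le_sup_right hPW1 hWP1
    refine ⟨V2, hWW'.trans hW'V2, q1.trans (hV1I.trans hI''P), q2, q3, ?_, q4⟩
    intro h
    apply hx'V1
    have h1 : x' = x - w := by rw [← hxw]; abel
    rw [h1]
    exact V1.sub_mem (q1 h) ((le_sup_right : W' ≤ V1) hw)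

end Pool.Agent.H38R2
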