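import Pool.Agent.H38R2.Ann
import Pool.Agent.H38R2.RF3
import Pool.Agent.H38R2.Amitsur

set_option autoImplicit false
set_option linter.style.haveILetI false

namespace Pool.Agent.H38R2

universe u w

variable {Φ : Type w} [CommRing Φ] {Q : Type u} [Ring Q] [Algebra Φ Q]

theorem ring_fg [Algebra.FiniteType ℤ Φ] {E : Submodule Φ Q} (hE : E.FG)
    (hQ : (1 : Submodule Φ Q) ⊔ alg E = ⊤) :
    ∃ G : Finset Q, Subring.closure (G : Set Q) = ⊤ := by
  classical
  obtain ⟨s, hs⟩ := (inferInstance : Algebra.FiniteType ℤ Φ).out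
  obtain ⟨t, ht⟩ := hE
  refine ⟨s.image (algebraMap Φ Q) ∪ t, ?_⟩
  set S := Subring.closure (((s.image (algebraMap Φ Q) ∪ t : Finset Q)) : Set Q) with hS
  have hΦ : ∀ φ : Φ, algebraMap Φ Q φ ∈ S := by
    intro φ
    have h1 : φ ∈ Algebra.adjoin ℤ (s : Set Φ) := by rw [hs]; trivial
    induction h1 using Algebra.adjoin_induction with
    | mem x hx =>
      apply Subring.subset_closure
      rw [Finset.coe_union, Finset.coe_image]
      exact Or.inl ⟨x, hx, rfl⟩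
    | algebraMap r =>
      have : algebraMap Φ Q (algebraMap ℤ Φ r) = (r : Q) := by simp
      rw [this]
      exact intCast_mem S r
    | add x y _ _ hx hy => rw [map_add]; exact S.add_mem hx hy
    | mul x y _ _ hx hy => rw [map_mul]; exact S.mul_mem hx hy
  have hE : ∀ x ∈ E, x ∈ S := by
    intro x hx
    rw [← ht] at hx
    induction hx using Submodule.span_induction with
    | mem x hx =>
      apply Subring.subset_closure
      rw [Finset.coe_union]
      exact Or.inr hx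
    | zero => exact S.zero_mem
    | add x y _ _ hx hy => exact S.add_mem hx hy
    | smul c x _ hx => rw [Algebra.smul_def]; exact S.mul_mem (hΦ c) hx
  let SΦ : Submodule Φ Q :=
    { carrier := S
      add_mem' := fun ha hb => S.add_mem ha hb
      zero_mem' := S.zero_mem
      smul_mem' := fun c x hx => by
        rw [Algebra.smul_def]; exact S.mul_mem (hΦ c) hx }
  have h1 : (1 : Submodule Φ Q) ⊔ alg E ≤ SΦ := by
    apply sup_le
    · rw [Submodule.one_le]; exact S.one_mem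
    · apply alg_le
      · exact hE
      · rw [Submodule.mul_le]
        intro m hm n hn
        exact S.mul_mem (hE m hm) hn
  rw [hQ] at h1
  rw [eq_top_iff]
  intro x _
  exact h1 (show x ∈ (⊤ : Submodule Φ Q) from trivial)

/-- product of elements of a spanning set vanish, so does the power of the span -/
theorem pow_span_le_bot {X : Finset Q} {N : ℕ}
    (h : ∀ l : List Q, (∀ x ∈ l, x ∈ X) → l.length = N → l.prod = 0) :
    (Submodule.span Φ (X : Set Q)) ^ N ≤ ⊥ := by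
  rw [Submodule.span_pow, Submodule.span_le]
  intro y hy
  obtain ⟨f, hf⟩ := Set.mem_pow.1 hy
  have := h (List.ofFn (fun i => (f i : Q))) (by
    intro x hx
    rw [List.mem_ofFn] at hx
    obtain ⟨i, rfl⟩ := hx
    exact (f i).2) (by simp)
  change y = 0
  rw [← hf, this]

theorem Cs_mul_pow {ι : Type*} (a : ι → Q) (e m : ℕ) :
    Sg Φ a e m = (Cs Φ a * Fs Φ a ^ e) ^ m * Cs Φ a := by
  induction m with
  | zero => simp [Sg_zero]
  | succ m ih => rw [Sg_succ, ih, pow_succ]; simp only [mul_assoc]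

theorem RH.mono {W : Submodule Φ Q} {ξ y ζ : Q} {δ δ' : ℕ} (h : RH W ξ y ζ δ') (hδ : δ ≤ δ') :
    RH W ξ y ζ δ :=
  { lx := h.lx, ly := h.ly, lz := h.lz, rx := h.rx, ry := h.ry, rz := h.rz
    zx := fun b hb => h.zx b (hb.trans hδ)
    xxz := fun b hb b' hb' => h.xxz b (hb.trans hδ) b' (hb'.trans hδ)
    xzz := fun b hb b' hb' => h.xzz b (hb.trans hδ) b' (hb'.trans hδ) }

theorem RedProp.mono_delta {A : Submodule Φ Q} {δ δ' n : ℕ} (h : RedProp A δ n) (hδ : δ ≤ δ') :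
    RedProp A δ' n := fun W ξ y ζ h1 h2 h3 h4 => h W ξ y ζ h1 h2 h3 (h4.mono hδ)

theorem GProp.mono_delta {A : Submodule Φ Q} {δ δ' : ℕ} {g : Polynomial Φ} (h : GProp A δ g)
    (hδ : δ ≤ δ') : GProp A δ' g := fun W ξ y ζ h1 h2 h3 h4 => h W ξ y ζ h1 h2 h3 (h4.mono hδ)

theorem Fs_fg {N : ℕ} (a : Fin N → Q) : (Fs Φ a).FG := by
  have h1 : (1 : Submodule Φ Q).FG := by
    rw [Submodule.one_eq_span]; exact Submodule.fg_span_singleton 1
  exact h1.sup (Es_fg a)

/-- **Main theorem (separation).** -/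
theorem rf_main [Algebra.FiniteType ℤ Φ]
    (hfin : ∀ n : ℕ, n ≠ 0 → Finite (Φ ⧸ Ideal.span {(n : Φ)}))
    (A : Submodule Φ Q) (hQ : (1 : Submodule Φ Q) ⊔ A = ⊤)
    (hAl : ⊤ * A ≤ A) (hAr : A * ⊤ ≤ A) (hA : FGA A)
    {d : ℕ} {c : Equiv.Perm (Fin d) → Φ} (hc : c 1 = 1) (hPI : PIon d c A)
    (R : NP Φ (Fin 3)) (hR : ∀ v : Fin 3 → Q, (∀ i, v i ∈ A) → ev v R = 0)
    (hG : (MvPolynomial.finSuccEquiv Φ 2 (Psi R)).Monic)
    (x : Q) (hxA : x ∈ A) (hx : x ≠ 0) :
    ∃ V : Submodule Φ Q, V ≤ A ∧ A * V ≤ V ∧ V * A ≤ V ∧ x ∉ V ∧ Cov V A := by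
  classical
  haveI : IsNoetherianRing Φ := Algebra.FiniteType.isNoetherianRing ℤ Φ
  obtain ⟨δ₁, n, g, hgm, hred, hg⟩ := exists_props A R hR hG
  set δ := max δ₁ n with hδdef
  have hred' : RedProp A δ n := hred.mono_delta (le_max_left _ _)
  have hg' : GProp A δ g := hg.mono_delta (le_max_left _ _)
  have hnδ : n ≤ δ := le_max_right _ _
  have hal : ∀ q : Q, ∀ a ∈ A, q * a ∈ A := fun q a ha =>
    hAl (Submodule.mul_mem_mul trivial ha)
  have har : ∀ q : Q, ∀ a ∈ A, a * q ∈ A := fun q a ha =>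
    hAr (Submodule.mul_mem_mul ha trivial)
  have hcomm : ∀ r s : Q, r * s - s * r ∈ A := by
    intro r s
    obtain ⟨r1, hr1, r2, hr2, rfl⟩ := Submodule.mem_sup.1
      (show r ∈ (1 : Submodule Φ Q) ⊔ A by rw [hQ]; trivial)
    obtain ⟨c, rfl⟩ := Submodule.mem_one.1 hr1
    have e : (algebraMap Φ Q c + r2) * s - s * (algebraMap Φ Q c + r2) = r2 * s - s * r2 := by
      rw [add_mul, mul_add, Algebra.commutes]; abel
    rw [e]
    exact A.sub_mem (har s r2 hr2) (hal s r2 hr2)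
  obtain ⟨E, hE, hAE⟩ := hA
  have hQfg : ∃ G : Finset Q, Subring.closure (G : Set Q) = ⊤ :=
    ring_fg hE (by rw [← hAE]; exact hQ)
  -- the identity with central coefficients
  let c' : Equiv.Perm (Fin d) → Q := fun σ => algebraMap Φ Q (c σ)
  have hc' : c' 1 = 1 := by simp [c', hc]
  have hPI' : PIc d c' (A : Set Q) := by
    refine ⟨fun σ r => Algebra.commutes _ _, fun x hx => ?_⟩
    rw [← hPI x hx]
    exact Finset.sum_congr rfl fun σ _ => (Algebra.smul_def _ _).symm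
  obtain ⟨δ₂, hδ₂⟩ : ∃ δ : ℕ, ∀ w ∈ R.coeff.support, w.toList.length ≤ δ :=
    ⟨R.coeff.support.sup (fun w => w.toList.length), fun w hw =>
      Finset.le_sup (f := fun w : FreeMonoid (Fin 3) => w.toList.length) hw⟩
  set B := (max δ₂ (g0 (Psi R)).natDegree) ^ d with hB
  set I : Submodule Φ Q := JB Φ Q B ⊓ A with hI
  have hIA : I ≤ A := inf_le_right
  have hIl : ∀ q : Q, ∀ a ∈ I, q * a ∈ I := fun q a ha => ⟨mul_JB ha.1 q, hal q a ha.2⟩
  have hIr : ∀ q : Q, ∀ a ∈ I, a * q ∈ I := fun q a ha => ⟨JB_mul ha.1 q, har q a ha.2⟩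
  have hcovI : Cov I A := by
    rw [hI]
    exact ((cov_JB hQfg B).mono_right le_top).inf (Cov.refl A)
  have hAI : A * I ≤ I := by
    rw [Submodule.mul_le]; intro a _ b hb; exact hIl a b hb
  have hIA' : I * A ≤ I := by
    rw [Submodule.mul_le]; intro a ha b _; exact hIr b a ha
  -- a finite generating set of `I`
  obtain ⟨E', hE', hIE'⟩ := fg_of_cov (I := I) hE (by rw [← hAE]; exact hIA)
    (by rw [← hAE]; exact hAI) (by rw [← hAE]; exact hIA') (by rw [← hAE]; exact hcovI)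
  have hFGI : FGA I := ⟨E', hE', hIE'⟩
  obtain ⟨N, a, hIa⟩ := hFGI.gens
  have haI : ∀ i, a i ∈ I := fun i => by
    rw [hIa]; exact le_alg _ (Submodule.subset_span ⟨i, rfl⟩)
  -- the commutator ideal
  let D : TwoSidedIdeal Q := TwoSidedIdeal.span {y | ∃ r s : Q, y = r * s - s * r}
  have hDcomm : ∀ r s : Q, r * s - s * r ∈ D := fun r s => TwoSidedIdeal.subset_span ⟨r, s, rfl⟩
  have hDker : ∀ (W : Type u) [AddCommGroup W] [Module Q W],
      (∀ (r s : Q) (w : W), (r * s - s * r) • w = 0) → ∀ y ∈ D, ∀ w : W, y • w = 0 := by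
    intro W _ _ h y hy
    let K : TwoSidedIdeal Q := TwoSidedIdeal.ker (Module.toAddMonoidEnd Q W)
    have : D ≤ K := by
      rw [TwoSidedIdeal.span_le]
      rintro _ ⟨r, s, rfl⟩
      rw [SetLike.mem_coe, TwoSidedIdeal.mem_ker]
      ext w
      exact h r s w
    intro w
    have h2 := this hy
    rw [TwoSidedIdeal.mem_ker] at h2
    exact DFunLike.congr_fun h2 w
  -- nilpotence
  have hnil : ∀ y ∈ {y | y ∈ I ∧ y ∈ D}, IsNilpotent y := by
    rintro y ⟨hyI, hyD⟩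
    by_contra hy
    obtain ⟨W, _, _, _, hWs, hWn⟩ := exists_finite_simple hQfg d c' hc' (A : Set Q) hcomm hPI' y hy
    obtain ⟨w, hw⟩ := hWn 1
    rw [pow_one] at hw
    have hnc : ∃ (r s : Q) (w : W), (r * s - s * r) • w ≠ 0 := by
      by_contra hcon
      push Not at hcon
      exact hw (hDker W hcon y hyD w)
    have hcard := small_simple hal hcomm d c' hc' hPI' R hR (g0_monic _ hG) δ₂ hδ₂ W hnc
    exact hw (hyI.1 W hcard w)
  have hLN : LN {y | y ∈ I ∧ y ∈ D} := by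
    refine nil_LN d c' hc' (A : Set Q) (fun a ha r => hal r a ha) hPI' _ ?_ ?_ hnil
    · rintro y ⟨hy, _⟩; exact hIA hy
    · rintro y ⟨hy1, hy2⟩ r
      exact ⟨hIr r y hy1, D.mul_mem_right _ _ hy2⟩
  obtain ⟨e, he⟩ := sigma N δ n hnδ (d + 1)
  have he' := he a (by rw [← hIa]; exact hred'.mono hIA)
  set V := Cs Φ a * Fs Φ a ^ e with hV
  have hVfg : V.FG := by
    rw [hV]
    exact (Cs_fg a).mul ((Fs_fg a).pow e)
  have hVI : ∀ y ∈ V, y ∈ I ∧ y ∈ D := by
    have hC : ∀ y ∈ Cs Φ a, y ∈ I ∧ y ∈ D := by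
      intro y hy
      rw [Cs] at hy
      induction hy using Submodule.span_induction with
      | mem y hy =>
        obtain ⟨i, j, rfl⟩ := hy
        exact ⟨I.sub_mem (hIl _ _ (haI j)) (hIl _ _ (haI i)), hDcomm _ _⟩
      | zero => exact ⟨I.zero_mem, D.zero_mem⟩
      | add x y _ _ hx hy => exact ⟨I.add_mem hx.1 hy.1, D.add_mem hx.2 hy.2⟩
      | smul t x _ hx =>
        refine ⟨I.smul_mem _ hx.1, ?_⟩
        rw [Algebra.smul_def]
        exact D.mul_mem_left _ _ hx.2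
    intro y hy
    rw [hV] at hy
    induction hy using Submodule.mul_induction_on' with
    | mem_mul_mem p hp q _ =>
      exact ⟨hIr q p (hC p hp).1, D.mul_mem_right _ _ (hC p hp).2⟩
    | add x _ y _ hx hy => exact ⟨I.add_mem hx.1 hy.1, D.add_mem hx.2 hy.2⟩
  obtain ⟨X, hX⟩ := hVfg
  obtain ⟨K, hK⟩ := hLN X (by
    intro y hy
    exact hVI y (by rw [← hX]; exact Submodule.subset_span hy))
  have hVK : V ^ K ≤ ⊥ := by
    rw [← hX]; exact pow_span_le_bot hK
  obtain ⟨m, hm⟩ := amitsur hc hPI hAr (fun y hy => hIA (hVI y hy).1) K hVK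
  set W0 : Submodule Φ Q := ⊤ * V ^ (d + 1) * ⊤ with hW0
  have hW0l : ∀ S : Submodule Φ Q, S * W0 ≤ W0 := by
    intro S
    rw [hW0, ← mul_assoc, ← mul_assoc]
    exact ml (ml le_top)
  have hW0r : ∀ S : Submodule Φ Q, W0 * S ≤ W0 := by
    intro S
    rw [hW0, mul_assoc]
    exact mr le_top
  have hSg : Sg Φ a e (d + 1) ≤ W0 := by
    rw [Cs_mul_pow, hW0]
    calc (Cs Φ a * Fs Φ a ^ e) ^ (d + 1) * Cs Φ a = 1 * V ^ (d + 1) * Cs Φ a := by
          rw [one_mul]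
      _ ≤ ⊤ * V ^ (d + 1) * ⊤ := mm (ml le_top) le_top
  have hDg := he' W0 ⟨hW0l _, hW0r _⟩ hSg
  have hDD : DD I ^ ((d + 1 + 1) * m + 1) ≤ ⊥ := by
    have h1 : DD I ≤ Dg Φ a := by
      rw [hIa]; exact DD_le_Dg a
    calc DD I ^ ((d + 1 + 1) * m + 1) ≤ Dg Φ a ^ ((d + 1 + 1) * m + 1) := pm h1 _
      _ = (Dg Φ a ^ (d + 1 + 1)) ^ m * Dg Φ a := by rw [pow_succ, pow_mul]
      _ ≤ W0 ^ m * Dg Φ a := ml (pm hDg m)
      _ ≤ ⊥ * Dg Φ a := ml hm
      _ ≤ ⊥ := by rw [Submodule.bot_mul]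
  by_cases hxI : x ∈ I
  · obtain ⟨V1, _, h2, h3, h4, h5, h6⟩ := rf_ind hfin A hnδ hgm hred' hg' ((d + 1 + 1) * m) I hIA
      hFGI ⊥ bot_le (by rw [Submodule.mul_bot]) (by rw [Submodule.bot_mul]) hDD x hxI
      (by rw [Submodule.mem_bot]; exact hx)
    obtain ⟨V2, k1, k2, k3, k4, _⟩ := shrink (P := A) (I := I) (V := V1)
      (Submodule.mul_le.2 fun a ha b hb => har b a ha) hIA h2 h3 h4 hcovI h6
    exact ⟨V2, k1.trans (h2.trans hIA), k2, k3, fun h => h5 (k1 h), k4⟩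
  · exact ⟨I, hIA, hAI, hIA', hxI, hcovI⟩

end Pool.Agent.H38R2
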