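import Pool.Agent.H38R2.Kap
import Pool.Agent.H38R2.NM

set_option autoImplicit false
set_option linter.style.haveILetI false

namespace Pool.Agent.H38R2

open Polynomial

universe u

theorem not_top_span {R : Type u} [Ring R] (a : R) (ha : ¬ IsNilpotent a) :
    Ideal.span {(1 - C a * X : R[X])} ≠ ⊤ := by
  intro h
  apply ha
  obtain ⟨p, hp⟩ := Ideal.mem_span_singleton'.1
    (show (1 : R[X]) ∈ Ideal.span {(1 - C a * X : R[X])} by rw [h]; trivial)
  rw [mul_sub, mul_one, ← mul_assoc] at hp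
  have hc : ∀ k, p.coeff k = a ^ k := by
    intro k
    induction k with
    | zero =>
      have h3 := congrArg (fun q => q.coeff 0) hp
      simpa using h3
    | succ k ih =>
      have h3 := congrArg (fun q => q.coeff (k + 1)) hp
      simp only [coeff_sub, coeff_mul_X, coeff_mul_C, ih] at h3
      rw [coeff_one, if_neg (Nat.succ_ne_zero k)] at h3
      rw [pow_succ]
      exact sub_eq_zero.1 h3
  refine ⟨p.natDegree + 1, ?_⟩
  rw [← hc]
  exact coeff_eq_zero_of_natDegree_lt (Nat.lt_succ_self _)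

/-- a representation over a field in which `v` is not nilpotent -/
theorem exists_rep {Q : Type u} [Ring Q] (d : ℕ) (c : Equiv.Perm (Fin d) → Q) (hc : c 1 = 1)
    (A : Set Q) (hA : ∀ r s : Q, r * s - s * r ∈ A) (hPI : PIc d c A)
    (v : Q) (hv : ¬ IsNilpotent v) :
    ∃ (K : Type u) (_ : Field K) (j : ℕ) (φ : Q →+* Matrix (Fin j) (Fin j) K),
      ∀ n, φ (v ^ n) ≠ 0 := by
  obtain ⟨M, hM, hle⟩ := Ideal.exists_le_maximal _ (not_top_span v hv)
  have hM' : IsCoatom M := Ideal.IsMaximal.out (self := hM)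
  have hsimple : IsSimpleModule Q[X] (Q[X] ⧸ M) := isSimpleModule_iff_isCoatom.2 hM'
  have hgen : Subring.closure (Set.range (C : Q →+* Q[X]) ∪ {X}) = ⊤ := by
    rw [eq_top_iff]
    intro p _
    induction p using Polynomial.induction_on' with
    | add p q hp hq => exact add_mem (hp (Subring.mem_top p)) (hq (Subring.mem_top q))
    | monomial n a =>
      rw [← C_mul_X_pow_eq_monomial]
      apply mul_mem
      · exact Subring.subset_closure (Or.inl ⟨a, rfl⟩)
      · have hX : (X : Q[X]) ∈ Subring.closure (Set.range (C : Q →+* Q[X]) ∪ {X}) :=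
          Subring.subset_closure (Set.mem_union_right _ (Set.mem_singleton _))
        exact pow_mem hX n
  obtain ⟨K, hK, j, φ, h2⟩ := kaplansky (C : Q →+* Q[X]) X (fun s => X_mul) hgen
    (Q[X] ⧸ M) d c hc A hA hPI
  refine ⟨K, hK, j, φ, fun n h0 => ?_⟩
  -- `C (v^n) * X^n ≡ 1 mod M`
  have h1 : ∀ n : ℕ, (1 : Q[X]) - C (v ^ n) * X ^ n ∈ M := by
    intro n
    induction n with
    | zero => simp
    | succ n ih =>
      have e : (1 : Q[X]) - C (v ^ (n + 1)) * X ^ (n + 1) =
          (1 - C (v ^ n) * X ^ n) + C (v ^ n) * X ^ n * (1 - C v * X) := by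
        rw [mul_sub, mul_one, pow_succ v n, C_mul, pow_succ X n]
        have e2 : C (v ^ n) * X ^ n * (C v * X) = C (v ^ n) * C v * (X ^ n * X) := by
          rw [mul_assoc, ← mul_assoc (X ^ n) (C v) X, X_pow_mul_C, mul_assoc, mul_assoc]
        rw [e2]; abel
      rw [e]
      exact M.add_mem ih (M.mul_mem_left _ (hle (Ideal.subset_span rfl)))
  have h3 := h2 (v ^ n) h0 (Submodule.Quotient.mk (X ^ n))
  rw [← Submodule.Quotient.mk_smul, smul_eq_mul, Submodule.Quotient.mk_eq_zero] at h3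
  apply hM.ne_top
  rw [Ideal.eq_top_iff_one]
  have := M.add_mem (h1 n) h3
  rwa [sub_add_cancel] at this

theorem matrix_pow_eq_zero {k : Type u} [Field k] {j : ℕ} (Mx : Matrix (Fin j) (Fin j) k)
    (h : IsNilpotent Mx) : Mx ^ j = 0 := by
  have h1 : IsNilpotent (Matrix.toLinAlgEquiv' Mx) := h.map Matrix.toLinAlgEquiv'
  have h2 := h1.charpoly_eq_X_pow_finrank
  have h3 := LinearMap.aeval_self_charpoly (Matrix.toLinAlgEquiv' Mx)
  rw [h2, map_pow, aeval_X] at h3
  have h4 : Module.finrank k (Fin j → k) = j := by simp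
  rw [h4, ← map_pow] at h3
  exact (map_eq_zero_iff _ (Matrix.toLinAlgEquiv' (R := k) (n := Fin j)).injective).1 h3

/-- (Sep) non-nilpotent elements act non-nilpotently on some finite module -/
theorem exists_finite_module {Q : Type u} [Ring Q] (hQ : ∃ G : Finset Q, Subring.closure (G : Set Q) = ⊤)
    (d : ℕ) (c : Equiv.Perm (Fin d) → Q) (hc : c 1 = 1)
    (A : Set Q) (hA : ∀ r s : Q, r * s - s * r ∈ A) (hPI : PIc d c A)
    (v : Q) (hv : ¬ IsNilpotent v) :
    ∃ (W : Type u) (_ : AddCommGroup W) (_ : Module Q W) (_ : Finite W),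
      ∀ n : ℕ, ∃ w : W, v ^ n • w ≠ 0 := by
  classical
  obtain ⟨K, hK, j, φ, hφ⟩ := exists_rep d c hc A hA hPI v hv
  obtain ⟨G, hG⟩ := hQ
  let S0 : Finset K := (G ×ˢ (Finset.univ : Finset (Fin j × Fin j))).image
    (fun p => φ p.1 p.2.1 p.2.2)
  let L0 : Subalgebra ℤ K := Algebra.adjoin ℤ (S0 : Set K)
  have hmem : ∀ (r : Q) (i k : Fin j), φ r i k ∈ L0 := by
    intro r
    have hr : r ∈ Subring.closure (G : Set Q) := by rw [hG]; trivial
    induction hr using Subring.closure_induction with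
    | mem x hx =>
      intro i k
      apply Algebra.subset_adjoin
      rw [Finset.mem_coe]
      exact Finset.mem_image.2 ⟨(x, (i, k)), by simpa using hx, rfl⟩
    | zero => intro i k; rw [map_zero]; exact L0.zero_mem
    | one =>
      intro i k
      rw [map_one, Matrix.one_apply]
      split_ifs
      · exact L0.one_mem
      · exact L0.zero_mem
    | add x y _ _ hx hy => intro i k; rw [map_add]; exact L0.add_mem (hx i k) (hy i k)
    | neg x _ hx => intro i k; rw [map_neg]; exact L0.neg_mem (hx i k)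
    | mul x y _ _ hx hy =>
      intro i k
      rw [map_mul, Matrix.mul_apply]
      exact L0.sum_mem fun l _ => L0.mul_mem (hx i l) (hy l k)
  let φ0 : Q →+* Matrix (Fin j) (Fin j) L0 :=
    { toFun := fun r => Matrix.of fun i k => ⟨φ r i k, hmem r i k⟩
      map_one' := by
        ext i k
        simp only [Matrix.of_apply, map_one, Matrix.one_apply]
        split_ifs <;> rfl
      map_mul' := fun a b => by
        ext i k
        simp [Matrix.mul_apply]
      map_zero' := by ext i k; simp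
      map_add' := fun a b => by ext i k; simp }
  have hφ0 : ∀ r i k, ((φ0 r i k : L0) : K) = φ r i k := fun r i k => rfl
  obtain ⟨i0, k0, hik⟩ : ∃ i0 k0, φ0 (v ^ j) i0 k0 ≠ 0 := by
    by_contra hcon
    push Not at hcon
    apply hφ j
    ext i k
    rw [← hφ0, hcon i k]
    rfl
  haveI : Algebra.FiniteType ℤ L0 := by
    rw [← Subalgebra.fg_iff_finiteType]
    exact Subalgebra.fg_adjoin_finset S0
  haveI := isJacobsonRing_int
  haveI : IsJacobsonRing L0 := isJacobsonRing_of_finiteType (A := ℤ)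
  have hjac : (⊥ : Ideal L0).jacobson = ⊥ := by
    rw [← Ideal.radical_eq_jacobson]
    exact Ideal.IsPrime.radical Ideal.isPrime_bot
  have hnot : φ0 (v ^ j) i0 k0 ∉ (⊥ : Ideal L0).jacobson := by
    rw [hjac]; exact hik
  rw [Ideal.jacobson, Submodule.mem_sInf] at hnot
  push Not at hnot
  obtain ⟨𝔫, ⟨_, h𝔫⟩, hn⟩ := hnot
  haveI : Finite (L0 ⧸ 𝔫) := finite_quot_max 𝔫 h𝔫
  letI : Field (L0 ⧸ 𝔫) := Ideal.Quotient.field 𝔫
  let ψ : Q →+* Matrix (Fin j) (Fin j) (L0 ⧸ 𝔫) := (Ideal.Quotient.mk 𝔫).mapMatrix.comp φ0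
  have hψ : ψ (v ^ j) ≠ 0 := by
    intro h0
    have h1 := congrFun (congrFun h0 i0) k0
    apply hn
    rw [← Ideal.Quotient.eq_zero_iff_mem]
    exact h1
  have hψn : ∀ n, ψ (v ^ n) ≠ 0 := by
    intro n h0
    rw [map_pow] at h0
    apply hψ
    rw [map_pow]
    exact matrix_pow_eq_zero _ ⟨n, h0⟩
  let ρ : Q →+* Module.End (L0 ⧸ 𝔫) (Fin j → (L0 ⧸ 𝔫)) :=
    ((Matrix.toLinAlgEquiv' (R := L0 ⧸ 𝔫) (n := Fin j)).toAlgHom.toRingHom).comp ψ
  letI : Module Q (Fin j → (L0 ⧸ 𝔫)) := Module.compHom _ ρ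
  refine ⟨Fin j → (L0 ⧸ 𝔫), inferInstance, inferInstance, inferInstance, fun n => ?_⟩
  by_contra hcon
  push Not at hcon
  apply hψn n
  have h1 : (Matrix.toLinAlgEquiv' (R := L0 ⧸ 𝔫) (n := Fin j)) (ψ (v ^ n)) = 0 := by
    apply LinearMap.ext
    intro w
    exact hcon w
  exact (map_eq_zero_iff _ (Matrix.toLinAlgEquiv' (R := L0 ⧸ 𝔫) (n := Fin j)).injective).1 h1

/-- a finite simple module on which `v` is not nilpotent -/
theorem exists_simple_aux {Q : Type u} [Ring Q] (v : Q) (N : ℕ) :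
    ∀ (W : Type u) [AddCommGroup W] [Module Q W] [Finite W], Nat.card W ≤ N →
      (∀ n : ℕ, ∃ w : W, v ^ n • w ≠ 0) →
      ∃ (W' : Type u) (_ : AddCommGroup W') (_ : Module Q W') (_ : Finite W'),
        IsSimpleModule Q W' ∧ ∀ n : ℕ, ∃ w : W', v ^ n • w ≠ 0 := by
  induction N with
  | zero =>
    intro W _ _ _ h
    exfalso
    have : 0 < Nat.card W := Nat.card_pos
    omega
  | succ N ih =>
    intro W _ _ _ hcard hNN
    by_cases hs : IsSimpleModule Q W
    · exact ⟨W, inferInstance, inferInstance, inferInstance, hs, hNN⟩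
    have hnt : Nontrivial W := by
      obtain ⟨w, hw⟩ := hNN 0
      rw [pow_zero, one_smul] at hw
      exact ⟨⟨w, 0, hw⟩⟩
    obtain ⟨W1, hb, ht⟩ : ∃ W1 : Submodule Q W, W1 ≠ ⊥ ∧ W1 ≠ ⊤ := by
      by_contra hcon
      push Not at hcon
      apply hs
      have hnt : Nontrivial (Submodule Q W) := inferInstance
      have hall : ∀ W1 : Submodule Q W, W1 = ⊥ ∨ W1 = ⊤ := by
        intro W1
        by_cases h : W1 = ⊥
        · exact Or.inl h
        · exact Or.inr (hcon W1 h)
      exact { toIsSimpleOrder := { toNontrivial := hnt, eq_bot_or_eq_top := hall } }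
    have hc1 : Nat.card W1 * Nat.card (W ⧸ W1) = Nat.card W := by
      exact (Submodule.card_eq_card_quotient_mul_card W1).symm
    haveI hfq : Finite (W ⧸ W1) :=
      Finite.of_surjective (Submodule.mkQ W1) (Submodule.mkQ_surjective W1)
    have hg1 : 1 < Nat.card W1 := by
      rw [Finite.one_lt_card_iff_nontrivial]
      exact Submodule.nontrivial_iff_ne_bot.2 hb
    have hg2 : 1 < Nat.card (W ⧸ W1) := by
      rw [Finite.one_lt_card_iff_nontrivial]
      exact Submodule.Quotient.nontrivial_iff.2 ht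
    by_cases h1 : ∀ n : ℕ, ∃ w : W1, v ^ n • w ≠ 0
    · exact ih W1 (by nlinarith) h1
    by_cases h2 : ∀ n : ℕ, ∃ w : W ⧸ W1, v ^ n • w ≠ 0
    · exact ih (W ⧸ W1) (by nlinarith) h2
    exfalso
    push Not at h1 h2
    obtain ⟨a, ha⟩ := h1
    obtain ⟨b, hb⟩ := h2
    obtain ⟨w, hw⟩ := hNN (a + b)
    apply hw
    rw [pow_add, mul_smul]
    have h3 : v ^ b • w ∈ W1 := by
      have := hb (Submodule.Quotient.mk w)
      rwa [← Submodule.Quotient.mk_smul, Submodule.Quotient.mk_eq_zero] at this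
    have := ha ⟨v ^ b • w, h3⟩
    exact congrArg Subtype.val this

theorem exists_finite_simple {Q : Type u} [Ring Q]
    (hQ : ∃ G : Finset Q, Subring.closure (G : Set Q) = ⊤)
    (d : ℕ) (c : Equiv.Perm (Fin d) → Q) (hc : c 1 = 1)
    (A : Set Q) (hA : ∀ r s : Q, r * s - s * r ∈ A) (hPI : PIc d c A)
    (v : Q) (hv : ¬ IsNilpotent v) :
    ∃ (W : Type u) (_ : AddCommGroup W) (_ : Module Q W) (_ : Finite W),
      IsSimpleModule Q W ∧ ∀ n : ℕ, ∃ w : W, v ^ n • w ≠ 0 := by
  obtain ⟨W, h1, h2, h3, h4⟩ := exists_finite_module hQ d c hc A hA hPI v hv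
  exact exists_simple_aux v (Nat.card W) W le_rfl h4

end Pool.Agent.H38R2
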