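import Pool.Agent.H38R2.KL

set_option autoImplicit false
set_option linter.style.haveILetI false

namespace Pool.Agent.H38R2

variable {Φ : Type*} [CommRing Φ] {Q : Type*} [Ring Q] [Algebra Φ Q]
variable {ι : Type*}

/-- `C (F^e C)^m`. -/
def Sg (Φ : Type*) [CommRing Φ] {Q : Type*} [Ring Q] [Algebra Φ Q] {ι : Type*} (a : ι → Q)
    (e m : ℕ) : Submodule Φ Q := Cs Φ a * (Fs Φ a ^ e * Cs Φ a) ^ m

theorem Sg_zero (a : ι → Q) (e : ℕ) : Sg Φ a e 0 = Cs Φ a := by
  rw [Sg, pow_zero, mul_one]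

theorem Sg_succ (a : ι → Q) (e m : ℕ) : Sg Φ a e (m + 1) = Sg Φ a e m * (Fs Φ a ^ e * Cs Φ a) := by
  rw [Sg, Sg, pow_succ, mul_assoc]

theorem Sg_succ' (a : ι → Q) (e m : ℕ) : Sg Φ a e (m + 1) = Cs Φ a * Fs Φ a ^ e * Sg Φ a e m := by
  rw [Sg, Sg, pow_succ']; simp only [mul_assoc]

theorem Sg_eq' (a : ι → Q) (e m : ℕ) : Sg Φ a e m = (Cs Φ a * Fs Φ a ^ e) ^ m * Cs Φ a := by
  induction m with
  | zero => rw [Sg_zero, pow_zero, one_mul]
  | succ m ih => rw [Sg_succ', ih, pow_succ']; simp only [mul_assoc]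

theorem Sg_mono (a : ι → Q) {e e' : ℕ} (h : e ≤ e') (m : ℕ) : Sg Φ a e m ≤ Sg Φ a e' m :=
  mr (pm (ml (Fs_pow_mono a h)) m)

theorem Cs_le (a : ι → Q) : Cs Φ a ≤ alg (Es Φ a) := by
  unfold Cs
  rw [Submodule.span_le]
  rintro x ⟨i, j, rfl⟩
  have hi : a i ∈ Es Φ a := Submodule.subset_span ⟨i, rfl⟩
  have hj : a j ∈ Es Φ a := Submodule.subset_span ⟨j, rfl⟩
  have h1 : Es Φ a * Es Φ a ≤ alg (Es Φ a) :=
    (mm (le_alg _) (le_alg _)).trans (alg_mul_alg _)
  exact Submodule.sub_mem _ (h1 (Submodule.mul_mem_mul hi hj)) (h1 (Submodule.mul_mem_mul hj hi))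

/-- the context of an algebra generated by `a` -/
structure Cx (a : ι → Q) (W : Submodule Φ Q) : Prop where
  left : Es Φ a * W ≤ W
  right : W * Es Φ a ≤ W

section ctx
variable {a : ι → Q} {W : Submodule Φ Q}

/-- unital hull of the algebra generated by `a` -/
abbrev P1 (Φ : Type*) [CommRing Φ] {Q : Type*} [Ring Q] [Algebra Φ Q] {ι : Type*} (a : ι → Q) :
    Submodule Φ Q := uni (alg (Es Φ a))

theorem P1_mul (a : ι → Q) : P1 Φ a * P1 Φ a ≤ P1 Φ a := uni_mul_uni (alg_mul_alg _)

theorem mul_le_P1 {a : ι → Q} {X Y : Submodule Φ Q} (h : X ≤ P1 Φ a) (h' : Y ≤ P1 Φ a) :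
    X * Y ≤ P1 Φ a := (mm h h').trans (P1_mul a)

theorem Es_le_P1 (a : ι → Q) : Es Φ a ≤ P1 Φ a := (le_alg _).trans (le_uni _)
theorem Fs_le_P1 (a : ι → Q) : Fs Φ a ≤ P1 Φ a := sup_le (one_le_uni _) (Es_le_P1 a)
theorem Cs_le_P1 (a : ι → Q) : Cs Φ a ≤ P1 Φ a := (Cs_le a).trans (le_uni _)
theorem Fp_le_P1 (a : ι → Q) (n : ℕ) : Fs Φ a ^ n ≤ P1 Φ a :=
  pow_le_uni (alg_mul_alg _) (Fs_le_P1 a) n
theorem Ep_le_P1 (a : ι → Q) (n : ℕ) : Es Φ a ^ n ≤ P1 Φ a :=
  pow_le_uni (alg_mul_alg _) (Es_le_P1 a) n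

theorem Sg_le_P1 (a : ι → Q) (e m : ℕ) : Sg Φ a e m ≤ P1 Φ a :=
  mul_le_P1 (Cs_le_P1 a) (pow_le_uni (alg_mul_alg _) (mul_le_P1 (Fp_le_P1 a e) (Cs_le_P1 a)) m)

theorem P_mul_P1 (a : ι → Q) : alg (Es Φ a) * P1 Φ a ≤ alg (Es Φ a) := by
  apply mul_uni (alg_mul_alg _)
theorem P1_mul_P (a : ι → Q) : P1 Φ a * alg (Es Φ a) ≤ alg (Es Φ a) := by
  apply uni_mul (alg_mul_alg _)

theorem Sg_le_P (a : ι → Q) (e m : ℕ) : Sg Φ a e m ≤ alg (Es Φ a) :=
  (mm (Cs_le a) (pow_le_uni (alg_mul_alg _) (mul_le_P1 (Fp_le_P1 a e) (Cs_le_P1 a)) m)).trans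
    (P_mul_P1 a)

theorem Cx.mulW (h : Cx a W) {X : Submodule Φ Q} (hX : X ≤ P1 Φ a) : X * W ≤ W :=
  (ml hX).trans (uni_mul (alg_mul_of_mul_le h.left))

theorem Cx.Wmul (h : Cx a W) {X : Submodule Φ Q} (hX : X ≤ P1 Φ a) : W * X ≤ W :=
  (mr hX).trans (mul_uni (mul_alg_of_mul_le h.right))

/-- `X Y Z ≤ W` when `Y ≤ W` -/
theorem Cx.sand (h : Cx a W) {X Y Z : Submodule Φ Q} (hX : X ≤ P1 Φ a) (hZ : Z ≤ P1 Φ a)
    (hY : Y ≤ W) : X * Y * Z ≤ W :=
  (ml ((mr hY).trans (h.mulW hX))).trans (h.Wmul hZ)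

theorem Cx.memL (h : Cx a W) {x w : Q} (hx : x ∈ P1 Φ a) (hw : w ∈ W) : x * w ∈ W :=
  h.mulW le_rfl (Submodule.mul_mem_mul hx hw)

theorem Cx.memR (h : Cx a W) {x w : Q} (hx : x ∈ P1 Φ a) (hw : w ∈ W) : w * x ∈ W :=
  h.Wmul le_rfl (Submodule.mul_mem_mul hw hx)

theorem pow_mem_Fs (a : ι → Q) (k : ι) (b : ℕ) : a k ^ b ∈ Fs Φ a ^ b :=
  Submodule.pow_mem_pow _ (Es_le_Fs a (Submodule.subset_span ⟨k, rfl⟩)) b

end ctx

variable [Fintype ι] [DecidableEq ι]

/-- part (a) -/
theorem sigma_a (a : ι → Q) {W : Submodule Φ Q} (hW : Cx a W) {δ n e m ℓ : ℕ}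
    (hred : RedProp (alg (Es Φ a)) δ n) (hn : n ≤ δ) (hδ : δ ≤ ℓ)
    (hℓ : Fintype.card ι * n ≤ ℓ)
    (T : Cs Φ a * Fs Φ a ^ ℓ * Sg Φ a e m ≤ W) (T' : Sg Φ a e m * Fs Φ a ^ ℓ * Cs Φ a ≤ W) :
    ∀ L, L + 2 * δ ≤ 2 * ℓ → Sg Φ a e m * Fs Φ a ^ L * Sg Φ a e m ≤ W := by
  set S := Sg Φ a e m with hS
  have hSP1 : S ≤ P1 Φ a := Sg_le_P1 a e m
  have Tle : ∀ k ≤ ℓ, Cs Φ a * Fs Φ a ^ k * S ≤ W := fun k hk =>
    (ml (mr (Fs_pow_mono a hk))).trans T
  have Tle' : ∀ k ≤ ℓ, S * Fs Φ a ^ k * Cs Φ a ≤ W := fun k hk =>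
    (ml (mr (Fs_pow_mono a hk))).trans T'
  have base : ∀ k ≤ ℓ, S * Fs Φ a ^ k * S ≤ W := by
    intro k hk
    have e1 : S * Fs Φ a ^ k * S =
        (Cs Φ a * Fs Φ a ^ e) ^ m * (Cs Φ a * Fs Φ a ^ k * S) := by
      conv_lhs => rw [hS, Sg_eq', ← Sg_eq', ← hS]
      rw [show S = (Cs Φ a * Fs Φ a ^ e) ^ m * Cs Φ a from Sg_eq' a e m]
      simp only [mul_assoc]
    rw [e1]
    exact (mr (Tle k hk)).trans (hW.mulW (pow_le_uni (alg_mul_alg _)
      (mul_le_P1 (Cs_le_P1 a) (Fp_le_P1 a e)) m))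
  intro L
  induction L with
  | zero => intro _; exact base 0 (Nat.zero_le _)
  | succ L ih =>
    intro hL
    by_cases hLℓ : L + 1 ≤ ℓ
    · exact base _ hLℓ
    push Not at hLℓ
    have ih' := ih (by omega)
    refine (ml (mr (Fs_pow_succ a L))).trans ?_
    rw [Submodule.mul_sup, Submodule.sup_mul]
    refine sup_le ih' ?_
    apply keyL a n ((L + 1 - n) / 2) (L + 1 - n - (L + 1 - n) / 2) (L + 1) (by omega) (by omega)
    · intro i j hij
      by_cases hi : i ≤ ℓ
      · have e1 : S * Fs Φ a ^ i * Cs Φ a * Fs Φ a ^ j * S =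
          (S * Fs Φ a ^ i * Cs Φ a) * (Fs Φ a ^ j * S) := by simp only [mul_assoc]
        rw [e1]
        exact (ml (Tle' i hi)).trans (hW.Wmul (mul_le_P1 (Fp_le_P1 a j) hSP1))
      · have e1 : S * Fs Φ a ^ i * Cs Φ a * Fs Φ a ^ j * S =
          (S * Fs Φ a ^ i) * (Cs Φ a * Fs Φ a ^ j * S) := by simp only [mul_assoc]
        rw [e1]
        exact (mr (Tle j (by omega))).trans (hW.mulW (mul_le_P1 hSP1 (Fp_le_P1 a i)))
    · intro k u hu c' hc' c'' hc'' v hv
      set l' := (L + 1 - n) / 2 with hl'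
      set l'' := L + 1 - n - l' with hl''
      have huP : u ∈ P1 Φ a := hSP1 hu
      have hvP : v ∈ P1 Φ a := hSP1 hv
      have hc'P : c' ∈ P1 Φ a := Ep_le_P1 a _ hc'
      have hc''P : c'' ∈ P1 Φ a := Ep_le_P1 a _ hc''
      have hkP : ∀ b, a k ^ b ∈ P1 Φ a := fun b => Fp_le_P1 a b (pow_mem_Fs a k b)
      have hc'F : c' ∈ Fs Φ a ^ l' := pm (Es_le_Fs a) _ hc'
      have hc''F : c'' ∈ Fs Φ a ^ l'' := pm (Es_le_Fs a) _ hc''
      have hξ : u * c' ∈ alg (Es Φ a) := P_mul_P1 a (Submodule.mul_mem_mul (Sg_le_P a e m hu) hc'P)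
      have hζ : c'' * v ∈ alg (Es Φ a) := P1_mul_P a (Submodule.mul_mem_mul hc''P (Sg_le_P a e m hv))
      have hkA : a k ∈ alg (Es Φ a) := le_alg _ (Submodule.subset_span ⟨k, rfl⟩)
      have hξ1 : u * c' ∈ P1 Φ a := le_uni _ hξ
      have hζ1 : c'' * v ∈ P1 Φ a := le_uni _ hζ
      have hk1 : a k ∈ P1 Φ a := le_uni _ hkA
      have mem3 : ∀ (N : ℕ), N ≤ ℓ → ∀ x ∈ Fs Φ a ^ N, ∀ s ∈ S, ∀ s' ∈ S, s * x * s' ∈ W := by
        intro N hN x hx s hs s' hs'
        exact base N hN (Submodule.mul_mem_mul (Submodule.mul_mem_mul hs hx) hs')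
      refine hred W _ _ _ hξ hkA hζ ?_ ?_
      · refine ⟨fun w hw => hW.memL hξ1 hw, fun w hw => hW.memL hk1 hw, fun w hw => hW.memL hζ1 hw,
          fun w hw => hW.memR hξ1 hw, fun w hw => hW.memR hk1 hw, fun w hw => hW.memR hζ1 hw,
          ?_, ?_, ?_⟩
        · intro b hb
          have h1 := mem3 b (by omega) _ (pow_mem_Fs a k b) v hv u hu
          have e1 : c'' * v * a k ^ b * (u * c') = c'' * (v * a k ^ b * u) * c' := by
            simp only [mul_assoc]
          rw [e1]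
          exact hW.memR hc'P (hW.memL hc''P h1)
        · intro b hb b' hb'
          have hx : c' * a k ^ b ∈ Fs Φ a ^ (l' + b) := by
            rw [pow_add]; exact Submodule.mul_mem_mul hc'F (pow_mem_Fs a k b)
          have h1 := mem3 (l' + b) (by omega) _ hx u hu u hu
          have e1 : u * c' * a k ^ b * (u * c') * a k ^ b' * (c'' * v) =
            (u * (c' * a k ^ b) * u) * (c' * a k ^ b' * (c'' * v)) := by
            simp only [mul_assoc]
          rw [e1]
          exact hW.memR (P1_mul a (Submodule.mul_mem_mul (P1_mul a (Submodule.mul_mem_mul hc'P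
            (hkP b'))) hζ1)) h1
        · intro b hb b' hb'
          have hx : a k ^ b' * c'' ∈ Fs Φ a ^ (b' + l'') := by
            rw [pow_add]; exact Submodule.mul_mem_mul (pow_mem_Fs a k b') hc''F
          have h1 := mem3 (b' + l'') (by omega) _ hx v hv v hv
          have e1 : u * c' * a k ^ b * (c'' * v) * a k ^ b' * (c'' * v) =
            (u * c' * a k ^ b * c'') * (v * (a k ^ b' * c'') * v) := by
            simp only [mul_assoc]
          rw [e1]
          exact hW.memL (P1_mul a (Submodule.mul_mem_mul (P1_mul a (Submodule.mul_mem_mul hξ1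
            (hkP b))) hc''P)) h1
      · intro b hb
        have hx : c' * a k ^ b * c'' ∈ Fs Φ a ^ L := by
          refine Fs_pow_mono a (m := l' + b + l'') (by omega) ?_
          rw [pow_add, pow_add]
          exact Submodule.mul_mem_mul (Submodule.mul_mem_mul hc'F (pow_mem_Fs a k b)) hc''F
        have h1 : u * (c' * a k ^ b * c'') * v ∈ W :=
          ih' (Submodule.mul_mem_mul (Submodule.mul_mem_mul hu hx) hv)
        simpa only [mul_assoc] using h1

/-- part (b) -/
theorem sigma_b (a : ι → Q) {W : Submodule Φ Q} (hW : Cx a W) {δ n e m ℓ : ℕ}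
    (hred : RedProp (alg (Es Φ a)) δ n) (hn : n ≤ δ)
    (hℓ : Fintype.card ι * n ≤ ℓ) (he : 1 + m * (δ + 2) + δ ≤ e)
    (hℓ2 : 1 + m * (δ + 2) + 4 * δ ≤ ℓ)
    (T : Cs Φ a * Fs Φ a ^ ℓ * Sg Φ a e m ≤ W) (T' : Sg Φ a e m * Fs Φ a ^ ℓ * Cs Φ a ≤ W) :
    ∀ r i, r + i = m → Sg Φ a e i * Fs Φ a ^ (ℓ + (1 + i * (δ + 2))) * Sg Φ a e m ≤ W := by
  set S := Sg Φ a e m with hS
  have hSP1 : S ≤ P1 Φ a := Sg_le_P1 a e m
  have Ua := sigma_a a hW hred hn (by omega) hℓ T T'
  rw [← hS] at Ua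
  have Tle : ∀ k ≤ ℓ, Cs Φ a * Fs Φ a ^ k * S ≤ W := fun k hk =>
    (ml (mr (Fs_pow_mono a hk))).trans T
  have Tle' : ∀ k ≤ ℓ, S * Fs Φ a ^ k * Cs Φ a ≤ W := fun k hk =>
    (ml (mr (Fs_pow_mono a hk))).trans T'
  intro r
  induction r with
  | zero =>
    intro i hi
    have : i = m := by omega
    subst this
    exact Ua _ (by omega)
  | succ r ihr =>
    intro i hi
    have hnext := ihr (i + 1) (by omega)
    set U := Sg Φ a e i with hU
    have hUP1 : U ≤ P1 Φ a := Sg_le_P1 a e i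
    have hUP : U ≤ alg (Es Φ a) := Sg_le_P a e i
    have him : i * (δ + 2) + (δ + 2) ≤ m * (δ + 2) := by
      have : (i + 1) * (δ + 2) ≤ m * (δ + 2) := Nat.mul_le_mul_right _ (by omega)
      rw [Nat.add_mul, one_mul] at this
      exact this
    have hti : (i + 1) * (δ + 2) = i * (δ + 2) + (δ + 2) := by rw [Nat.add_mul, one_mul]
    rw [hti] at hnext
    set t := i * (δ + 2) with ht
    have hnext' : ∀ k ≤ ℓ + (1 + (t + (δ + 2))), Sg Φ a e (i + 1) * Fs Φ a ^ k * S ≤ W :=
      fun k hk => (ml (mr (Fs_pow_mono a hk))).trans hnext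
    have base : ∀ k ≤ ℓ, U * Fs Φ a ^ k * S ≤ W := by
      intro k hk
      have e1 : U * Fs Φ a ^ k * S =
          (Cs Φ a * Fs Φ a ^ e) ^ i * (Cs Φ a * Fs Φ a ^ k * S) := by
        rw [show U = (Cs Φ a * Fs Φ a ^ e) ^ i * Cs Φ a from Sg_eq' a e i]
        simp only [mul_assoc]
      rw [e1]
      exact (mr (Tle k hk)).trans (hW.mulW (pow_le_uni (alg_mul_alg _)
        (mul_le_P1 (Cs_le_P1 a) (Fp_le_P1 a e)) i))
    have key : ∀ L, L ≤ ℓ + (1 + t) → U * Fs Φ a ^ L * S ≤ W := by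
      intro L
      induction L with
      | zero => intro _; exact base 0 (Nat.zero_le _)
      | succ L ih =>
        intro hL
        by_cases hLℓ : L + 1 ≤ ℓ
        · exact base _ hLℓ
        push Not at hLℓ
        have ih' := ih (by omega)
        refine (ml (mr (Fs_pow_succ a L))).trans ?_
        rw [Submodule.mul_sup, Submodule.sup_mul]
        refine sup_le ih' ?_
        apply keyL a n 0 (L + 1 - n) (L + 1) (by omega) (by omega)
        · intro p q hpq
          by_cases hp : p ≤ e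
          · have e1 : U * Fs Φ a ^ p * Cs Φ a * Fs Φ a ^ q * S ≤
                Sg Φ a e (i + 1) * Fs Φ a ^ q * S := by
              rw [Sg_succ, ← mul_assoc (Sg Φ a e i)]
              exact ml (ml (ml (mr (Fs_pow_mono a hp))))
            exact e1.trans (hnext' q (by omega))
          · have e1 : U * Fs Φ a ^ p * Cs Φ a * Fs Φ a ^ q * S =
              (U * Fs Φ a ^ p) * (Cs Φ a * Fs Φ a ^ q * S) := by simp only [mul_assoc]
            rw [e1]
            exact (mr (Tle q (by omega))).trans (hW.mulW (mul_le_P1 hUP1 (Fp_le_P1 a p)))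
        · intro k u0 hu0 c' hc' c'' hc'' v hv
          obtain ⟨u, hu, hu'⟩ : ∃ u ∈ U, u0 * c' = u := by
            refine ⟨_, ?_, rfl⟩
            have := Submodule.mul_mem_mul hu0 hc'
            rwa [pow_zero, mul_one] at this
          rw [hu']
          set l'' := L + 1 - n with hl''
          have huP : u ∈ P1 Φ a := hUP1 hu
          have hvP : v ∈ P1 Φ a := hSP1 hv
          have hc''P : c'' ∈ P1 Φ a := Ep_le_P1 a _ hc''
          have hkP : ∀ b, a k ^ b ∈ P1 Φ a := fun b => Fp_le_P1 a b (pow_mem_Fs a k b)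
          have hc''F : c'' ∈ Fs Φ a ^ l'' := pm (Es_le_Fs a) _ hc''
          have hξ : u ∈ alg (Es Φ a) := hUP hu
          have hζ : c'' * v ∈ alg (Es Φ a) :=
            P1_mul_P a (Submodule.mul_mem_mul hc''P (Sg_le_P a e m hv))
          have hkA : a k ∈ alg (Es Φ a) := le_alg _ (Submodule.subset_span ⟨k, rfl⟩)
          have hζ1 : c'' * v ∈ P1 Φ a := le_uni _ hζ
          have hk1 : a k ∈ P1 Φ a := le_uni _ hkA
          refine hred W _ _ _ hξ hkA hζ ?_ ?_
          · refine ⟨fun w hw => hW.memL huP hw, fun w hw => hW.memL hk1 hw,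
              fun w hw => hW.memL hζ1 hw,
              fun w hw => hW.memR huP hw, fun w hw => hW.memR hk1 hw, fun w hw => hW.memR hζ1 hw,
              ?_, ?_, ?_⟩
            · intro b hb
              have h1 : v * a k ^ b * u ∈ W := by
                have h2 : S * Fs Φ a ^ b * U ≤ W := by
                  have e1 : S * Fs Φ a ^ b * U =
                      (S * Fs Φ a ^ b * Cs Φ a) * (Fs Φ a ^ e * Cs Φ a) ^ i := by
                    rw [show U = Cs Φ a * (Fs Φ a ^ e * Cs Φ a) ^ i from rfl]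
                    simp only [mul_assoc]
                  rw [e1]
                  exact (ml (Tle' b (by omega))).trans (hW.Wmul (pow_le_uni (alg_mul_alg _)
                    (mul_le_P1 (Fp_le_P1 a e) (Cs_le_P1 a)) i))
                exact h2 (Submodule.mul_mem_mul (Submodule.mul_mem_mul hv (pow_mem_Fs a k b)) hu)
              have e1 : c'' * v * a k ^ b * u = c'' * (v * a k ^ b * u) := by
                simp only [mul_assoc]
              rw [e1]
              exact hW.memL hc''P h1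
            · intro b hb b' hb'
              have h2 : U * Fs Φ a ^ b * U * Fs Φ a ^ (b' + l'') * S ≤ W := by
                have e1 : U * Fs Φ a ^ b * U * Fs Φ a ^ (b' + l'') * S =
                    (Cs Φ a * Fs Φ a ^ e) ^ i *
                      ((Cs Φ a * Fs Φ a ^ b * U) * Fs Φ a ^ (b' + l'') * S) := by
                  conv_lhs => rw [show U * Fs Φ a ^ b * U * Fs Φ a ^ (b' + l'') * S =
                    U * (Fs Φ a ^ b * U * Fs Φ a ^ (b' + l'') * S) by simp only [mul_assoc]]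
                  conv_lhs => rw [show U * (Fs Φ a ^ b * U * Fs Φ a ^ (b' + l'') * S) =
                    ((Cs Φ a * Fs Φ a ^ e) ^ i * Cs Φ a) *
                      (Fs Φ a ^ b * U * Fs Φ a ^ (b' + l'') * S) by rw [hU, ← Sg_eq']]
                  simp only [mul_assoc]
                rw [e1]
                have h3 : Cs Φ a * Fs Φ a ^ b * U ≤ Sg Φ a e (i + 1) := by
                  rw [Sg_succ']
                  exact ml (mr (Fs_pow_mono a (by omega)))
                refine (mr ((ml (ml h3)).trans (hnext' (b' + l'') (by omega)))).trans ?_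
                exact hW.mulW (pow_le_uni (alg_mul_alg _)
                  (mul_le_P1 (Cs_le_P1 a) (Fp_le_P1 a e)) i)
              have hx : a k ^ b' * c'' ∈ Fs Φ a ^ (b' + l'') := by
                rw [pow_add]; exact Submodule.mul_mem_mul (pow_mem_Fs a k b') hc''F
              have h4 := h2 (Submodule.mul_mem_mul (Submodule.mul_mem_mul (Submodule.mul_mem_mul
                (Submodule.mul_mem_mul hu (pow_mem_Fs a k b)) hu) hx) hv)
              simpa only [mul_assoc] using h4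
            · intro b hb b' hb'
              have hx : a k ^ b' * c'' ∈ Fs Φ a ^ (b' + l'') := by
                rw [pow_add]; exact Submodule.mul_mem_mul (pow_mem_Fs a k b') hc''F
              have h1 : v * (a k ^ b' * c'') * v ∈ W :=
                Ua (b' + l'') (by omega) (Submodule.mul_mem_mul (Submodule.mul_mem_mul hv hx) hv)
              have e1 : u * a k ^ b * (c'' * v) * a k ^ b' * (c'' * v) =
                (u * a k ^ b * c'') * (v * (a k ^ b' * c'') * v) := by
                simp only [mul_assoc]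
              rw [e1]
              exact hW.memL (P1_mul a (Submodule.mul_mem_mul (P1_mul a (Submodule.mul_mem_mul huP
                (hkP b))) hc''P)) h1
          · intro b hb
            have hx : a k ^ b * c'' ∈ Fs Φ a ^ L := by
              refine Fs_pow_mono a (m := b + l'') (by omega) ?_
              rw [pow_add]
              exact Submodule.mul_mem_mul (pow_mem_Fs a k b) hc''F
            have h1 : u * (a k ^ b * c'') * v ∈ W :=
              ih' (Submodule.mul_mem_mul (Submodule.mul_mem_mul hu hx) hv)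
            simpa only [mul_assoc] using h1
    exact key _ le_rfl

/-- part (c) -/
theorem sigma_c (a : ι → Q) {W : Submodule Φ Q} (hW : Cx a W) {δ n e m ℓ : ℕ}
    (hred : RedProp (alg (Es Φ a)) δ n) (hn : n ≤ δ)
    (hℓ : Fintype.card ι * n ≤ ℓ) (he : 1 + m * (δ + 2) + δ ≤ e)
    (hℓ2 : 1 + m * (δ + 2) + 4 * δ ≤ ℓ)
    (T : Cs Φ a * Fs Φ a ^ ℓ * Sg Φ a e m ≤ W) (T' : Sg Φ a e m * Fs Φ a ^ ℓ * Cs Φ a ≤ W) :
    ∀ r i, r + i = m → Sg Φ a e m * Fs Φ a ^ (ℓ + (1 + i * (δ + 2))) * Sg Φ a e i ≤ W := by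
  set S := Sg Φ a e m with hS
  have hSP1 : S ≤ P1 Φ a := Sg_le_P1 a e m
  have Ua := sigma_a a hW hred hn (by omega) hℓ T T'
  rw [← hS] at Ua
  have Tle : ∀ k ≤ ℓ, Cs Φ a * Fs Φ a ^ k * S ≤ W := fun k hk =>
    (ml (mr (Fs_pow_mono a hk))).trans T
  have Tle' : ∀ k ≤ ℓ, S * Fs Φ a ^ k * Cs Φ a ≤ W := fun k hk =>
    (ml (mr (Fs_pow_mono a hk))).trans T'
  intro r
  induction r with
  | zero =>
    intro i hi
    have : i = m := by omega
    subst this
    exact Ua _ (by omega)
  | succ r ihr =>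
    intro i hi
    have hnext := ihr (i + 1) (by omega)
    set U := Sg Φ a e i with hU
    have hUP1 : U ≤ P1 Φ a := Sg_le_P1 a e i
    have hUP : U ≤ alg (Es Φ a) := Sg_le_P a e i
    have him : i * (δ + 2) + (δ + 2) ≤ m * (δ + 2) := by
      have : (i + 1) * (δ + 2) ≤ m * (δ + 2) := Nat.mul_le_mul_right _ (by omega)
      rw [Nat.add_mul, one_mul] at this
      exact this
    have hti : (i + 1) * (δ + 2) = i * (δ + 2) + (δ + 2) := by rw [Nat.add_mul, one_mul]
    rw [hti] at hnext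
    set t := i * (δ + 2) with ht
    have hnext' : ∀ k ≤ ℓ + (1 + (t + (δ + 2))), S * Fs Φ a ^ k * Sg Φ a e (i + 1) ≤ W :=
      fun k hk => (ml (mr (Fs_pow_mono a hk))).trans hnext
    have base : ∀ k ≤ ℓ, S * Fs Φ a ^ k * U ≤ W := by
      intro k hk
      have e1 : S * Fs Φ a ^ k * U =
          (S * Fs Φ a ^ k * Cs Φ a) * (Fs Φ a ^ e * Cs Φ a) ^ i := by
        rw [show U = Cs Φ a * (Fs Φ a ^ e * Cs Φ a) ^ i from rfl]
        simp only [mul_assoc]
      rw [e1]
      exact (ml (Tle' k hk)).trans (hW.Wmul (pow_le_uni (alg_mul_alg _)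
        (mul_le_P1 (Fp_le_P1 a e) (Cs_le_P1 a)) i))
    have key : ∀ L, L ≤ ℓ + (1 + t) → S * Fs Φ a ^ L * U ≤ W := by
      intro L
      induction L with
      | zero => intro _; exact base 0 (Nat.zero_le _)
      | succ L ih =>
        intro hL
        by_cases hLℓ : L + 1 ≤ ℓ
        · exact base _ hLℓ
        push Not at hLℓ
        have ih' := ih (by omega)
        refine (ml (mr (Fs_pow_succ a L))).trans ?_
        rw [Submodule.mul_sup, Submodule.sup_mul]
        refine sup_le ih' ?_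
        apply keyL a n (L + 1 - n) 0 (L + 1) (by omega) (by omega)
        · intro p q hpq
          by_cases hq : q ≤ e
          · have e1 : S * Fs Φ a ^ p * Cs Φ a * Fs Φ a ^ q * U ≤
                S * Fs Φ a ^ p * Sg Φ a e (i + 1) := by
              rw [Sg_succ']
              have e2 : S * Fs Φ a ^ p * Cs Φ a * Fs Φ a ^ q * U =
                S * Fs Φ a ^ p * (Cs Φ a * Fs Φ a ^ q * U) := by simp only [mul_assoc]
              rw [e2]
              exact mr (ml (mr (Fs_pow_mono a hq)))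
            exact e1.trans (hnext' p (by omega))
          · have e1 : S * Fs Φ a ^ p * Cs Φ a * Fs Φ a ^ q * U =
              (S * Fs Φ a ^ p * Cs Φ a) * (Fs Φ a ^ q * U) := by simp only [mul_assoc]
            rw [e1]
            exact (ml (Tle' p (by omega))).trans (hW.Wmul (mul_le_P1 (Fp_le_P1 a q) hUP1))
        · intro k u hu c' hc' c'' hc'' v0 hv0
          obtain ⟨v, hv, hv'⟩ : ∃ v ∈ U, c'' * v0 = v := by
            refine ⟨_, ?_, rfl⟩
            have := Submodule.mul_mem_mul hc'' hv0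
            rwa [pow_zero, one_mul] at this
          rw [hv']
          set l' := L + 1 - n with hl'
          have huP : u ∈ P1 Φ a := hSP1 hu
          have hvP : v ∈ P1 Φ a := hUP1 hv
          have hc'P : c' ∈ P1 Φ a := Ep_le_P1 a _ hc'
          have hkP : ∀ b, a k ^ b ∈ P1 Φ a := fun b => Fp_le_P1 a b (pow_mem_Fs a k b)
          have hc'F : c' ∈ Fs Φ a ^ l' := pm (Es_le_Fs a) _ hc'
          have hζ : v ∈ alg (Es Φ a) := hUP hv
          have hξ : u * c' ∈ alg (Es Φ a) :=
            P_mul_P1 a (Submodule.mul_mem_mul (Sg_le_P a e m hu) hc'P)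
          have hkA : a k ∈ alg (Es Φ a) := le_alg _ (Submodule.subset_span ⟨k, rfl⟩)
          have hξ1 : u * c' ∈ P1 Φ a := le_uni _ hξ
          have hk1 : a k ∈ P1 Φ a := le_uni _ hkA
          refine hred W _ _ _ hξ hkA hζ ?_ ?_
          · refine ⟨fun w hw => hW.memL hξ1 hw, fun w hw => hW.memL hk1 hw,
              fun w hw => hW.memL hvP hw,
              fun w hw => hW.memR hξ1 hw, fun w hw => hW.memR hk1 hw, fun w hw => hW.memR hvP hw,
              ?_, ?_, ?_⟩
            · intro b hb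
              have h1 : v * a k ^ b * u ∈ W := by
                have h2 : U * Fs Φ a ^ b * S ≤ W := by
                  have e1 : U * Fs Φ a ^ b * S =
                      (Cs Φ a * Fs Φ a ^ e) ^ i * (Cs Φ a * Fs Φ a ^ b * S) := by
                    rw [show U = (Cs Φ a * Fs Φ a ^ e) ^ i * Cs Φ a from Sg_eq' a e i]
                    simp only [mul_assoc]
                  rw [e1]
                  exact (mr (Tle b (by omega))).trans (hW.mulW (pow_le_uni (alg_mul_alg _)
                    (mul_le_P1 (Cs_le_P1 a) (Fp_le_P1 a e)) i))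
                exact h2 (Submodule.mul_mem_mul (Submodule.mul_mem_mul hv (pow_mem_Fs a k b)) hu)
              have e1 : v * a k ^ b * (u * c') = (v * a k ^ b * u) * c' := by
                simp only [mul_assoc]
              rw [e1]
              exact hW.memR hc'P h1
            · intro b hb b' hb'
              have hx : c' * a k ^ b ∈ Fs Φ a ^ (l' + b) := by
                rw [pow_add]; exact Submodule.mul_mem_mul hc'F (pow_mem_Fs a k b)
              have h1 : u * (c' * a k ^ b) * u ∈ W :=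
                Ua (l' + b) (by omega) (Submodule.mul_mem_mul (Submodule.mul_mem_mul hu hx) hu)
              have e1 : u * c' * a k ^ b * (u * c') * a k ^ b' * v =
                (u * (c' * a k ^ b) * u) * (c' * a k ^ b' * v) := by
                simp only [mul_assoc]
              rw [e1]
              exact hW.memR (P1_mul a (Submodule.mul_mem_mul (P1_mul a (Submodule.mul_mem_mul hc'P
                (hkP b'))) hvP)) h1
            · intro b hb b' hb'
              have h2 : S * Fs Φ a ^ (l' + b) * U * Fs Φ a ^ b' * U ≤ W := by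
                have e1 : S * Fs Φ a ^ (l' + b) * U * Fs Φ a ^ b' * U =
                    (S * Fs Φ a ^ (l' + b) * (U * Fs Φ a ^ b' * Cs Φ a)) *
                      (Fs Φ a ^ e * Cs Φ a) ^ i := by
                  conv_lhs => rw [show S * Fs Φ a ^ (l' + b) * U * Fs Φ a ^ b' * U =
                    S * Fs Φ a ^ (l' + b) * U * Fs Φ a ^ b' *
                      (Cs Φ a * (Fs Φ a ^ e * Cs Φ a) ^ i) from rfl]
                  simp only [mul_assoc]
                rw [e1]
                have h3 : U * Fs Φ a ^ b' * Cs Φ a ≤ Sg Φ a e (i + 1) := by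
                  rw [Sg_succ, ← mul_assoc]
                  exact ml (mr (Fs_pow_mono a (by omega)))
                refine (ml ((mr h3).trans (hnext' (l' + b) (by omega)))).trans ?_
                exact hW.Wmul (pow_le_uni (alg_mul_alg _)
                  (mul_le_P1 (Fp_le_P1 a e) (Cs_le_P1 a)) i)
              have hx : c' * a k ^ b ∈ Fs Φ a ^ (l' + b) := by
                rw [pow_add]; exact Submodule.mul_mem_mul hc'F (pow_mem_Fs a k b)
              have h4 := h2 (Submodule.mul_mem_mul (Submodule.mul_mem_mul (Submodule.mul_mem_mul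
                (Submodule.mul_mem_mul hu hx) hv) (pow_mem_Fs a k b')) hv)
              simpa only [mul_assoc] using h4
          · intro b hb
            have hx : c' * a k ^ b ∈ Fs Φ a ^ L := by
              refine Fs_pow_mono a (m := l' + b) (by omega) ?_
              rw [pow_add]
              exact Submodule.mul_mem_mul hc'F (pow_mem_Fs a k b)
            have h1 : u * (c' * a k ^ b) * v ∈ W :=
              ih' (Submodule.mul_mem_mul (Submodule.mul_mem_mul hu hx) hv)
            simpa only [mul_assoc] using h1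
    exact key _ le_rfl

end Pool.Agent.H38R2
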