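import Pool.Agent.H38R2.Sigma

set_option autoImplicit false
set_option linter.style.haveILetI false

namespace Pool.Agent.H38R2

variable {Φ : Type*} [CommRing Φ] {Q : Type*} [Ring Q] [Algebra Φ Q]
variable {ι : Type*}

/-- the ideal generated by the commutators of the generators -/
def Dg (Φ : Type*) [CommRing Φ] {Q : Type*} [Ring Q] [Algebra Φ Q] {ι : Type*} (a : ι → Q) :
    Submodule Φ Q := P1 Φ a * Cs Φ a * P1 Φ a

theorem P1_idem (a : ι → Q) : P1 Φ a * P1 Φ a = P1 Φ a := by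
  apply le_antisymm (P1_mul a)
  calc P1 Φ a = 1 * P1 Φ a := by rw [one_mul]
    _ ≤ P1 Φ a * P1 Φ a := ml (one_le_uni _)

theorem Cs_le_Dg (a : ι → Q) : Cs Φ a ≤ Dg Φ a := by
  calc Cs Φ a = 1 * Cs Φ a * 1 := by rw [one_mul, mul_one]
    _ ≤ Dg Φ a := mm (ml (one_le_uni _)) (one_le_uni _)

theorem P1_le_iSup (a : ι → Q) : P1 Φ a ≤ ⨆ n : ℕ, Fs Φ a ^ n := by
  refine sup_le ?_ ?_
  · calc (1 : Submodule Φ Q) = Fs Φ a ^ 0 := (pow_zero _).symm
      _ ≤ _ := le_iSup (fun n : ℕ => Fs Φ a ^ n) 0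
  · refine iSup_le fun n => ?_
    exact (pm (Es_le_Fs a) (n + 1)).trans (le_iSup (fun n : ℕ => Fs Φ a ^ n) (n + 1))

variable [Fintype ι] [DecidableEq ι]

theorem sigma_step (a : ι → Q) {W : Submodule Φ Q} (hW : Cx a W) {δ n e m ℓ : ℕ}
    (hred : RedProp (alg (Es Φ a)) δ n) (hn : n ≤ δ)
    (hℓ : Fintype.card ι * n ≤ ℓ) (he : 1 + m * (δ + 2) + δ ≤ e)
    (hℓ2 : 1 + m * (δ + 2) + 4 * δ ≤ ℓ)
    (T : Cs Φ a * Fs Φ a ^ ℓ * Sg Φ a e m ≤ W) (T' : Sg Φ a e m * Fs Φ a ^ ℓ * Cs Φ a ≤ W) :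
    Cs Φ a * Fs Φ a ^ (ℓ + 1) * Sg Φ a e m ≤ W ∧ Sg Φ a e m * Fs Φ a ^ (ℓ + 1) * Cs Φ a ≤ W := by
  have h1 := sigma_b a hW hred hn hℓ he hℓ2 T T' m 0 (by omega)
  have h2 := sigma_c a hW hred hn hℓ he hℓ2 T T' m 0 (by omega)
  rw [Sg_zero, zero_mul, add_zero] at h1 h2
  exact ⟨h1, h2⟩

theorem sigma (N δ n : ℕ) (hn : n ≤ δ) (m : ℕ) : ∃ d : ℕ,
    ∀ {Φ : Type*} [CommRing Φ] {Q : Type*} [Ring Q] [Algebra Φ Q] (a : Fin N → Q),
    RedProp (alg (Es Φ a)) δ n → ∀ W : Submodule Φ Q, Cx a W → Sg Φ a d m ≤ W →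
      Dg Φ a ^ (m + 1) ≤ W := by
  induction m with
  | zero =>
    refine ⟨0, fun a _ W hW h => ?_⟩
    rw [Sg_zero] at h
    rw [zero_add, pow_one]
    exact hW.sand le_rfl le_rfl h
  | succ m ih =>
    obtain ⟨d, hd⟩ := ih
    refine ⟨max (max d (1 + m * (δ + 2) + δ)) (max (N * n) (1 + m * (δ + 2) + 4 * δ)), ?_⟩
    intro Φ _ Q _ _ a hred W hW h
    set e := max d (1 + m * (δ + 2) + δ) with he
    set ℓ0 := max e (max (N * n) (1 + m * (δ + 2) + 4 * δ)) with hℓ0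
    have hde : d ≤ e := le_max_left _ _
    have he2 : 1 + m * (δ + 2) + δ ≤ e := le_max_right _ _
    have heℓ : e ≤ ℓ0 := le_max_left _ _
    have hℓ1 : N * n ≤ ℓ0 := (le_max_left _ _).trans (le_max_right _ _)
    have hℓ2 : 1 + m * (δ + 2) + 4 * δ ≤ ℓ0 := (le_max_right _ _).trans (le_max_right _ _)
    -- T for all lengths
    have key : ∀ k : ℕ, Cs Φ a * Fs Φ a ^ (ℓ0 + k) * Sg Φ a e m ≤ W ∧
        Sg Φ a e m * Fs Φ a ^ (ℓ0 + k) * Cs Φ a ≤ W := by
      intro k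
      induction k with
      | zero =>
        rw [add_zero]
        constructor
        · refine le_trans ?_ h
          rw [Sg_succ']
          exact mr (Sg_mono a heℓ m)
        · refine le_trans ?_ h
          rw [Sg_succ, mul_assoc]
          exact ml (Sg_mono a heℓ m)
      | succ k ihk =>
        rw [← add_assoc]
        exact sigma_step a hW hred hn (by rw [Fintype.card_fin]; omega) he2 (by omega)
          ihk.1 ihk.2
    have hall : Cs Φ a * P1 Φ a * Sg Φ a e m ≤ W := by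
      refine (ml (mr (P1_le_iSup a))).trans ?_
      rw [Submodule.mul_iSup, Submodule.iSup_mul]
      refine iSup_le fun k => ?_
      exact (ml (mr (Fs_pow_mono a (by omega : k ≤ ℓ0 + k)))).trans (key k).1
    set W2 := P1 Φ a * Sg Φ a e m * P1 Φ a with hW2
    have hW2c : Cx a W2 := by
      constructor
      · rw [hW2]
        calc Es Φ a * (P1 Φ a * Sg Φ a e m * P1 Φ a) = Es Φ a * P1 Φ a * Sg Φ a e m * P1 Φ a := by
              simp only [mul_assoc]
          _ ≤ P1 Φ a * Sg Φ a e m * P1 Φ a := ml (ml (mul_le_P1 (Es_le_P1 a) le_rfl))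
      · rw [hW2]
        calc P1 Φ a * Sg Φ a e m * P1 Φ a * Es Φ a = P1 Φ a * Sg Φ a e m * (P1 Φ a * Es Φ a) := by
              simp only [mul_assoc]
          _ ≤ P1 Φ a * Sg Φ a e m * P1 Φ a := mr (mul_le_P1 le_rfl (Es_le_P1 a))
    have hD := hd a hred W2 hW2c (by
      refine (Sg_mono a hde m).trans ?_
      calc Sg Φ a e m = 1 * Sg Φ a e m * 1 := by rw [one_mul, mul_one]
        _ ≤ W2 := mm (ml (one_le_uni _)) (one_le_uni _))
    rw [pow_succ']
    refine (mr hD).trans ?_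
    calc Dg Φ a * W2 = P1 Φ a * (Cs Φ a * (P1 Φ a * P1 Φ a) * Sg Φ a e m) * P1 Φ a := by
          rw [Dg, hW2]; simp only [mul_assoc]
      _ = P1 Φ a * (Cs Φ a * P1 Φ a * Sg Φ a e m) * P1 Φ a := by rw [P1_idem]
      _ ≤ W := hW.sand le_rfl le_rfl hall

/-- span of all commutators -/
def Cm (P : Submodule Φ Q) : Submodule Φ Q :=
  Submodule.span Φ {x | ∃ p ∈ P, ∃ q ∈ P, x = p * q - q * p}

/-- commutator ideal of `P` -/
def DD (P : Submodule Φ Q) : Submodule Φ Q := uni P * Cm P * uni P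

omit [Fintype ι] [DecidableEq ι] in
theorem Dg_mul_P1 (a : ι → Q) : Dg Φ a * P1 Φ a ≤ Dg Φ a := by
  rw [Dg, mul_assoc, P1_idem]

omit [Fintype ι] [DecidableEq ι] in
theorem P1_mul_Dg (a : ι → Q) : P1 Φ a * Dg Φ a ≤ Dg Φ a := by
  rw [Dg, ← mul_assoc, ← mul_assoc, P1_idem]

omit [Fintype ι] [DecidableEq ι] in
theorem DD_le_Dg (a : ι → Q) : DD (alg (Es Φ a)) ≤ Dg Φ a := by
  have key : ∀ (x : Q), (∀ i, a i * x - x * a i ∈ Dg Φ a) → x ∈ P1 Φ a →
      ∀ p ∈ alg (Es Φ a), p * x - x * p ∈ Dg Φ a := by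
    intro x hx hxP
    let S : Submodule Φ Q :=
      { carrier := {p | p * x - x * p ∈ Dg Φ a}
        add_mem' := by
          intro p q hp hq
          have e : (p + q) * x - x * (p + q) = (p * x - x * p) + (q * x - x * q) := by
            rw [add_mul, mul_add]; abel
          show (p + q) * x - x * (p + q) ∈ Dg Φ a
          rw [e]; exact Submodule.add_mem _ hp hq
        zero_mem' := by
          show (0 : Q) * x - x * 0 ∈ Dg Φ a
          rw [zero_mul, mul_zero, sub_zero]; exact Submodule.zero_mem _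
        smul_mem' := by
          intro c p hp
          show (c • p) * x - x * (c • p) ∈ Dg Φ a
          rw [smul_mul_assoc, mul_smul_comm, ← smul_sub]
          exact Submodule.smul_mem _ _ hp }
    have hE : Es Φ a ≤ S := by
      unfold Es
      rw [Submodule.span_le]
      rintro _ ⟨i, rfl⟩
      exact hx i
    have hmem : ∀ p ∈ P1 Φ a, ∀ d ∈ Dg Φ a, p * d ∈ Dg Φ a := fun p hp d hd =>
      P1_mul_Dg a (Submodule.mul_mem_mul hp hd)
    have hmem' : ∀ p ∈ P1 Φ a, ∀ d ∈ Dg Φ a, d * p ∈ Dg Φ a := fun p hp d hd =>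
      Dg_mul_P1 a (Submodule.mul_mem_mul hd hp)
    -- S ∩ P is closed under multiplication by E
    have h2 : alg (Es Φ a) ≤ S ⊓ alg (Es Φ a) := by
      apply alg_le (le_inf hE (le_alg _))
      rw [Submodule.mul_le]
      intro u hu p hp
      refine ⟨?_, mul_alg_le _ (Submodule.mul_mem_mul hu hp.2)⟩
      show u * p * x - x * (u * p) ∈ Dg Φ a
      have e : u * p * x - x * (u * p) = u * (p * x - x * p) + (u * x - x * u) * p := by
        noncomm_ring
      rw [e]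
      exact Submodule.add_mem _ (hmem u (Es_le_P1 a hu) _ hp.1)
        (hmem' p (le_uni _ hp.2) _ (hE hu))
    exact fun p hp => (h2 hp).1
  have hC : Cm (alg (Es Φ a)) ≤ Dg Φ a := by
    unfold Cm
    rw [Submodule.span_le]
    rintro _ ⟨p, hp, q, hq, rfl⟩
    apply key q ?_ (le_uni _ hq) p hp
    intro i
    have h1 := key (a i) (fun j => ?_) (Es_le_P1 a (Submodule.subset_span ⟨i, rfl⟩)) q hq
    · have e : a i * q - q * a i = -(q * a i - a i * q) := by abel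
      rw [e]; exact Submodule.neg_mem _ h1
    · exact Cs_le_Dg a (Submodule.subset_span ⟨j, i, rfl⟩)
  unfold DD
  refine (ml (mr hC)).trans ?_
  exact (ml (P1_mul_Dg a)).trans (Dg_mul_P1 a)

end Pool.Agent.H38R2
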