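import Pool.Agent.H38R2.SepRep
import Pool.Agent.H38R2.App

set_option autoImplicit false
set_option linter.style.haveILetI false

namespace Pool.Agent.H38R2

open Polynomial

universe u w

section AB
variable {K : Type*} [Field K]

/-- coordinates of a word in `x = e01`, `y = v e11`, `z = s e10` applied to `e0`. -/
noncomputable def AB (v : K) : List (Fin 3) → K[X] × K[X]
  | [] => (1, 0)
  | l :: w => if l = 0 then ((AB v w).2, 0) else
      if l = 1 then (0, C v * (AB v w).2) else (0, X * (AB v w).1)

theorem AB_nil (v : K) : AB v [] = (1, 0) := rfl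
theorem AB_x (v : K) (w : List (Fin 3)) : AB v (0 :: w) = ((AB v w).2, 0) := rfl
theorem AB_y (v : K) (w : List (Fin 3)) : AB v (1 :: w) = (0, C v * (AB v w).2) := rfl
theorem AB_z (v : K) (w : List (Fin 3)) : AB v (2 :: w) = (0, X * (AB v w).1) := rfl

theorem AB_deg (v : K) (w : List (Fin 3)) :
    (AB v w).1.natDegree ≤ w.length ∧ (AB v w).2.natDegree ≤ w.length := by
  induction w with
  | nil => simp [AB_nil]
  | cons l w ih =>
    rw [List.length_cons]
    rcases fin3_cases l with rfl | rfl | rfl
    · rw [AB_x]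
      exact ⟨by simp only; omega, by simp⟩
    · rw [AB_y]
      refine ⟨by simp, ?_⟩
      simp only
      have := natDegree_C_mul_le v (AB v w).2
      omega
    · rw [AB_z]
      refine ⟨by simp, ?_⟩
      simp only
      have := natDegree_mul_le (p := (X : K[X])) (q := (AB v w).1)
      rw [natDegree_X] at this
      omega

variable {Φ : Type*} [CommRing Φ]

theorem g0_mul (G G' : MvPolynomial (Fin 3) Φ) : g0 (G * G') = g0 G * g0 G' := by
  simp [g0, Polynomial.map_mul]

theorem g0_zero : g0 (0 : MvPolynomial (Fin 3) Φ) = 0 := by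
  simp [g0]

theorem g0_one : g0 (1 : MvPolynomial (Fin 3) Φ) = 1 := by
  simp [g0]

theorem g0_X0 : g0 (MvPolynomial.X 0 : MvPolynomial (Fin 3) Φ) = X := by
  have := g0_monomial (Φ := Φ) (Finsupp.single 0 1) 1
  simpa [MvPolynomial.X] using this

theorem g0_X1 : g0 (MvPolynomial.X 1 : MvPolynomial (Fin 3) Φ) = 0 := by
  have := g0_monomial (Φ := Φ) (Finsupp.single 1 1) 1
  simpa [MvPolynomial.X] using this

theorem g0_X2 : g0 (MvPolynomial.X 2 : MvPolynomial (Fin 3) Φ) = 0 := by
  have := g0_monomial (Φ := Φ) (Finsupp.single 2 1) 1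
  simpa [MvPolynomial.X] using this

theorem g0_smul (c : Φ) (G : MvPolynomial (Fin 3) Φ) : g0 (c • G) = C c * g0 G := by
  rw [MvPolynomial.smul_eq_C_mul, g0_mul]
  congr 1
  have := g0_monomial (Φ := Φ) 0 c
  simpa using this

theorem AB_coeff (ψ : Φ →+* K) (v : K) (w : List (Fin 3)) :
    (AB v w).1.coeff 1 = (g0 (MW Φ w 0 2)).eval₂ ψ v ∧
    (AB v w).2.coeff 1 = (g0 (MW Φ w 1 2)).eval₂ ψ v ∧
    (AB v w).1.coeff 0 = (g0 (MW Φ w 2 2)).eval₂ ψ v ∧
    (AB v w).2.coeff 0 = 0 := by
  induction w with
  | nil => simp [AB_nil, MW_nil, g0_zero, g0_one, coeff_one]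
  | cons l w ih =>
    obtain ⟨h1, h2, h3, h4⟩ := ih
    rcases fin3_cases l with rfl | rfl | rfl
    · rw [AB_x, MW_x0, MW_x1, MW_x2, g0_zero]
      simp [h2, h4]
    · rw [AB_y, MW_y0, MW_y1, MW_y2]
      simp only [g0_mul, g0_X0, g0_X1, g0_X2, zero_mul, eval₂_zero, coeff_zero, coeff_C_mul,
        eval₂_mul, eval₂_X, h2, h4, mul_zero, and_self]
    · rw [AB_z, MW_z0, MW_z1, MW_z2, g0_zero]
      simp [h3]

end AB

section small
variable {Φ : Type w} [CommRing Φ] {Q : Type u} [Ring Q] [Algebra Φ Q]

theorem exists_field (W : Type u) [AddCommGroup W] [Module Q W] [Finite W] [IsSimpleModule Q W] :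
    ∃ (K : Type u) (_ : Field K) (_ : Module K W) (_ : Finite K) (ψ : Φ →+* K),
      (∀ (k : K) (q : Q) (w : W), q • (k • w) = k • (q • w)) ∧
      (∀ E : Module.End Q W, ∃ k : K, ∀ w, E w = k • w) ∧
      (∀ (φ : Φ) (w : W), (algebraMap Φ Q φ) • w = ψ φ • w) := by
  classical
  haveI : Finite (Module.End Q W) := Finite.of_injective (fun f : Module.End Q W => (f : W → W))
    DFunLike.coe_injective
  have hmc : ∀ a b : Module.End Q W, a * b = b * a := by
    letI := littleWedderburn (Module.End Q W)
    exact fun a b => mul_comm a b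
  letI : Field (Module.End Q W) :=
    { (inferInstance : DivisionRing (Module.End Q W)) with mul_comm := hmc }
  letI hM : Module (Module.End Q W) W := Module.End.applyModule
  refine ⟨Module.End Q W, inferInstance, hM, inferInstance, ?_, ?_, ?_, ?_⟩
  · exact
      { toFun := fun φ =>
          { toFun := fun w => (algebraMap Φ Q φ) • w
            map_add' := fun a b => smul_add _ a b
            map_smul' := fun q w => by
              simp only [RingHom.id_apply]
              rw [← mul_smul, ← mul_smul, Algebra.commutes] }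
        map_one' := by ext w; simp
        map_mul' := fun a b => by
          ext w
          change (algebraMap Φ Q (a * b)) • w = (algebraMap Φ Q a) • ((algebraMap Φ Q b) • w)
          rw [map_mul, mul_smul]
        map_zero' := by ext w; simp
        map_add' := fun a b => by
          ext w
          change (algebraMap Φ Q (a + b)) • w = (algebraMap Φ Q a) • w + (algebraMap Φ Q b) • w
          rw [map_add, add_smul] }
  · intro k q w
    exact (k.map_smul q w).symm
  · intro E
    exact ⟨E, fun w => rfl⟩
  · intro φ w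
    rfl

theorem small_simple {A : Submodule Φ Q} (hAl : ∀ q : Q, ∀ a ∈ A, q * a ∈ A)
    (hcomm : ∀ r s : Q, r * s - s * r ∈ A)
    (d : ℕ) (c : Equiv.Perm (Fin d) → Q) (hc : c 1 = 1) (hPI : PIc d c (A : Set Q))
    (R : NP Φ (Fin 3)) (hR : ∀ v : Fin 3 → Q, (∀ i, v i ∈ A) → ev v R = 0)
    (hG : (g0 (Psi R)).Monic) (δ : ℕ) (hδ : ∀ w ∈ R.coeff.support, w.toList.length ≤ δ)
    (W : Type u) [AddCommGroup W] [Module Q W] [Finite W] [IsSimpleModule Q W]
    (hnc : ∃ (r s : Q) (w : W), (r * s - s * r) • w ≠ 0) :
    Nat.card W ≤ (max δ (g0 (Psi R)).natDegree) ^ d := by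
  classical
  have hnW : Nontrivial W := IsSimpleModule.nontrivial Q W
  obtain ⟨K, _, _, _, ψ, hKQ, hcent, hψ⟩ := exists_field (Φ := Φ) (Q := Q) W
  haveI := Fintype.ofFinite K
  haveI := Fintype.ofFinite W
  let g : Q →+* Module.End K W :=
    { toFun := fun q =>
        { toFun := fun w => q • w
          map_add' := fun a b => smul_add _ a b
          map_smul' := fun k w => hKQ k q w }
      map_one' := by ext w; simp
      map_mul' := fun a b => by ext w; exact mul_smul a b w
      map_zero' := by ext w; simp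
      map_add' := fun a b => by ext w; exact add_smul a b w }
  have hg : ∀ q w, g q w = q • w := fun q w => rfl
  have hdens : ∀ F : Module.End K W, ∃ q : Q, ∀ w, q • w = F w := by
    intro F
    let F' : Module.End (Module.End Q W) W :=
      { toFun := F
        map_add' := F.map_add
        map_smul' := fun E v => by
          obtain ⟨k, hk⟩ := hcent E
          simp only [Module.End.smul_def, RingHom.id_apply]
          rw [hk, hk, F.map_smul] }
    obtain ⟨a, ha⟩ := jacobson_density (R := Q) F' Finset.univ
    exact ⟨a, fun w => (ha w (Finset.mem_univ w)).symm⟩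
  -- scalars of the identity
  have hscal : ∀ σ, ∃ k : K, g (c σ) = algebraMap K (Module.End K W) k := by
    intro σ
    obtain ⟨k, hk⟩ := hcent
      { toFun := fun w => c σ • w
        map_add' := fun a b => smul_add _ a b
        map_smul' := fun q w => by
          simp only [RingHom.id_apply]
          rw [← mul_smul, ← mul_smul, hPI.1] }
    refine ⟨k, ?_⟩
    ext w
    rw [Module.algebraMap_end_apply]
    exact hk w
  choose κ hκ using hscal
  have hκ1 : κ 1 = 1 := by
    have h1 := hκ 1
    rw [hc, map_one] at h1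
    have h2 : algebraMap K (Module.End K W) 1 = algebraMap K (Module.End K W) (κ 1) := by
      rw [map_one]; exact h1
    exact ((algebraMap K (Module.End K W)).injective h2).symm
  have hspan := span_identity g d c (A : Set Q) hPI κ hκ
  have hdim := dim_bound d κ hκ1 (Submodule.span K (g '' A)) hspan (Set.range g)
    (by
      rintro _ ⟨r, rfl⟩ _ ⟨s, rfl⟩
      rw [← map_mul, ← map_mul, ← map_sub]
      exact Submodule.subset_span ⟨_, hcomm r s, rfl⟩)
    (by
      intro F s
      obtain ⟨q, hq⟩ := hdens F
      exact ⟨g q, ⟨q, rfl⟩, fun m _ => hq m⟩)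
  have hrank : Module.finrank K W ≤ d := by
    by_contra hcon
    push Not at hcon
    apply hdim
    obtain ⟨f, hf⟩ := exists_linearIndependent_of_le_finrank (R := K) (M := W)
      (n := d + 1) hcon
    exact ⟨f, hf⟩
  have hcard : Nat.card W = Nat.card K ^ Module.finrank K W := Module.natCard_eq_pow_finrank
  have hKpos : 0 < Nat.card K := Nat.card_pos
  -- the bound on `K`
  suffices hK : Nat.card K ≤ max δ (g0 (Psi R)).natDegree by
    rw [hcard]
    exact (Nat.pow_le_pow_right hKpos hrank).trans (Nat.pow_le_pow_left hK d)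
  -- dimension at least two
  let b := Module.finBasis K W
  have h2 : 2 ≤ Module.finrank K W := by
    by_contra hcon
    push Not at hcon
    have h1 : Module.finrank K W ≤ 1 := by omega
    obtain ⟨e, he⟩ := finrank_le_one_iff.1 h1
    obtain ⟨r, s, w, hw⟩ := hnc
    apply hw
    obtain ⟨k1, hk1⟩ := he (r • e)
    obtain ⟨k2, hk2⟩ := he (s • e)
    obtain ⟨k3, hk3⟩ := he w
    have e1 : r • s • w = (k1 * k2 * k3) • e := by
      rw [← hk3, hKQ, ← hk2, hKQ, hKQ, ← hk1, smul_smul, smul_smul]
      congr 1; ring
    have e2 : s • r • w = (k1 * k2 * k3) • e := by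
      rw [← hk3, hKQ, ← hk1, hKQ, hKQ, ← hk2, smul_smul, smul_smul]
      congr 1; ring
    rw [sub_smul, mul_smul, mul_smul, e1, e2, sub_self]
  let i0 : Fin (Module.finrank K W) := ⟨0, by omega⟩
  let i1 : Fin (Module.finrank K W) := ⟨1, by omega⟩
  have hi : i0 ≠ i1 := by
    intro h
    have := congrArg Fin.val h
    simp [i0, i1] at this
  have hE : ∀ (i j : Fin (Module.finrank K W)) (t : K), ∃ q : Q,
      ∀ l, q • b l = if l = j then t • b i else 0 := by
    intro i j t
    obtain ⟨q, hq⟩ := hdens (b.constr K fun l => if l = j then t • b i else 0)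
    exact ⟨q, fun l => by rw [hq, Module.Basis.constr_basis]⟩
  obtain ⟨p, hp⟩ := hE i0 i0 1
  obtain ⟨q, hq⟩ := hE i0 i1 1
  simp only [one_smul] at hp hq
  have hx : ∃ a ∈ A, ∀ l, a • b l = if l = i1 then b i0 else 0 := by
    refine ⟨p * q - q * p, hcomm p q, fun l => ?_⟩
    rw [sub_smul, mul_smul, mul_smul, hq, hp]
    by_cases hl : l = i1
    · rw [if_pos hl, hp, if_pos rfl,
        if_neg (by rw [hl]; exact hi.symm), smul_zero, sub_zero]
    · rw [if_neg hl, smul_zero]
      by_cases hl' : l = i0
      · rw [if_pos hl', hq, if_neg hi, sub_zero]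
      · rw [if_neg hl', smul_zero, sub_zero]
  obtain ⟨ax, hax, haxb⟩ := hx
  have hz : ∀ s : K, ∃ a ∈ A, ∀ l, a • b l = if l = i0 then s • b i1 else 0 := by
    intro s
    obtain ⟨r, hr⟩ := hE i1 i0 s
    refine ⟨r * p - p * r, hcomm r p, fun l => ?_⟩
    rw [sub_smul, mul_smul, mul_smul, hr, hp]
    by_cases hl : l = i0
    · rw [if_pos hl, if_pos hl, hr, if_pos rfl, hKQ, hp, if_neg hi.symm,
        smul_zero, sub_zero]
    · rw [if_neg hl, if_neg hl, smul_zero, smul_zero, sub_zero]
  have hy : ∀ v : K, ∃ a ∈ A, ∀ l, a • b l = if l = i1 then v • b i1 else 0 := by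
    intro v
    obtain ⟨r, hr⟩ := hE i1 i0 v
    refine ⟨r * ax, hAl r ax hax, fun l => ?_⟩
    rw [mul_smul, haxb]
    by_cases hl : l = i1
    · rw [if_pos hl, if_pos hl, hr, if_pos rfl]
    · rw [if_neg hl, if_neg hl, smul_zero]
  have hHdef : ∃ H : K → K[X], (∀ v, (H v).natDegree ≤ δ) ∧ (∀ v s, (H v).eval s = 0) ∧
      ∀ v, (H v).coeff 1 = (g0 (Psi R)).eval₂ ψ v := by
    refine ⟨fun v => ∑ w ∈ R.coeff.support, C (ψ (R.coeff w)) * (AB v w.toList).1, ?_, ?_, ?_⟩
    · intro v
      refine natDegree_sum_le_of_forall_le _ _ fun w hw => ?_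
      exact (natDegree_C_mul_le _ _).trans (((AB_deg v w.toList).1).trans (hδ w hw))
    · intro v s
      obtain ⟨ay, hay, hayb⟩ := hy v
      obtain ⟨az, haz, hazb⟩ := hz s
      have hword : ∀ w : List (Fin 3), (w.map ![ax, ay, az]).prod • b i0 =
          (AB v w).1.eval s • b i0 + (AB v w).2.eval s • b i1 := by
        intro w
        induction w with
        | nil => simp [AB_nil]
        | cons l w ih =>
          rw [List.map_cons, List.prod_cons, mul_smul, ih, smul_add, hKQ, hKQ]
          rcases fin3_cases l with rfl | rfl | rfl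
          · rw [AB_x]
            simp only [Matrix.cons_val_zero]
            rw [haxb, haxb, if_neg hi, if_pos rfl]
            simp
          · rw [AB_y]
            have e : (![ax, ay, az] : Fin 3 → Q) 1 = ay := rfl
            rw [e, hayb, hayb, if_neg hi, if_pos rfl]
            simp [mul_smul, smul_comm v]
          · rw [AB_z]
            simp only [Matrix.cons_val]
            rw [hazb, hazb, if_neg hi.symm, if_pos rfl]
            simp [mul_smul, smul_comm s]
      have h0 := hR ![ax, ay, az] (by
        intro i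
        fin_cases i
        · exact hax
        · exact hay
        · exact haz)
      have h1 := congrArg (fun q : Q => q • b i0) h0
      simp only [zero_smul] at h1
      rw [ev_apply, Finsupp.sum, Finset.sum_smul] at h1
      have h3 : ∀ w ∈ R.coeff.support, (R.coeff w • (w.toList.map ![ax, ay, az]).prod) • b i0 =
          ψ (R.coeff w) • ((AB v w.toList).1.eval s • b i0 + (AB v w.toList).2.eval s • b i1) := by
        intro w _
        rw [Algebra.smul_def, mul_smul, hword, hψ]
      rw [Finset.sum_congr rfl h3] at h1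
      have h4 := congrArg (fun x => b.repr x i0) h1
      simp only [map_sum, map_smul, map_add, Module.Basis.repr_self, Finsupp.coe_finsetSum,
        Finset.sum_apply, Finsupp.smul_apply, Finsupp.add_apply, Finsupp.single_eq_same,
        map_zero, Finsupp.coe_zero, Pi.zero_apply, smul_eq_mul, mul_one] at h4
      rw [eval_finsetSum, ← h4]
      refine Finset.sum_congr rfl fun w _ => ?_
      rw [eval_mul, eval_C, Finsupp.single_eq_of_ne hi, mul_zero, add_zero]
    · intro v
      have hPsi : g0 (Psi R) = ∑ w ∈ R.coeff.support, C (R.coeff w) * g0 (MW Φ w.toList 0 2) := by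
        unfold Psi
        rw [ev_apply, Finsupp.sum, Matrix.sum_apply, g0, map_sum, Polynomial.map_sum]
        refine Finset.sum_congr rfl fun w _ => ?_
        rw [Matrix.smul_apply]
        exact g0_smul _ _
      rw [finsetSum_coeff, hPsi, eval₂_finsetSum]
      refine Finset.sum_congr rfl fun w _ => ?_
      rw [coeff_C_mul, (AB_coeff ψ v w.toList).1, eval₂_mul, eval₂_C]
  obtain ⟨H, hH1, hH2, hH3⟩ := hHdef
  by_cases hcase : ∃ v : K, (g0 (Psi R)).eval₂ ψ v ≠ 0
  · obtain ⟨v, hv⟩ := hcase
    refine le_trans ?_ (le_max_left _ _)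
    have hne : H v ≠ 0 := by
      intro h
      apply hv
      rw [← hH3, h, coeff_zero]
    by_contra hcon
    push Not at hcon
    apply hne
    apply Polynomial.eq_zero_of_natDegree_lt_card_of_eval_eq_zero (H v)
      (f := fun s : K => s) Function.injective_id
    · exact hH2 v
    · rw [← Nat.card_eq_fintype_card]
      exact (hH1 v).trans_lt hcon
  · push Not at hcase
    refine le_trans ?_ (le_max_right _ _)
    by_contra hcon
    push Not at hcon
    have hne : (g0 (Psi R)).map ψ ≠ 0 := (hG.map ψ).ne_zero
    apply hne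
    apply Polynomial.eq_zero_of_natDegree_lt_card_of_eval_eq_zero ((g0 (Psi R)).map ψ)
      (f := fun s : K => s) Function.injective_id
    · intro v
      rw [eval_map]; exact hcase v
    · rw [← Nat.card_eq_fintype_card]
      exact natDegree_map_le.trans_lt hcon

end small

end Pool.Agent.H38R2
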