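import Pool.Agent.H38R2.Monic
import Pool.Agent.H38R2.Small

set_option autoImplicit false
set_option linter.style.haveILetI false

namespace Pool.Agent.H38R2

variable {Φ : Type*} [CommRing Φ] {Q : Type*} [Ring Q] [Algebra Φ Q]

theorem ev_map {Q' : Type*} [Ring Q'] [Algebra Φ Q'] {X : Type*} (F : Q →ₐ[Φ] Q') (v : X → Q)
    (f : NP Φ X) : F (ev v f) = ev (fun x => F (v x)) f := by
  rw [ev_apply, ev_apply, Finsupp.sum, Finsupp.sum, map_sum]
  refine Finset.sum_congr rfl fun w _ => ?_
  rw [map_smul, map_list_prod, List.map_map]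
  rfl

theorem ev_comp {X Y : Type*} (v : Y → Q) (s : X → NP Φ Y) (f : NP Φ X) :
    ev v (ev s f) = ev (fun x => ev v (s x)) f := ev_map (ev v) s f

/-- a letter -/
noncomputable def lt (Φ : Type*) [CommRing Φ] {X : Type*} (x : X) : NP Φ X :=
  MonoidAlgebra.single (FreeMonoid.of x) 1

theorem ev_lt {X : Type*} (v : X → Q) (x : X) : ev v (lt Φ x) = v x := by
  rw [lt, ev_single, one_smul]
  simp

/-- identities of `A` -/
def TI (A : Submodule Φ Q) (X : Type*) : Set (NP Φ X) :=
  {R | ∀ v : X → Q, (∀ x, v x ∈ A) → ev v R = 0}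

theorem TI_subst {A : Submodule Φ Q} {X Y : Type*} {R : NP Φ X} (hR : R ∈ TI A X)
    (s : X → NP Φ Y) (hs : ∀ (v : Y → Q), (∀ y, v y ∈ A) → ∀ x, ev v (s x) ∈ A) :
    ev s R ∈ TI A Y := by
  intro v hv
  rw [ev_comp]
  exact hR _ (hs v hv)

/-- the algebra map `Psi` is an entry of -/
theorem Psi_subst {X : Type*} (s : X → NP Φ (Fin 3)) (R : NP Φ X) :
    Psi (ev s R) = (ev (fun x => ev XM (s x)) R : Matrix (Fin 3) (Fin 3) _) 0 2 := by
  rw [Psi, ev_comp]

open MvPolynomial in
/-- the ideal of the `Psi R` -/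
noncomputable def PPid (A : Submodule Φ Q) (hA : ∀ a ∈ A, ∀ q : Q, a * q ∈ A) :
    Ideal (MvPolynomial (Fin 3) Φ) where
  carrier := {G | ∃ R ∈ TI A (Fin 3), Psi R = G}
  add_mem' := by
    rintro _ _ ⟨R, hR, rfl⟩ ⟨R', hR', rfl⟩
    refine ⟨R + R', fun v hv => by rw [map_add, hR v hv, hR' v hv, add_zero], ?_⟩
    rw [Psi, map_add]; rfl
  zero_mem' := ⟨0, fun v _ => by rw [map_zero], by rw [Psi, map_zero]; rfl⟩
  smul_mem' := by
    intro H G hG
    rw [smul_eq_mul]
    induction H using MvPolynomial.induction_on with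
    | C a =>
      obtain ⟨R, hR, rfl⟩ := hG
      refine ⟨a • R, fun v hv => by rw [map_smul, hR v hv, smul_zero], ?_⟩
      rw [Psi, map_smul, Matrix.smul_apply, MvPolynomial.smul_eq_C_mul]; rfl
    | add p q hp hq =>
      obtain ⟨R, hR, hR1⟩ := hp
      obtain ⟨R', hR', hR1'⟩ := hq
      refine ⟨R + R', fun v hv => by rw [map_add, hR v hv, hR' v hv, add_zero], ?_⟩
      rw [add_mul, ← hR1, ← hR1', Psi, map_add]; rfl
    | mul_X p i hp =>
      obtain ⟨R, hR, hR1⟩ := hp
      rw [mul_right_comm, ← hR1]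
      rcases fin3_cases i with rfl | rfl | rfl
      · -- multiplication by `μ`
        refine ⟨ev ![lt Φ 0 * lt Φ 1, lt Φ 1, lt Φ 2] R, TI_subst hR _ ?_, ?_⟩
        · intro v hv x
          rcases fin3_cases x with rfl | rfl | rfl
          · change ev v (lt Φ 0 * lt Φ 1) ∈ A
            rw [map_mul, ev_lt, ev_lt]; exact hA _ (hv 0) _
          · change ev v (lt Φ 1) ∈ A
            rw [ev_lt]; exact hv 1
          · change ev v (lt Φ 2) ∈ A
            rw [ev_lt]; exact hv 2
        · rw [Psi_subst]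
          set P : Matrix (Fin 3) (Fin 3) (MvPolynomial (Fin 3) Φ) :=
            Matrix.diagonal ![X 0, 1, 1] with hP
          have hint : ∀ x : Fin 3, P * XM x =
              (ev XM ((![lt Φ 0 * lt Φ 1, lt Φ 1, lt Φ 2] : Fin 3 → NP Φ (Fin 3)) x)) * P := by
            intro x
            rcases fin3_cases x with rfl | rfl | rfl
            · change P * XM 0 = (ev XM (lt Φ 0 * lt Φ 1)) * P
              rw [map_mul, ev_lt, ev_lt]
              ext i j
              fin_cases i <;> fin_cases j <;>
                simp [hP, XM, Matrix.mul_apply, Matrix.single, Matrix.diagonal]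
            · change P * XM 1 = (ev XM (lt Φ 1)) * P
              rw [ev_lt]
              ext i j
              fin_cases i <;> fin_cases j <;>
                simp [hP, XM, Matrix.mul_apply, Matrix.diagonal, mul_comm]
            · change P * XM 2 = (ev XM (lt Φ 2)) * P
              rw [ev_lt]
              ext i j
              fin_cases i <;> fin_cases j <;>
                simp [hP, XM, Matrix.mul_apply, Matrix.single, Matrix.diagonal]
          have hint2 : ∀ R : NP Φ (Fin 3), P * ev XM R =
              ev (fun x => ev XM ((![lt Φ 0 * lt Φ 1, lt Φ 1, lt Φ 2] :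
                Fin 3 → NP Φ (Fin 3)) x)) R * P := by
            intro R
            rw [ev_apply, ev_apply, Finsupp.sum, Finsupp.sum, Finset.mul_sum, Finset.sum_mul]
            refine Finset.sum_congr rfl fun w _ => ?_
            rw [mul_smul_comm, smul_mul_assoc]
            congr 1
            generalize w.toList = l
            induction l with
            | nil => simp
            | cons a l ih =>
              rw [List.map_cons, List.prod_cons, List.map_cons, List.prod_cons, ← mul_assoc,
                hint, mul_assoc, ih, mul_assoc]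
          have h3 := congrFun (congrFun (hint2 R) 0) 2
          rw [hP, Matrix.diagonal_mul, Matrix.mul_diagonal] at h3
          simp only [Matrix.cons_val_zero, Matrix.cons_val, mul_one] at h3
          rw [← h3, Psi, mul_comm]
      · refine ⟨lt Φ 1 * R, fun v hv => by rw [map_mul, hR v hv, mul_zero], ?_⟩
        rw [Psi, map_mul, ev_lt]
        simp only [XM, Matrix.cons_val_one, Matrix.cons_val_zero, Matrix.diagonal_mul]
        rw [Psi, mul_comm]; rfl
      · refine ⟨R * lt Φ 1, fun v hv => by rw [map_mul, hR v hv, zero_mul], ?_⟩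
        rw [Psi, map_mul, ev_lt]
        simp only [XM, Matrix.cons_val_one, Matrix.cons_val_zero, Matrix.mul_diagonal]
        rfl

theorem mem_PPid {A : Submodule Φ Q} {hA : ∀ a ∈ A, ∀ q : Q, a * q ∈ A}
    {G : MvPolynomial (Fin 3) Φ} : G ∈ PPid A hA ↔ ∃ R ∈ TI A (Fin 3), Psi R = G := Iff.rfl

theorem theta_mem {A : Submodule Φ Q} {hA : ∀ a ∈ A, ∀ q : Q, a * q ∈ A}
    (G : MvPolynomial (Fin 3) Φ) (hG : G ∈ PPid A hA) (g : Polynomial Φ) :
    theta g G ∈ PPid A hA := by
  obtain ⟨R, hR, rfl⟩ := hG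
  refine ⟨ev ![lt Φ 0, Polynomial.aeval (lt Φ 1 : NP Φ (Fin 3)) (Polynomial.X * g), lt Φ 2] R,
    TI_subst hR _ ?_, ?_⟩
  · intro v hv x
    rcases fin3_cases x with rfl | rfl | rfl
    · change ev v (lt Φ 0) ∈ A
      rw [ev_lt]; exact hv 0
    · change ev v (Polynomial.aeval (lt Φ 1 : NP Φ (Fin 3)) (Polynomial.X * g)) ∈ A
      rw [← Polynomial.aeval_algHom_apply, ev_lt, map_mul, Polynomial.aeval_X]
      exact hA _ (hv 1) _
    · change ev v (lt Φ 2) ∈ A
      rw [ev_lt]; exact hv 2
  · rw [Psi_subst]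
    have h1 : theta g (Psi R) = ((theta g).mapMatrix (ev XM R)) 0 2 := rfl
    rw [h1, ev_map]
    refine congrFun (congrFun (congrArg (fun v : Fin 3 → Matrix (Fin 3) (Fin 3)
      (MvPolynomial (Fin 3) Φ) => (ev v R : Matrix (Fin 3) (Fin 3) (MvPolynomial (Fin 3) Φ)))
      ?_) 0) 2
    funext x
    rcases fin3_cases x with rfl | rfl | rfl
    · change ev XM (lt Φ 0) = (theta g).mapMatrix (XM 0)
      rw [ev_lt]
      ext i j
      fin_cases i <;> fin_cases j <;> simp [XM, Matrix.single]
    · change ev XM (Polynomial.aeval (lt Φ 1 : NP Φ (Fin 3)) (Polynomial.X * g)) =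
        (theta g).mapMatrix (XM 1)
      rw [← Polynomial.aeval_algHom_apply, ev_lt]
      have h2 : ∀ (D : Fin 3 → MvPolynomial (Fin 3) Φ) (p : Polynomial Φ),
          Polynomial.aeval (Matrix.diagonal D) p =
            Matrix.diagonal (fun i => Polynomial.aeval (D i) p) := by
        intro D p
        have h3 := Polynomial.aeval_algHom_apply (Matrix.diagonalAlgHom (n := Fin 3)
          (α := MvPolynomial (Fin 3) Φ) Φ) D p
        rw [Matrix.diagonalAlgHom_apply] at h3
        rw [h3, Matrix.diagonalAlgHom_apply]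
        congr 1
        funext i
        exact (Polynomial.aeval_algHom_apply (Pi.evalAlgHom Φ (fun _ : Fin 3 =>
          MvPolynomial (Fin 3) Φ) i) D p).symm
      change Polynomial.aeval (Matrix.diagonal _) _ = (theta g).mapMatrix (Matrix.diagonal _)
      rw [h2, AlgHom.mapMatrix_apply, Matrix.diagonal_map (map_zero _)]
      congr 1
      funext i
      fin_cases i <;> simp [theta]
    · change ev XM (lt Φ 2) = (theta g).mapMatrix (XM 2)
      rw [ev_lt]
      ext i j
      fin_cases i <;> fin_cases j <;> simp [XM, Matrix.single]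

/-- the coefficients of the powers of `μ` -/
theorem g0_coeff (G : MvPolynomial (Fin 3) Φ) (b : ℕ) :
    (g0 G).coeff b = G.coeff (Finsupp.single 0 b) := by
  classical
  induction G using MvPolynomial.induction_on' with
  | monomial m c =>
    rw [g0_monomial, MvPolynomial.coeff_monomial, Polynomial.coeff_C_mul]
    by_cases h1 : m 1 = 0
    · by_cases h2 : m 2 = 0
      · rw [h1, h2, pow_zero, mul_one, mul_one, Polynomial.coeff_X_pow]
        by_cases hb : b = m 0
        · have hm : m = Finsupp.single 0 b := by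
            ext i
            rcases fin3_cases i with rfl | rfl | rfl <;> simp [h1, h2, hb]
          rw [if_pos hb, if_pos hm, mul_one]
        · have hm : m ≠ Finsupp.single 0 b := by
            rintro rfl
            simp at hb
          rw [if_neg hb, if_neg hm, mul_zero]
      · have hm : m ≠ Finsupp.single 0 b := by
          rintro rfl
          simp at h2
        rw [if_neg hm, zero_pow h2, mul_zero, mul_zero, Polynomial.coeff_zero, mul_zero]
    · have hm : m ≠ Finsupp.single 0 b := by
        rintro rfl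
        simp at h1
      rw [if_neg hm, zero_pow h1, zero_mul, mul_zero, Polynomial.coeff_zero, mul_zero]
  | add p q hp hq =>
    rw [g0_add, Polynomial.coeff_add, MvPolynomial.coeff_add, hp, hq]

/-- `g0` as an algebra map -/
noncomputable def ga (Φ : Type*) [CommRing Φ] : MvPolynomial (Fin 3) Φ →ₐ[Φ] Polynomial Φ :=
  MvPolynomial.aeval ![Polynomial.X, 0, 0]

theorem ga_eq (G : MvPolynomial (Fin 3) Φ) : ga Φ G = g0 G := by
  induction G using MvPolynomial.induction_on' with
  | monomial m c =>
    rw [g0_monomial, ga, MvPolynomial.aeval_monomial, Finsupp.prod_fintype _ _ (by simp),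
      Fin.prod_univ_three]
    simp only [Matrix.cons_val_zero, Matrix.cons_val_one, Matrix.cons_val]
    rw [mul_assoc]
    rfl
  | add p q hp hq => rw [map_add, g0_add, hp, hq]

/-- words beginning with `i`, ending with `j` and having middle part `m` -/
def Ends (i j : ℕ) (m : Multiset ℕ) (l : List ℕ) : Prop :=
  ∃ q : List ℕ, l = i :: (q ++ [j]) ∧ (q : Multiset ℕ) = m

section sig
variable (i j : ℕ) (e : ℕ → ℕ)

/-- the matrices -/
noncomputable def NN (Φ : Type*) [CommRing Φ] (i j : ℕ) (e : ℕ → ℕ) (k : ℕ) :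
    Matrix (Fin 3) (Fin 3) (Polynomial Φ) :=
  Matrix.diagonal ![0, Polynomial.X ^ e k, 0] + (if k = i then Matrix.single 0 1 1 else 0) +
    (if k = j then Matrix.single 1 2 1 else 0)

theorem NN_02 (k : ℕ) (M : Matrix (Fin 3) (Fin 3) (Polynomial Φ)) :
    (NN Φ i j e k * M) 0 2 = if k = i then M 1 2 else 0 := by
  unfold NN
  split_ifs <;> simp [add_mul, Matrix.single_mul_apply_of_ne]

theorem NN_12 (k : ℕ) (M : Matrix (Fin 3) (Fin 3) (Polynomial Φ)) :
    (NN Φ i j e k * M) 1 2 = Polynomial.X ^ e k * M 1 2 + if k = j then M 2 2 else 0 := by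
  unfold NN
  split_ifs <;> simp [add_mul, Matrix.single_mul_apply_of_ne]

theorem NN_22 (k : ℕ) (M : Matrix (Fin 3) (Fin 3) (Polynomial Φ)) :
    (NN Φ i j e k * M) 2 2 = 0 := by
  unfold NN
  split_ifs <;> simp [add_mul, Matrix.single_mul_apply_of_ne]

theorem NN_word22 (w : List ℕ) : ((w.map (NN Φ i j e)).prod) 2 2 = if w = [] then 1 else 0 := by
  cases w with
  | nil => simp
  | cons k w =>
    rw [List.map_cons, List.prod_cons, NN_22, if_neg (List.cons_ne_nil _ _)]

theorem NN_word12 (w : List ℕ) :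
    (∀ q, w = q ++ [j] → ((w.map (NN Φ i j e)).prod) 1 2 = Polynomial.X ^ (q.map e).sum) ∧
    ((∀ q, w ≠ q ++ [j]) → ((w.map (NN Φ i j e)).prod) 1 2 = 0) := by
  induction w with
  | nil =>
    refine ⟨fun q hq => ?_, fun _ => by simp⟩
    have := congrArg List.length hq
    simp at this
  | cons k w ih =>
    rw [List.map_cons, List.prod_cons, NN_12, NN_word22]
    constructor
    · intro q hq
      cases q with
      | nil =>
        rw [List.nil_append, List.cons.injEq] at hq
        obtain ⟨rfl, rfl⟩ := hq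
        simp
      | cons k' q =>
        rw [List.cons_append, List.cons.injEq] at hq
        obtain ⟨rfl, hq⟩ := hq
        have hw : w ≠ [] := by rw [hq]; simp
        rw [ih.1 q hq, if_neg hw, List.map_cons, List.sum_cons, pow_add]
        simp
    · intro hq
      have h1 : ∀ q, w ≠ q ++ [j] := by
        intro q h
        exact hq (k :: q) (by rw [h, List.cons_append])
      rw [ih.2 h1, mul_zero, zero_add]
      by_cases hk : k = j
      · rw [if_pos hk, if_neg]
        rintro rfl
        exact hq [] (by rw [hk]; rfl)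
      · rw [if_neg hk]

open Classical in
theorem NN_word02 (m : Multiset ℕ) (b : ℕ) (hb : (m.map e).sum = b) (w : List ℕ)
    (hsep : ∀ q : List ℕ, w = i :: (q ++ [j]) → (q.map e).sum = b → (q : Multiset ℕ) = m) :
    (((w.map (NN Φ i j e)).prod) 0 2).coeff b = if Ends i j m w then 1 else 0 := by
  by_cases hE : Ends i j m w
  · rw [if_pos hE]
    obtain ⟨q, rfl, hq⟩ := hE
    rw [List.map_cons, List.prod_cons, NN_02, if_pos rfl, (NN_word12 i j e (q ++ [j])).1 q rfl]
    have : (q.map e).sum = b := by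
      rw [← hb, ← hq, Multiset.map_coe, Multiset.sum_coe]
    rw [this, Polynomial.coeff_X_pow, if_pos rfl]
  · rw [if_neg hE]
    cases w with
    | nil => simp
    | cons k w =>
      rw [List.map_cons, List.prod_cons, NN_02]
      by_cases hk : k = i
      · rw [if_pos hk]
        by_cases hw : ∃ q, w = q ++ [j]
        · obtain ⟨q, hq⟩ := hw
          rw [(NN_word12 i j e w).1 q hq, Polynomial.coeff_X_pow, if_neg]
          intro hb'
          apply hE
          exact ⟨q, by rw [hk, hq], hsep q (by rw [hk, hq]) hb'.symm⟩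
        · push Not at hw
          rw [(NN_word12 i j e w).2 hw, Polynomial.coeff_zero]
      · rw [if_neg hk, Polynomial.coeff_zero]

/-- the substitution -/
noncomputable def subE (Φ : Type*) [CommRing Φ] (i j : ℕ) (e : ℕ → ℕ) (k : ℕ) : NP Φ (Fin 3) :=
  (lt Φ 1) ^ e k + (if k = i then lt Φ 0 else 0) + (if k = j then lt Φ 2 else 0)

theorem subE_NN (he : ∀ k, e k ≠ 0) (k : ℕ) :
    (ga Φ).mapMatrix (ev XM (subE Φ i j e k)) = NN Φ i j e k := by
  unfold subE NN
  have h0 : (ga Φ).mapMatrix (XM 0) = Matrix.single 0 1 1 := by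
    ext a b
    fin_cases a <;> fin_cases b <;> simp [XM, Matrix.single]
  have h2 : (ga Φ).mapMatrix (XM 2) = Matrix.single 1 2 1 := by
    ext a b
    fin_cases a <;> fin_cases b <;> simp [XM, Matrix.single]
  have h1 : (ga Φ).mapMatrix (XM 1) = Matrix.diagonal ![0, Polynomial.X, 0] := by
    ext a b
    fin_cases a <;> fin_cases b <;> simp [XM, ga]
  rw [map_add, map_add, map_add, map_add, map_pow, map_pow, ev_lt, h1, Matrix.diagonal_pow]
  congr 1
  · congr 1
    · congr 1
      funext a
      rcases fin3_cases a with rfl | rfl | rfl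
      · simp [he k]
      · simp
      · simp [he k]
    · split_ifs
      · rw [ev_lt, h0]
      · rw [map_zero, map_zero]
  · split_ifs
    · rw [ev_lt, h2]
    · rw [map_zero, map_zero]

theorem subE_mem {A : Submodule Φ Q} (hA : ∀ a ∈ A, ∀ q : Q, a * q ∈ A) (he : ∀ k, e k ≠ 0)
    (v : Fin 3 → Q) (hv : ∀ y, v y ∈ A) (k : ℕ) : ev v (subE Φ i j e k) ∈ A := by
  unfold subE
  rw [map_add, map_add, map_pow, ev_lt]
  refine A.add_mem (A.add_mem ?_ ?_) ?_
  · obtain ⟨n, hn⟩ := Nat.exists_eq_succ_of_ne_zero (he k)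
    rw [hn, pow_succ']
    exact hA _ (hv 1) _
  · split_ifs
    · rw [ev_lt]; exact hv 0
    · rw [map_zero]; exact A.zero_mem
  · split_ifs
    · rw [ev_lt]; exact hv 2
    · rw [map_zero]; exact A.zero_mem

open Classical in
/-- signature coefficient of a noncommutative polynomial -/
noncomputable def sgn (i j : ℕ) (m : Multiset ℕ) (f : NP Φ ℕ) : Φ :=
  f.coeff.sum fun w c => if Ends i j m w.toList then c else 0

theorem sgn_mem {A : Submodule Φ Q} {hA : ∀ a ∈ A, ∀ q : Q, a * q ∈ A} (f : NP Φ ℕ)
    (hf : f ∈ TI A ℕ) (m : Multiset ℕ) (e : ℕ → ℕ) (he : ∀ k, e k ≠ 0)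
    (hsep : ∀ w ∈ f.coeff.support, ∀ q : List ℕ, w.toList = i :: (q ++ [j]) →
      (q.map e).sum = (m.map e).sum → (q : Multiset ℕ) = m) :
    ∃ G ∈ PPid A hA, ∃ b : ℕ, G.coeff (Finsupp.single 0 b) = sgn i j m f := by
  classical
  refine ⟨Psi (ev (subE Φ i j e) f), ⟨_, TI_subst hf _ (subE_mem i j e hA he), rfl⟩,
    (m.map e).sum, ?_⟩
  rw [← g0_coeff, ← ga_eq, Psi_subst]
  have h1 : ga Φ ((ev (fun x => ev XM (subE Φ i j e x)) f : Matrix (Fin 3) (Fin 3) _) 0 2) =
      ((ga Φ).mapMatrix (ev (fun x => ev XM (subE Φ i j e x)) f)) 0 2 := rfl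
  rw [h1, ev_map]
  have h2 : (fun x => (ga Φ).mapMatrix (ev XM (subE Φ i j e x))) = NN Φ i j e :=
    funext (subE_NN i j e he)
  rw [h2, ev_apply, sgn, Finsupp.sum, Finsupp.sum, Matrix.sum_apply, Polynomial.finsetSum_coeff]
  refine Finset.sum_congr rfl fun w hw => ?_
  rw [Matrix.smul_apply, Polynomial.coeff_smul, NN_word02 i j e m _ rfl _ (hsep w hw)]
  split_ifs
  · rw [smul_eq_mul, mul_one]
  · rw [smul_zero]

end sig

end Pool.Agent.H38R2
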